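import Pool.Agent.P.MP_e1a373_ag.B.Defs

/-!
Auxiliary notions used in the computation of the conformal blocks.
-/

open scoped TensorProduct Classical

noncomputable section

namespace Pool.Agent.P.MP_e1a373_ag.B

/-- The series has no terms of degree less than `N`. -/
def Reg (N : ℤ) (u : L) : Prop := ∀ n < N, u.coeff n = 0

/-- The residue of `w du`. -/
def rs (u w : L) : ℂ := (w * LaurentSeries.derivative ℂ u).coeff (-1)

/-- The invariant form. -/
def tr (X Y : G) : ℂ := (X.1 * Y.1).trace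

theorem coc_eq (X : G) (u : L) (Y : G) (w : L) : coc X u Y w = tr X Y * rs u w := rfl

/-- The local coordinate. -/
def xi : L := HahnSeries.single 1 1

/-- The inverse of the local coordinate. -/
def xin : L := HahnSeries.single (-1) 1

/-- Polynomials in the inverse of the local coordinate. -/
def pz : Polynomial ℂ →+* L := Polynomial.eval₂RingHom HahnSeries.C xin

/-- A representation of the affine Lie algebra of level `l`. -/
def IsRep (l : ℕ) {N : Type} [AddCommGroup N] [Module ℂ N]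
    (ρ : G →ₗ[ℂ] L →ₗ[ℂ] Module.End ℂ N) : Prop :=
  ∀ X u Y w, ρ X u * ρ Y w - ρ Y w * ρ X u = ρ ⁅X, Y⁆ (u * w) + (l * coc X u Y w) • 1

/-- A highest weight vector of weight `a`. -/
structure IsHW (a : ℕ) {N : Type} [AddCommGroup N] [Module ℂ N]
    (ρ : G →ₗ[ℂ] L →ₗ[ℂ] Module.End ℂ N) (v : N) : Prop where
  pos : ∀ X u, Reg 1 u → ρ X u v = 0
  e : ρ e 1 v = 0
  h : ρ h 1 v = (a : ℂ) • v

/-- The action of the currents on the integrable module. -/
def act (l a : ℕ) : G →ₗ[ℂ] L →ₗ[ℂ] Module.End ℂ (H l a) :=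
  TensorProduct.curry ((Algebra.lsmul ℂ ℂ (H l a)).toLinearMap ∘ₗ TensorAlgebra.ι ℂ)

theorem act_apply (l a : ℕ) (X : G) (u : L) (m : H l a) : act l a X u m = cur X u • m := rfl

/-- The basis vectors of the finite dimensional part. -/
def fv (l a k : ℕ) : H l a := (act l a f 1 ^ k) (vac l a)

section Seq

variable {I : Type} [Fintype I]

/-- The transpose of the action of `e` in the factor `i`. -/
def eS (lam : I → ℕ) (i : I) : Module.End ℂ ((I → ℕ) → ℂ) where
  toFun c k := (k i : ℂ) * ((lam i : ℂ) + 1 - k i) * c (Function.update k i (k i - 1))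
  map_add' c c' := by
    funext k
    simp [mul_add]
  map_smul' a c := by
    funext k
    simp [mul_left_comm]

/-- The transpose of the action of `f` in the factor `i`. -/
def fS (i : I) : Module.End ℂ ((I → ℕ) → ℂ) where
  toFun c k := c (Function.update k i (k i + 1))
  map_add' _ _ := rfl
  map_smul' _ _ := rfl

/-- Invariant forms that are killed by the operators of the position functions in `P`. -/
def Blk (l : ℕ) (lam : I → ℕ) (P : Set (I → ℂ)) : Submodule ℂ ((I → ℕ) → ℂ) where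
  carrier := {c | (∀ k, (∃ i, lam i < k i) → c k = 0) ∧ (∑ i, eS lam i) c = 0 ∧
    (∑ i, fS i) c = 0 ∧ ∀ x ∈ P, ((∑ i, x i • eS lam i) ^ (l + 1)) c = 0}
  zero_mem' := ⟨fun _ _ => rfl, map_zero _, map_zero _, fun _ _ => map_zero _⟩
  add_mem' := by
    rintro a b ⟨a1, a2, a3, a4⟩ ⟨b1, b2, b3, b4⟩
    exact ⟨fun k hk => by simp [a1 k hk, b1 k hk], by rw [map_add, a2, b2, add_zero],
      by rw [map_add, a3, b3, add_zero], fun x hx => by rw [map_add, a4 x hx, b4 x hx, add_zero]⟩
  smul_mem' := by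
    rintro r a ⟨a1, a2, a3, a4⟩
    exact ⟨fun k hk => by simp [a1 k hk], by rw [map_smul, a2, smul_zero],
      by rw [map_smul, a3, smul_zero], fun x hx => by rw [map_smul, a4 x hx, smul_zero]⟩

/-- The derivative in the direction `x`. -/
def Dx (x : I → ℂ) : Module.End ℂ (MvPolynomial I ℂ) :=
  ∑ i, x i • (MvPolynomial.pderiv i).toLinearMap

/-- The action of `f` in the variable `i` on polynomials of degree at most `a`. -/
def Fi (a : ℕ) (i : I) : Module.End ℂ (MvPolynomial I ℂ) :=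
  (a : ℂ) • LinearMap.mulLeft ℂ (MvPolynomial.X i) -
    LinearMap.mulLeft ℂ (MvPolynomial.X i ^ 2) * (MvPolynomial.pderiv i).toLinearMap

/-- The polynomial model of `Blk`. -/
def PB (l : ℕ) (lam : I → ℕ) (P : Set (I → ℂ)) : Submodule ℂ (MvPolynomial I ℂ) where
  carrier := {F | (∀ i, F.degreeOf i ≤ lam i) ∧ Dx 1 F = 0 ∧ (∑ i, Fi (lam i) i) F = 0 ∧
    ∀ x ∈ P, (Dx x ^ (l + 1)) F = 0}
  zero_mem' := ⟨fun _ => by simp, map_zero _, map_zero _, fun _ _ => map_zero _⟩
  add_mem' := by
    rintro a b ⟨a1, a2, a3, a4⟩ ⟨b1, b2, b3, b4⟩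
    exact ⟨fun i => (MvPolynomial.degreeOf_add_le i a b).trans (max_le (a1 i) (b1 i)),
      by rw [map_add, a2, b2, add_zero], by rw [map_add, a3, b3, add_zero],
      fun x hx => by rw [map_add, a4 x hx, b4 x hx, add_zero]⟩
  smul_mem' := by
    rintro r a ⟨a1, a2, a3, a4⟩
    refine ⟨fun i => ?_, by rw [map_smul, a2, smul_zero], by rw [map_smul, a3, smul_zero],
      fun x hx => by rw [map_smul, a4 x hx, smul_zero]⟩
    rw [MvPolynomial.smul_eq_C_mul]
    exact (MvPolynomial.degreeOf_C_mul_le _ _ _).trans (a1 i)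

/-- The weights `lam` with `a` at `i` and `b` at `j`. -/
def wt (lam : I → ℕ) (i j : I) (a b : ℕ) : I → ℕ :=
  Function.update (Function.update lam i a) j b

/-- The restriction to the diagonal `y j = y i`. -/
def diag (i j : I) : MvPolynomial I ℂ →ₐ[ℂ] MvPolynomial I ℂ :=
  MvPolynomial.aeval fun k => if k = j then MvPolynomial.X i else MvPolynomial.X k

/-- The intertwiner from the weights c, b to the weights c - 1, b + 1. -/
def tau (i j : I) (c : ℕ) : Module.End ℂ (MvPolynomial I ℂ) :=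
  1 - (c : ℂ)⁻¹ • (LinearMap.mulLeft ℂ (MvPolynomial.X i - MvPolynomial.X j) *
    (MvPolynomial.pderiv i).toLinearMap)

/-- The polarisation from the weights a + b, 0 to the weights a, b. -/
def sig (i j : I) : ℕ → ℕ → Module.End ℂ (MvPolynomial I ℂ)
  | _, 0 => 1
  | a, b + 1 => tau i j (a + 1) * sig i j (a + 1) b

/-- Products of brackets, with their multidegree. -/
inductive Br : (I → ℕ) → MvPolynomial I ℂ → Prop
  | one : Br 0 1
  | mul {a : I → ℕ} {F : MvPolynomial I ℂ} (p q : I) (hpq : p ≠ q) (hF : Br a F) :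
      Br (a + Pi.single p 1 + Pi.single q 1) ((MvPolynomial.X p - MvPolynomial.X q) * F)

end Seq

/-- A homogeneous polynomial map of degree `d`. -/
def Homog {M : Type} [AddCommGroup M] [Module ℂ M] (d : ℕ) (ψ : ℂ → ℂ → M) : Prop :=
  ∃ c : ℕ → M, ∀ s t, ψ s t = ∑ i ∈ Finset.range (d + 1), (s ^ i * t ^ (d - i)) • c i

/-- The family of subspaces `B` has a homogeneous frame of total degree `d`. -/
def Framed {M : Type} [AddCommGroup M] [Module ℂ M] (B : ℂ → ℂ → Set (Submodule ℂ M)) (d : ℕ) :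
    Prop :=
  ∃ (ι : Type) (_ : Fintype ι) (deg : ι → ℕ) (ψ : ι → ℂ → ℂ → M), ∑ j, deg j = d ∧
    (∀ j, Homog (deg j) (ψ j)) ∧ ∀ s t : ℂ, (s, t) ≠ 0 →
      LinearIndependent ℂ (fun j => ψ j s t) ∧
        ∀ U ∈ B s t, U = Submodule.span ℂ (Set.range fun j => ψ j s t)

/-- The position functions of the spine over the point `[s : t]`. -/
def SpinePos (s t : ℂ) (Y : Set (Fin 4 → ℂ)) : Prop :=
  (∃ x, Function.Injective x ∧
    s * ((x 0 - x 2) * (x 3 - x 1)) = t * ((x 0 - x 1) * (x 2 - x 3)) ∧ Y = {x}) ∨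
  ∃ j : Fin 4, ![1, s, t, s + t] j = 0 ∧
    Y = {fun i => if i = 0 ∨ i = j then ((i : ℕ) : ℂ) + 1 else 0,
      fun i => if i = 0 ∨ i = j then 0 else ((i : ℕ) : ℂ) + 1}

/-- The family of spaces of blocks over the moduli space of four-pointed curves. -/
def Fam {I : Type} [Fintype I] (l : ℕ) (lam : I → ℕ) (P : Set (Fin 4 → ℂ) → Set (I → ℂ))
    (s t : ℂ) : Set (Submodule ℂ (MvPolynomial I ℂ)) :=
  {U | ∃ Y, SpinePos s t Y ∧ U = PB l lam (P Y)}

/-- The position function of the component of the chain that carries the marked point `i`. -/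
def tailPos {n : ℕ} (F : FCurve n) (i k : Fin n) : ℂ :=
  if k = i then 1 else if i < k ∧ F.1 i = F.1 k then 2 else 0

/-- All position functions of an F-curve, with the components of the chains below `m`. -/
def allPos {n : ℕ} (F : FCurve n) (m : ℕ) (Y : Set (Fin 4 → ℂ)) : Set (Fin n → ℂ) :=
  (fun y => y ∘ F.1) '' Y ∪ {x | ∃ i : Tail F, i.1.1 < m ∧ x = tailPos F i.1}

/-- The number in the definition of `cbDivisor`. -/
def cbNat {n : ℕ} (l : ℕ) (lam : Fin n → ℕ) (F : FCurve n) : ℕ :=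
  ∑ a ∈ Finset.range (l + 1), ∑ b ∈ Finset.range (l + 1), ∑ c ∈ Finset.range (l + 1),
    ∑ d ∈ Finset.range (l + 1), deg4 l a b c d *
      (rank l (block lam F 0) a * rank l (block lam F 1) b *
        rank l (block lam F 2) c * rank l (block lam F 3) d)

theorem cbDivisor_eq {n : ℕ} (l : ℕ) (lam : Fin n → ℕ) (F : FCurve n) :
    cbDivisor l lam F = (cbNat l lam F : ℝ) := rfl

/-- The dual graph of the curve is a tree: `br v w` is the point of the component `v` through
which the component `w` is reached. -/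
structure Tree {I : Type} (C : Curve I) where
  br : C.V → C.V → ℂ
  v0 : C.V
  inj : Function.Injective C.pt
  node : ∀ p q, C.node p q → p.1 ≠ q.1 ∧ br p.1 q.1 = p.2 ∧ br q.1 p.1 = q.2 ∧
    ∀ v, v ≠ p.1 → v ≠ q.1 → br v p.1 = br v q.1
  conn : ∀ φ : C.V → ℂ, (∀ p q, C.node p q → φ p.1 = φ q.1) → ∀ v, φ v = φ v0
  off : ∀ i w, w ≠ (C.pt i).1 → br (C.pt i).1 w ≠ (C.pt i).2

/-- The point of the component `v` through which the marked point `i` is reached. -/
def Tree.pos {I : Type} {C : Curve I} (τ : Tree C) (v : C.V) (i : I) : ℂ :=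
  if (C.pt i).1 = v then (C.pt i).2 else τ.br v (C.pt i).1

end Pool.Agent.P.MP_e1a373_ag.B
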