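import Pool.Agent.P.MP_e1a373_ag.B.Api

/-!
The Clebsch-Gordan maps in the polynomial model.
-/

open scoped TensorProduct Classical

noncomputable section

namespace Pool.Agent.P.MP_e1a373_ag.B

open MvPolynomial

variable {I : Type} [Fintype I] {l : ℕ} {lam : I → ℕ} {P : Set (I → ℂ)} {i j : I} {a b : ℕ}
  {F : MvPolynomial I ℂ}

/-- The derivative in the variable `k` as an operator. -/
abbrev CG_D (k : I) : Module.End ℂ (MvPolynomial I ℂ) := (pderiv k).toLinearMap

omit [Fintype I] in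
theorem CG_D_apply (k : I) (F : MvPolynomial I ℂ) : CG_D k F = pderiv k F := rfl

omit [Fintype I] in
theorem CG_coeff_pow (i : I) (n : ℕ) (F : MvPolynomial I ℂ) (m : I →₀ ℕ) :
    coeff m ((CG_D i ^ n) F) =
      coeff (m + Finsupp.single i n) F * ((m i + 1).ascFactorial n : ℕ) := by
  induction n generalizing F with
  | zero => simp
  | succ n ih =>
    rw [pow_succ, Module.End.mul_apply, ih, CG_D_apply, coeff_pderiv, add_assoc,
      ← Finsupp.single_add, Nat.ascFactorial_succ]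
    simp only [Finsupp.coe_add, Pi.add_apply, Finsupp.single_eq_same]
    push_cast
    ring

omit [Fintype I] in
theorem CG_deg (i : I) (F : MvPolynomial I ℂ) (a : ℕ) :
    F.degreeOf i ≤ a ↔ (CG_D i ^ (a + 1)) F = 0 := by
  rw [degreeOf_le_iff]
  constructor
  · intro H
    ext m
    rw [CG_coeff_pow, coeff_zero]
    have : coeff (m + Finsupp.single i (a + 1)) F = 0 := by
      by_contra h
      have := H _ (mem_support_iff.2 h)
      simp only [Finsupp.coe_add, Pi.add_apply, Finsupp.single_eq_same] at this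
      omega
    rw [this, zero_mul]
  · intro H m hm
    by_contra h
    have hle : Finsupp.single i (a + 1) ≤ m := Finsupp.single_le_iff.2 (by omega)
    have h1 := CG_coeff_pow i (a + 1) F (m - Finsupp.single i (a + 1))
    rw [H, coeff_zero, tsub_add_cancel_of_le hle] at h1
    rcases mul_eq_zero.1 h1.symm with h2 | h2
    · exact mem_support_iff.1 hm h2
    · exact (Nat.ascFactorial_pos _ _).ne' (Nat.cast_eq_zero.1 h2)

theorem degreeOf_le_iff_pderiv (i : I) (F : MvPolynomial I ℂ) (a : ℕ) :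
    F.degreeOf i ≤ a ↔ ((pderiv i).toLinearMap ^ (a + 1) : Module.End ℂ _) F = 0 :=
  CG_deg i F a

omit [Fintype I] in
theorem CG_comm (i j : I) (F : MvPolynomial I ℂ) :
    pderiv i (pderiv j F) = pderiv j (pderiv i F) := by
  by_cases h : i = j
  · rw [h]
  ext m
  simp only [coeff_pderiv, Finsupp.coe_add, Pi.add_apply, Finsupp.single_eq_of_ne h,
    Finsupp.single_eq_of_ne (Ne.symm h), add_zero]
  rw [add_right_comm]
  ring

omit [Fintype I] in
theorem CG_commute (i j : I) : Commute (CG_D i) (CG_D j) :=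
  LinearMap.ext fun F => CG_comm i j F

omit [Fintype I] in
theorem CG_swap {E E' : Module.End ℂ (MvPolynomial I ℂ)} (h : Commute E E') (n m : ℕ)
    (F : MvPolynomial I ℂ) : (E ^ n) ((E' ^ m) F) = (E' ^ m) ((E ^ n) F) :=
  LinearMap.congr_fun (h.pow_pow n m).eq F

omit [Fintype I] in
theorem CG_swap0 {E E' : Module.End ℂ (MvPolynomial I ℂ)} (h : Commute E E')
    (F : MvPolynomial I ℂ) : E (E' F) = E' (E F) :=
  LinearMap.congr_fun h.eq F

omit [Fintype I] in
theorem CG_swap1 {E E' : Module.End ℂ (MvPolynomial I ℂ)} (h : Commute E E') (n : ℕ)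
    (F : MvPolynomial I ℂ) : (E ^ n) (E' F) = E' ((E ^ n) F) :=
  LinearMap.congr_fun (h.pow_left n).eq F

omit [Fintype I] in
theorem CG_pow_mono {E : Module.End ℂ (MvPolynomial I ℂ)} {n m : ℕ} (h : (E ^ n) F = 0)
    (hnm : n ≤ m) : (E ^ m) F = 0 := by
  obtain ⟨d, rfl⟩ := Nat.exists_eq_add_of_le' hnm
  rw [pow_add, Module.End.mul_apply, h, map_zero]

omit [Fintype I] in
theorem CG_pow_mul {E : Module.End ℂ (MvPolynomial I ℂ)} {g : MvPolynomial I ℂ} {c : ℂ}
    (h : ∀ F, E (g * F) = g * E F + c • F) (n : ℕ) (F : MvPolynomial I ℂ) :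
    (E ^ (n + 1)) (g * F) = g * (E ^ (n + 1)) F + (((n : ℂ) + 1) * c) • (E ^ n) F := by
  induction n with
  | zero => simpa using h F
  | succ n ih =>
    rw [pow_succ' E (n + 1), Module.End.mul_apply, ih, map_add, h, map_smul,
      ← Module.End.mul_apply E (E ^ n), ← pow_succ', Module.End.mul_apply, add_assoc, ← add_smul]
    congr 2
    push_cast
    ring

omit [Fintype I] in
theorem CG_pow_mul0 {E : Module.End ℂ (MvPolynomial I ℂ)} {g : MvPolynomial I ℂ}
    (h : ∀ F, E (g * F) = g * E F) (n : ℕ) (F : MvPolynomial I ℂ) :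
    (E ^ n) (g * F) = g * (E ^ n) F := by
  induction n with
  | zero => rfl
  | succ n ih => rw [pow_succ', Module.End.mul_apply, ih, h, Module.End.mul_apply]

omit [Fintype I] in
theorem CG_pow_iff {E : Module.End ℂ (MvPolynomial I ℂ)} {g : MvPolynomial I ℂ} {c : ℂ}
    (h : ∀ F, E (g * F) = g * E F + c • F) (hc : c ≠ 0) (hn : ∃ n, (E ^ n) F = 0) (N : ℕ) :
    (E ^ (N + 1)) (g * F) = 0 ↔ (E ^ N) F = 0 := by
  constructor
  · intro H
    have key : ∀ d, (E ^ (N + d)) F = 0 → (E ^ N) F = 0 := by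
      intro d
      induction d with
      | zero => exact id
      | succ d ih =>
        intro H1
        have H2 : (E ^ (N + d + 1)) (g * F) = 0 := CG_pow_mono H (by omega)
        rw [CG_pow_mul h, add_assoc N d 1, H1, mul_zero, zero_add, smul_eq_zero] at H2
        exact ih (H2.resolve_left (mul_ne_zero (Nat.cast_add_one_ne_zero _) hc))
    obtain ⟨n, hn⟩ := hn
    exact key n (CG_pow_mono hn (by omega))
  · intro H
    rw [CG_pow_mul h, CG_pow_mono H (Nat.le_succ N), H, mul_zero, smul_zero, add_zero]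

omit [Fintype I] in
theorem CG_nil (k : I) (F : MvPolynomial I ℂ) : ∃ n, (CG_D k ^ n) F = 0 :=
  ⟨_, (CG_deg k F _).1 le_rfl⟩

omit [Fintype I] in
theorem CG_del_i (hij : i ≠ j) (F : MvPolynomial I ℂ) :
    CG_D i ((X i - X j) * F) = (X i - X j) * CG_D i F + (1 : ℂ) • F := by
  simp only [CG_D_apply, pderiv_mul, map_sub, pderiv_X_self, pderiv_X_of_ne hij.symm, one_smul]
  ring

omit [Fintype I] in
theorem CG_del_j (hij : i ≠ j) (F : MvPolynomial I ℂ) :
    CG_D j ((X i - X j) * F) = (X i - X j) * CG_D j F + (-1 : ℂ) • F := by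
  simp only [CG_D_apply, pderiv_mul, map_sub, pderiv_X_self, pderiv_X_of_ne hij, neg_smul,
    one_smul]
  ring

omit [Fintype I] in
theorem CG_del_k {k : I} (hi : k ≠ i) (hj : k ≠ j) (F : MvPolynomial I ℂ) :
    CG_D k ((X i - X j) * F) = (X i - X j) * CG_D k F := by
  simp only [CG_D_apply, pderiv_mul, map_sub, pderiv_X_of_ne hi.symm, pderiv_X_of_ne hj.symm]
  ring

theorem CG_Dx_X (x : I → ℂ) (k : I) (F : MvPolynomial I ℂ) :
    Dx x (X k * F) = X k * Dx x F + x k • F := by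
  simp only [Dx, LinearMap.sum_apply, LinearMap.smul_apply, CG_D_apply, pderiv_mul, smul_add,
    Finset.sum_add_distrib, Finset.mul_sum, mul_smul_comm]
  rw [add_comm, add_right_inj, Finset.sum_eq_single k
    (fun m _ hm => by rw [pderiv_X_of_ne hm.symm]; simp) (by simp), pderiv_X_self, one_mul]

theorem CG_Dx_C (x : I → ℂ) (c : ℂ) : Dx x (C c : MvPolynomial I ℂ) = 0 := by
  simp [Dx, LinearMap.sum_apply]

theorem CG_Dx_del {x : I → ℂ} (hx : x i = x j) (F : MvPolynomial I ℂ) :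
    Dx x ((X i - X j) * F) = (X i - X j) * Dx x F := by
  rw [sub_mul, map_sub, CG_Dx_X, CG_Dx_X, hx]
  ring

theorem CG_Dx_commute (x : I → ℂ) (k : I) : Commute (Dx x) (CG_D k) :=
  Commute.sum_left _ _ _ fun m _ => (CG_commute m k).smul_left _

omit [Fintype I] in
theorem CG_Fi_apply (a : ℕ) (k : I) (F : MvPolynomial I ℂ) :
    Fi a k F = (a : MvPolynomial I ℂ) * X k * F - X k ^ 2 * pderiv k F := by
  simp [Fi, smul_eq_C_mul, mul_assoc]

omit [Fintype I] in
theorem CG_tau_apply (i j : I) (c : ℕ) (F : MvPolynomial I ℂ) :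
    tau i j c F = F - C (c : ℂ)⁻¹ * ((X i - X j) * pderiv i F) := by
  simp [tau, smul_eq_C_mul]

omit [Fintype I] in
theorem CG_tau_apply' (i j : I) (c : ℕ) (F : MvPolynomial I ℂ) :
    tau i j c F = F - (c : ℂ)⁻¹ • ((X i - X j) * CG_D i F) := by
  rw [CG_tau_apply, smul_eq_C_mul, CG_D_apply]

omit [Fintype I] in
theorem CG_wt_i (hij : i ≠ j) : wt lam i j a b i = a := by simp [wt, hij]

omit [Fintype I] in
theorem CG_wt_j : wt lam i j a b j = b := by simp [wt]

omit [Fintype I] in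
theorem CG_wt_k {k : I} (hi : k ≠ i) (hj : k ≠ j) : wt lam i j a b k = lam k := by
  simp [wt, hi, hj]

/-- The remaining indices. -/
def CG_rest (i j : I) : Finset I := (Finset.univ.erase i).erase j

theorem CG_mem_rest {k : I} (h : k ∈ CG_rest i j) : k ≠ i ∧ k ≠ j := by
  simp only [CG_rest, Finset.mem_erase] at h
  exact ⟨h.2.1, h.1⟩

theorem CG_sum (hij : i ≠ j) (F : MvPolynomial I ℂ) :
    (∑ k, Fi (wt lam i j a b k) k) F =
      Fi a i F + Fi b j F + ∑ k ∈ CG_rest i j, Fi (lam k) k F := by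
  rw [LinearMap.sum_apply, ← Finset.add_sum_erase _ _ (Finset.mem_univ i),
    ← Finset.add_sum_erase _ _ (Finset.mem_erase.2 ⟨hij.symm, Finset.mem_univ j⟩), CG_wt_i hij,
    CG_wt_j, add_assoc]
  congr 2
  exact Finset.sum_congr rfl fun k hk => by rw [CG_wt_k (CG_mem_rest hk).1 (CG_mem_rest hk).2]

theorem CG_mem (hij : i ≠ j) : F ∈ PB l (wt lam i j a b) P ↔
    (CG_D i ^ (a + 1)) F = 0 ∧ (CG_D j ^ (b + 1)) F = 0 ∧
    (∀ k, k ≠ i → k ≠ j → (CG_D k ^ (lam k + 1)) F = 0) ∧ Dx 1 F = 0 ∧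
    Fi a i F + Fi b j F + ∑ k ∈ CG_rest i j, Fi (lam k) k F = 0 ∧
    ∀ x ∈ P, (Dx x ^ (l + 1)) F = 0 := by
  rw [← CG_sum hij]
  constructor
  · rintro ⟨h1, h2, h3, h4⟩
    refine ⟨?_, ?_, fun k hi hj => ?_, h2, h3, h4⟩
    · simpa only [CG_wt_i hij] using (CG_deg i F _).1 (h1 i)
    · simpa only [CG_wt_j] using (CG_deg j F _).1 (h1 j)
    · simpa only [CG_wt_k hi hj] using (CG_deg k F _).1 (h1 k)
  · rintro ⟨h1, h2, h3, h4, h5, h6⟩
    refine ⟨fun k => (CG_deg k F _).2 ?_, h4, h5, h6⟩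
    by_cases hi : k = i
    · rw [hi, CG_wt_i hij]; exact h1
    by_cases hj : k = j
    · rw [hj, CG_wt_j]; exact h2
    · rw [CG_wt_k hi hj]; exact h3 k hi hj

omit [Fintype I] in
theorem CG_tau_commute {E : Module.End ℂ (MvPolynomial I ℂ)} (c : ℕ)
    (h1 : ∀ F, E ((X i - X j) * F) = (X i - X j) * E F) (h2 : Commute E (CG_D i)) :
    Commute E (tau i j c) := LinearMap.ext fun F => by
  rw [Module.End.mul_apply, Module.End.mul_apply, CG_tau_apply', CG_tau_apply', map_sub, map_smul,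
    h1, CG_swap0 h2]

omit [Fintype I] in
theorem CG_Fi_del_k {k : I} (hi : k ≠ i) (hj : k ≠ j) (c : ℕ) (F : MvPolynomial I ℂ) :
    Fi c k ((X i - X j) * F) = (X i - X j) * Fi c k F := by
  have := CG_del_k hi hj F
  simp only [CG_D_apply] at this
  rw [CG_Fi_apply, CG_Fi_apply, this]
  ring

omit [Fintype I] in
theorem CG_Fi_commute {k : I} (hi : k ≠ i) (c : ℕ) : Commute (Fi c k) (CG_D i) :=
  LinearMap.ext fun F => by
    simp only [Module.End.mul_apply, CG_D_apply, CG_Fi_apply, map_sub, pderiv_mul, pderiv_pow,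
      pderiv_X_of_ne hi, Derivation.map_natCast, CG_comm i k]
    ring

omit [Fintype I] in
theorem CG_Fi_tau (hij : i ≠ j) (a b : ℕ) (F : MvPolynomial I ℂ) :
    Fi a i (tau i j (a + 1) F) + Fi (b + 1) j (tau i j (a + 1) F) =
      tau i j (a + 1) (Fi (a + 1) i F + Fi b j F) := by
  have hu : (C (((a + 1 : ℕ) : ℂ)⁻¹) : MvPolynomial I ℂ) * ((a : MvPolynomial I ℂ) + 1) = 1 := by
    rw [← Nat.cast_succ, ← map_natCast (C : ℂ →+* MvPolynomial I ℂ), ← map_mul,
      inv_mul_cancel₀ (Nat.cast_ne_zero.2 (Nat.succ_ne_zero a)), map_one]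
  simp only [CG_Fi_apply, CG_tau_apply, map_sub, map_add, pderiv_mul, pderiv_pow, pderiv_C,
    pderiv_X_self, pderiv_X_of_ne hij, pderiv_X_of_ne hij.symm, Derivation.map_natCast,
    CG_comm j i]
  generalize (C (((a + 1 : ℕ) : ℂ)⁻¹) : MvPolynomial I ℂ) = u at hu ⊢
  push_cast
  linear_combination ((X i - X j) * F) * hu

theorem tau_mem (hij : i ≠ j) (hP : ∀ x ∈ P, x i = x j) (hF : F ∈ PB l (wt lam i j (a + 1) b) P) :
    tau i j (a + 1) F ∈ PB l (wt lam i j a (b + 1)) P := by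
  obtain ⟨h1, h2, h3, h4, h5, h6⟩ := (CG_mem hij).1 hF
  have hD : ∀ x : I → ℂ, x i = x j → Commute (Dx x) (tau i j (a + 1)) := fun x hx =>
    CG_tau_commute _ (CG_Dx_del hx) (CG_Dx_commute x i)
  refine (CG_mem hij).2 ⟨?_, ?_, fun k hi hj => ?_, ?_, ?_, fun x hx => ?_⟩
  · rw [CG_tau_apply', map_sub, map_smul, CG_pow_mul (CG_del_i hij), ← Module.End.mul_apply,
      ← Module.End.mul_apply, ← pow_succ, ← pow_succ, h1, mul_zero, zero_add, smul_smul, mul_one,
      Nat.cast_succ, inv_mul_cancel₀ (Nat.cast_add_one_ne_zero a), one_smul, sub_self]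
  · rw [CG_tau_apply', map_sub, map_smul, CG_pow_mul (CG_del_j hij),
      CG_swap1 (CG_commute j i), CG_swap1 (CG_commute j i), h2, CG_pow_mono h2 (Nat.le_succ _)]
    simp
  · rw [CG_swap1 (CG_tau_commute _ (CG_del_k hi hj) (CG_commute k i)), h3 k hi hj, map_zero]
  · rw [CG_swap0 (hD 1 rfl), h4, map_zero]
  · have e1 : ∀ k ∈ CG_rest i j, Fi (lam k) k (tau i j (a + 1) F) =
        tau i j (a + 1) (Fi (lam k) k F) := fun k hk => CG_swap0
      (CG_tau_commute (a + 1) (CG_Fi_del_k (CG_mem_rest hk).1 (CG_mem_rest hk).2 (lam k))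
        (CG_Fi_commute (CG_mem_rest hk).1 (lam k))) F
    rw [CG_Fi_tau hij, Finset.sum_congr rfl e1, ← map_sum, ← map_add, h5, map_zero]
  · rw [CG_swap1 (hD x (hP x hx)), h6 x hx, map_zero]

theorem sig_mem (hij : i ≠ j) (hP : ∀ x ∈ P, x i = x j) (hF : F ∈ PB l (wt lam i j (a + b) 0) P) :
    sig i j a b F ∈ PB l (wt lam i j a b) P := by
  induction b generalizing a with
  | zero => exact hF
  | succ b ih =>
    rw [sig, Module.End.mul_apply]
    exact tau_mem hij hP (ih (a := a + 1) (by rwa [add_right_comm, add_assoc]))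

omit [Fintype I] in
theorem CG_diag_i (i j : I) : diag i j (X i) = X i := by simp [diag]

omit [Fintype I] in
theorem CG_diag_j (i j : I) : diag i j (X j) = X i := by simp [diag]

omit [Fintype I] in
theorem CG_diag_k {k : I} (i : I) (hj : k ≠ j) : diag i j (X k) = X k := by simp [diag, hj]

theorem diag_del (hij : i ≠ j) (F : MvPolynomial I ℂ) : diag i j ((X i - X j) * F) = 0 := by
  rw [map_mul, map_sub, CG_diag_i, CG_diag_j, sub_self, zero_mul]

theorem diag_sig (hij : i ≠ j) (a b : ℕ) (F : MvPolynomial I ℂ) :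
    diag i j (sig i j a b F) = diag i j F := by
  induction b generalizing a with
  | zero => rfl
  | succ b ih =>
    rw [sig, Module.End.mul_apply, CG_tau_apply', map_sub, map_smul, diag_del hij, smul_zero,
      sub_zero, ih]

omit [Fintype I] in
theorem CG_exists (i j : I) (F : MvPolynomial I ℂ) :
    ∃ Q, F = diag i j F + (X i - X j) * Q := by
  induction F using MvPolynomial.induction_on with
  | C c => exact ⟨0, by simp [diag]⟩
  | add p q hp hq =>
    obtain ⟨Q, hQ⟩ := hp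
    obtain ⟨R, hR⟩ := hq
    exact ⟨Q + R, by rw [map_add]; linear_combination hQ + hR⟩
  | mul_X p k hp =>
    obtain ⟨Q, hQ⟩ := hp
    by_cases hk : k = j
    · exact ⟨Q * X i - p, by rw [map_mul, hk, CG_diag_j]; linear_combination X i * hQ⟩
    · exact ⟨Q * X k, by rw [map_mul, CG_diag_k i hk]; linear_combination X k * hQ⟩

omit [Fintype I] in
theorem CG_D_diag_j (hij : i ≠ j) (F : MvPolynomial I ℂ) : pderiv j (diag i j F) = 0 := by
  induction F using MvPolynomial.induction_on with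
  | C c => simp [diag]
  | add p q hp hq => rw [map_add, map_add, hp, hq, add_zero]
  | mul_X p k hp =>
    rw [map_mul, pderiv_mul, hp]
    by_cases hk : k = j
    · rw [hk, CG_diag_j, pderiv_X_of_ne hij]; ring
    · rw [CG_diag_k i hk, pderiv_X_of_ne hk]; ring

omit [Fintype I] in
theorem CG_D_diag_k {k : I} (hi : k ≠ i) (hj : k ≠ j) (F : MvPolynomial I ℂ) :
    pderiv k (diag i j F) = diag i j (pderiv k F) := by
  induction F using MvPolynomial.induction_on with
  | C c => simp [diag]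
  | add p q hp hq => simp only [map_add, hp, hq]
  | mul_X p m hp =>
    simp only [map_mul, pderiv_mul, map_add, hp]
    suffices h : pderiv k (diag i j (X m)) = diag i j (pderiv k (X m)) by rw [h]
    by_cases hm : m = j
    · rw [hm, CG_diag_j, pderiv_X_of_ne hi.symm, pderiv_X_of_ne hj.symm, map_zero]
    · rw [CG_diag_k i hm]
      by_cases hk : m = k
      · rw [hk, pderiv_X_self, map_one]
      · rw [pderiv_X_of_ne hk, map_zero]

omit [Fintype I] in
theorem CG_D_diag_i (hij : i ≠ j) (F : MvPolynomial I ℂ) :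
    pderiv i (diag i j F) = diag i j (pderiv i F) + diag i j (pderiv j F) := by
  induction F using MvPolynomial.induction_on with
  | C c => simp [diag]
  | add p q hp hq => simp only [map_add, hp, hq]; ring
  | mul_X p m hp =>
    simp only [map_mul, pderiv_mul, map_add, hp]
    by_cases hm : m = j
    · simp only [hm, CG_diag_j, pderiv_X_self, pderiv_X_of_ne hij.symm, map_zero, map_one]
      ring
    · rw [CG_diag_k i hm, pderiv_X_of_ne hm]
      by_cases hk : m = i
      · simp only [hk, pderiv_X_self, map_one, map_zero]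
        ring
      · simp only [pderiv_X_of_ne hk, map_zero]
        ring

theorem CG_Dx_diag {x : I → ℂ} (hx : x i = x j) (F : MvPolynomial I ℂ) :
    Dx x (diag i j F) = diag i j (Dx x F) := by
  induction F using MvPolynomial.induction_on with
  | C c => rw [CG_Dx_C, map_zero, diag, algHom_C, algebraMap_eq, CG_Dx_C]
  | add p q hp hq => simp only [map_add, hp, hq]
  | mul_X p m hp =>
    rw [mul_comm p, CG_Dx_X, map_add, map_mul (diag i j), map_mul (diag i j), map_smul, ← hp]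
    by_cases hm : m = j
    · rw [hm, CG_diag_j, CG_Dx_X, hx]
    · rw [CG_diag_k i hm, CG_Dx_X]

omit [Fintype I] in
theorem CG_pow_diag {E E' : Module.End ℂ (MvPolynomial I ℂ)}
    (h : ∀ F, E (diag i j F) = diag i j (E' F)) (n : ℕ) (F : MvPolynomial I ℂ) :
    (E ^ n) (diag i j F) = diag i j ((E' ^ n) F) := by
  induction n with
  | zero => rfl
  | succ n ih => rw [pow_succ', pow_succ', Module.End.mul_apply, ih, h, Module.End.mul_apply]

omit [Fintype I] in
theorem CG_del_zero (hij : i ≠ j) {Q : MvPolynomial I ℂ}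
    (h : (CG_D i ^ (0 + 1)) ((X i - X j) * Q) = 0 ∨ (CG_D j ^ (0 + 1)) ((X i - X j) * Q) = 0) :
    Q = 0 := by
  rcases h with h | h
  · exact (CG_pow_iff (CG_del_i hij) one_ne_zero (CG_nil i Q) 0).1 h
  · exact (CG_pow_iff (CG_del_j hij) (neg_ne_zero.2 one_ne_zero) (CG_nil j Q) 0).1 h

theorem diag_eq_self (hij : i ≠ j) (hF : F.degreeOf j = 0) : diag i j F = F := by
  obtain ⟨Q, hQ⟩ := CG_exists i j F
  have h1 := (CG_deg j F 0).1 hF.le
  have h2 : (CG_D j ^ (0 + 1)) (diag i j F) = 0 := by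
    rw [zero_add, pow_one, CG_D_apply, CG_D_diag_j hij]
  rw [hQ, map_add, h2, zero_add] at h1
  rw [CG_del_zero hij (Or.inr h1), mul_zero, add_zero] at hQ
  exact hQ.symm

omit [Fintype I] in
theorem CG_binom (i j : I) (α β : ℂ) (N : ℕ) (F : MvPolynomial I ℂ) :
    ((α • CG_D i + β • CG_D j) ^ N) F = ∑ m ∈ Finset.range (N + 1),
      (α ^ m * β ^ (N - m) * (N.choose m : ℂ)) • (CG_D i ^ m) ((CG_D j ^ (N - m)) F) := by
  rw [(((CG_commute i j).smul_left α).smul_right β).add_pow, LinearMap.sum_apply]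
  refine Finset.sum_congr rfl fun m _ => ?_
  simp only [smul_pow, Module.End.mul_apply, LinearMap.smul_apply, Module.End.natCast_apply,
    map_smul, smul_smul, ← Nat.cast_smul_eq_nsmul ℂ]
  congr 1
  ring

omit [Fintype I] in
theorem CG_term (h1 : (CG_D i ^ (a + 1)) F = 0) (h2 : (CG_D j ^ (b + 1)) F = 0) {m n : ℕ}
    (h : a < m ∨ b < n) : (CG_D i ^ m) ((CG_D j ^ n) F) = 0 := by
  rcases h with h | h
  · rw [CG_swap (CG_commute i j), CG_pow_mono h1 h, map_zero]
  · rw [CG_pow_mono h2 h, map_zero]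

omit [Fintype I] in
theorem CG_binom_zero (α β : ℂ) (h1 : (CG_D i ^ (a + 1)) F = 0) (h2 : (CG_D j ^ (b + 1)) F = 0)
    {N : ℕ} (hN : a + b < N) : ((α • CG_D i + β • CG_D j) ^ N) F = 0 := by
  rw [CG_binom]
  exact Finset.sum_eq_zero fun m _ => by rw [CG_term h1 h2 (by omega), smul_zero]

omit [Fintype I] in
theorem CG_binom_top (α β : ℂ) (h1 : (CG_D i ^ (a + 1)) F = 0) (h2 : (CG_D j ^ (b + 1)) F = 0) :
    ((α • CG_D i + β • CG_D j) ^ (a + b)) F =
      (α ^ a * β ^ b * ((a + b).choose a : ℂ)) • (CG_D i ^ a) ((CG_D j ^ b) F) := by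
  rw [CG_binom, Finset.sum_eq_single a
    (fun m _ hm => by rw [CG_term h1 h2 (by omega), smul_zero]) (by simp),
    Nat.add_sub_cancel_left]

omit [Fintype I] in
theorem CG_pow_diag_i (hij : i ≠ j) (n : ℕ) (F : MvPolynomial I ℂ) :
    (CG_D i ^ n) (diag i j F) = diag i j ((((1 : ℂ) • CG_D i + (1 : ℂ) • CG_D j) ^ n) F) :=
  CG_pow_diag (fun F => by
    rw [one_smul, one_smul, LinearMap.add_apply, map_add]
    exact CG_D_diag_i hij F) n F

theorem diag_mem (hij : i ≠ j) (hP : ∀ x ∈ P, x i = x j) (hF : F ∈ PB l (wt lam i j a b) P) :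
    diag i j F ∈ PB l (wt lam i j (a + b) 0) P := by
  obtain ⟨h1, h2, h3, h4, h5, h6⟩ := (CG_mem hij).1 hF
  refine (CG_mem hij).2 ⟨?_, ?_, fun k hi hj => ?_, ?_, ?_, fun x hx => ?_⟩
  · rw [CG_pow_diag_i hij, CG_binom_zero 1 1 h1 h2 (Nat.lt_succ_self _), map_zero]
  · rw [zero_add, pow_one, CG_D_apply, CG_D_diag_j hij]
  · rw [CG_pow_diag (E' := CG_D k) (CG_D_diag_k hi hj), h3 k hi hj, map_zero]
  · rw [CG_Dx_diag (x := 1) (i := i) (j := j) rfl, h4, map_zero]
  · have e1 : ∀ k ∈ CG_rest i j, Fi (lam k) k (diag i j F) = diag i j (Fi (lam k) k F) :=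
      fun k hk => by
        simp only [CG_Fi_apply, map_sub, map_mul, map_pow, map_natCast,
          CG_diag_k i (CG_mem_rest hk).2, CG_D_diag_k (CG_mem_rest hk).1 (CG_mem_rest hk).2]
    have e2 : Fi (a + b) i (diag i j F) + Fi 0 j (diag i j F) =
        diag i j (Fi a i F + Fi b j F) := by
      simp only [CG_Fi_apply, map_sub, map_add, map_mul, map_pow, map_natCast, CG_diag_i,
        CG_diag_j, CG_D_diag_i hij, CG_D_diag_j hij]
      push_cast
      ring
    rw [e2, Finset.sum_congr rfl e1, ← map_sum, ← map_add, h5, map_zero]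
  · rw [CG_pow_diag (CG_Dx_diag (hP x hx)), h6 x hx, map_zero]

theorem CG_sum_del (hij : i ≠ j) (F : MvPolynomial I ℂ) :
    Fi (a + 1) i ((X i - X j) * F) + Fi (b + 1) j ((X i - X j) * F) +
        ∑ k ∈ CG_rest i j, Fi (lam k) k ((X i - X j) * F) =
      (X i - X j) * (Fi a i F + Fi b j F + ∑ k ∈ CG_rest i j, Fi (lam k) k F) := by
  rw [Finset.sum_congr rfl fun k hk =>
    CG_Fi_del_k (CG_mem_rest hk).1 (CG_mem_rest hk).2 (lam k) F, ← Finset.mul_sum]
  simp only [CG_Fi_apply, map_sub, pderiv_mul, pderiv_X_self, pderiv_X_of_ne hij,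
    pderiv_X_of_ne hij.symm]
  push_cast
  ring

theorem CG_del_iff (hij : i ≠ j) (hP : ∀ x ∈ P, x i = x j) :
    (X i - X j) * F ∈ PB l (wt lam i j (a + 1) (b + 1)) P ↔ F ∈ PB l (wt lam i j a b) P := by
  have h0 : (X i - X j : MvPolynomial I ℂ) ≠ 0 := sub_ne_zero.2 fun h => hij (X_injective h)
  rw [CG_mem hij, CG_mem hij, CG_pow_iff (CG_del_i hij) one_ne_zero (CG_nil i F),
    CG_pow_iff (CG_del_j hij) (neg_ne_zero.2 one_ne_zero) (CG_nil j F), CG_sum_del hij,
    CG_Dx_del (x := 1) (i := i) (j := j) rfl, mul_eq_zero_iff_left h0, mul_eq_zero_iff_left h0]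
  refine and_congr_right' (and_congr_right' (and_congr ?_ (and_congr_right' (and_congr_right' ?_))))
  · exact forall₃_congr fun k hi hj => by
      rw [CG_pow_mul0 (CG_del_k hi hj), mul_eq_zero_iff_left h0]
  · exact forall₂_congr fun x hx => by
      rw [CG_pow_mul0 (CG_Dx_del (hP x hx)), mul_eq_zero_iff_left h0]

theorem del_mem (hij : i ≠ j) (hP : ∀ x ∈ P, x i = x j) (hF : F ∈ PB l (wt lam i j a b) P) :
    (X i - X j) * F ∈ PB l (wt lam i j (a + 1) (b + 1)) P := (CG_del_iff hij hP).2 hF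

theorem exists_del (hij : i ≠ j) (hP : ∀ x ∈ P, x i = x j)
    (hF : F ∈ PB l (wt lam i j (a + 1) (b + 1)) P) (h0 : diag i j F = 0) :
    ∃ F' ∈ PB l (wt lam i j a b) P, F = (X i - X j) * F' := by
  obtain ⟨Q, hQ⟩ := CG_exists i j F
  rw [h0, zero_add] at hQ
  exact ⟨Q, (CG_del_iff hij hP).1 (hQ ▸ hF), hQ⟩

theorem eq_zero_of_diag (hij : i ≠ j) (hF : F ∈ PB l (wt lam i j a b) P) (hab : a = 0 ∨ b = 0)
    (h0 : diag i j F = 0) : F = 0 := by
  obtain ⟨Q, hQ⟩ := CG_exists i j F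
  rw [h0, zero_add] at hQ
  obtain ⟨h1, h2, -⟩ := (CG_mem hij).1 hF
  rw [hQ] at h1 h2
  have hz : Q = 0 := CG_del_zero hij (hab.imp (fun h => by rwa [h] at h1) fun h => by rwa [h] at h2)
  rw [hQ, hz, mul_zero]

theorem eq_zero_of_top (i : I) (hF : F ∈ PB l lam P)
    (h0 : ((pderiv i).toLinearMap ^ lam i : Module.End ℂ _) F = 0) : F = 0 := by
  have hX : ∀ F, CG_D i (X i * F) = X i * CG_D i F + (1 : ℂ) • F := fun F => by
    simp only [CG_D_apply, pderiv_mul, pderiv_X_self, one_smul]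
    ring
  have key : ∀ m, m ≤ lam i → (CG_D i ^ m) F = 0 → F = 0 := by
    intro m
    induction m with
    | zero => exact fun _ h => h
    | succ m ih =>
      intro hm h
      refine ih (by omega) ?_
      have h1 := congrArg (CG_D i ^ (m + 1)) hF.2.2.1
      rw [map_zero, LinearMap.sum_apply, map_sum, Finset.sum_eq_single i (fun k _ hk => by
        rw [CG_swap1 (CG_Fi_commute hk _).symm, h, map_zero]) (by simp)] at h1
      have h2 : ∀ n : ℕ, (CG_D i ^ n) (X i * CG_D i F) =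
          X i * (CG_D i ^ (n + 1)) F + (n : ℂ) • (CG_D i ^ n) F := fun n => by
        cases n with
        | zero => simp
        | succ n =>
          rw [CG_pow_mul hX, ← Module.End.mul_apply, ← Module.End.mul_apply, ← pow_succ,
            ← pow_succ, mul_one, Nat.cast_succ]
      have h3 : Fi (lam i) i F = (lam i : ℂ) • (X i * F) - X i * (X i * CG_D i F) := by
        rw [CG_Fi_apply, smul_eq_C_mul, map_natCast, CG_D_apply]
        ring
      rw [h3, map_sub, map_smul, CG_pow_mul hX, CG_pow_mul hX, h2, h2, h,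
        CG_pow_mono h (Nat.le_succ _)] at h1
      simp only [mul_zero, smul_zero, add_zero, zero_add, mul_one, smul_smul, ← sub_smul,
        smul_eq_zero] at h1
      refine h1.resolve_left fun h4 => ?_
      have h5 : ((m : ℂ) + 1) * ((lam i : ℂ) - m) = 0 := by linear_combination h4
      rcases mul_eq_zero.1 h5 with h6 | h6
      · exact Nat.cast_add_one_ne_zero m h6
      · have := Nat.cast_injective (R := ℂ) (sub_eq_zero.1 h6)
        omega
  exact key _ le_rfl h0

/-- The operator `α ∂_i + β ∂_j`. -/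
def Dij (i j : I) (α β : ℂ) : Module.End ℂ (MvPolynomial I ℂ) :=
  α • (pderiv i).toLinearMap + β • (pderiv j).toLinearMap

theorem Dij_pow_eq_zero (hij : i ≠ j) (α β : ℂ) (hF : F ∈ PB l (wt lam i j a b) P) {N : ℕ}
    (hN : a + b < N) : (Dij i j α β ^ N) F = 0 :=
  CG_binom_zero α β ((CG_mem hij).1 hF).1 ((CG_mem hij).1 hF).2.1 hN

theorem diag_eq_zero_of_pow (hij : i ≠ j) (hP : ∀ x ∈ P, x i = x j) {α β : ℂ} (hα : α ≠ 0)
    (hβ : β ≠ 0) (hF : F ∈ PB l (wt lam i j a b) P) {N : ℕ} (hN : N ≤ a + b)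
    (h0 : (Dij i j α β ^ N) F = 0) : diag i j F = 0 := by
  obtain ⟨h1, h2, -⟩ := (CG_mem hij).1 hF
  have h3 : ((α • CG_D i + β • CG_D j) ^ (a + b)) F = 0 := CG_pow_mono h0 hN
  rw [CG_binom_top α β h1 h2, smul_eq_zero] at h3
  have h4 := h3.resolve_left (mul_ne_zero (mul_ne_zero (pow_ne_zero _ hα) (pow_ne_zero _ hβ))
    (Nat.cast_ne_zero.2 (Nat.choose_pos (Nat.le_add_right a b)).ne'))
  refine eq_zero_of_top i (diag_mem hij hP hF) ?_
  rw [CG_wt_i hij, CG_pow_diag_i hij, CG_binom_top 1 1 h1 h2, h4, smul_zero, map_zero]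

theorem Dij_pow_del (hij : i ≠ j) {α β : ℂ} (hαβ : α ≠ β) (F : MvPolynomial I ℂ) (N : ℕ) :
    (Dij i j α β ^ (N + 1)) ((X i - X j) * F) = 0 ↔ (Dij i j α β ^ N) F = 0 := by
  refine CG_pow_iff (c := α - β) (fun F => ?_) (sub_ne_zero.2 hαβ)
    ⟨_, CG_binom_zero α β ((CG_deg i F _).1 le_rfl) ((CG_deg j F _).1 le_rfl)
      (Nat.lt_succ_self _)⟩ N
  change α • CG_D i _ + β • CG_D j _ = _ * (α • CG_D i F + β • CG_D j F) + _
  rw [CG_del_i hij, CG_del_j hij]
  simp only [smul_eq_C_mul, map_sub, map_one, map_neg]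
  ring

end Pool.Agent.P.MP_e1a373_ag.B
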