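import Pool.Agent.P.MP_e1a373_ag.B.Api

/-!
The tree structure of the curves that form an F-curve.
-/

open scoped TensorProduct Classical

noncomputable section

namespace Pool.Agent.P.MP_e1a373_ag.B

theorem exists_spine (s t : ℂ) (hst : (s, t) ≠ 0) : ∃ S, Spine s t S := by
  by_cases h1 : s = 0
  · exact ⟨_, Or.inr ⟨1, by simpa using h1, rfl⟩⟩
  by_cases h2 : t = 0
  · exact ⟨_, Or.inr ⟨2, by simpa using h2, rfl⟩⟩
  by_cases h3 : s + t = 0
  · exact ⟨_, Or.inr ⟨3, by simpa using h3, rfl⟩⟩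
  by_cases h4 : s + 2 * t = 0
  · refine ⟨_, Or.inl ⟨![3, 6, 4, 0], ?_, ?_, rfl⟩⟩
    · intro a b h
      fin_cases a <;> fin_cases b <;> first | rfl | (exfalso; norm_num at h)
    · simp only [Matrix.cons_val_zero, Matrix.cons_val_one, Matrix.cons_val]
      linear_combination 6 * h4
  · refine ⟨_, Or.inl ⟨![2 * (s + t), -2 * t, s, 0], ?_, ?_, rfl⟩⟩
    · intro a b h
      fin_cases a <;> fin_cases b <;> first
        | rfl
        | (exfalso
           simp only [Fin.zero_eta, Fin.mk_one, Fin.reduceFinMk, Matrix.cons_val_zero,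
             Matrix.cons_val_one, Matrix.cons_val] at h
           first
            | exact h4 (by linear_combination h)
            | exact h4 (by linear_combination -h)
            | exact h4 (by linear_combination (1 / 2) * h)
            | exact h4 (by linear_combination (-1 / 2) * h)
            | exact h3 (by linear_combination (1 / 2) * h)
            | exact h3 (by linear_combination (-1 / 2) * h)
            | exact h2 (by linear_combination (1 / 2) * h)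
            | exact h2 (by linear_combination (-1 / 2) * h)
            | exact h1 h
            | exact h1 h.symm)
    · simp only [Matrix.cons_val_zero, Matrix.cons_val_one, Matrix.cons_val]
      ring

variable {n : ℕ}

theorem cat_mem_below {F : FCurve n} {i j : Fin n} : j ∈ below F i ↔ j < i ∧ F.1 j = F.1 i := by
  simp [below]

/-- The two shapes of the point `root F S i`. -/
theorem cat_root (F : FCurve n) (S : Curve (Fin 4)) (i : Fin n) :
    (∃ m : Tail F, root F S i = (.inr m, 2) ∧ m.1 < i ∧ F.1 m.1 = F.1 i ∧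
      ∀ k, k < i → F.1 k = F.1 i → k ≤ m.1) ∨
    (root F S i = (.inl (S.pt (F.1 i)).1, (S.pt (F.1 i)).2) ∧ ∀ k, k < i → F.1 k ≠ F.1 i) := by
  by_cases hi : (below F i).Nonempty
  · have h := cat_mem_below.1 ((below F i).max'_mem hi)
    exact Or.inl ⟨⟨(below F i).max' hi, i, (below F i).max'_mem hi⟩, dif_pos hi, h.1, h.2,
      fun k h1 h2 => (below F i).le_max' k (cat_mem_below.2 ⟨h1, h2⟩)⟩
  · exact Or.inr ⟨dif_neg hi, fun k h1 h2 => hi ⟨k, cat_mem_below.2 ⟨h1, h2⟩⟩⟩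

/-- The two shapes of a marked point. -/
theorem cat_pt (F : FCurve n) (S : Curve (Fin 4)) (i : Fin n) :
    (∃ m : Tail F, m.1 = i ∧ (attach F S).pt i = (.inr m, 1)) ∨
    ((attach F S).pt i = root F S i ∧ (∀ k, i < k → F.1 i ≠ F.1 k) ∧ ∀ m : Tail F, m.1 ≠ i) := by
  by_cases hi : ∃ j, i ∈ below F j
  · exact Or.inl ⟨⟨i, hi⟩, rfl, dif_pos hi⟩
  · exact Or.inr ⟨dif_neg hi, fun k h1 h2 => hi ⟨k, cat_mem_below.2 ⟨h1, h2⟩⟩,
      fun m hm => hi (hm ▸ m.2)⟩

/-- The branch function of the curve with chains. -/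
def catBr (F : FCurve n) {S : Curve (Fin 4)} (σ : Tree S) : S.V ⊕ Tail F → S.V ⊕ Tail F → ℂ
  | .inl a, .inl b => σ.br a b
  | .inl a, .inr i => σ.pos a (F.1 i.1)
  | .inr _, .inl _ => 0
  | .inr i, .inr k => if i.1 < k.1 ∧ F.1 i.1 = F.1 k.1 then 2 else 0

theorem cat_iff {F : FCurve n} {i : Fin n} {m k : Tail F} (h1 : m.1 < i) (h2 : F.1 m.1 = F.1 i)
    (h3 : ∀ k, k < i → F.1 k = F.1 i → k ≤ m.1) (hk : k ≠ m) :
    (k.1 < m.1 ∧ F.1 k.1 = F.1 m.1) ↔ (k.1 < i ∧ F.1 k.1 = F.1 i) :=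
  ⟨fun h => ⟨h.1.trans h1, h.2.trans h2⟩, fun h =>
    ⟨lt_of_le_of_ne (h3 _ h.1 h.2) fun h' => hk (Subtype.ext h'), h.2.trans h2.symm⟩⟩

theorem cat_inj (F : FCurve n) {S : Curve (Fin 4)} (σ : Tree S) :
    Function.Injective (attach F S).pt := by
  intro i k h
  have key : (∀ j, i < j → F.1 i ≠ F.1 j) → (∀ j, k < j → F.1 k ≠ F.1 j) → F.1 i = F.1 k →
      i = k := fun h1 h2 h3 => by
    rcases lt_trichotomy i k with h4 | h4 | h4
    exacts [(h1 k h4 h3).elim, h4, (h2 i h4 h3.symm).elim]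
  rcases cat_pt F S i with ⟨m, rfl, hi⟩ | ⟨hi, hi', -⟩ <;>
    rcases cat_pt F S k with ⟨m', rfl, hk⟩ | ⟨hk, hk', -⟩ <;> rw [hi, hk] at h
  · exact congrArg Subtype.val (Sum.inr.inj (Prod.ext_iff.1 h).1)
  · rcases cat_root F S k with ⟨m', h1, -⟩ | ⟨h1, -⟩ <;> rw [h1] at h
    · exact absurd (Prod.ext_iff.1 h).2 (by norm_num)
    · exact absurd (Prod.ext_iff.1 h).1 Sum.inr_ne_inl
  · rcases cat_root F S i with ⟨m, h1, -⟩ | ⟨h1, -⟩ <;> rw [h1] at h
    · exact absurd (Prod.ext_iff.1 h).2 (by norm_num)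
    · exact absurd (Prod.ext_iff.1 h).1 Sum.inl_ne_inr
  · refine key hi' hk' ?_
    rcases cat_root F S i with ⟨m, h1, -, h2, -⟩ | ⟨h1, -⟩ <;>
      rcases cat_root F S k with ⟨m', h3, -, h4, -⟩ | ⟨h3, -⟩ <;> rw [h1, h3] at h
    · obtain rfl : m = m' := Sum.inr.inj (Prod.ext_iff.1 h).1
      exact h2.symm.trans h4
    · exact absurd (Prod.ext_iff.1 h).1 Sum.inr_ne_inl
    · exact absurd (Prod.ext_iff.1 h).1 Sum.inl_ne_inr
    · exact σ.inj (Prod.ext (Sum.inl.inj (Prod.ext_iff.1 h).1) (Prod.ext_iff.1 h).2)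

theorem cat_node (F : FCurve n) {S : Curve (Fin 4)} (σ : Tree S) (p q : (S.V ⊕ Tail F) × ℂ)
    (h : (attach F S).node p q) : p.1 ≠ q.1 ∧ catBr F σ p.1 q.1 = p.2 ∧ catBr F σ q.1 p.1 = q.2 ∧
      ∀ v, v ≠ p.1 → v ≠ q.1 → catBr F σ v p.1 = catBr F σ v q.1 := by
  rcases h with ⟨a, b, h, rfl, rfl⟩ | ⟨i, rfl, rfl⟩
  · obtain ⟨h1, h2, h3, h4⟩ := σ.node a b h
    refine ⟨fun h => h1 (Sum.inl.inj h), h2, h3, ?_⟩
    rintro (c | k) h5 h6
    · exact h4 c (fun h => h5 (congrArg _ h)) fun h => h6 (congrArg _ h)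
    · rfl
  · rcases cat_root F S i.1 with ⟨m, h1, h2, h3, h4⟩ | ⟨h1, h2⟩ <;> rw [h1]
    · refine ⟨fun h => h2.ne (congrArg Subtype.val (Sum.inr.inj h)), if_pos ⟨h2, h3⟩,
        if_neg fun h => lt_asymm h.1 h2, ?_⟩
      rintro (c | k) h5 -
      · show σ.pos c (F.1 m.1) = σ.pos c (F.1 i.1)
        rw [h3]
      · exact if_congr (cat_iff h2 h3 h4 fun h => h5 (congrArg _ h)) rfl rfl
    · refine ⟨Sum.inl_ne_inr, if_pos rfl, rfl, ?_⟩
      rintro (c | k) h5 -
      · exact (if_neg fun h => h5 (congrArg _ h.symm)).symm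
      · exact (if_neg fun h => h2 _ h.1 h.2).symm

theorem cat_conn (F : FCurve n) {S : Curve (Fin 4)} (σ : Tree S) (φ : S.V ⊕ Tail F → ℂ)
    (h : ∀ p q, (attach F S).node p q → φ p.1 = φ q.1) (v : S.V ⊕ Tail F) :
    φ v = φ (.inl σ.v0) := by
  have h1 : ∀ a, φ (.inl a) = φ (.inl σ.v0) :=
    σ.conn (fun a => φ (.inl a)) fun a b hab => h _ _ (Or.inl ⟨a, b, hab, rfl, rfl⟩)
  have h2 : ∀ (i : Fin n) (hi : ∃ j, i ∈ below F j), φ (.inr ⟨i, hi⟩) = φ (.inl σ.v0) := by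
    intro i
    induction i using WellFoundedLT.induction with
    | ind i ih =>
      intro hi
      have h3 := h _ _ (Or.inr ⟨⟨i, hi⟩, rfl, rfl⟩)
      rcases cat_root F S i with ⟨m, h4, h5, -⟩ | ⟨h4, -⟩
      · exact h3.symm.trans ((congrArg (fun p => φ p.1) h4).trans (ih m.1 h5 m.2))
      · exact h3.symm.trans ((congrArg (fun p => φ p.1) h4).trans (h1 _))
  rcases v with a | i
  exacts [h1 a, h2 i.1 i.2]

theorem cat_off (F : FCurve n) {S : Curve (Fin 4)} (σ : Tree S) (i : Fin n) (w : S.V ⊕ Tail F)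
    (hw : w ≠ ((attach F S).pt i).1) :
    catBr F σ ((attach F S).pt i).1 w ≠ ((attach F S).pt i).2 := by
  rcases cat_pt F S i with ⟨m, rfl, hi⟩ | ⟨hi, h1, h2⟩ <;> rw [hi] at hw ⊢
  · rcases w with b | k
    · exact zero_ne_one
    · show (if m.1 < k.1 ∧ F.1 m.1 = F.1 k.1 then (2 : ℂ) else 0) ≠ 1
      split_ifs <;> norm_num
  · have h3 : ∀ k : Tail F, F.1 k.1 = F.1 i → k.1 < i := fun k hk => by
      rcases lt_trichotomy k.1 i with h | h | h
      exacts [h, (h2 k h).elim, (h1 _ h hk.symm).elim]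
    rcases cat_root F S i with ⟨m, h4, h5, h6, h7⟩ | ⟨h4, h5⟩ <;> rw [h4] at hw ⊢
    · rcases w with b | k
      · exact (two_ne_zero (α := ℂ)).symm
      · show (if m.1 < k.1 ∧ F.1 m.1 = F.1 k.1 then (2 : ℂ) else 0) ≠ 2
        rw [if_neg fun h => (h7 _ (h3 k (h.2.symm.trans h6)) (h.2.symm.trans h6)).not_gt h.1]
        norm_num
    · rcases w with b | k
      · exact σ.off (F.1 i) b fun h => hw (congrArg _ h)
      · show σ.pos (S.pt (F.1 i)).1 (F.1 k.1) ≠ (S.pt (F.1 i)).2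
        unfold Tree.pos
        split_ifs with h
        · exact fun h' => h5 _ (h3 k (σ.inj (Prod.ext h h'))) (σ.inj (Prod.ext h h'))
        · exact σ.off (F.1 i) _ h

/-- The tree structure of the curve with chains. -/
def catTree (F : FCurve n) {S : Curve (Fin 4)} (σ : Tree S) : Tree (attach F S) where
  br := catBr F σ
  v0 := .inl σ.v0
  inj := cat_inj F σ
  node := cat_node F σ
  conn := cat_conn F σ
  off := cat_off F σ

theorem cat_pos (F : FCurve n) {S : Curve (Fin 4)} (σ : Tree S) (v : S.V ⊕ Tail F) (i : Fin n)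
    (p : (S.V ⊕ Tail F) × ℂ) (hp : (attach F S).pt i = p) :
    (catTree F σ).pos v i = if p.1 = v then p.2 else catBr F σ v p.1 := by
  subst hp
  unfold Tree.pos
  congr

theorem cat_pos_inl (F : FCurve n) {S : Curve (Fin 4)} (σ : Tree S) (a : S.V) :
    (catTree F σ).pos (.inl a) = σ.pos a ∘ F.1 := by
  funext i
  rcases cat_pt F S i with ⟨m, rfl, hi⟩ | ⟨hi, -, -⟩
  · rw [cat_pos F σ _ _ _ hi, if_neg Sum.inr_ne_inl]
    rfl
  · rcases cat_root F S i with ⟨m, h1, -, h2, -⟩ | ⟨h1, -⟩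
    · rw [cat_pos F σ _ _ _ (hi.trans h1), if_neg Sum.inr_ne_inl]
      show σ.pos a (F.1 m.1) = σ.pos a (F.1 i)
      rw [h2]
    · rw [cat_pos F σ _ _ _ (hi.trans h1)]
      show _ = σ.pos a (F.1 i)
      unfold Tree.pos
      by_cases h : (S.pt (F.1 i)).1 = a
      · rw [if_pos h, if_pos (congrArg _ h)]
      · rw [if_neg h, if_neg fun h' => h (Sum.inl.inj h')]
        rfl

theorem cat_pos_inr (F : FCurve n) {S : Curve (Fin 4)} (σ : Tree S) (k : Tail F) :
    (catTree F σ).pos (.inr k) = tailPos F k.1 := by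
  funext i
  unfold tailPos
  rcases cat_pt F S i with ⟨m, rfl, hi⟩ | ⟨hi, -, h0⟩
  · rw [cat_pos F σ _ _ _ hi]
    by_cases h : m = k
    · rw [if_pos (congrArg _ h), if_pos (congrArg _ h)]
    · rw [if_neg fun h' => h (Sum.inr.inj h'), if_neg fun h' => h (Subtype.ext h')]
      rfl
  · rw [if_neg (h0 k).symm]
    rcases cat_root F S i with ⟨m, h1, h2, h3, h4⟩ | ⟨h1, h2⟩
    · rw [cat_pos F σ _ _ _ (hi.trans h1)]
      by_cases h : m = k
      · rw [if_pos (congrArg _ h), if_pos (h ▸ ⟨h2, h3⟩)]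
      · rw [if_neg fun h' => h (Sum.inr.inj h')]
        exact if_congr (cat_iff h2 h3 h4 (Ne.symm h)) rfl rfl
    · rw [cat_pos F σ _ _ _ (hi.trans h1), if_neg Sum.inl_ne_inr,
        if_neg fun h => h2 _ h.1 h.2]
      rfl

theorem cat_range (F : FCurve n) {S : Curve (Fin 4)} (σ : Tree S) :
    Set.range (catTree F σ).pos = allPos F n (Set.range σ.pos) := by
  ext x
  constructor
  · rintro ⟨a | k, rfl⟩
    · exact Or.inl ⟨_, ⟨a, rfl⟩, (cat_pos_inl F σ a).symm⟩
    · exact Or.inr ⟨k, k.1.2, cat_pos_inr F σ k⟩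
  · rintro (⟨_, ⟨a, rfl⟩, rfl⟩ | ⟨k, -, rfl⟩)
    · exact ⟨.inl a, cat_pos_inl F σ a⟩
    · exact ⟨.inr k, cat_pos_inr F σ k⟩

/-- The tree structure of a smooth spine. -/
def catSmooth (x : Fin 4 → ℂ) (hx : Function.Injective x) : Tree (smooth x) where
  br _ _ := 0
  v0 := ()
  inj _ _ h := hx (Prod.ext_iff.1 h).2
  node _ _ h := h.elim
  conn _ _ _ := rfl
  off _ _ h := (h rfl).elim

/-- The tree structure of a nodal spine. -/
def catNodal (j : Fin 4) : Tree (nodal j) where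
  br _ _ := 0
  v0 := true
  inj a b h := by
    have h1 : ((a : ℕ) : ℂ) + 1 = ((b : ℕ) : ℂ) + 1 := (Prod.ext_iff.1 h).2
    exact Fin.ext (Nat.cast_injective (add_right_cancel h1))
  node := by
    rintro _ _ ⟨rfl, rfl⟩
    exact ⟨by simp, rfl, rfl, fun _ _ _ => rfl⟩
  conn φ h v := by
    cases v
    · exact (h (true, 0) (false, 0) ⟨rfl, rfl⟩).symm
    · rfl
  off i _ _ := (Nat.cast_add_one_ne_zero (R := ℂ) i).symm

theorem exists_tree {n : ℕ} (F : FCurve n) (s t : ℂ) (S : Curve (Fin 4)) (hS : Spine s t S) :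
    ∃ Y, SpinePos s t Y ∧ ∃ τ : Tree (attach F S), Set.range τ.pos = allPos F n Y := by
  rcases hS with ⟨x, hx, h, rfl⟩ | ⟨j, h, rfl⟩
  · refine ⟨_, Or.inl ⟨x, hx, h, ?_⟩, _, cat_range F (catSmooth x hx)⟩
    have h1 : ∀ v, (catSmooth x hx).pos v = x := fun v => funext fun i => if_pos rfl
    ext y
    exact ⟨fun ⟨v, hv⟩ => hv.symm.trans (h1 v), fun hy => ⟨(), (h1 _).trans hy.symm⟩⟩
  · refine ⟨_, Or.inr ⟨j, h, ?_⟩, _, cat_range F (catNodal j)⟩
    have h1 : (catNodal j).pos true = fun i => if i = 0 ∨ i = j then ((i : ℕ) : ℂ) + 1 else 0 :=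
      funext fun i => by
        by_cases hi : i = 0 ∨ i = j
        · rw [if_pos hi]
          exact if_pos (decide_eq_true hi)
        · rw [if_neg hi]
          exact if_neg fun h => hi (of_decide_eq_true h)
    have h2 : (catNodal j).pos false = fun i => if i = 0 ∨ i = j then 0 else ((i : ℕ) : ℂ) + 1 :=
      funext fun i => by
        by_cases hi : i = 0 ∨ i = j
        · rw [if_pos hi]
          exact if_neg fun h => of_decide_eq_false h hi
        · rw [if_neg hi]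
          exact if_pos (decide_eq_false hi)
    ext y
    constructor
    · rintro ⟨_ | _, rfl⟩
      · exact Or.inr h2
      · exact Or.inl h1
    · rintro (rfl | rfl)
      · exact ⟨true, h1⟩
      · exact ⟨false, h2⟩

end Pool.Agent.P.MP_e1a373_ag.B
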