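import Pool.Agent.P.MP_e1a373_ag.B.Api

/-!
The polynomial model and the sequence model of the blocks agree.
-/

open scoped TensorProduct Classical
open MvPolynomial Function

noncomputable section

namespace Pool.Agent.P.MP_e1a373_ag.B

section

variable {I : Type} [Fintype I] (lam : I → ℕ)

/-- The complementary exponent. -/
def cfm (k : I → ℕ) : I →₀ ℕ := Finsupp.equivFunOnFinite.symm fun i => lam i - k i

theorem cfm_apply (k : I → ℕ) (i : I) : cfm lam k i = lam i - k i := rfl

/-- The normalised coefficients. -/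
def cfk : MvPolynomial I ℂ →ₗ[ℂ] ((I → ℕ) → ℂ) where
  toFun F k := if ∀ i, k i ≤ lam i then (∏ i, ((k i).factorial : ℂ)) * coeff (cfm lam k) F else 0
  map_add' F F' := by
    funext k
    by_cases hk : ∀ i, k i ≤ lam i <;> simp [hk, mul_add]
  map_smul' c F := by
    funext k
    by_cases hk : ∀ i, k i ≤ lam i <;> simp [hk, mul_left_comm]

theorem cfk_pos {k : I → ℕ} (hk : ∀ i, k i ≤ lam i) (F : MvPolynomial I ℂ) :
    cfk lam F k = (∏ i, ((k i).factorial : ℂ)) * coeff (cfm lam k) F := if_pos hk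

theorem cfk_neg {k : I → ℕ} (i : I) (hk : lam i < k i) (F : MvPolynomial I ℂ) :
    cfk lam F k = 0 := if_neg fun h => absurd (h i) (not_le.2 hk)

/-- The polynomials of bounded degree. -/
def cfB : Submodule ℂ (MvPolynomial I ℂ) where
  carrier := {F | ∀ (m : I →₀ ℕ) (i : I), lam i < m i → coeff m F = 0}
  zero_mem' := fun _ _ _ => rfl
  add_mem' := fun {a b} ha hb m i h => by rw [coeff_add, ha m i h, hb m i h, add_zero]
  smul_mem' := fun c a ha m i h => by rw [coeff_smul, ha m i h, smul_zero]

theorem cfB_iff (F : MvPolynomial I ℂ) : F ∈ cfB lam ↔ ∀ i, F.degreeOf i ≤ lam i := by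
  simp only [degreeOf_le_iff]
  refine ⟨fun h i m hm => ?_, fun h m i hi => ?_⟩
  · by_contra hc
    exact mem_support_iff.1 hm (h m i (not_le.1 hc))
  · by_contra hc
    exact absurd (h i m (mem_support_iff.2 hc)) (not_le.2 hi)

theorem cf_prod (k : I → ℕ) (i : I) : ∏ j, ((update k i (k i + 1) j).factorial : ℂ) =
    (k i + 1) * ∏ j, ((k j).factorial : ℂ) := by
  rw [← Finset.mul_prod_erase _ _ (Finset.mem_univ i),
    ← Finset.mul_prod_erase _ (fun j => ((k j).factorial : ℂ)) (Finset.mem_univ i), update_self,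
    Nat.factorial_succ, ← mul_assoc]
  push_cast
  congr 1
  exact Finset.prod_congr rfl fun j hj => by rw [update_of_ne (Finset.ne_of_mem_erase hj)]

theorem cf_cfm (k : I → ℕ) (i : I) (hk : k i < lam i) :
    cfm lam k = cfm lam (update k i (k i + 1)) + Finsupp.single i 1 := by
  ext j
  by_cases hj : j = i
  · subst hj
    simp only [cfm_apply, Finsupp.add_apply, update_self, Finsupp.single_eq_same]
    omega
  · simp [cfm_apply, hj]

theorem cf_coeff_Fi (a : ℕ) (i : I) (F : MvPolynomial I ℂ) (m : I →₀ ℕ) :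
    coeff (m + Finsupp.single i 1) (Fi a i F) = ((a : ℂ) - m i) * coeff m F := by
  have h1 : Fi a i F = X i * ((a : ℂ) • F - X i * pderiv i F) := by
    simp [Fi, mul_sub, pow_two, mul_assoc]
  rw [h1, add_comm, coeff_X_mul, coeff_sub, coeff_smul, coeff_X_mul', smul_eq_mul, sub_mul]
  congr 1
  split_ifs with h
  · rw [Finsupp.mem_support_iff] at h
    have h2 : m - Finsupp.single i 1 + Finsupp.single i 1 = m :=
      tsub_add_cancel_of_le (Finsupp.single_le_iff.2 (by omega))
    rw [coeff_pderiv, h2, mul_comm]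
    congr 1
    have := congrArg (fun x => ((x i : ℕ) : ℂ)) h2
    simpa using this
  · rw [Finsupp.notMem_support_iff.1 h]
    simp

theorem cf_coeff_Fi0 (a : ℕ) (i : I) (F : MvPolynomial I ℂ) (m : I →₀ ℕ) (hm : m i = 0) :
    coeff m (Fi a i F) = 0 := by
  have h1 : Fi a i F = X i * ((a : ℂ) • F - X i * pderiv i F) := by
    simp [Fi, mul_sub, pow_two, mul_assoc]
  rw [h1, coeff_X_mul', if_neg (by simp [hm])]

variable {lam}

theorem cf_e_mem {F : MvPolynomial I ℂ} (hF : F ∈ cfB lam) (i : I) : pderiv i F ∈ cfB lam := by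
  intro m j hj
  rw [coeff_pderiv, hF _ j (by rw [Finsupp.add_apply]; omega), zero_mul]

theorem cf_e {F : MvPolynomial I ℂ} (hF : F ∈ cfB lam) (i : I) :
    cfk lam (pderiv i F) = eS lam i (cfk lam F) := by
  funext k
  change _ = (k i : ℂ) * ((lam i : ℂ) + 1 - k i) * cfk lam F (update k i (k i - 1))
  by_cases hk : ∀ i, k i ≤ lam i
  · rw [cfk_pos lam hk, coeff_pderiv]
    rcases h0 : k i with _ | p
    · rw [hF _ i (by simp [cfm_apply, h0])]
      simp
    · have h1 : update (update k i p) i (update k i p i + 1) = k := by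
        rw [update_idem, update_self, ← h0, update_eq_self]
      have h2 := cf_prod (update k i p) i
      have h3 := cf_cfm lam (update k i p) i (by have := hk i; rw [update_self]; omega)
      rw [h1] at h2 h3
      rw [Nat.add_sub_cancel, cfk_pos lam (k := update k i p) (fun j => by
        by_cases hj : j = i
        · subst hj
          have := hk j
          rw [update_self]
          omega
        · rw [update_of_ne hj]
          exact hk j), h2, h3, update_self, cfm_apply, Nat.cast_sub (hk i), h0]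
      push_cast
      ring
  · push Not at hk
    obtain ⟨j, hj⟩ := hk
    rw [cfk_neg lam j hj]
    by_cases hji : j = i
    · subst hji
      by_cases h : k j = lam j + 1
      · rw [h]
        push_cast
        ring
      · rw [cfk_neg lam j (by rw [update_self]; omega), mul_zero]
    · rw [cfk_neg lam j (by rw [update_of_ne hji]; exact hj), mul_zero]

theorem cf_f_mem {F : MvPolynomial I ℂ} (hF : F ∈ cfB lam) (i : I) :
    Fi (lam i) i F ∈ cfB lam := by
  intro m j hj
  by_cases h : m i = 0
  · exact cf_coeff_Fi0 _ i F m h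
  · have h2 : m - Finsupp.single i 1 + Finsupp.single i 1 = m :=
      tsub_add_cancel_of_le (Finsupp.single_le_iff.2 (by omega))
    have h3 := congrArg (fun x => x j) h2
    simp only [Finsupp.add_apply] at h3
    rw [← h2, cf_coeff_Fi]
    by_cases hji : j = i
    · subst hji
      rw [Finsupp.single_eq_same] at h3
      by_cases h4 : (m - Finsupp.single j 1 : I →₀ ℕ) j = lam j
      · rw [h4, sub_self, zero_mul]
      · rw [hF _ j (by omega), mul_zero]
    · rw [Finsupp.single_eq_of_ne hji] at h3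
      rw [hF _ j (by omega), mul_zero]

theorem cf_f (F : MvPolynomial I ℂ) (i : I) :
    cfk lam (Fi (lam i) i F) = fS i (cfk lam F) := by
  funext k
  change _ = cfk lam F (update k i (k i + 1))
  by_cases hk : ∀ i, k i ≤ lam i
  · rw [cfk_pos lam hk]
    rcases (hk i).lt_or_eq with h | h
    · rw [cf_cfm lam k i h, cf_coeff_Fi, cfk_pos lam (k := update k i (k i + 1)) (fun j => by
        by_cases hj : j = i
        · subst hj
          rw [update_self]
          omega
        · rw [update_of_ne hj]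
          exact hk j), cf_prod, cfm_apply, update_self, Nat.cast_sub (Nat.succ_le_of_lt h)]
      push_cast
      ring
    · rw [cf_coeff_Fi0 _ _ _ _ (by rw [cfm_apply]; omega), mul_zero,
        cfk_neg lam i (by rw [update_self]; omega)]
  · push Not at hk
    obtain ⟨j, hj⟩ := hk
    rw [cfk_neg lam j hj, cfk_neg lam j]
    by_cases hji : j = i
    · subst hji
      rw [update_self]
      omega
    · rw [update_of_ne hji]
      exact hj

theorem cf_fact_ne (k : I → ℕ) : (∏ i, ((k i).factorial : ℂ)) ≠ 0 :=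
  Finset.prod_ne_zero_iff.2 fun i _ => Nat.cast_ne_zero.2 (Nat.factorial_ne_zero _)

theorem cf_inj {F : MvPolynomial I ℂ} (hF : F ∈ cfB lam) (h0 : cfk lam F = 0) : F = 0 := by
  ext m
  by_cases hm : ∀ i, m i ≤ lam i
  · have h1 : cfm lam (fun i => lam i - m i) = m := by
      ext i
      have := hm i
      rw [cfm_apply]
      omega
    have := congrFun h0 fun i => lam i - m i
    rw [cfk_pos lam (fun i => Nat.sub_le _ _), h1] at this
    exact (mul_eq_zero.1 this).resolve_left (cf_fact_ne _)
  · push Not at hm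
    obtain ⟨i, hi⟩ := hm
    exact hF m i hi

theorem cf_surj (c : (I → ℕ) → ℂ) (hc : ∀ k, (∃ i, lam i < k i) → c k = 0) :
    ∃ F ∈ cfB lam, cfk lam F = c := by
  refine ⟨∑ k ∈ Fintype.piFinset fun i => Finset.range (lam i + 1),
    monomial (cfm lam k) ((∏ i, ((k i).factorial : ℂ))⁻¹ * c k), sum_mem fun k _ m i hi => ?_, ?_⟩
  · rw [coeff_monomial, if_neg]
    rintro rfl
    rw [cfm_apply] at hi
    omega
  · funext k
    by_cases hk : ∀ i, k i ≤ lam i
    · rw [cfk_pos lam hk, coeff_sum, Finset.sum_eq_single k, coeff_monomial, if_pos rfl,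
        mul_inv_cancel_left₀ (cf_fact_ne k)]
      · intro k' hk' hne
        rw [coeff_monomial, if_neg]
        intro h
        refine hne (funext fun i => ?_)
        have h1 := congrArg (fun x => x i) h
        have h2 := Finset.mem_range.1 (Fintype.mem_piFinset.1 hk' i)
        have h3 := hk i
        simp only [cfm_apply] at h1
        omega
      · intro h
        exact absurd (Fintype.mem_piFinset.2 fun i =>
          Finset.mem_range.2 (Nat.lt_succ_of_le (hk i))) h
    · push Not at hk
      obtain ⟨i, hi⟩ := hk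
      rw [cfk_neg lam i hi, hc k ⟨i, hi⟩]

theorem cf_D (x : I → ℂ) (n : ℕ) {F : MvPolynomial I ℂ} (hF : F ∈ cfB lam) :
    (Dx x ^ n) F ∈ cfB lam ∧
      cfk lam ((Dx x ^ n) F) = ((∑ i, x i • eS lam i) ^ n) (cfk lam F) := by
  induction n with
  | zero => exact ⟨hF, rfl⟩
  | succ n ih =>
    rw [pow_succ', pow_succ', Module.End.mul_apply, Module.End.mul_apply, ← ih.2]
    generalize (Dx x ^ n) F = F' at ih
    simp only [Dx, LinearMap.sum_apply, LinearMap.smul_apply, map_sum, map_smul,
      Derivation.coeFn_coe, cf_e ih.1]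
    exact ⟨sum_mem fun i _ => Submodule.smul_mem _ _ (cf_e_mem ih.1 i), trivial⟩

theorem cf_iff (l : ℕ) (P : Set (I → ℂ)) {F : MvPolynomial I ℂ} (hF : F ∈ cfB lam) :
    F ∈ PB l lam P ↔ cfk lam F ∈ Blk l lam P := by
  have h1 := cf_D 1 1 hF
  simp only [pow_one, Pi.one_apply, one_smul] at h1
  have h2 : (∑ i, Fi (lam i) i) F ∈ cfB lam := by
    rw [LinearMap.sum_apply]
    exact sum_mem fun i _ => cf_f_mem hF i
  have h3 : cfk lam ((∑ i, Fi (lam i) i) F) = (∑ i, fS i) (cfk lam F) := by
    simp only [LinearMap.sum_apply, map_sum, cf_f]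
  constructor
  · rintro ⟨-, a2, a3, a4⟩
    exact ⟨fun k ⟨i, hi⟩ => cfk_neg lam i hi F, by rw [← h1.2, a2, map_zero],
      by rw [← h3, a3, map_zero], fun x hx => by rw [← (cf_D x _ hF).2, a4 x hx, map_zero]⟩
  · rintro ⟨-, a2, a3, a4⟩
    exact ⟨(cfB_iff lam F).1 hF, cf_inj h1.1 (h1.2.trans a2), cf_inj h2 (h3.trans a3),
      fun x hx => cf_inj (cf_D x _ hF).1 ((cf_D x _ hF).2.trans (a4 x hx))⟩

end

theorem exists_coef {I : Type} [Fintype I] (l : ℕ) (lam : I → ℕ) :
    ∃ κ : MvPolynomial I ℂ →ₗ[ℂ] ((I → ℕ) → ℂ),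
      ∀ P : Set (I → ℂ), Set.BijOn κ (PB l lam P) (Blk l lam P) := by
  refine ⟨cfk lam, fun P => ⟨fun F hF => (cf_iff l P ((cfB_iff lam F).2 hF.1)).1 hF,
    fun F hF F' hF' h => sub_eq_zero.1 (cf_inj (sub_mem ((cfB_iff lam F).2 hF.1)
      ((cfB_iff lam F').2 hF'.1)) (by rw [map_sub, h, sub_self])), fun c hc => ?_⟩⟩
  obtain ⟨F, hF, rfl⟩ := cf_surj c hc.1
  exact ⟨F, (cf_iff l P hF).2 hc, rfl⟩

end Pool.Agent.P.MP_e1a373_ag.B
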