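import Pool.Agent.P.MP_e1a373_ag.B.Rep

/-!
The completion lemma.
-/

open scoped TensorProduct Classical

noncomputable section

namespace Pool.Agent.P.MP_e1a373_ag.B

section Aux

variable {l : ℕ} {A W : Type} [CommRing A] [Algebra ℂ A] [AddCommGroup W] [Module ℂ W]
  {τ : A →ₗ[ℂ] L} {r : G →ₗ[ℂ] A →ₗ[ℂ] Module.End ℂ W}

/-- The vector is killed by the currents that vanish to order `N`. -/
def complKill (τ : A →ₗ[ℂ] L) (r : G →ₗ[ℂ] A →ₗ[ℂ] Module.End ℂ W) (N : ℤ) (w : W) : Prop :=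
  ∀ X φ, Reg N (τ φ) → r X φ w = 0

theorem complKill.mono {N M : ℤ} {w : W} (hw : complKill τ r N w) (hM : N ≤ M) :
    complKill τ r M w := fun X φ hφ => hw X φ (hφ.mono hM)

theorem complKill.congr {N : ℤ} {w : W} (hw : complKill τ r N w) (X : G) {u : L} {φ ψ : A}
    (hφ : Reg N (τ φ - u)) (hψ : Reg N (τ ψ - u)) : r X φ w = r X ψ w := by
  have h1 := hw X (φ - ψ) (by
    have h2 := hφ.sub hψ
    rwa [sub_sub_sub_cancel_right, ← map_sub] at h2)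
  rwa [map_sub, LinearMap.sub_apply, sub_eq_zero] at h1

/-- The smooth vectors. -/
def complW (τ : A →ₗ[ℂ] L) (r : G →ₗ[ℂ] A →ₗ[ℂ] Module.End ℂ W) : Submodule ℂ W where
  carrier := {w | ∃ N, complKill τ r N w}
  zero_mem' := ⟨0, fun _ _ _ => map_zero _⟩
  add_mem' := by
    rintro w w' ⟨N, hN⟩ ⟨M, hM⟩
    refine ⟨max N M, fun X φ hφ => ?_⟩
    rw [map_add, hN.mono (le_max_left _ _) X φ hφ, hM.mono (le_max_right _ _) X φ hφ, add_zero]
  smul_mem' := by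
    rintro c w ⟨N, hN⟩
    exact ⟨N, fun X φ hφ => by rw [map_smul, hN X φ hφ, smul_zero]⟩

theorem compl_comm (hr : ∀ X φ Y ψ, r X φ * r Y ψ - r Y ψ * r X φ =
      r ⁅X, Y⁆ (φ * ψ) + (l * coc X (τ φ) Y (τ ψ)) • 1) (X : G) (φ : A) (Y : G) (ψ : A) (w : W) :
    r X φ (r Y ψ w) - r Y ψ (r X φ w) =
      r ⁅X, Y⁆ (φ * ψ) w + ((l : ℂ) * coc X (τ φ) Y (τ ψ)) • w :=
  LinearMap.congr_fun (hr X φ Y ψ) w

theorem compl_stable (hm : ∀ φ ψ, τ (φ * ψ) = τ φ * τ ψ)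
    (hr : ∀ X φ Y ψ, r X φ * r Y ψ - r Y ψ * r X φ =
      r ⁅X, Y⁆ (φ * ψ) + (l * coc X (τ φ) Y (τ ψ)) • 1) (Y : G) (ψ : A) {w : W}
    (hw : w ∈ complW τ r) : r Y ψ w ∈ complW τ r := by
  obtain ⟨N, hN⟩ := hw
  obtain ⟨b, hb⟩ := exists_reg (τ ψ)
  refine ⟨max N (max (N - b) (1 - b)), fun X φ hφ => ?_⟩
  have h1 := compl_comm hr X φ Y ψ w
  rw [hN X φ (hφ.mono (by omega)), hN _ (φ * ψ) (by
      rw [hm]
      exact (hφ.mul hb).mono (by omega)), coc_eq, rs_reg hφ hb (by omega)] at h1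
  simpa using h1

theorem compl_exists (hm : ∀ φ ψ, τ (φ * ψ) = τ φ * τ ψ) (hd : ∀ u N, ∃ φ, Reg N (τ φ - u))
    (hr : ∀ X φ Y ψ, r X φ * r Y ψ - r Y ψ * r X φ =
      r ⁅X, Y⁆ (φ * ψ) + (l * coc X (τ φ) Y (τ ψ)) • 1) :
    ∃ ρ : G →ₗ[ℂ] L →ₗ[ℂ] Module.End ℂ (complW τ r), ∀ (N : ℤ) (w : complW τ r),
      complKill τ r N w.1 → ∀ X u φ, Reg N (τ φ - u) → (ρ X u w).1 = r X φ w.1 := by
  have h1 : ∀ (X : G) (u : L) (w : complW τ r), ∃ z : complW τ r, ∀ N, complKill τ r N w.1 →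
      ∀ φ, Reg N (τ φ - u) → z.1 = r X φ w.1 := by
    intro X u w
    obtain ⟨N0, h0⟩ := w.2
    obtain ⟨φ0, hφ0⟩ := hd u N0
    refine ⟨⟨r X φ0 w.1, compl_stable hm hr X φ0 w.2⟩, fun N hN φ hφ => ?_⟩
    obtain ⟨φ1, hφ1⟩ := hd u (max N N0)
    exact (h0.congr X hφ0 (hφ1.mono (le_max_right _ _))).trans
      (hN.congr X (hφ1.mono (le_max_left _ _)) hφ)
  choose val hval using h1
  let E : G → L → Module.End ℂ (complW τ r) := fun X u =>
    { toFun := val X u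
      map_add' := fun w w' => by
        obtain ⟨N, hN⟩ := w.2
        obtain ⟨M, hM⟩ := w'.2
        obtain ⟨φ, hφ⟩ := hd u (max N M)
        have h2 := hN.mono (le_max_left N M)
        have h3 := hM.mono (le_max_right N M)
        refine Subtype.ext ?_
        rw [Submodule.coe_add, hval X u w _ h2 φ hφ, hval X u w' _ h3 φ hφ,
          hval X u (w + w') (max N M) (fun X φ hφ => by
            rw [Submodule.coe_add, map_add, h2 X φ hφ, h3 X φ hφ, add_zero]) φ hφ,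
          Submodule.coe_add, map_add]
      map_smul' := fun c w => by
        obtain ⟨N, hN⟩ := w.2
        obtain ⟨φ, hφ⟩ := hd u N
        refine Subtype.ext ?_
        rw [RingHom.id_apply, Submodule.coe_smul, hval X u w _ hN φ hφ,
          hval X u (c • w) N (fun X φ hφ => by
            rw [Submodule.coe_smul, map_smul, hN X φ hφ, smul_zero]) φ hφ,
          Submodule.coe_smul, map_smul] }
  have hE : ∀ X u w, E X u w = val X u w := fun _ _ _ => rfl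
  refine ⟨LinearMap.mk₂ ℂ E ?_ ?_ ?_ ?_, fun N w hN X u φ hφ => hval X u w N hN φ hφ⟩
  · intro X X' u
    refine LinearMap.ext fun w => Subtype.ext ?_
    obtain ⟨N, hN⟩ := w.2
    obtain ⟨φ, hφ⟩ := hd u N
    rw [LinearMap.add_apply, Submodule.coe_add, hE, hE, hE, hval _ u w N hN φ hφ,
      hval _ u w N hN φ hφ, hval _ u w N hN φ hφ, map_add, LinearMap.add_apply,
      LinearMap.add_apply]
  · intro c X u
    refine LinearMap.ext fun w => Subtype.ext ?_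
    obtain ⟨N, hN⟩ := w.2
    obtain ⟨φ, hφ⟩ := hd u N
    rw [LinearMap.smul_apply, Submodule.coe_smul, hE, hE, hval _ u w N hN φ hφ,
      hval _ u w N hN φ hφ, map_smul, LinearMap.smul_apply, LinearMap.smul_apply]
  · intro X u u'
    refine LinearMap.ext fun w => Subtype.ext ?_
    obtain ⟨N, hN⟩ := w.2
    obtain ⟨φ, hφ⟩ := hd u N
    obtain ⟨φ', hφ'⟩ := hd u' N
    rw [LinearMap.add_apply, Submodule.coe_add, hE, hE, hE, hval _ u w N hN φ hφ,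
      hval _ u' w N hN φ' hφ', hval _ (u + u') w N hN (φ + φ') (by
        rw [map_add, add_sub_add_comm]
        exact hφ.add hφ'), map_add, LinearMap.add_apply]
  · intro c X u
    refine LinearMap.ext fun w => Subtype.ext ?_
    obtain ⟨N, hN⟩ := w.2
    obtain ⟨φ, hφ⟩ := hd u N
    rw [LinearMap.smul_apply, Submodule.coe_smul, hE, hE, hval _ u w N hN φ hφ,
      hval _ (c • u) w N hN (c • φ) (by
        have h2 := hφ.smul c
        rw [smul_sub, ← map_smul] at h2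
        exact h2), map_smul, LinearMap.smul_apply]

theorem compl_isRep (hm : ∀ φ ψ, τ (φ * ψ) = τ φ * τ ψ) (hd : ∀ u N, ∃ φ, Reg N (τ φ - u))
    (hr : ∀ X φ Y ψ, r X φ * r Y ψ - r Y ψ * r X φ =
      r ⁅X, Y⁆ (φ * ψ) + (l * coc X (τ φ) Y (τ ψ)) • 1)
    {ρ : G →ₗ[ℂ] L →ₗ[ℂ] Module.End ℂ (complW τ r)} (hρ : ∀ (N : ℤ) (w : complW τ r),
      complKill τ r N w.1 → ∀ X u φ, Reg N (τ φ - u) → (ρ X u w).1 = r X φ w.1) : IsRep l ρ := by
  intro X u Y v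
  refine LinearMap.ext fun w => Subtype.ext ?_
  obtain ⟨N, hN⟩ := w.2
  obtain ⟨N1, hN1⟩ := (ρ Y v w).2
  obtain ⟨N2, hN2⟩ := (ρ X u w).2
  obtain ⟨a, ha⟩ := exists_reg u
  obtain ⟨b, hb⟩ := exists_reg v
  obtain ⟨M, m1, m2, m3, m4, m5, m6, m7, m8⟩ : ∃ M : ℤ, N ≤ M ∧ N1 ≤ M ∧ N2 ≤ M ∧ b ≤ M ∧
      N ≤ M + b ∧ N ≤ a + M ∧ 1 ≤ M + b ∧ 1 ≤ a + M :=
    ⟨max (max (max N N1) (max N2 b)) (max (max (N - b) (N - a)) (max (1 - b) (1 - a))), by omega⟩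
  obtain ⟨φ, hφ⟩ := hd u M
  obtain ⟨ψ, hψ⟩ := hd v M
  have h1 : Reg b (τ ψ) := by
    have h2 := (hψ.mono m4).add hb
    rwa [sub_add_cancel] at h2
  have h2 : Reg N (τ (φ * ψ) - u * v) := by
    have h3 := ((hφ.mul h1).mono m5).add ((ha.mul hψ).mono m6)
    rw [hm]
    convert h3 using 1
    ring
  have h3 : rs (τ φ) (τ ψ) = rs u v := by
    have h4 := rs_add_left (τ φ - u) u (τ ψ)
    have h5 := rs_add_right u (τ ψ - v) v
    rw [sub_add_cancel, rs_reg hφ h1 m7, zero_add] at h4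
    rw [sub_add_cancel, rs_reg ha hψ m8, zero_add] at h5
    rw [h4, h5]
  have h4 := compl_comm hr X φ Y ψ w.1
  rw [coc_eq, h3, ← coc_eq, ← hρ N w hN _ _ _ h2, ← hρ M w (hN.mono m1) Y v ψ hψ,
    ← hρ M w (hN.mono m1) X u φ hφ, ← hρ M _ (hN1.mono m2) X u φ hφ,
    ← hρ M _ (hN2.mono m3) Y v ψ hψ] at h4
  exact h4

end Aux

theorem compl {l a : ℕ} (hal : a ≤ l) {A W : Type} [CommRing A] [Algebra ℂ A] [AddCommGroup W]
    [Module ℂ W] (τ : A →ₗ[ℂ] L) (h1 : τ 1 = 1) (hm : ∀ φ ψ, τ (φ * ψ) = τ φ * τ ψ)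
    (hd : ∀ u N, ∃ φ, Reg N (τ φ - u)) (r : G →ₗ[ℂ] A →ₗ[ℂ] Module.End ℂ W)
    (hr : ∀ X φ Y ψ, r X φ * r Y ψ - r Y ψ * r X φ =
      r ⁅X, Y⁆ (φ * ψ) + (l * coc X (τ φ) Y (τ ψ)) • 1)
    (g : A) (hg : τ g = xi) (hnil : ∀ w : W, (∀ n : ℕ, ∃ w', w = (r f g ^ n) w') → w = 0)
    (θ : W) (hpos : ∀ X φ, Reg 1 (τ φ) → r X φ θ = 0) (he : r e 1 θ = 0)
    (hh : r h 1 θ = (a : ℂ) • θ) (hf : (r f 1 ^ (a + 1)) θ = 0) :
    ∃ Λ : H l a →ₗ[ℂ] W, Λ (vac l a) = θ ∧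
      ∀ X φ m, Λ (act l a X (τ φ) m) = r X φ (Λ m) := by
  obtain ⟨ρ, hρ⟩ := compl_exists hm hd hr
  have hrep : IsRep l ρ := compl_isRep hm hd hr hρ
  have h2 : ∀ X φ (w : complW τ r), (ρ X (τ φ) w).1 = r X φ w.1 := fun X φ w => by
    obtain ⟨N, hN⟩ := w.2
    exact hρ N w hN X _ φ (by
      rw [sub_self]
      exact reg_zero N)
  have h3 : ∀ X φ (n : ℕ) (w : complW τ r), ((ρ X (τ φ) ^ n) w).1 = (r X φ ^ n) w.1 := by
    intro X φ n w
    induction n with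
    | zero => rfl
    | succ n ih => rw [rep_pow_succ, rep_pow_succ, h2, ih]
  let v : complW τ r := ⟨θ, 1, hpos⟩
  have hv : IsHW a ρ v := by
    refine ⟨fun X u hu => Subtype.ext ?_, Subtype.ext ?_, Subtype.ext ?_⟩
    · rw [hρ 1 v hpos X u 0 (by
        rw [map_zero, zero_sub]
        exact hu.neg), map_zero]
      rfl
    · rw [← h1, h2]
      exact he
    · rw [← h1, h2]
      exact hh
  have h4 : ∀ n : ℕ, ∃ c : ℂ, c ≠ 0 ∧ (ρ f xi ^ n) ((ρ e xin ^ (l - a + 1 + n)) v) =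
      c • (ρ e xin ^ (l - a + 1)) v := by
    intro n
    induction n with
    | zero => exact ⟨1, one_ne_zero, (one_smul ℂ _).symm⟩
    | succ n ih =>
      obtain ⟨c, hc, ih⟩ := ih
      refine ⟨_ * c, mul_ne_zero ?_ hc, by
        rw [pow_succ, Module.End.mul_apply, ← add_assoc, hv.Y_E_pow hrep, map_smul, ih,
          smul_smul]⟩
      refine mul_ne_zero (Nat.cast_add_one_ne_zero _) ?_
      have h5 : (l : ℂ) - a - ((l - a + 1 + n : ℕ) : ℂ) = -((n : ℂ) + 1) := by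
        push_cast [Nat.cast_sub hal]
        ring
      rw [h5]
      exact neg_ne_zero.2 (Nat.cast_add_one_ne_zero _)
  have hE : (ρ e xin ^ (l - a + 1)) v = 0 := by
    refine Subtype.ext (hnil _ fun n => ?_)
    obtain ⟨c, hc, h5⟩ := h4 n
    refine ⟨(c⁻¹ • (ρ e xin ^ (l - a + 1 + n)) v : complW τ r).1, ?_⟩
    rw [← h3, hg, map_smul, h5, smul_smul, inv_mul_cancel₀ hc, one_smul]
  obtain ⟨Λ, h5, h6⟩ := lift hrep hv (Subtype.ext (by
    rw [← h1, h3]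
    exact hf)) hE
  refine ⟨(complW τ r).subtype ∘ₗ Λ, ?_, fun X φ m => ?_⟩
  · rw [LinearMap.comp_apply, h5]
    rfl
  · rw [LinearMap.comp_apply, h6]
    exact h2 X φ _

end Pool.Agent.P.MP_e1a373_ag.B
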