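import Pool.Agent.P.MP_e1a373_ag.Defs

/-!
Conformal blocks of Tsuchiya, Ueno and Yamada for sl_2 on stable pointed curves of genus zero,
and the degree of the conformal block bundle on an F-curve.
-/

open scoped TensorProduct Classical
open LieAlgebra.SpecialLinear

noncomputable section

namespace Pool.Agent.P.MP_e1a373_ag.B

/-- The Lie algebra sl_2. -/
abbrev G : Type := sl (Fin 2) ℂ

instance : AddCommMonoid G := inferInstance

instance : Module ℂ G := inferInstance

/-- The highest root vector. -/
def e : G := single 0 1 (by decide) 1

/-- The lowest root vector. -/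
def f : G := single 1 0 (by decide) 1

/-- The coroot. -/
def h : G := singleSubSingle 0 1 1

/-- Laurent series in the local coordinate. -/
abbrev L : Type := LaurentSeries ℂ

/-- The loop algebra as a vector space. -/
abbrev Loop : Type := G ⊗[ℂ] L

instance : AddCommMonoid Loop := inferInstance

instance : Module ℂ Loop := inferInstance

/-- The tensor algebra of the loop algebra. -/
abbrev T : Type := TensorAlgebra ℂ Loop

instance : Semiring T := inferInstance

instance : Ring T := inferInstance

instance : Algebra ℂ T := inferInstance

/-- The generator `X ⊗ u`. -/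
def cur (X : G) (u : L) : T := TensorAlgebra.ι ℂ (X ⊗ₜ u)

/-- The cocycle (X, Y) Res (w du) of the affine Lie algebra, for the normalised form
(X, Y) = tr (X Y). -/
def coc (X : G) (u : L) (Y : G) (w : L) : ℂ :=
  (X.1 * Y.1).trace * (w * LaurentSeries.derivative ℂ u).coeff (-1)

/-- The relations of the integrable highest weight module of level `l` and weight `a`: the
commutation relations of the affine Lie algebra with the central element acting by `l`, and the
relations satisfied by the highest weight vector. -/
def Rel (l a : ℕ) : Set T :=
  {r | (∃ X u Y w t, r = (cur X u * cur Y w - cur Y w * cur X u - cur ⁅X, Y⁆ (u * w) -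
      algebraMap ℂ T (l * coc X u Y w)) * t) ∨
    (∃ X u, (∀ n ≤ 0, u.coeff n = 0) ∧ r = cur X u) ∨ r = cur e 1 ∨ r = cur h 1 - a ∨
    r = cur f 1 ^ (a + 1) ∨ r = cur e (HahnSeries.single (-1) 1) ^ (l - a + 1)}

/-- The integrable highest weight module: the quotient by the left ideal of relations. -/
abbrev H (l a : ℕ) : Type := T ⧸ Submodule.span T (Rel l a)

instance (l a : ℕ) : AddCommMonoid (H l a) := inferInstance

instance (l a : ℕ) : Module ℂ (H l a) := inferInstance

instance (l a : ℕ) : SMul T (H l a) := inferInstance

/-- The highest weight vector. -/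
def vac (l a : ℕ) : H l a := Submodule.Quotient.mk 1

/-- The coordinate `z` of the projective line in terms of the local coordinate at a point:
`z = x + ξ` at a finite point `x`, and `z = 1 / ξ` at infinity. -/
def loc : Option ℂ → L
  | some x => HahnSeries.C x + HahnSeries.single 1 1
  | none => HahnSeries.single (-1) 1

/-- The Laurent expansion of a rational function at a point of the projective line. -/
def expand (x : Option ℂ) (φ : RatFunc ℂ) : L := RatFunc.eval HahnSeries.C (loc x) φ

/-- A nodal curve with marked points indexed by `I` whose components are projective lines: the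
components, the marked points and the pairs of points that are glued. All these points are
finite points of the components. -/
structure Curve (I : Type) where
  V : Type
  fin : Fintype V
  pt : I → V × ℂ
  node : V × ℂ → V × ℂ → Prop

attribute [instance] Curve.fin

variable {I : Type} [Fintype I]

/-- Functions on the curve that are regular outside the marked points and the points at infinity
of the components. -/
def Curve.Fn (C : Curve I) : Set (C.V → RatFunc ℂ) :=
  {φ | (∀ v x, (v, x) ∉ Set.range C.pt → ∀ n < 0, (expand (some x) (φ v)).coeff n = 0) ∧
    ∀ p q, C.node p q →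
      (expand (some p.2) (φ p.1)).coeff 0 = (expand (some q.2) (φ q.1)).coeff 0}

/-- The expansion of a function at a marked point or at the point at infinity of a component. -/
def Curve.exp (C : Curve I) (φ : C.V → RatFunc ℂ) : I ⊕ C.V → L
  | .inl i => expand (some (C.pt i).2) (φ (C.pt i).1)
  | .inr v => expand none (φ v)

/-- Multilinear forms on the integrable modules at the marked points and at the points at infinity,
which carry the weight zero. -/
abbrev Form (l : ℕ) (lam : I → ℕ) (C : Curve I) : Type :=
  MultilinearMap ℂ (fun j : I ⊕ C.V => H l (Sum.elim lam 0 j)) ℂ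

/-- The space of vacua (conformal blocks): the forms that satisfy the gauge condition. -/
def Vacua (l : ℕ) (lam : I → ℕ) (C : Curve I) : Set (Form l lam C) :=
  {Ψ | ∀ (X : G), ∀ φ ∈ C.Fn, ∀ u,
    ∑ j, Ψ (Function.update u j (cur X (C.exp φ j) • u j)) = 0}

/-- The restriction of a form to the tensor product of the finite dimensional modules `V_a`, given
by its values on the basis vectors `f ^ k v`. -/
def restr {l : ℕ} {lam : I → ℕ} {C : Curve I} (Ψ : Form l lam C) (k : I → ℕ) : ℂ :=
  Ψ fun j => cur f 1 ^ (Sum.elim k 0 j : ℕ) • vac l (Sum.elim lam 0 j)

/-- The projective line with four marked points. -/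
def smooth (x : Fin 4 → ℂ) : Curve (Fin 4) :=
  ⟨Unit, inferInstance, fun i => ((), x i), fun _ _ => False⟩

/-- Two projective lines glued at their origins, with the marked points `0`, `j` on the first. -/
def nodal (j : Fin 4) : Curve (Fin 4) :=
  ⟨Bool, inferInstance, fun i => (decide (i = 0 ∨ i = j), (i : ℕ) + 1),
    fun p q => p = (true, 0) ∧ q = (false, 0)⟩

/-- `S` is the stable four-pointed curve over the point `[s : t]` of the moduli space, where the
coordinate is the cross ratio. -/
def Spine (s t : ℂ) (S : Curve (Fin 4)) : Prop :=
  (∃ x, Function.Injective x ∧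
    s * ((x 0 - x 2) * (x 3 - x 1)) = t * ((x 0 - x 1) * (x 2 - x 3)) ∧ S = smooth x) ∨
  ∃ j, ![1, s, t, s + t] j = 0 ∧ S = nodal j

variable {n : ℕ}

/-- The smaller elements of the block of `i`. -/
def below (F : FCurve n) (i : Fin n) : Finset (Fin n) :=
  Finset.univ.filter fun j => j < i ∧ F.1 j = F.1 i

/-- The elements that are not the last one of their block. -/
def Tail (F : FCurve n) : Type := {i : Fin n // ∃ j, i ∈ below F j}

instance (F : FCurve n) : Fintype (Tail F) := Subtype.fintype _

/-- The point where the part of the chain that starts with `i` is attached: the point `2` of the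
component of the previous element of the block, or the marked point of the spine. -/
def root (F : FCurve n) (S : Curve (Fin 4)) (i : Fin n) : (S.V ⊕ Tail F) × ℂ :=
  if hi : (below F i).Nonempty then
    (.inr ⟨(below F i).max' hi, i, (below F i).max'_mem hi⟩, 2)
  else (.inl (S.pt (F.1 i)).1, (S.pt (F.1 i)).2)

/-- The stable curve obtained from `S` by attaching, for each block of `F`, a chain of projective
lines with three special points `0, 1, 2` that carries the marked points of the block. -/
def attach (F : FCurve n) (S : Curve (Fin 4)) : Curve (Fin n) where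
  V := S.V ⊕ Tail F
  fin := inferInstance
  pt i := if hi : ∃ j, i ∈ below F j then (.inr ⟨i, hi⟩, 1) else root F S i
  node p q := (∃ a b, S.node a b ∧ p = (.inl a.1, a.2) ∧ q = (.inl b.1, b.2)) ∨
    ∃ i : Tail F, p = root F S i.1 ∧ q = (.inr i, 0)

/-- The value at (s, t) of the homogeneous polynomial map of degree `d` with coefficients `c`. -/
def homog (d : ℕ) (c : ℕ → (I → ℕ) → ℂ) (s t : ℂ) : (I → ℕ) → ℂ :=
  ∑ i ∈ Finset.range (d + 1), (s ^ i * t ^ (d - i)) • c i

/-- The conformal block bundle has degree `d` on the F-curve `F`: its dual, the bundle of vacua, is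
a subbundle of a trivial bundle with a frame of homogeneous polynomial maps of degrees `deg j`, so
that it is the sum of the line bundles `O (- deg j)`, and `d` is the sum of the `deg j`. -/
def IsDegree (l : ℕ) (lam : Fin n → ℕ) (F : FCurve n) (d : ℕ) : Prop :=
  ∃ (r : ℕ) (deg : Fin r → ℕ) (c : Fin r → ℕ → (Fin n → ℕ) → ℂ), ∑ j, deg j = d ∧
    ∀ s t : ℂ, (s, t) ≠ 0 → LinearIndependent ℂ (fun j => homog (deg j) (c j) s t) ∧
      ∀ S, Spine s t S → Set.BijOn restr (Vacua l lam (attach F S))
        (Submodule.span ℂ (Set.range fun j => homog (deg j) (c j) s t))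

end Pool.Agent.P.MP_e1a373_ag.B
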