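import Pool.Agent.P.MP_e1a373_ag.B.Api

/-!
Operators on multilinear forms that act in one slot.
-/

open Function

noncomputable section

namespace Pool.Agent.P.MP_e1a373_ag.B

variable {J : Type} [DecidableEq J] {M : J → Type} [∀ j, AddCommGroup (M j)]
  [∀ j, Module ℂ (M j)]

theorem slot_aux (j : J) (a : Module.End ℂ (M j)) (Ψ : MultilinearMap ℂ M ℂ) (u : ∀ j, M j) :
    Ψ.compLinearMap (update (fun k => (LinearMap.id : M k →ₗ[ℂ] M k)) j a) u =
      Ψ (update u j (a (u j))) := by
  rw [MultilinearMap.compLinearMap_apply]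
  congr 1
  funext k
  by_cases hk : k = j
  · subst hk
    simp
  · simp [update_of_ne hk]

/-- Composition with an operator in the slot `j`. -/
def R (j : J) : Module.End ℂ (M j) →ₗ[ℂ] Module.End ℂ (MultilinearMap ℂ M ℂ) :=
  LinearMap.mk₂ ℂ
    (fun a Ψ => Ψ.compLinearMap (update (fun k => (LinearMap.id : M k →ₗ[ℂ] M k)) j a))
    (fun a b Ψ => by
      ext u
      simp only [slot_aux, _root_.add_apply, LinearMap.add_apply,
        MultilinearMap.map_update_add])
    (fun c a Ψ => by
      ext u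
      simp only [slot_aux, _root_.smul_apply, LinearMap.smul_apply,
        MultilinearMap.map_update_smul])
    (fun a Ψ Ψ' => by
      ext u
      simp only [slot_aux, _root_.add_apply])
    (fun c a Ψ => by
      ext u
      simp only [slot_aux, _root_.smul_apply])

theorem R_apply (j : J) (a : Module.End ℂ (M j)) (Ψ : MultilinearMap ℂ M ℂ) (u : ∀ j, M j) :
    R j a Ψ u = Ψ (update u j (a (u j))) := slot_aux j a Ψ u

theorem R_mul (j : J) (a b : Module.End ℂ (M j)) : R j a * R j b = R j (b * a) := by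
  ext Ψ u
  simp [R_apply]

theorem R_one (j : J) : R (M := M) j 1 = 1 := by
  ext Ψ u
  simp [R_apply]

theorem R_pow (j : J) (a : Module.End ℂ (M j)) (n : ℕ) : R j a ^ n = R j (a ^ n) := by
  induction n with
  | zero => simp [R_one]
  | succ n ih => rw [pow_succ, ih, R_mul, pow_succ']

theorem R_comm {j k : J} (hjk : j ≠ k) (a : Module.End ℂ (M j)) (b : Module.End ℂ (M k)) :
    Commute (R j a) (R k b) := by
  ext Ψ u
  simp only [Module.End.mul_apply, R_apply, update_of_ne hjk, update_of_ne hjk.symm]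
  rw [update_comm hjk]

theorem R_sum_comm (T : Finset J) (a b c : ∀ j, Module.End ℂ (M j)) (s : J → ℂ)
    (hT : ∀ j ∈ T, a j * b j - b j * a j = c j + s j • 1) :
    (∑ j ∈ T, R j (a j)) * (∑ j ∈ T, R j (b j)) - (∑ j ∈ T, R j (b j)) * (∑ j ∈ T, R j (a j)) =
      -(∑ j ∈ T, R j (c j)) - (∑ j ∈ T, s j) • 1 := by
  rw [Finset.sum_mul_sum, Finset.sum_mul_sum, Finset.sum_comm (f := fun j k => R j (b j) * R k (a k)),
    ← Finset.sum_sub_distrib, Finset.sum_smul, ← Finset.sum_neg_distrib, ← Finset.sum_sub_distrib]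
  refine Finset.sum_congr rfl fun j hj => ?_
  rw [← Finset.sum_sub_distrib, Finset.sum_eq_single j]
  · rw [R_mul, R_mul, ← map_sub, ← neg_sub, hT j hj, map_neg, map_add, map_smul, R_one]
    abel
  · intro k _ hk
    rw [(R_comm (Ne.symm hk) (a j) (b k)).eq, sub_self]
  · intro h
    exact absurd hj h

theorem R_comm_sum {i : J} (T : Finset J) (hi : i ∉ T) (b : Module.End ℂ (M i))
    (a : ∀ j, Module.End ℂ (M j)) : Commute (R i b) (∑ j ∈ T, R j (a j)) :=
  Commute.sum_right _ _ _ fun j hj => R_comm (fun h : i = j => hi (h ▸ hj)) b (a j)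

theorem R_nil_aux (T : Finset J) (a : ∀ j, Module.End ℂ (M j)) (N : ℕ) :
    ∀ (u : ∀ j, M j) (n : J → ℕ), (∀ j ∈ T, (a j ^ (n j + 1)) (u j) = 0) → ∑ j ∈ T, n j < N →
      ∀ Ψ : MultilinearMap ℂ M ℂ, ((∑ j ∈ T, R j (a j)) ^ N) Ψ u = 0 := by
  induction N with
  | zero => intro u n _ h; omega
  | succ N ih =>
    intro u n hn hN Ψ
    rw [pow_succ', Module.End.mul_apply, LinearMap.sum_apply, _root_.sum_apply]
    refine Finset.sum_eq_zero fun j hj => ?_
    rw [R_apply]
    rcases h0 : n j with _ | m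
    · have := hn j hj
      rw [h0, zero_add, pow_one] at this
      rw [this, MultilinearMap.map_update_zero]
    · refine ih _ (update n j m) (fun k hk => ?_) ?_ Ψ
      · by_cases hkj : k = j
        · subst hkj
          have := hn k hk
          rw [h0, pow_succ, Module.End.mul_apply] at this
          simpa using this
        · simpa [update_of_ne hkj] using hn k hk
      · rw [Finset.sum_update_of_mem hj]
        rw [← Finset.add_sum_erase _ _ hj, h0] at hN
        rw [Finset.sdiff_singleton_eq_erase]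
        omega

theorem neg_pow_apply {N : Type} [AddCommGroup N] [Module ℂ N] (A : Module.End ℂ N) (n : ℕ)
    (x : N) : ((-A) ^ n) x = (A ^ n) (((-1 : ℂ) ^ n) • x) := by
  induction n with
  | zero => simp
  | succ n ih =>
    rw [pow_succ', Module.End.mul_apply, ih, pow_succ', pow_succ']
    simp

theorem R_nil (T : Finset J) (a : ∀ j, Module.End ℂ (M j))
    (ha : ∀ j ∈ T, ∀ m, ∃ n : ℕ, (a j ^ n) m = 0) (w : MultilinearMap ℂ M ℂ)
    (hw : ∀ n : ℕ, ∃ w', w = ((-∑ j ∈ T, R j (a j)) ^ n) w') : w = 0 := by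
  ext u
  have : ∀ j, ∃ n : ℕ, j ∈ T → (a j ^ (n + 1)) (u j) = 0 := by
    intro j
    by_cases hj : j ∈ T
    · obtain ⟨n, hn⟩ := ha j hj (u j)
      exact ⟨n, fun _ => by rw [pow_succ', Module.End.mul_apply, hn, map_zero]⟩
    · exact ⟨0, fun h => absurd h hj⟩
  choose n hn using this
  obtain ⟨w', rfl⟩ := hw (∑ j ∈ T, n j + 1)
  rw [neg_pow_apply]
  exact R_nil_aux T a _ u n hn (Nat.lt_succ_self _) _

/-- The form obtained from a linear family of forms indexed by the slot `j`. -/
def Ext (j : J) (v : M j) (Λ : M j →ₗ[ℂ] MultilinearMap ℂ M ℂ) : MultilinearMap ℂ M ℂ :=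
  MultilinearMap.mk' (fun u => Λ (u j) (update u j v))
    (fun u k x y => by
      by_cases hk : k = j
      · subst hk
        simp
      · simp only [update_of_ne (Ne.symm hk), update_comm hk, MultilinearMap.map_update_add])
    (fun u k c x => by
      by_cases hk : k = j
      · subst hk
        simp
      · simp only [update_of_ne (Ne.symm hk), update_comm hk, MultilinearMap.map_update_smul])

theorem Ext_apply (j : J) (v : M j) (Λ : M j →ₗ[ℂ] MultilinearMap ℂ M ℂ) (u : ∀ j, M j) :
    Ext j v Λ u = Λ (u j) (update u j v) := rfl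

theorem R_Ext (j : J) (v : M j) (Λ : M j →ₗ[ℂ] MultilinearMap ℂ M ℂ) (a : Module.End ℂ (M j)) :
    R j a (Ext j v Λ) = Ext j v (Λ ∘ₗ a) := by
  ext u
  simp [R_apply, Ext_apply]

theorem R_Ext_ne {j k : J} (hk : k ≠ j) (v : M j) (Λ : M j →ₗ[ℂ] MultilinearMap ℂ M ℂ)
    (a : Module.End ℂ (M k)) : R k a (Ext j v Λ) = Ext j v (R k a ∘ₗ Λ) := by
  ext u
  simp only [R_apply, Ext_apply, LinearMap.comp_apply, update_of_ne hk, update_of_ne hk.symm]
  rw [update_comm hk]

theorem Ext_add (j : J) (v : M j) (Λ Λ' : M j →ₗ[ℂ] MultilinearMap ℂ M ℂ) :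
    Ext j v (Λ + Λ') = Ext j v Λ + Ext j v Λ' := by
  ext u
  simp [Ext_apply]

theorem Ext_zero (j : J) (v : M j) : Ext j v 0 = 0 := by
  ext u
  simp [Ext_apply]

theorem sum_R_Ext {i : J} (T : Finset J) (hi : i ∉ T) (v : M i)
    (Λ : M i →ₗ[ℂ] MultilinearMap ℂ M ℂ) (a : ∀ j, Module.End ℂ (M j)) :
    (∑ j ∈ T, R j (a j)) (Ext i v Λ) = Ext i v ((∑ j ∈ T, R j (a j)) ∘ₗ Λ) := by
  ext u
  simp only [Ext_apply, LinearMap.sum_apply, _root_.sum_apply, LinearMap.comp_apply]
  refine Finset.sum_congr rfl fun j hj => ?_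
  rw [R_Ext_ne (fun h : j = i => hi (h ▸ hj))]
  rfl

theorem pow_Ext {i : J} (v : M i) (A : Module.End ℂ (MultilinearMap ℂ M ℂ))
    (hA : ∀ Λ, A (Ext i v Λ) = Ext i v (A ∘ₗ Λ)) (n : ℕ) (Λ : M i →ₗ[ℂ] MultilinearMap ℂ M ℂ) :
    (A ^ n) (Ext i v Λ) = Ext i v ((A ^ n) ∘ₗ Λ) := by
  induction n with
  | zero => rfl
  | succ n ih => rw [pow_succ', Module.End.mul_apply, ih, hA]; rfl

theorem add_pow_apply {N : Type} [AddCommGroup N] [Module ℂ N] {A D : Module.End ℂ N}
    (hc : Commute A D) {x : N} (hx : D x = 0) (n : ℕ) : ((A + D) ^ n) x = (A ^ n) x := by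
  induction n with
  | zero => rfl
  | succ n ih =>
    rw [pow_succ', Module.End.mul_apply, ih, LinearMap.add_apply, ← Module.End.mul_apply D,
      (hc.symm.pow_right n).eq, Module.End.mul_apply, hx, map_zero, add_zero, pow_succ',
      Module.End.mul_apply]

theorem van_span [Fintype J] (Z : ∀ j, Set (M j)) (Ψ : MultilinearMap ℂ M ℂ)
    (h0 : ∀ u, (∀ j, u j ∈ Z j) → Ψ u = 0) (u : ∀ j, M j)
    (hu : ∀ j, u j ∈ Submodule.span ℂ (Z j)) : Ψ u = 0 := by
  have key : ∀ S : Finset J, ∀ u : ∀ j, M j, (∀ j ∈ S, u j ∈ Submodule.span ℂ (Z j)) →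
      (∀ j ∉ S, u j ∈ Z j) → Ψ u = 0 := by
    intro S
    induction S using Finset.induction_on with
    | empty => exact fun u _ h => h0 u fun j => h j (by simp)
    | insert i S hi ih =>
      intro u h1 h2
      have : ∀ m ∈ Submodule.span ℂ (Z i), Ψ (update u i m) = 0 := by
        intro m hm
        induction hm using Submodule.span_induction with
        | mem x hx =>
          refine ih _ (fun j hj => ?_) (fun j hj => ?_)
          · rw [update_of_ne (fun h : j = i => hi (h ▸ hj))]
            exact h1 j (Finset.mem_insert_of_mem hj)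
          · by_cases hji : j = i
            · subst hji
              simpa using hx
            · rw [update_of_ne hji]
              exact h2 j (by simp [hji, hj])
        | zero => exact Ψ.map_update_zero u i
        | add x y _ _ hx hy => rw [Ψ.map_update_add, hx, hy, add_zero]
        | smul c x _ hx => rw [Ψ.map_update_smul, hx, smul_zero]
      simpa using this (u i) (h1 i (Finset.mem_insert_self _ _))
  exact key Finset.univ u (fun j _ => hu j) (fun j hj => absurd (Finset.mem_univ j) hj)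

theorem R_all [Fintype J] (a : ∀ j, Module.End ℂ (M j)) (Ψ : MultilinearMap ℂ M ℂ)
    (hΨ : ∀ j, R j (a j) Ψ = Ψ) (u : ∀ j, M j) : Ψ u = Ψ fun j => a j (u j) := by
  have key : ∀ S : Finset J, Ψ u = Ψ fun j => if j ∈ S then a j (u j) else u j := by
    intro S
    induction S using Finset.induction_on with
    | empty => simp
    | insert i S hi ih =>
      rw [ih]
      conv_lhs => rw [← hΨ i, R_apply]
      congr 1
      funext k
      by_cases hk : k = i
      · subst hk
        simp [hi]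
      · simp [hk]
  simpa using key Finset.univ

end Pool.Agent.P.MP_e1a373_ag.B
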