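import Pool.Agent.P.MP_e1a373_ag.B.CG
import Pool.Agent.P.MP_e1a373_ag.B.Cat
import Pool.Agent.P.MP_e1a373_ag.B.Slot

/-!
Factorisation: removing one three-pointed component.
-/

open scoped TensorProduct Classical
open MvPolynomial

noncomputable section

namespace Pool.Agent.P.MP_e1a373_ag.B

theorem exists_spinePos (s t : ℂ) (hst : (s, t) ≠ 0) : ∃ Y, SpinePos s t Y := by
  obtain ⟨S, hS⟩ := exists_spine s t hst
  obtain ⟨Y, hY, -⟩ := exists_tree (n := 4) ⟨id, Function.surjective_id⟩ s t S hS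
  exact ⟨Y, hY⟩

section

variable {M : Type} [AddCommGroup M] [Module ℂ M]

theorem pl_bot {U : ℂ → ℂ → Set (Submodule ℂ M)} (hU : ∀ s t, ∀ V ∈ U s t, V = ⊥) :
    Framed U 0 :=
  ⟨Empty, inferInstance, fun _ => 0, fun _ _ _ => 0, by simp, fun j => j.elim, fun s t _ =>
    ⟨linearIndependent_empty_type, fun V hV => by rw [hU s t V hV, Set.range_eq_empty, Submodule.span_empty]⟩⟩

theorem pl_homog {d : ℕ} {ψ : ℂ → ℂ → M} (hψ : Homog d ψ) (g : M →ₗ[ℂ] M) :
    Homog d fun s t => g (ψ s t) := by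
  obtain ⟨c, hc⟩ := hψ
  exact ⟨fun i => g (c i), fun s t => by simp only [hc, map_sum, map_smul]⟩

theorem pl_sup {U U1 U2 : ℂ → ℂ → Set (Submodule ℂ M)} (f1 f2 : M →ₗ[ℂ] M)
    (hne : ∀ s t : ℂ, (s, t) ≠ 0 → (U s t).Nonempty)
    (hU : ∀ s t, ∀ V ∈ U s t, ∃ V1 ∈ U1 s t, ∃ V2 ∈ U2 s t, V = V1.map f1 ⊔ V2.map f2 ∧
      ∀ u1 ∈ V1, ∀ u2 ∈ V2, f1 u1 + f2 u2 = 0 → u1 = 0 ∧ u2 = 0) {d1 d2 : ℕ}
    (h1 : Framed U1 d1) (h2 : Framed U2 d2) : Framed U (d1 + d2) := by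
  obtain ⟨ι1, _, g1, ψ1, rfl, a1, b1⟩ := h1
  obtain ⟨ι2, _, g2, ψ2, rfl, a2, b2⟩ := h2
  refine ⟨ι1 ⊕ ι2, inferInstance, Sum.elim g1 g2,
    Sum.elim (fun j s t => f1 (ψ1 j s t)) (fun j s t => f2 (ψ2 j s t)), by simp, ?_,
    fun s t hst => ⟨?_, fun V hV => ?_⟩⟩
  · rintro (j | j)
    · exact pl_homog (a1 j) f1
    · exact pl_homog (a2 j) f2
  · obtain ⟨V, hV⟩ := hne s t hst
    obtain ⟨V1, hV1, V2, hV2, -, hi⟩ := hU s t V hV
    rw [(b1 s t hst).2 V1 hV1, (b2 s t hst).2 V2 hV2] at hi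
    rw [Fintype.linearIndependent_iff]
    intro c hc
    rw [Fintype.sum_sum_type] at hc
    simp only [Sum.elim_inl, Sum.elim_inr, ← map_smul, ← map_sum] at hc
    obtain ⟨e1, e2⟩ := hi _
      (sum_mem fun j _ => Submodule.smul_mem _ _ (Submodule.subset_span ⟨j, rfl⟩)) _
      (sum_mem fun j _ => Submodule.smul_mem _ _ (Submodule.subset_span ⟨j, rfl⟩)) hc
    rintro (j | j)
    · exact Fintype.linearIndependent_iff.1 (b1 s t hst).1 _ e1 j
    · exact Fintype.linearIndependent_iff.1 (b2 s t hst).1 _ e2 j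
  · obtain ⟨V1, hV1, V2, hV2, rfl, -⟩ := hU s t V hV
    rw [(b1 s t hst).2 V1 hV1, (b2 s t hst).2 V2 hV2, Submodule.map_span, Submodule.map_span,
      ← Submodule.span_union, ← Set.range_comp, ← Set.range_comp, ← Set.Sum.elim_range]
    congr 2
    funext j
    rcases j with j | j <;> rfl

end

variable {I : Type} [Fintype I]

/-- The truncated fusion rule. -/
def plC (a b N μ : ℕ) : Prop :=
  (a + b + μ) % 2 = 0 ∧ a ≤ b + μ ∧ b ≤ a + μ ∧ μ ≤ a + b ∧ a + b + μ < 2 * N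

theorem pl_main (l : ℕ) (P : Set (Fin 4 → ℂ) → Set (I → ℂ)) (lam : I → ℕ) {i j : I} (hij : i ≠ j)
    (hP : ∀ Y, ∀ x ∈ P Y, x i = x j) {α β : ℂ} (hα : α ≠ 0) (hβ : β ≠ 0) (hαβ : α ≠ β)
    (d : ℕ → ℕ) (M N : ℕ) : N ≤ M → ∀ a b : ℕ,
    (∀ μ, plC a b N μ → Framed (Fam l (wt lam i j μ 0) P) (d μ)) →
    Framed (fun s t => {U | ∃ Y, SpinePos s t Y ∧
      U = PB l (wt lam i j a b) (P Y) ⊓ LinearMap.ker (Dij i j α β ^ N)})
      (∑ μ ∈ Finset.range M, if plC a b N μ then d μ else 0) := by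
  induction N with
  | zero =>
    intro _ a b _
    rw [Finset.sum_eq_zero fun μ _ => if_neg (by unfold plC; omega)]
    refine pl_bot ?_
    rintro s t _ ⟨Y, -, rfl⟩
    rw [pow_zero, LinearMap.ker_eq_bot.2 (fun _ _ h => h), inf_bot_eq]
  | succ N ih =>
    intro hN a b hd
    have hne : ∀ s t : ℂ, (s, t) ≠ 0 → {U | ∃ Y, SpinePos s t Y ∧ U = PB l (wt lam i j a b) (P Y) ⊓
        LinearMap.ker (Dij i j α β ^ (N + 1))}.Nonempty := fun s t hst => by
      obtain ⟨Y, hY⟩ := exists_spinePos s t hst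
      exact ⟨_, Y, hY, rfl⟩
    have hds : ∀ Y, ∀ u ∈ PB l (wt lam i j (a + b) 0) (P Y), diag i j (sig i j a b u) = u :=
      fun Y u hu => by
        rw [diag_sig hij, diag_eq_self hij (Nat.le_zero.1 ((hu.1 j).trans_eq CG_wt_j))]
    have hsub : ∀ Y, ∀ F ∈ PB l (wt lam i j a b) (P Y),
        F - sig i j a b (diag i j F) ∈ PB l (wt lam i j a b) (P Y) ∧
          diag i j (F - sig i j a b (diag i j F)) = 0 := fun Y F hF =>
      ⟨sub_mem hF (sig_mem hij (hP Y) (diag_mem hij (hP Y) hF)), by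
        rw [map_sub, hds Y _ (diag_mem hij (hP Y) hF), sub_self]⟩
    have hbot : Framed (fun _ _ : ℂ => ({⊥} : Set (Submodule ℂ (MvPolynomial I ℂ)))) 0 :=
      pl_bot fun _ _ _ h => h
    have hone : a + b < N + 1 → ∑ μ ∈ Finset.range M, (if μ = a + b then d μ else 0) =
        d (a + b) := fun h => by
      rw [Finset.sum_ite_eq', if_pos (Finset.mem_range.2 (by omega))]
    by_cases hab : a = 0 ∨ b = 0
    · by_cases hlt : a + b < N + 1
      · rw [Finset.sum_congr rfl fun μ _ => if_congr (show plC a b (N + 1) μ ↔ μ = a + b by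
          unfold plC; omega) rfl rfl, hone hlt]
        refine pl_sup (sig i j a b) 0 hne ?_ (hd (a + b) (by unfold plC; omega)) hbot
        rintro s t _ ⟨Y, hY, rfl⟩
        refine ⟨_, ⟨Y, hY, rfl⟩, ⊥, rfl, ?_, fun u1 h1 u2 h2 h => ⟨?_, h2⟩⟩
        · rw [Submodule.map_bot, sup_bot_eq]
          refine le_antisymm (fun F hF => ⟨_, diag_mem hij (hP Y) hF.1, (sub_eq_zero.1
            (eq_zero_of_diag hij (hsub Y F hF.1).1 hab (hsub Y F hF.1).2)).symm⟩) ?_
          rintro _ ⟨u, hu, rfl⟩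
          exact ⟨sig_mem hij (hP Y) hu, Dij_pow_eq_zero hij α β (sig_mem hij (hP Y) hu) hlt⟩
        · rw [← hds Y u1 h1, ← add_zero (sig i j a b u1)]
          exact (congrArg (diag i j) h).trans (map_zero _)
      · rw [Finset.sum_eq_zero fun μ _ => if_neg (by unfold plC; omega)]
        refine pl_bot ?_
        rintro s t _ ⟨Y, -, rfl⟩
        exact eq_bot_iff.2 fun F hF => eq_zero_of_diag hij hF.1 hab
          (diag_eq_zero_of_pow hij (hP Y) hα hβ hF.1 (not_lt.1 hlt) hF.2)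
    · obtain ⟨a, rfl⟩ : ∃ a', a = a' + 1 := ⟨a - 1, by omega⟩
      obtain ⟨b, rfl⟩ : ∃ b', b = b' + 1 := ⟨b - 1, by omega⟩
      have ih' := ih (by omega) a b fun μ hμ => hd μ (by unfold plC at hμ ⊢; omega)
      have hdel : ∀ Y, (PB l (wt lam i j a b) (P Y) ⊓ LinearMap.ker (Dij i j α β ^ N)).map
          (LinearMap.mulLeft ℂ (X i - X j)) ≤ PB l (wt lam i j (a + 1) (b + 1)) (P Y) ⊓
            LinearMap.ker (Dij i j α β ^ (N + 1)) := by
        rintro Y _ ⟨u, hu, rfl⟩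
        exact ⟨del_mem hij (hP Y) hu.1, (Dij_pow_del hij hαβ u N).2 hu.2⟩
      by_cases hlt : a + 1 + (b + 1) < N + 1
      · have e1 : ∑ μ ∈ Finset.range M, (if plC (a + 1) (b + 1) (N + 1) μ then d μ else 0) =
            d (a + 1 + (b + 1)) + ∑ μ ∈ Finset.range M, if plC a b N μ then d μ else 0 := by
          rw [← hone hlt, ← Finset.sum_add_distrib]
          refine Finset.sum_congr rfl fun μ _ => ?_
          by_cases h1 : μ = a + 1 + (b + 1)
          · rw [if_pos h1, if_pos (by unfold plC; omega), if_neg (by unfold plC; omega), add_zero]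
          · rw [if_neg h1, zero_add]
            exact if_congr (by unfold plC; omega) rfl rfl
        rw [e1]
        refine pl_sup (sig i j (a + 1) (b + 1)) (LinearMap.mulLeft ℂ (X i - X j)) hne ?_
          (hd _ (by unfold plC; omega)) ih'
        rintro s t _ ⟨Y, hY, rfl⟩
        refine ⟨_, ⟨Y, hY, rfl⟩, _, ⟨Y, hY, rfl⟩, ?_, fun u1 h1 u2 _ h => ?_⟩
        · refine le_antisymm (fun F hF => ?_) (sup_le ?_ (hdel Y))
          · obtain ⟨F', h1, h2⟩ := exists_del hij (hP Y) (hsub Y F hF.1).1 (hsub Y F hF.1).2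
            rw [eq_add_of_sub_eq' h2]
            exact Submodule.add_mem_sup ⟨_, diag_mem hij (hP Y) hF.1, rfl⟩
              ⟨F', ⟨h1, Dij_pow_eq_zero hij α β h1 (by omega)⟩, rfl⟩
          · rintro _ ⟨u, hu, rfl⟩
            exact ⟨sig_mem hij (hP Y) hu, Dij_pow_eq_zero hij α β (sig_mem hij (hP Y) hu) hlt⟩
        · have h3 := congrArg (diag i j) h
          rw [map_add, hds Y u1 h1, LinearMap.mulLeft_apply, diag_del hij, add_zero,
            map_zero] at h3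
          rw [h3, map_zero, zero_add, LinearMap.mulLeft_apply] at h
          exact ⟨h3, (mul_eq_zero.1 h).resolve_left
            (sub_ne_zero.2 fun h => hij (X_injective h))⟩
      · rw [Finset.sum_congr rfl fun μ _ => if_congr (show plC (a + 1) (b + 1) (N + 1) μ ↔
          plC a b N μ by unfold plC; omega) rfl rfl, ← zero_add (Finset.sum _ _)]
        refine pl_sup 0 (LinearMap.mulLeft ℂ (X i - X j)) hne ?_ hbot ih'
        rintro s t _ ⟨Y, hY, rfl⟩
        refine ⟨⊥, rfl, _, ⟨Y, hY, rfl⟩, ?_, fun u1 h1 u2 _ h => ⟨h1, ?_⟩⟩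
        · rw [Submodule.map_bot, bot_sup_eq]
          refine le_antisymm (fun F hF => ?_) (hdel Y)
          obtain ⟨F', h1, rfl⟩ := exists_del hij (hP Y) hF.1
            (diag_eq_zero_of_pow hij (hP Y) hα hβ hF.1 (not_lt.1 hlt) hF.2)
          exact ⟨F', ⟨h1, (Dij_pow_del hij hαβ F' N).1 hF.2⟩, rfl⟩
        · rw [LinearMap.zero_apply, zero_add, LinearMap.mulLeft_apply] at h
          exact (mul_eq_zero.1 h).resolve_left (sub_ne_zero.2 fun h => hij (X_injective h))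

theorem pl_pow {l : ℕ} {lam : I → ℕ} {P : Set (I → ℂ)} {i j : I} (hij : i ≠ j) (x0 : I → ℂ)
    (r : ℂ) (h4 : ∀ k, k ≠ i → k ≠ j → lam k ≠ 0 → x0 k = r) {F : MvPolynomial I ℂ}
    (hF : F ∈ PB l lam P) (n : ℕ) :
    (Dx x0 ^ n) F = (Dij i j (x0 i - r) (x0 j - r) ^ n) F := by
  have hc : ∀ x : I → ℂ, Commute (Dij i j (x0 i - r) (x0 j - r)) (Dx x) := fun x =>
    (((CG_Dx_commute x i).symm.smul_left _).add_left ((CG_Dx_commute x j).symm.smul_left _))
  rw [← add_sub_cancel (Dij i j (x0 i - r) (x0 j - r)) (Dx x0)]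
  refine add_pow_apply ((hc x0).sub_right (Commute.refl _)) ?_ n
  have h1 : r • Dx 1 F = 0 := by rw [hF.2.1, smul_zero]
  have h2 : Dx x0 F = Dx x0 F - r • Dx 1 F := by rw [h1, sub_zero]
  rw [LinearMap.sub_apply, h2]
  simp only [Dx, Dij, LinearMap.sum_apply, LinearMap.smul_apply, LinearMap.add_apply,
    Finset.smul_sum, Pi.one_apply, one_smul, ← Finset.sum_sub_distrib, ← sub_smul]
  rw [← Finset.add_sum_erase _ _ (Finset.mem_univ i),
    ← Finset.add_sum_erase _ _ (show j ∈ Finset.univ.erase i by simp [hij.symm]),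
    Finset.sum_eq_zero, add_zero, sub_self]
  intro k hk
  simp only [Finset.mem_erase] at hk
  by_cases h0 : lam k = 0
  · have := (degreeOf_le_iff_pderiv k F 0).1 ((hF.1 k).trans_eq h0)
    rw [zero_add, pow_one] at this
    rw [this, smul_zero]
  · rw [h4 k hk.2.1 hk.1 h0, sub_self, zero_smul]

theorem peel {I : Type} [Fintype I] (l : ℕ) (P : Set (Fin 4 → ℂ) → Set (I → ℂ)) (lam : I → ℕ)
    (i j : I) (hij : i ≠ j) (hP : ∀ Y, ∀ x ∈ P Y, x i = x j) (x0 : I → ℂ) (r : ℂ)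
    (h1 : x0 i ≠ x0 j) (h2 : x0 i ≠ r) (h3 : x0 j ≠ r)
    (h4 : ∀ k, k ≠ i → k ≠ j → lam k ≠ 0 → x0 k = r) (d : ℕ → ℕ)
    (hd : ∀ μ, Fus l (lam i) (lam j) μ → Framed (Fam l (wt lam i j μ 0) P) (d μ)) :
    Framed (Fam l lam fun Y => insert x0 (P Y))
      (∑ μ ∈ Finset.range (l + 1), if Fus l (lam i) (lam j) μ then d μ else 0) := by
  have hC : ∀ μ, plC (lam i) (lam j) (l + 1) μ ↔ Fus l (lam i) (lam j) μ := fun μ => by
    unfold plC Fus
    omega
  have hw : wt lam i j (lam i) (lam j) = lam := by simp [wt]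
  have := pl_main l P lam hij hP (sub_ne_zero.2 h2) (sub_ne_zero.2 h3)
    (fun h => h1 (sub_left_injective h)) d (l + 1) (l + 1) le_rfl (lam i) (lam j)
    fun μ hμ => hd μ ((hC μ).1 hμ)
  rw [hw, Finset.sum_congr rfl fun μ _ => if_congr (hC μ) rfl rfl] at this
  convert this using 1
  funext s t
  refine Set.ext fun U => exists_congr fun Y => and_congr_right fun _ => ?_
  rw [iff_iff_eq]
  congr 1
  ext F
  constructor
  · intro hF
    have hF' : F ∈ PB l lam (P Y) := ⟨hF.1, hF.2.1, hF.2.2.1, fun x hx => hF.2.2.2 x (Or.inr hx)⟩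
    exact ⟨hF', (pl_pow hij x0 r h4 hF' _).symm.trans (hF.2.2.2 x0 (Or.inl rfl))⟩
  · rintro ⟨hF, h⟩
    refine ⟨hF.1, hF.2.1, hF.2.2.1, ?_⟩
    rintro x (rfl | hx)
    · exact (pl_pow hij x r h4 hF _).trans h
    · exact hF.2.2.2 x hx

end Pool.Agent.P.MP_e1a373_ag.B
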