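import Pool.Agent.P.MP_e1a373_ag.B.Four
import Pool.Agent.P.MP_e1a373_ag.B.Peel

/-!
The degree of the bundle of blocks on an F-curve.
-/

open scoped TensorProduct Classical

noncomputable section

namespace Pool.Agent.P.MP_e1a373_ag.B

open MvPolynomial

theorem deg_homog_map {M N : Type} [AddCommGroup M] [Module ℂ M] [AddCommGroup N] [Module ℂ N]
    (φ : M →ₗ[ℂ] N) {d : ℕ} {ψ : ℂ → ℂ → M} (hψ : Homog d ψ) :
    Homog d fun s t => φ (ψ s t) := by
  obtain ⟨c, hc⟩ := hψ
  refine ⟨fun i => φ (c i), fun s t => ?_⟩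
  simp only [hc, map_sum, map_smul]

theorem deg_framed_map {M N : Type} [AddCommGroup M] [Module ℂ M] [AddCommGroup N] [Module ℂ N]
    (φ : M →ₗ[ℂ] N) (hφ : Function.Injective φ) {B : ℂ → ℂ → Set (Submodule ℂ M)}
    {B' : ℂ → ℂ → Set (Submodule ℂ N)} {d : ℕ} (hB : Framed B d)
    (hB' : ∀ s t, ∀ U ∈ B' s t, ∃ U0 ∈ B s t, U = U0.map φ) : Framed B' d := by
  obtain ⟨ι, inst, deg, ψ, h1, h2, h3⟩ := hB
  refine ⟨ι, inst, deg, fun j s t => φ (ψ j s t), h1, fun j => deg_homog_map φ (h2 j),
    fun s t hst => ⟨?_, fun U hU => ?_⟩⟩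
  · exact ((h3 s t hst).1.map' φ (LinearMap.ker_eq_bot.2 hφ))
  · obtain ⟨U0, hU0, rfl⟩ := hB' s t U hU
    rw [(h3 s t hst).2 U0 hU0, Submodule.map_span, ← Set.range_comp]
    rfl

section Rename

variable {I J : Type} [Fintype I] [Fintype J] {o : J → I}

omit [Fintype I] [Fintype J] in
theorem deg_pderiv_out (F : MvPolynomial J ℂ) {k : I} (hk : k ∉ Set.range o) :
    pderiv k (rename o F) = 0 := by
  apply pderiv_eq_zero_of_notMem_vars
  intro h
  obtain ⟨j, -, hj⟩ := Finset.mem_image.1 (vars_rename o F h)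
  exact hk ⟨j, hj⟩

omit [Fintype I] [Fintype J] in
theorem deg_degreeOf_out (F : MvPolynomial J ℂ) {k : I} (hk : k ∉ Set.range o) :
    degreeOf k (rename o F) = 0 := by
  by_contra h
  obtain ⟨j, -, hj⟩ := Finset.mem_image.1 (vars_rename o F (mem_vars_iff_degreeOf_ne_zero.2 h))
  exact hk ⟨j, hj⟩

theorem deg_sum_range {M : Type} [AddCommMonoid M] (ho : Function.Injective o) (u : I → M)
    (hu : ∀ k, k ∉ Set.range o → u k = 0) : ∑ k, u k = ∑ j, u (o j) := by
  rw [← Finset.sum_image (s := Finset.univ) (f := u) (g := o) (fun a _ b _ h => ho h)]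
  symm
  apply Finset.sum_subset (Finset.subset_univ _)
  intro k _ hk
  apply hu
  rintro ⟨j, rfl⟩
  exact hk (Finset.mem_image_of_mem o (Finset.mem_univ j))

theorem deg_Dx (ho : Function.Injective o) (x : I → ℂ) (F : MvPolynomial J ℂ) :
    Dx x (rename o F) = rename o (Dx (x ∘ o) F) := by
  simp only [Dx, LinearMap.sum_apply, LinearMap.smul_apply, map_sum, map_smul]
  rw [deg_sum_range ho]
  · refine Finset.sum_congr rfl fun j _ => ?_
    have := pderiv_rename ho j F
    simp only [Derivation.coeFn_coe, this, Function.comp]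
  · intro k hk
    have := deg_pderiv_out F hk
    simp only [Derivation.coeFn_coe, this, smul_zero]

theorem deg_Dx_pow (ho : Function.Injective o) (x : I → ℂ) (N : ℕ) (F : MvPolynomial J ℂ) :
    (Dx x ^ N) (rename o F) = rename o ((Dx (x ∘ o) ^ N) F) := by
  induction N with
  | zero => simp
  | succ N ih => rw [pow_succ', pow_succ', Module.End.mul_apply, Module.End.mul_apply, ih, deg_Dx ho]

theorem deg_Fi (ho : Function.Injective o) (lam : I → ℕ) (h0 : ∀ k, k ∉ Set.range o → lam k = 0)
    (F : MvPolynomial J ℂ) :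
    (∑ k, Fi (lam k) k) (rename o F) = rename o ((∑ j, Fi (lam (o j)) j) F) := by
  simp only [LinearMap.sum_apply, map_sum]
  rw [deg_sum_range ho]
  · refine Finset.sum_congr rfl fun j _ => ?_
    have := pderiv_rename ho j F
    simp only [Fi, LinearMap.sub_apply, LinearMap.smul_apply, LinearMap.mulLeft_apply,
      Module.End.mul_apply, Derivation.coeFn_coe, this, map_sub, map_smul, map_mul, map_pow,
      rename_X]
  · intro k hk
    have := deg_pderiv_out F hk
    simp only [Fi, LinearMap.sub_apply, LinearMap.zero_apply, LinearMap.mulLeft_apply,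
      Module.End.mul_apply, Derivation.coeFn_coe, this, h0 k hk, Nat.cast_zero, zero_smul,
      mul_zero, sub_zero]

theorem deg_PB_rename (l : ℕ) (lam : I → ℕ) (g : I → J) (hg : ∀ b, g (o b) = b)
    (h0 : ∀ k, k ∉ Set.range o → lam k = 0) (Y : Set (J → ℂ)) :
    PB l lam ((fun y => y ∘ g) '' Y) =
      (PB l (fun b => lam (o b)) Y).map (rename o : _ →ₐ[ℂ] MvPolynomial I ℂ).toLinearMap := by
  have ho : Function.Injective o := Function.LeftInverse.injective hg
  have hr : Function.Injective (rename o : MvPolynomial J ℂ → MvPolynomial I ℂ) :=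
    rename_injective o ho
  have key : ∀ F : MvPolynomial J ℂ, rename o F ∈ PB l lam ((fun y => y ∘ g) '' Y) ↔
      F ∈ PB l (fun b => lam (o b)) Y := by
    intro F
    have e1 : Dx (1 : I → ℂ) (rename o F) = rename o (Dx 1 F) := deg_Dx ho 1 F
    have e3 : ∀ y : J → ℂ, (Dx (y ∘ g) ^ (l + 1)) (rename o F) =
        rename o ((Dx y ^ (l + 1)) F) := by
      intro y
      rw [deg_Dx_pow ho]
      have : (y ∘ g) ∘ o = y := funext fun b => by simp [hg]
      rw [this]
    constructor
    · rintro ⟨a1, a2, a3, a4⟩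
      refine ⟨fun b => ?_, hr ?_, hr ?_, fun y hy => hr ?_⟩
      · have := a1 (o b)
        rwa [degreeOf_rename_of_injective ho] at this
      · rw [← e1, a2, map_zero]
      · rw [← deg_Fi ho lam h0, a3, map_zero]
      · rw [← e3, a4 _ ⟨y, hy, rfl⟩, map_zero]
    · rintro ⟨a1, a2, a3, a4⟩
      refine ⟨fun k => ?_, ?_, ?_, ?_⟩
      · by_cases hk : k ∈ Set.range o
        · obtain ⟨b, rfl⟩ := hk
          rw [degreeOf_rename_of_injective ho]
          exact a1 b
        · rw [deg_degreeOf_out F hk]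
          exact Nat.zero_le _
      · rw [e1, a2, map_zero]
      · rw [deg_Fi ho lam h0, a3, map_zero]
      · rintro _ ⟨y, hy, rfl⟩
        rw [e3, a4 y hy, map_zero]
  ext F
  constructor
  · intro hF
    have hv : (F.vars : Set I) ⊆ Set.range o := by
      intro k hk
      by_contra hk'
      have h1 := hF.1 k
      rw [h0 k hk'] at h1
      exact mem_vars_iff_degreeOf_ne_zero.1 hk (Nat.le_zero.1 h1)
    obtain ⟨F', rfl⟩ := exists_rename_eq_of_vars_subset_range F o ho hv
    exact ⟨F', (key F').1 hF, rfl⟩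
  · rintro ⟨F', hF', rfl⟩
    exact (key F').2 hF'

end Rename

theorem four' {I : Type} [Fintype I] (l : ℕ) (lam : I → ℕ) (hl : ∀ k, lam k ≤ l) (o : Fin 4 → I)
    (g : I → Fin 4) (hg : ∀ b, g (o b) = b) (h0 : ∀ k, k ∉ Set.range o → lam k = 0) :
    Framed (Fam l lam fun Y => (fun y => y ∘ g) '' Y)
      (deg4 l (lam (o 0)) (lam (o 1)) (lam (o 2)) (lam (o 3))) := by
  refine deg_framed_map (rename o : _ →ₐ[ℂ] MvPolynomial I ℂ).toLinearMap
    (rename_injective o (Function.LeftInverse.injective hg))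
    (four l (fun b => lam (o b)) fun b => hl _) ?_
  rintro s t _ ⟨Y, hY, rfl⟩
  exact ⟨_, ⟨Y, hY, rfl⟩, deg_PB_rename l lam g hg h0 Y⟩

theorem deg_rank_zeros (l : ℕ) (Z : List ℕ) (hZ : ∀ z ∈ Z, z = 0) (m : ℕ) :
    rank l Z m = if m = 0 then 1 else 0 := by
  induction Z generalizing m with
  | nil => rfl
  | cons a Z ih =>
    have ha : a = 0 := hZ a (by simp)
    subst ha
    rw [← rank_one l 0 m (Nat.zero_le _)]
    simp only [rank, ih fun z hz => hZ z (List.mem_cons_of_mem _ hz)]

theorem deg_rank_append_zeros (l : ℕ) (L Z : List ℕ) (hZ : ∀ z ∈ Z, z = 0) (m : ℕ) :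
    rank l (L ++ Z) m = rank l L m := by
  induction L generalizing m with
  | nil => exact deg_rank_zeros l Z hZ m
  | cons a L ih => simp only [List.cons_append, rank, ih]

theorem deg_rank_fuse (l a b : ℕ) (hb : b ≤ l) (L : List ℕ) (m : ℕ) :
    rank l (L ++ [a, b]) m =
      ∑ μ ∈ Finset.range (l + 1), if Fus l a b μ then rank l (L ++ [μ]) m else 0 := by
  induction L generalizing m with
  | nil =>
    rw [List.nil_append, rank_two l a b m hb]
    have h1 : ∀ μ ∈ Finset.range (l + 1), (if Fus l a b μ then rank l ([] ++ [μ]) m else 0) =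
        if m = μ then (if Fus l a b μ then 1 else 0) else 0 := by
      intro μ hμ
      rw [List.nil_append, rank_one l μ m (Nat.lt_succ_iff.1 (Finset.mem_range.1 hμ))]
      split_ifs <;> rfl
    rw [Finset.sum_congr rfl h1, Finset.sum_ite_eq]
    by_cases hf : Fus l a b m
    · have : m ∈ Finset.range (l + 1) := by
        unfold Fus at hf
        exact Finset.mem_range.2 (by omega)
      simp [this]
    · simp [hf]
  | cons c L ih =>
    simp only [List.cons_append, rank, ih]
    have h1 : ∀ (p : Prop) [Decidable p] (u : ℕ → ℕ),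
        (if p then ∑ v ∈ Finset.range (l + 1), u v else 0) =
          ∑ v ∈ Finset.range (l + 1), if p then u v else 0 := by
      intro p _ u
      split_ifs <;> simp
    simp only [h1]
    rw [Finset.sum_comm]
    refine Finset.sum_congr rfl fun μ _ => Finset.sum_congr rfl fun v _ => ?_
    split_ifs <;> rfl

theorem deg_prod_split (b0 : Fin 4) (r : Fin 4 → ℕ → ℕ) (r' : ℕ → Fin 4 → ℕ → ℕ) (p : ℕ → Prop)
    [DecidablePred p] (S : Finset ℕ)
    (h1 : ∀ v, r b0 v = ∑ μ ∈ S, if p μ then r' μ b0 v else 0)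
    (h2 : ∀ μ k, k ≠ b0 → r' μ k = r k) (w : Fin 4 → ℕ) :
    ∏ k, r k (w k) = ∑ μ ∈ S, if p μ then ∏ k, r' μ k (w k) else 0 := by
  rw [← Finset.mul_prod_erase _ _ (Finset.mem_univ b0), h1, Finset.sum_mul]
  refine Finset.sum_congr rfl fun μ _ => ?_
  split_ifs
  · rw [← Finset.mul_prod_erase _ _ (Finset.mem_univ b0)]
    congr 1
    exact Finset.prod_congr rfl fun k hk => by rw [h2 μ k (Finset.ne_of_mem_erase hk)]
  · simp

theorem deg_cbNat_split {n : ℕ} (l : ℕ) (F : FCurve n) (lam : Fin n → ℕ) (lam' : ℕ → Fin n → ℕ)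
    (b0 : Fin 4) (p : ℕ → Prop) [DecidablePred p] (S : Finset ℕ)
    (h1 : ∀ v, rank l (block lam F b0) v =
      ∑ μ ∈ S, if p μ then rank l (block (lam' μ) F b0) v else 0)
    (h2 : ∀ μ k, k ≠ b0 → block (lam' μ) F k = block lam F k) :
    cbNat l lam F = ∑ μ ∈ S, if p μ then cbNat l (lam' μ) F else 0 := by
  have key : ∀ a b c d : ℕ, rank l (block lam F 0) a * rank l (block lam F 1) b *
      rank l (block lam F 2) c * rank l (block lam F 3) d =
      ∑ μ ∈ S, if p μ then rank l (block (lam' μ) F 0) a * rank l (block (lam' μ) F 1) b *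
        rank l (block (lam' μ) F 2) c * rank l (block (lam' μ) F 3) d else 0 := by
    intro a b c d
    have := deg_prod_split b0 (fun k => rank l (block lam F k))
      (fun μ k => rank l (block (lam' μ) F k)) p S h1
      (fun μ k hk => by rw [h2 μ k hk]) ![a, b, c, d]
    simpa only [Fin.prod_univ_four, Matrix.cons_val_zero, Matrix.cons_val_one, Matrix.cons_val]
      using this
  have h3 : ∀ (q : Prop) [Decidable q] (u : ℕ → ℕ),
      (if q then ∑ v ∈ Finset.range (l + 1), u v else 0) =
        ∑ v ∈ Finset.range (l + 1), if q then u v else 0 := by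
    intro q _ u
    split_ifs <;> simp
  simp only [cbNat, key, h3, Finset.mul_sum, mul_ite, mul_zero]
  rw [Finset.sum_comm (s := S)]
  refine Finset.sum_congr rfl fun a _ => ?_
  rw [Finset.sum_comm (s := S)]
  refine Finset.sum_congr rfl fun b _ => ?_
  rw [Finset.sum_comm (s := S)]
  refine Finset.sum_congr rfl fun c _ => ?_
  rw [Finset.sum_comm (s := S)]

/-- The elements of a block before and after a given element. -/
theorem deg_block_split {n : ℕ} (F : FCurve n) (i : Fin n) :
    ∃ s t : List (Fin n), (List.finRange n).filter (fun j => F.1 j = F.1 i) = s ++ i :: t ∧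
      (∀ k ∈ s, k < i ∧ F.1 k = F.1 i) ∧ (∀ k, k ∈ t ↔ i < k ∧ F.1 k = F.1 i) ∧
        t.Pairwise (· < ·) := by
  have hmem : ∀ k, k ∈ (List.finRange n).filter (fun j => F.1 j = F.1 i) ↔ F.1 k = F.1 i := by
    intro k
    simp
  have hp : ((List.finRange n).filter (fun j => F.1 j = F.1 i)).Pairwise (· < ·) :=
    (List.pairwise_lt_finRange n).filter _
  obtain ⟨s, t, hst⟩ := List.append_of_mem ((hmem i).2 rfl)
  rw [hst] at hp hmem
  rw [List.pairwise_append, List.pairwise_cons] at hp
  obtain ⟨-, ⟨h2, h3⟩, h4⟩ := hp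
  refine ⟨s, t, hst, fun k hk => ⟨h4 k hk i (by simp), (hmem k).1 (by simp [hk])⟩,
    fun k => ⟨fun hk => ⟨h2 k hk, (hmem k).1 (by simp [hk])⟩, fun hk => ?_⟩, h3⟩
  have := (hmem k).2 hk.2
  simp only [List.mem_append, List.mem_cons] at this
  rcases this with h | h | h
  · exact absurd (h4 k h i (by simp)) (lt_asymm hk.1)
  · exact absurd h hk.1.ne'
  · exact h

theorem deg_base {n : ℕ} (l : ℕ) (F : FCurve n) (lam : Fin n → ℕ) (hl : ∀ i, lam i ≤ l)
    (hI : ∀ k k', k < k' → F.1 k = F.1 k' → lam k' = 0) :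
    Framed (Fam l lam (allPos F 0)) (cbNat l lam F) := by
  have hex : ∀ b, ∃ i, F.1 i = b ∧ ∀ k, F.1 k = b → i ≤ k := by
    intro b
    obtain ⟨i, hi, hmin⟩ := Finset.exists_min_image (Finset.univ.filter fun k => F.1 k = b) id
      (by
        obtain ⟨k, hk⟩ := F.2 b
        exact ⟨k, by simp [hk]⟩)
    exact ⟨i, by simpa using hi, fun k hk => hmin k (by simp [hk])⟩
  choose o ho1 ho2 using hex
  have hr : ∀ b v, rank l (block lam F b) v = if v = lam (o b) then 1 else 0 := by
    intro b v
    obtain ⟨s, t, h1, h2, h3, -⟩ := deg_block_split F (o b)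
    have hs : s = [] := by
      rw [List.eq_nil_iff_forall_not_mem]
      intro k hk
      exact absurd (ho2 b k ((h2 k hk).2.trans (ho1 b))) (not_le.2 (h2 k hk).1)
    rw [ho1 b] at h1
    rw [block, h1, hs, List.nil_append, List.map_cons, ← rank_one l _ v (hl _)]
    refine deg_rank_append_zeros l [lam (o b)] _ (fun z hz => ?_) v
    obtain ⟨k, hk, rfl⟩ := List.mem_map.1 hz
    exact hI _ _ ((h3 k).1 hk).1 ((h3 k).1 hk).2.symm
  have hc : cbNat l lam F = deg4 l (lam (o 0)) (lam (o 1)) (lam (o 2)) (lam (o 3)) := by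
    have hm : ∀ b, lam (o b) ∈ Finset.range (l + 1) :=
      fun b => Finset.mem_range.2 (Nat.lt_succ_of_le (hl _))
    simp only [cbNat, hr, mul_ite, mul_one, mul_zero, Finset.sum_ite_eq', hm, if_true]
  have hP : allPos F 0 = fun Y => (fun y => y ∘ F.1) '' Y := by
    funext Y
    simp [allPos]
  rw [hc, hP]
  refine four' l lam hl o F.1 ho1 fun k hk => ?_
  refine hI (o (F.1 k)) k (lt_of_le_of_ne (ho2 _ k rfl) fun h => hk ⟨_, h⟩) (ho1 _)

theorem deg_ind {n : ℕ} (l : ℕ) (F : FCurve n) (m : ℕ) (hm : m ≤ n) (lam : Fin n → ℕ)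
    (hl : ∀ i, lam i ≤ l) (hI : ∀ k k', k < k' → F.1 k = F.1 k' → m ≤ k.1 → lam k' = 0) :
    Framed (Fam l lam (allPos F m)) (cbNat l lam F) := by
  induction m generalizing lam with
  | zero => exact deg_base l F lam hl fun k k' h1 h2 => hI k k' h1 h2 (Nat.zero_le _)
  | succ m ih =>
    obtain ⟨i, rfl⟩ : ∃ i : Fin n, i.1 = m := ⟨⟨m, hm⟩, rfl⟩
    obtain ⟨s, t, h1, h2, h3, h4⟩ := deg_block_split F i
    have hbel : ∀ k k' : Fin n, k ∈ below F k' ↔ k < k' ∧ F.1 k = F.1 k' := by
      intro k k'
      simp [below]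
    rcases t with _ | ⟨j, t⟩
    · have hno : ∀ k, i < k → F.1 k ≠ F.1 i := fun k hk hk' => by
        simpa using (h3 k).2 ⟨hk, hk'⟩
      have hP : allPos F (i.1 + 1) = allPos F i.1 := by
        funext Y
        unfold allPos
        congr 1
        ext x
        constructor
        · rintro ⟨k, hk, rfl⟩
          refine ⟨k, lt_of_le_of_ne (Nat.lt_succ_iff.1 hk) fun h => ?_, rfl⟩
          obtain ⟨k', hk'⟩ := k.2
          rw [Fin.ext h, hbel] at hk'
          exact hno k' hk'.1 hk'.2.symm
        · rintro ⟨k, hk, rfl⟩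
          exact ⟨k, Nat.lt_succ_of_lt hk, rfl⟩
      rw [hP]
      refine ih (Nat.le_of_succ_le hm) lam hl fun k k' a1 a2 a3 => ?_
      rcases a3.lt_or_eq with h | h
      · exact hI k k' a1 a2 h
      · rw [← Fin.ext h] at a1 a2
        exact absurd a2.symm (hno k' a1)
    · obtain ⟨hij, hF⟩ := (h3 j).1 (by simp)
      rw [List.pairwise_cons] at h4
      have ht : ∀ k, i < k → F.1 k = F.1 i → k ≠ j → j < k := by
        intro k a1 a2 a3
        rcases List.mem_cons.1 ((h3 k).2 ⟨a1, a2⟩) with h | h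
        · exact absurd h a3
        · exact h4.1 k h
      have hz : ∀ k, i < k → F.1 k = F.1 i → k ≠ j → lam k = 0 := fun k a1 a2 a3 =>
        hI j k (ht k a1 a2 a3) (hF.trans a2.symm) hij
      have hwt : ∀ μ k, k ≠ i → k ≠ j → wt lam i j μ 0 k = lam k := by
        intro μ k a1 a2
        simp [wt, a1, a2]
      have hwi : ∀ μ, wt lam i j μ 0 i = μ := by
        intro μ
        simp [wt, hij.ne]
      have hwj : ∀ μ, wt lam i j μ 0 j = 0 := by
        intro μ
        simp [wt]
      have hP : allPos F (i.1 + 1) = fun Y => insert (tailPos F i) (allPos F i.1 Y) := by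
        funext Y
        unfold allPos
        rw [← Set.union_insert]
        congr 1
        ext x
        constructor
        · rintro ⟨k, hk, rfl⟩
          rcases (Nat.lt_succ_iff.1 hk).lt_or_eq with h | h
          · exact Or.inr ⟨k, h, rfl⟩
          · exact Or.inl (by rw [Fin.ext h])
        · rintro (rfl | ⟨k, hk, rfl⟩)
          · exact ⟨⟨i, j, (hbel i j).2 ⟨hij, hF.symm⟩⟩, Nat.lt_succ_self _, rfl⟩
          · exact ⟨k, Nat.lt_succ_of_lt hk, rfl⟩
      have hc : cbNat l lam F = ∑ μ ∈ Finset.range (l + 1),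
          if Fus l (lam i) (lam j) μ then cbNat l (wt lam i j μ 0) F else 0 := by
        refine deg_cbNat_split l F lam (fun μ => wt lam i j μ 0) (F.1 i) _ _ (fun v => ?_)
          fun μ b hb => ?_
        · have hzt : ∀ k ∈ t, lam k = 0 ∧ k ≠ i ∧ k ≠ j := by
            intro k hk
            have a1 := (h3 k).1 (List.mem_cons_of_mem _ hk)
            have a2 := h4.1 k hk
            exact ⟨hz k a1.1 a1.2 a2.ne', a1.1.ne', a2.ne'⟩
          have e1 : block lam F (F.1 i) = (s.map lam ++ [lam i, lam j]) ++ t.map lam := by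
            rw [block, h1]
            simp
          have e2 : ∀ μ, block (wt lam i j μ 0) F (F.1 i) =
              (s.map lam ++ [μ]) ++ 0 :: t.map lam := by
            intro μ
            rw [block, h1, List.map_append, List.map_cons, List.map_cons, hwi, hwj,
              List.map_congr_left fun k hk => hwt μ k (h2 k hk).1.ne ((h2 k hk).1.trans hij).ne,
              List.map_congr_left fun k hk => hwt μ k (hzt k hk).2.1 (hzt k hk).2.2]
            simp
          have e3 : ∀ z ∈ t.map lam, z = 0 := by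
            intro z hz'
            obtain ⟨k, hk, rfl⟩ := List.mem_map.1 hz'
            exact (hzt k hk).1
          rw [e1, deg_rank_append_zeros l _ _ e3, deg_rank_fuse l _ _ (hl j)]
          refine Finset.sum_congr rfl fun μ _ => ?_
          rw [e2, deg_rank_append_zeros l _ (0 :: t.map lam)]
          intro z hz'
          rcases List.mem_cons.1 hz' with h | h
          · exact h
          · exact e3 z h
        · unfold block
          refine List.map_congr_left fun k hk => ?_
          have hk' : F.1 k = b := by simpa using hk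
          refine hwt μ k (fun h => hb ?_) fun h => hb ?_
          · rw [← hk', h]
          · rw [← hk', h, hF]
      have xi1 : tailPos F i i = 1 := by simp [tailPos]
      have xj2 : tailPos F i j = 2 := by simp [tailPos, hij.ne', hij, hF]
      rw [hP, hc]
      refine peel l (allPos F i.1) lam i j hij.ne ?_ (tailPos F i) 0 ?_ ?_ ?_ ?_
        (fun μ => cbNat l (wt lam i j μ 0) F) fun μ hμ => ?_
      · rintro Y x (⟨y, -, rfl⟩ | ⟨k, hk, rfl⟩)
        · simp [hF]
        · have a1 : k.1 < i := hk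
          have a2 : k.1 < j := a1.trans hij
          simp [tailPos, a1, a2, a1.ne', a2.ne', hF]
      · rw [xi1, xj2]
        norm_num
      · rw [xi1]
        norm_num
      · rw [xj2]
        norm_num
      · intro k a1 a2 a3
        rw [tailPos, if_neg a1, if_neg]
        rintro ⟨a4, a5⟩
        exact a3 (hz k a4 a5.symm a2)
      · refine ih (Nat.le_of_succ_le hm) _ (fun k => ?_) fun k k' a1 a2 a3 => ?_
        · by_cases a1 : k = i
          · rw [a1, hwi]
            unfold Fus at hμ
            omega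
          · by_cases a2 : k = j
            · rw [a2, hwj]
              exact Nat.zero_le _
            · rw [hwt μ k a1 a2]
              exact hl k
        · have a4 : i < k' := lt_of_le_of_lt (show i ≤ k from a3) a1
          by_cases a5 : k' = j
          · rw [a5, hwj]
          · rw [hwt μ k' a4.ne' a5]
            rcases a3.lt_or_eq with h | h
            · exact hI k k' a1 a2 h
            · rw [← Fin.ext h] at a2
              exact hz k' a4 a2.symm a5

theorem framed_all {n : ℕ} (l : ℕ) (lam : Fin n → ℕ) (hl : ∀ i, lam i ≤ l) (F : FCurve n) :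
    Framed (Fam l lam (allPos F n)) (cbNat l lam F) :=
  deg_ind l F n le_rfl lam hl fun k _ _ _ h => absurd k.2 (not_lt.2 h)

end Pool.Agent.P.MP_e1a373_ag.B
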