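import Pool.Agent.P.MP_e1a373_ag.B.CG

/-!
The first fundamental theorem of invariant theory for sl_2.
-/

open scoped TensorProduct Classical

noncomputable section

namespace Pool.Agent.P.MP_e1a373_ag.B

open MvPolynomial

theorem FFT_wt_self {I : Type} {i j : I} (a : I → ℕ) : wt a i j (a i) (a j) = a := by
  simp [wt]

theorem FFT_wt_i {I : Type} {i j : I} (hij : i ≠ j) (a : I → ℕ) (x y : ℕ) : wt a i j x y i = x := by
  simp [wt, Function.update_of_ne hij]

theorem FFT_wt_j {I : Type} {i j : I} (a : I → ℕ) (x y : ℕ) : wt a i j x y j = y := by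
  simp [wt]

theorem FFT_wt_k {I : Type} {i j k : I} (hi : k ≠ i) (hj : k ≠ j) (a : I → ℕ) (x y : ℕ) :
    wt a i j x y k = a k := by
  simp [wt, Function.update_of_ne hi, Function.update_of_ne hj]

theorem FFT_wt_add {I : Type} {i j : I} (hij : i ≠ j) (a : I → ℕ) (x y : ℕ) :
    wt a i j x y + Pi.single i 1 + Pi.single j 1 = wt a i j (x + 1) (y + 1) := by
  funext k
  by_cases hi : k = i
  · subst hi
    simp [FFT_wt_i hij, Pi.single_eq_of_ne hij]
  · by_cases hj : k = j
    · subst hj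
      simp [FFT_wt_j, Pi.single_eq_of_ne hi]
    · simp [FFT_wt_k hi hj, Pi.single_eq_of_ne hi, Pi.single_eq_of_ne hj]

theorem FFT_wt_shift {I : Type} {i j : I} (hij : i ≠ j) (a : I → ℕ) (x y : ℕ) :
    wt a i j x (y + 1) + Pi.single i 1 = wt a i j (x + 1) y + Pi.single j 1 := by
  funext k
  by_cases hi : k = i
  · subst hi
    simp [FFT_wt_i hij, Pi.single_eq_of_ne hij]
  · by_cases hj : k = j
    · subst hj
      simp [FFT_wt_j, Pi.single_eq_of_ne hi]
    · simp [FFT_wt_k hi hj, Pi.single_eq_of_ne hi, Pi.single_eq_of_ne hj]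

theorem FFT_sum_wt {I : Type} [Fintype I] {i j : I} (hij : i ≠ j) (φ : ℕ → ℕ) (a : I → ℕ)
    (x y : ℕ) : ∑ k, φ (wt a i j x y k) =
      φ x + (φ y + ∑ k ∈ (Finset.univ.erase i).erase j, φ (a k)) := by
  rw [← Finset.add_sum_erase _ _ (Finset.mem_univ i), FFT_wt_i hij,
    ← Finset.add_sum_erase (Finset.univ.erase i) _
      (Finset.mem_erase.2 ⟨hij.symm, Finset.mem_univ j⟩), FFT_wt_j]
  congr 2
  refine Finset.sum_congr rfl fun k hk => ?_
  obtain ⟨h1, h2⟩ := Finset.mem_erase.1 hk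
  rw [FFT_wt_k (Finset.mem_erase.1 h2).1 h1]

theorem Br.mem {I : Type} [Fintype I] (l : ℕ) {a : I → ℕ} {F : MvPolynomial I ℂ} (hF : Br a F) :
    F ∈ PB l a ∅ := by
  induction hF with
  | one =>
    refine ⟨fun i => by simp, ?_, ?_, fun x hx => hx.elim⟩
    · simp [Dx, LinearMap.sum_apply]
    · simp [Fi, LinearMap.sum_apply]
  | @mul a F p q hpq _ ih =>
    rw [← FFT_wt_self (i := p) (j := q) a] at ih
    have h := del_mem hpq (fun x hx => hx.elim) ih
    rwa [← FFT_wt_add hpq, FFT_wt_self] at h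

theorem FFT_mul_span {I : Type} [Fintype I] (p q : I) {b : I → ℕ} {F : MvPolynomial I ℂ}
    (hF : F ∈ Submodule.span ℂ {F' | Br b F'}) :
    (X p - X q) * F ∈ Submodule.span ℂ {F' | Br (b + Pi.single p 1 + Pi.single q 1) F'} := by
  by_cases hpq : p = q
  · subst hpq
    simp
  induction hF using Submodule.span_induction with
  | mem x hx => exact Submodule.subset_span (Br.mul p q hpq hx)
  | zero => simp
  | add x y _ _ hx hy => rw [mul_add]; exact add_mem hx hy
  | smul c x _ hx => rw [mul_smul_comm]; exact Submodule.smul_mem _ c hx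

theorem FFT_polar {I : Type} [Fintype I] {i j : I} {a : I → ℕ} {F : MvPolynomial I ℂ}
    (hF : Br a F) : (a i : ℂ) • F - (X i - X j) * pderiv i F ∈ Submodule.span ℂ
      {F' | ∃ a', a' + Pi.single i 1 = a + Pi.single j 1 ∧ Br a' F'} := by
  induction hF with
  | one => simp
  | @mul b G p q hpq hG ih =>
    have h1 : (X p - X q) * ((b i : ℂ) • G - (X i - X j) * pderiv i G) ∈ Submodule.span ℂ
        {F' | ∃ a', a' + Pi.single i 1 = b + Pi.single p 1 + Pi.single q 1 + Pi.single j 1 ∧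
          Br a' F'} := by
      generalize (b i : ℂ) • G - (X i - X j) * pderiv i G = H at ih
      induction ih using Submodule.span_induction with
      | mem x hx =>
        obtain ⟨a', h, hx⟩ := hx
        refine Submodule.subset_span ⟨_, ?_, Br.mul p q hpq hx⟩
        rw [add_right_comm, add_right_comm a', h]
        abel
      | zero => simp
      | add x y _ _ hx hy => rw [mul_add]; exact add_mem hx hy
      | smul c x _ hx => rw [mul_smul_comm]; exact Submodule.smul_mem _ c hx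
    have h2 : ∀ r s : I, b + Pi.single r 1 + Pi.single s 1 + Pi.single i 1 =
        b + Pi.single p 1 + Pi.single q 1 + Pi.single j 1 → (X r - X s) * G ∈ Submodule.span ℂ
        {F' | ∃ a', a' + Pi.single i 1 = b + Pi.single p 1 + Pi.single q 1 + Pi.single j 1 ∧
          Br a' F'} := fun r s h => by
      by_cases hrs : r = s
      · subst hrs
        simp
      · exact Submodule.subset_span ⟨_, h, Br.mul r s hrs hG⟩
    by_cases hp : p = i
    · subst hp
      convert add_mem h1 (h2 j q (by abel)) using 1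
      simp only [Pi.add_apply, Pi.single_eq_same, Pi.single_eq_of_ne hpq, Derivation.leibniz,
        map_sub, pderiv_X_self, pderiv_X_of_ne hpq.symm, smul_eq_mul, smul_eq_C_mul, Nat.cast_add,
        map_add, Nat.cast_one, map_one, add_zero]
      ring
    · by_cases hq : q = i
      · subst hq
        convert add_mem h1 (h2 p j (by abel)) using 1
        simp only [Pi.add_apply, Pi.single_eq_same, Pi.single_eq_of_ne hpq.symm,
          Derivation.leibniz, map_sub, pderiv_X_self, pderiv_X_of_ne hpq, smul_eq_mul,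
          smul_eq_C_mul, Nat.cast_add, map_add, Nat.cast_one, map_one, add_zero]
        ring
      · convert h1 using 1
        simp only [Pi.add_apply, Pi.single_eq_of_ne (Ne.symm hp), Pi.single_eq_of_ne (Ne.symm hq),
          Derivation.leibniz, map_sub, pderiv_X_of_ne hp, pderiv_X_of_ne hq, smul_eq_mul,
          smul_eq_C_mul, add_zero]
        ring

theorem FFT_tau {I : Type} [Fintype I] {i j : I} (hij : i ≠ j) (lam : I → ℕ) (a b : ℕ)
    {F : MvPolynomial I ℂ} (hF : F ∈ Submodule.span ℂ {F' | Br (wt lam i j (a + 1) b) F'}) :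
    tau i j (a + 1) F ∈ Submodule.span ℂ {F' | Br (wt lam i j a (b + 1)) F'} := by
  induction hF using Submodule.span_induction with
  | mem x hx =>
    have h1 := FFT_polar (i := i) (j := j) hx
    rw [FFT_wt_i hij] at h1
    have h2 : Submodule.span ℂ {F' | ∃ a', a' + Pi.single i 1 =
        wt lam i j (a + 1) b + Pi.single j 1 ∧ Br a' F'} ≤
        Submodule.span ℂ {F' | Br (wt lam i j a (b + 1)) F'} := by
      refine Submodule.span_mono ?_
      rintro F' ⟨a', h, hF'⟩
      rw [← FFT_wt_shift hij] at h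
      rwa [add_right_cancel h] at hF'
    have h3 : ((a + 1 : ℕ) : ℂ) ≠ 0 := Nat.cast_ne_zero.2 (Nat.succ_ne_zero a)
    convert Submodule.smul_mem _ (((a + 1 : ℕ) : ℂ)⁻¹) (h2 h1) using 1
    rw [smul_sub, smul_smul, inv_mul_cancel₀ h3, one_smul]
    rfl
  | zero => simp
  | add x y _ _ hx hy => rw [map_add]; exact add_mem hx hy
  | smul c x _ hx => rw [map_smul]; exact Submodule.smul_mem _ c hx

theorem FFT_sig {I : Type} [Fintype I] {i j : I} (hij : i ≠ j) (lam : I → ℕ) (b : ℕ) :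
    ∀ (a : ℕ) {F : MvPolynomial I ℂ},
      F ∈ Submodule.span ℂ {F' | Br (wt lam i j (a + b) 0) F'} →
        sig i j a b F ∈ Submodule.span ℂ {F' | Br (wt lam i j a b) F'} := by
  induction b with
  | zero => exact fun a F hF => hF
  | succ b ih =>
    intro a F hF
    rw [← add_assoc, add_right_comm] at hF
    exact FFT_tau hij lam a b (ih (a + 1) hF)

theorem fft {I : Type} [Fintype I] (l : ℕ) (a : I → ℕ) (F : MvPolynomial I ℂ)
    (hF : F ∈ PB l a ∅) : F ∈ Submodule.span ℂ {F' | Br a F'} := by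
  induction hn : ∑ k, (a k + min (a k) 1) using Nat.strong_induction_on generalizing a F with
  | _ n ih =>
  by_cases h : ∃ i j, i ≠ j ∧ a i ≠ 0 ∧ a j ≠ 0
  · obtain ⟨i, j, hij, hi, hj⟩ := h
    obtain ⟨α, hα⟩ := Nat.exists_eq_succ_of_ne_zero hi
    obtain ⟨β, hβ⟩ := Nat.exists_eq_succ_of_ne_zero hj
    have ha : wt a i j (α + 1) (β + 1) = a := by
      have := FFT_wt_self (i := i) (j := j) a
      rwa [hα, hβ] at this
    have hP : ∀ x ∈ (∅ : Set (I → ℂ)), x i = x j := fun x hx => hx.elim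
    rw [← ha] at hF hn
    rw [FFT_sum_wt hij (fun t => t + min t 1)] at hn
    have hG := diag_mem hij hP hF
    have hG1 := ih _ (by rw [FFT_sum_wt hij (fun t => t + min t 1)]; omega) _ _ hG rfl
    have hG2 := FFT_sig hij a (β + 1) (α + 1) hG1
    have hG3 := sig_mem hij hP hG
    have hG4 : (diag i j F).degreeOf j = 0 := by
      have := hG.1 j
      rw [FFT_wt_j] at this
      omega
    obtain ⟨F', hF', hE⟩ := exists_del hij hP (sub_mem hF hG3)
      (by rw [map_sub, diag_sig hij, diag_eq_self hij hG4, sub_self])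
    have hF1 := FFT_mul_span i j
      (ih _ (by rw [FFT_sum_wt hij (fun t => t + min t 1)]; omega) _ _ hF' rfl)
    rw [FFT_wt_add hij, ← hE] at hF1
    rw [← ha]
    simpa using add_mem hF1 hG2
  · by_cases h0 : ∃ i, a i ≠ 0
    · obtain ⟨i, hi⟩ := h0
      have h1 : ∀ k, k ≠ i → pderiv k F = 0 := fun k hk => by
        have h2 : a k = 0 := by
          by_contra h2
          exact h ⟨k, i, hk, h2, hi⟩
        have h3 := hF.1 k
        rw [h2] at h3
        simpa using (degreeOf_le_iff_pderiv k F 0).1 h3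
      have h2 : pderiv i F = 0 := by
        have h3 := hF.2.1
        simp only [Dx, Pi.one_apply, one_smul, LinearMap.sum_apply, Derivation.coeFn_coe] at h3
        rwa [Finset.sum_eq_single i (fun k _ hk => h1 k hk) (by simp)] at h3
      obtain ⟨α, hα⟩ := Nat.exists_eq_succ_of_ne_zero hi
      have h3 : F = 0 := eq_zero_of_top i hF (by
        rw [hα, pow_succ, Module.End.mul_apply, Derivation.coeFn_coe, h2, map_zero])
      rw [h3]
      exact zero_mem _
    · have h1 : a = 0 := funext fun i => by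
        by_contra h1
        exact h0 ⟨i, h1⟩
      subst h1
      have h2 : F = coeff 0 F • (1 : MvPolynomial I ℂ) := by
        ext m
        by_cases hm : m = 0
        · subst hm
          simp
        · have h3 : m ∉ F.support := fun h3 => hm (Finsupp.ext fun i =>
            Nat.le_zero.1 ((monomial_le_degreeOf i h3).trans (hF.1 i)))
          rw [notMem_support_iff.1 h3, coeff_smul, coeff_one, if_neg (Ne.symm hm), smul_zero]
      rw [h2]
      exact Submodule.smul_mem _ _ (Submodule.subset_span Br.one)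

/-- The first of the two basic invariants of four points. -/
def bA : MvPolynomial (Fin 4) ℂ := (X 0 - X 1) * (X 2 - X 3)

/-- The second of the two basic invariants of four points. -/
def bB : MvPolynomial (Fin 4) ℂ := (X 0 - X 2) * (X 3 - X 1)

/-- The common factor of the invariants of multidegree `a`. -/
def bP (a : Fin 4 → ℕ) : MvPolynomial (Fin 4) ℂ :=
  (X 0 - X 1) ^ ((a 0 + a 1 - (a 2 + a 3)) / 2) * (X 2 - X 3) ^ ((a 2 + a 3 - (a 0 + a 1)) / 2) *
  ((X 0 - X 2) ^ ((a 0 + a 2 - (a 1 + a 3)) / 2) * (X 3 - X 1) ^ ((a 1 + a 3 - (a 0 + a 2)) / 2)) *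
  ((X 0 - X 3) ^ ((a 0 + a 3 - (a 1 + a 2)) / 2) * (X 1 - X 2) ^ ((a 1 + a 2 - (a 0 + a 3)) / 2))

/-- The total degree of `bP a`. -/
def bN (a : Fin 4 → ℕ) : ℕ :=
  (a 0 + a 1 - (a 2 + a 3)) / 2 + (a 2 + a 3 - (a 0 + a 1)) / 2 +
  ((a 0 + a 2 - (a 1 + a 3)) / 2 + (a 1 + a 3 - (a 0 + a 2)) / 2) +
  ((a 0 + a 3 - (a 1 + a 2)) / 2 + (a 1 + a 2 - (a 0 + a 3)) / 2)

/-- A monomial in the six brackets of four points. -/
def FFT_mono (n1 n2 n3 n4 n5 n6 : ℕ) : MvPolynomial (Fin 4) ℂ :=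
  (X 0 - X 1) ^ n1 * (X 2 - X 3) ^ n2 * ((X 0 - X 2) ^ n3 * (X 3 - X 1) ^ n4) *
    ((X 0 - X 3) ^ n5 * (X 1 - X 2) ^ n6)

theorem FFT_pow {I : Type} [Fintype I] {a : I → ℕ} {F : MvPolynomial I ℂ} (p q : I) (hpq : p ≠ q)
    (n : ℕ) (hF : Br a F) :
    Br (a + Pi.single p n + Pi.single q n) ((X p - X q) ^ n * F) := by
  induction n with
  | zero => simpa using hF
  | succ n ih =>
    have h := Br.mul p q hpq ih
    rw [← mul_assoc, ← pow_succ'] at h
    convert h using 1
    rw [Pi.single_add, Pi.single_add]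
    abel

theorem FFT_mono_br (n1 n2 n3 n4 n5 n6 : ℕ) :
    Br ![n1 + n3 + n5, n1 + n4 + n6, n2 + n3 + n6, n2 + n4 + n5] (FFT_mono n1 n2 n3 n4 n5 n6) := by
  have h := FFT_pow (0 : Fin 4) 1 (by decide) n1 (FFT_pow 2 3 (by decide) n2
    (FFT_pow 0 2 (by decide) n3 (FFT_pow 3 1 (by decide) n4 (FFT_pow 0 3 (by decide) n5
      (FFT_pow 1 2 (by decide) n6 Br.one)))))
  convert h using 1
  · funext k
    fin_cases k <;> simp [Pi.single_apply] <;> omega
  · rw [FFT_mono]
    ring

theorem FFT_br_mono {a : Fin 4 → ℕ} {F : MvPolynomial (Fin 4) ℂ} (hF : Br a F) :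
    ∃ n1 n2 n3 n4 n5 n6 : ℕ, (a 0 = n1 + n3 + n5 ∧ a 1 = n1 + n4 + n6 ∧ a 2 = n2 + n3 + n6 ∧
      a 3 = n2 + n4 + n5) ∧ ∃ c : ℂ, F = C c * FFT_mono n1 n2 n3 n4 n5 n6 := by
  induction hF with
  | one => exact ⟨0, 0, 0, 0, 0, 0, by simp, 1, by simp [FFT_mono]⟩
  | @mul a F p q hpq _ ih =>
    obtain ⟨n1, n2, n3, n4, n5, n6, ⟨h0, h1, h2, h3⟩, c, rfl⟩ := ih
    fin_cases p <;> fin_cases q
    · exact (hpq rfl).elim
    · exact ⟨n1 + 1, n2, n3, n4, n5, n6, by simp [Pi.single_apply]; omega, c,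
        by simp only [FFT_mono, Fin.zero_eta, Fin.mk_one, Fin.reduceFinMk, pow_succ]; ring⟩
    · exact ⟨n1, n2, n3 + 1, n4, n5, n6, by simp [Pi.single_apply]; omega, c,
        by simp only [FFT_mono, Fin.zero_eta, Fin.mk_one, Fin.reduceFinMk, pow_succ]; ring⟩
    · exact ⟨n1, n2, n3, n4, n5 + 1, n6, by simp [Pi.single_apply]; omega, c,
        by simp only [FFT_mono, Fin.zero_eta, Fin.mk_one, Fin.reduceFinMk, pow_succ]; ring⟩
    · exact ⟨n1 + 1, n2, n3, n4, n5, n6, by simp [Pi.single_apply]; omega, -c,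
        by simp only [FFT_mono, Fin.zero_eta, Fin.mk_one, Fin.reduceFinMk, pow_succ, map_neg]; ring⟩
    · exact (hpq rfl).elim
    · exact ⟨n1, n2, n3, n4, n5, n6 + 1, by simp [Pi.single_apply]; omega, c,
        by simp only [FFT_mono, Fin.zero_eta, Fin.mk_one, Fin.reduceFinMk, pow_succ]; ring⟩
    · exact ⟨n1, n2, n3, n4 + 1, n5, n6, by simp [Pi.single_apply]; omega, -c,
        by simp only [FFT_mono, Fin.zero_eta, Fin.mk_one, Fin.reduceFinMk, pow_succ, map_neg]; ring⟩
    · exact ⟨n1, n2, n3 + 1, n4, n5, n6, by simp [Pi.single_apply]; omega, -c,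
        by simp only [FFT_mono, Fin.zero_eta, Fin.mk_one, Fin.reduceFinMk, pow_succ, map_neg]; ring⟩
    · exact ⟨n1, n2, n3, n4, n5, n6 + 1, by simp [Pi.single_apply]; omega, -c,
        by simp only [FFT_mono, Fin.zero_eta, Fin.mk_one, Fin.reduceFinMk, pow_succ, map_neg]; ring⟩
    · exact (hpq rfl).elim
    · exact ⟨n1, n2 + 1, n3, n4, n5, n6, by simp [Pi.single_apply]; omega, c,
        by simp only [FFT_mono, Fin.zero_eta, Fin.mk_one, Fin.reduceFinMk, pow_succ]; ring⟩
    · exact ⟨n1, n2, n3, n4, n5 + 1, n6, by simp [Pi.single_apply]; omega, -c,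
        by simp only [FFT_mono, Fin.zero_eta, Fin.mk_one, Fin.reduceFinMk, pow_succ, map_neg]; ring⟩
    · exact ⟨n1, n2, n3, n4 + 1, n5, n6, by simp [Pi.single_apply]; omega, c,
        by simp only [FFT_mono, Fin.zero_eta, Fin.mk_one, Fin.reduceFinMk, pow_succ]; ring⟩
    · exact ⟨n1, n2 + 1, n3, n4, n5, n6, by simp [Pi.single_apply]; omega, -c,
        by simp only [FFT_mono, Fin.zero_eta, Fin.mk_one, Fin.reduceFinMk, pow_succ, map_neg]; ring⟩
    · exact (hpq rfl).elim

theorem FFT_third (Q : MvPolynomial (Fin 4) ℂ) (U : Submodule ℂ (MvPolynomial (Fin 4) ℂ)) (N : ℕ)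
    (hU : ∀ u w, u + w = N → Q * (bA ^ u * bB ^ w) ∈ U) (v : ℕ) : ∀ u w, u + w + v = N →
      Q * (bA ^ u * bB ^ w * ((X 0 - X 3) * (X 1 - X 2)) ^ v) ∈ U := by
  induction v with
  | zero => exact fun u w h => by simpa using hU u w h
  | succ v ih =>
    intro u w h
    have h1 : ((X 0 - X 3) * (X 1 - X 2) : MvPolynomial (Fin 4) ℂ) = -(bA + bB) := by
      rw [bA, bB]
      ring
    convert neg_mem (add_mem (ih (u + 1) w (by omega)) (ih u (w + 1) (by omega))) using 1
    rw [pow_succ _ v]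
    nth_rewrite 2 [h1]
    ring

theorem FFT_half {s t N : ℕ} (h : s + t = 2 * N) :
    s + 2 * ((t - s) / 2) = t + 2 * ((s - t) / 2) := by omega

theorem FFT_min {s t x y : ℕ} (h : s + 2 * y = t + 2 * x) :
    x = (s - t) / 2 + min x y ∧ y = (t - s) / 2 + min x y := by omega

theorem fft4 (l : ℕ) (a : Fin 4 → ℕ) : PB l a ∅ = Submodule.span ℂ
    {F | ∃ u w : ℕ, a 0 + a 1 + a 2 + a 3 = 2 * (bN a + 2 * (u + w)) ∧
      F = bP a * (bA ^ u * bB ^ w)} := by
  refine le_antisymm (fun F hF => ?_) (Submodule.span_le.2 ?_)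
  · refine Submodule.span_le.2 ?_ (fft l a F hF)
    intro G hG
    obtain ⟨n1, n2, n3, n4, n5, n6, ⟨h0, h1, h2, h3⟩, c, rfl⟩ := FFT_br_mono hG
    rw [← smul_eq_C_mul]
    refine Submodule.smul_mem _ c ?_
    obtain ⟨e1, e2⟩ := FFT_min (s := a 0 + a 1) (t := a 2 + a 3) (x := n1) (y := n2) (by omega)
    obtain ⟨e3, e4⟩ := FFT_min (s := a 0 + a 2) (t := a 1 + a 3) (x := n3) (y := n4) (by omega)
    obtain ⟨e5, e6⟩ := FFT_min (s := a 0 + a 3) (t := a 1 + a 2) (x := n5) (y := n6) (by omega)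
    generalize min n1 n2 = u at e1 e2
    generalize min n3 n4 = w at e3 e4
    generalize min n5 n6 = v at e5 e6
    have e7 : a 0 + a 1 + a 2 + a 3 = 2 * (bN a + 2 * (u + w + v)) := by
      rw [bN]
      generalize (a 0 + a 1 - (a 2 + a 3)) / 2 = x1 at *
      generalize (a 2 + a 3 - (a 0 + a 1)) / 2 = x2 at *
      generalize (a 0 + a 2 - (a 1 + a 3)) / 2 = x3 at *
      generalize (a 1 + a 3 - (a 0 + a 2)) / 2 = x4 at *
      generalize (a 0 + a 3 - (a 1 + a 2)) / 2 = x5 at *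
      generalize (a 1 + a 2 - (a 0 + a 3)) / 2 = x6 at *
      omega
    have h := FFT_third (bP a) (Submodule.span ℂ
      {F | ∃ u w : ℕ, a 0 + a 1 + a 2 + a 3 = 2 * (bN a + 2 * (u + w)) ∧
        F = bP a * (bA ^ u * bB ^ w)}) (u + w + v)
      (fun u' w' h => Submodule.subset_span ⟨u', w', by rw [h]; exact e7, rfl⟩) v u w rfl
    convert h using 1
    rw [e1, e2, e3, e4, e5, e6, FFT_mono, bP, bA, bB]
    simp only [pow_add, mul_pow]
    ring
  · rintro F ⟨u, w, h, rfl⟩
    have k1 := FFT_half (s := a 0 + a 1) (t := a 2 + a 3) (N := bN a + 2 * (u + w)) (by omega)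
    have k2 := FFT_half (s := a 0 + a 2) (t := a 1 + a 3) (N := bN a + 2 * (u + w)) (by omega)
    have k3 := FFT_half (s := a 0 + a 3) (t := a 1 + a 2) (N := bN a + 2 * (u + w)) (by omega)
    rw [bN] at h
    rw [SetLike.mem_coe, bP]
    generalize (a 0 + a 1 - (a 2 + a 3)) / 2 = x1 at *
    generalize (a 2 + a 3 - (a 0 + a 1)) / 2 = x2 at *
    generalize (a 0 + a 2 - (a 1 + a 3)) / 2 = x3 at *
    generalize (a 1 + a 3 - (a 0 + a 2)) / 2 = x4 at *
    generalize (a 0 + a 3 - (a 1 + a 2)) / 2 = x5 at *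
    generalize (a 1 + a 2 - (a 0 + a 3)) / 2 = x6 at *
    have h1 := Br.mem l (FFT_mono_br (x1 + u) (x2 + u) (x3 + w) (x4 + w) x5 x6)
    have e1 : ![x1 + u + (x3 + w) + x5, x1 + u + (x4 + w) + x6, x2 + u + (x3 + w) + x6,
        x2 + u + (x4 + w) + x5] = a := by
      funext k
      fin_cases k <;> simp <;> omega
    rw [e1] at h1
    convert h1 using 1
    rw [FFT_mono, bA, bB]
    simp only [pow_add, mul_pow]
    ring

end Pool.Agent.P.MP_e1a373_ag.B
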