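import Pool.Agent.P.MP_e1a373_ag.B.Syn
import Pool.Agent.P.MP_e1a373_ag.B.Slot

/-!
The finite dimensional part of the integrable modules and the restriction of forms.
-/

open Function
open scoped Classical

set_option linter.unusedSectionVars false

noncomputable section

namespace Pool.Agent.P.MP_e1a373_ag.B

variable {l a : ℕ}

/-- The dual basis. -/
def eps (l a : ℕ) : ℕ → K l a →ₗ[ℂ] ℂ :=
  if hal : a ≤ l then (K_dual hal).choose else 0

theorem eps_fv (hal : a ≤ l) {k : ℕ} (hk : k ≤ a) (m : ℕ) :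
    eps l a k (fk l a m) = if k = m then 1 else 0 := by
  rw [eps, dif_pos hal]
  exact (K_dual hal).choose_spec k hk m

theorem fv_zero : fk l a 0 = vc l a := rfl

theorem fv_succ (k : ℕ) : fk l a (k + 1) = ac l a f 1 (fk l a k) := by
  rw [fk, pow_succ']
  rfl

theorem fv_eq_zero {k : ℕ} (hk : a < k) : fk l a k = 0 := by
  obtain ⟨m, rfl⟩ := Nat.exists_eq_add_of_lt hk
  rw [fk, add_right_comm, add_comm, pow_add, Module.End.mul_apply, ac_f, map_zero]

theorem e_fv (k : ℕ) :
    ac l a e 1 (fk l a k) = ((k : ℂ) * ((a : ℂ) + 1 - k)) • fk l a (k - 1) := by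
  rcases k with _ | k
  · simpa [fv_zero] using (ac_hw l a).e
  · rw [fk, (ac_hw l a).e_f_pow (ac_rep l a) k]
    congr 1
    push_cast
    ring

theorem h_fv (k : ℕ) : ac l a h 1 (fk l a k) = ((a : ℂ) - 2 * k) • fk l a k :=
  (ac_hw l a).h_f_pow (ac_rep l a) k

/-- The finite dimensional part. -/
def FV (l a : ℕ) : Submodule ℂ (K l a) := Submodule.span ℂ (Set.range (fk l a))

theorem fv_mem (k : ℕ) : fk l a k ∈ FV l a := Submodule.subset_span ⟨k, rfl⟩

theorem vac_mem : vc l a ∈ FV l a := fv_mem 0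

theorem act_one_mem (X : G) {m : K l a} (hm : m ∈ FV l a) : ac l a X 1 m ∈ FV l a := by
  induction hm using Submodule.span_induction with
  | mem x hx =>
    obtain ⟨k, rfl⟩ := hx
    obtain ⟨α, β, γ, rfl⟩ := exists_coord X
    simp only [map_add, map_smul, LinearMap.add_apply, LinearMap.smul_apply]
    rw [e_fv, h_fv, ← fv_succ]
    exact add_mem (add_mem (Submodule.smul_mem _ _ (Submodule.smul_mem _ _ (fv_mem _)))
      (Submodule.smul_mem _ _ (Submodule.smul_mem _ _ (fv_mem _))))
      (Submodule.smul_mem _ _ (fv_mem _))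
  | zero => simp
  | add x y _ _ hx hy => rw [map_add]; exact add_mem hx hy
  | smul c x _ hx => rw [map_smul]; exact Submodule.smul_mem _ _ hx

theorem act_pos (X : G) {u : L} (hu : Reg 1 u) {m : K l a} (hm : m ∈ FV l a) :
    ac l a X u m = 0 := by
  induction hm using Submodule.span_induction with
  | mem x hx =>
    obtain ⟨k, rfl⟩ := hx
    exact (ac_hw l a).pos_f_pow (ac_rep l a) k X u hu
  | zero => simp
  | add x y _ _ hx hy => rw [map_add, hx, hy, add_zero]
  | smul c x _ hx => rw [map_smul, hx, smul_zero]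

theorem act_reg (X : G) {u : L} (hu : Reg 0 u) {m : K l a} (hm : m ∈ FV l a) :
    ac l a X u m = u.coeff 0 • ac l a X 1 m := by
  have := act_pos X hu.sub_C hm
  rw [map_sub, LinearMap.sub_apply, sub_eq_zero, C_eq_smul, map_smul] at this
  exact this

/-- The projection to the finite dimensional part. -/
def prj (l a : ℕ) : Module.End ℂ (K l a) :=
  ∑ k ∈ Finset.range (a + 1), (eps l a k).smulRight (fk l a k)

theorem prj_apply (m : K l a) :
    prj l a m = ∑ k ∈ Finset.range (a + 1), eps l a k m • fk l a k := by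
  simp [prj, LinearMap.sum_apply]

theorem prj_mem (m : K l a) : prj l a m ∈ FV l a := by
  rw [prj_apply]
  exact sum_mem fun k _ => Submodule.smul_mem _ _ (fv_mem k)

theorem prj_fv (hal : a ≤ l) (k : ℕ) : prj l a (fk l a k) = fk l a k := by
  rw [prj_apply]
  by_cases hk : k ≤ a
  · rw [Finset.sum_eq_single k]
    · rw [eps_fv hal hk, if_pos rfl, one_smul]
    · intro j hj hjk
      rw [eps_fv hal (Nat.lt_succ_iff.1 (Finset.mem_range.1 hj)), if_neg hjk, zero_smul]
    · intro hn
      exact absurd (Finset.mem_range.2 (Nat.lt_succ_iff.2 hk)) hn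
  · rw [fv_eq_zero (not_le.1 hk)]
    simp

theorem prj_eq (hal : a ≤ l) {m : K l a} (hm : m ∈ FV l a) : prj l a m = m := by
  induction hm using Submodule.span_induction with
  | mem x hx =>
    obtain ⟨k, rfl⟩ := hx
    exact prj_fv hal k
  | zero => simp
  | add x y _ _ hx hy => rw [map_add, hx, hy]
  | smul c x _ hx => rw [map_smul, hx]

theorem eps_prj (hal : a ≤ l) {k : ℕ} (hk : k ≤ a) (m : K l a) :
    eps l a k (prj l a m) = eps l a k m := by
  rw [prj_apply, map_sum, Finset.sum_eq_single k]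
  · rw [map_smul, eps_fv hal hk, if_pos rfl, smul_eq_mul, mul_one]
  · intro j _ hjk
    rw [map_smul, eps_fv hal hk, if_neg (Ne.symm hjk), smul_zero]
  · intro hn
    exact absurd (Finset.mem_range.2 (Nat.lt_succ_iff.2 hk)) hn

/-- The action of sl_2 through the finite dimensional part. -/
def ev (l a : ℕ) : G →ₗ[ℂ] Module.End ℂ (K l a) :=
  LinearMap.mulRight ℂ (prj l a) ∘ₗ (ac l a).flip 1

theorem ev_apply (X : G) (m : K l a) : ev l a X m = ac l a X 1 (prj l a m) := rfl

theorem ev_mem (X : G) (m : K l a) : ev l a X m ∈ FV l a := act_one_mem X (prj_mem m)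

theorem ev_eq (hal : a ≤ l) (X : G) {m : K l a} (hm : m ∈ FV l a) :
    ev l a X m = ac l a X 1 m := by
  rw [ev_apply, prj_eq hal hm]

theorem ev_prj (hal : a ≤ l) (X : G) : ev l a X * prj l a = ev l a X := by
  ext1 m
  rw [Module.End.mul_apply, ev_eq hal X (prj_mem m), ev_apply]

theorem prj_ev (hal : a ≤ l) (X : G) : prj l a * ev l a X = ev l a X := by
  ext1 m
  rw [Module.End.mul_apply, prj_eq hal (ev_mem X m)]

theorem ev_comm (hal : a ≤ l) (X Y : G) :
    ev l a X * ev l a Y - ev l a Y * ev l a X = ev l a ⁅X, Y⁆ := by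
  ext1 m
  have := LinearMap.congr_fun (ac_rep l a X 1 Y 1) (prj l a m)
  rw [coc_eq, rs_one_left, mul_zero, mul_zero, zero_smul, add_zero, mul_one] at this
  rw [LinearMap.sub_apply, Module.End.mul_apply, Module.End.mul_apply, ev_eq hal X (ev_mem Y m),
    ev_eq hal Y (ev_mem X m)]
  exact this

theorem act_one_zero (ha : a = 0) (X : G) {m : K l a} (hm : m ∈ FV l a) :
    ac l a X 1 m = 0 := by
  subst ha
  induction hm using Submodule.span_induction with
  | mem x hx =>
    obtain ⟨k, rfl⟩ := hx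
    rcases k with _ | k
    · obtain ⟨α, β, γ, rfl⟩ := exists_coord X
      simp only [map_add, map_smul, LinearMap.add_apply, LinearMap.smul_apply]
      rw [e_fv, h_fv, ← fv_succ, fv_eq_zero (k := 0 + 1) (by omega)]
      simp
    · rw [fv_eq_zero (by omega), map_zero]
  | zero => simp
  | add x y _ _ hx hy => rw [map_add, hx, hy, add_zero]
  | smul c x _ hx => rw [map_smul, hx, smul_zero]

theorem ev_zero (ha : a = 0) (X : G) : ev l a X = 0 := by
  ext1 m
  exact act_one_zero ha X (prj_mem m)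

theorem ev_f_pow (hal : a ≤ l) (n : ℕ) {m : K l a} (hm : m ∈ FV l a) :
    (ev l a f ^ n) m = (ac l a f 1 ^ n) m := by
  induction n generalizing m with
  | zero => rfl
  | succ n ih =>
    rw [pow_succ, pow_succ, Module.End.mul_apply, Module.End.mul_apply, ev_eq hal f hm,
      ih (act_one_mem f hm)]

theorem ev_f_nil (hal : a ≤ l) (c : ℂ) (m : K l a) : ∃ n : ℕ, ((c • ev l a f) ^ n) m = 0 := by
  have : ∀ m ∈ FV l a, (ac l a f 1 ^ (a + 1)) m = 0 := by
    intro m hm
    induction hm using Submodule.span_induction with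
    | mem x hx =>
      obtain ⟨k, rfl⟩ := hx
      rw [fk, ← Module.End.mul_apply, ← pow_add]
      exact fv_eq_zero (by omega)
    | zero => simp
    | add x y _ _ hx hy => rw [map_add, hx, hy, add_zero]
    | smul c x _ hx => rw [map_smul, hx, smul_zero]
  refine ⟨a + 1 + 1, ?_⟩
  rw [smul_pow, LinearMap.smul_apply, pow_succ (ev l a f), Module.End.mul_apply,
    ev_f_pow hal _ (ev_mem f m), this _ (ev_mem f m), smul_zero]

/-- The projection to the highest weight line, followed by the map to the line of `m`. -/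
def pr (l a : ℕ) (m : K l a) : Module.End ℂ (K l a) := (eps l a 0).smulRight m

theorem pr_vac (hal : a ≤ l) (m : K l a) : pr l a m (vc l a) = m := by
  have := eps_fv hal (Nat.zero_le a) 0
  rw [fv_zero, if_pos rfl] at this
  simp [pr, this]

theorem mul_pr (A : Module.End ℂ (K l a)) (m : K l a) : A * pr l a m = pr l a (A m) := by
  ext1 x
  simp [pr]

theorem pr_zero : pr l a 0 = 0 := by
  ext1 x
  simp [pr]

theorem pr_smul (c : ℂ) (m : K l a) : pr l a (c • m) = c • pr l a m := by
  ext1 x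
  simp [pr, smul_smul, mul_comm]

section Res

variable {I V : Type} [Fintype I] [Fintype V]

/-- Multilinear forms on the integrable modules. -/
abbrev Wf (l : ℕ) (w : I ⊕ V → ℕ) : Type := MultilinearMap ℂ (fun j => K l (w j)) ℂ

/-- The tuple of basis vectors. -/
def bv (l : ℕ) (w : I ⊕ V → ℕ) (k : I → ℕ) : ∀ j, K l (w j) :=
  fun j => fk l (w j) (Sum.elim k 0 j)

/-- The values of a form on the basis vectors. -/
def res (l : ℕ) (w : I ⊕ V → ℕ) : Wf l w →ₗ[ℂ] ((I → ℕ) → ℂ) where
  toFun Ψ k := Ψ (bv l w k)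
  map_add' _ _ := rfl
  map_smul' _ _ := rfl

theorem res_apply {w : I ⊕ V → ℕ} (Ψ : Wf l w) (k : I → ℕ) : res l w Ψ k = Ψ (bv l w k) := rfl

theorem bv_mem {w : I ⊕ V → ℕ} (k : I → ℕ) (j : I ⊕ V) : bv l w k j ∈ FV l (w j) := fv_mem _

theorem update_bv (w : I ⊕ V → ℕ) (k : I → ℕ) (i : I) (n : ℕ) :
    update (bv l w k) (.inl i) (fk l (w (.inl i)) n) = bv l w (update k i n) := by
  funext j
  by_cases hj : j = .inl i
  · subst hj
    simp [bv]
  · rw [update_of_ne hj]
    rcases j with j | j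
    · have : j ≠ i := fun h => hj (h ▸ rfl)
      simp [bv, update_of_ne this]
    · rfl

theorem res_e {w : I ⊕ V → ℕ} (hw : ∀ j, w j ≤ l) (i : I) (Ψ : Wf l w) :
    res l w (R (.inl i) (ev l (w (.inl i)) e) Ψ) = eS (fun i => w (.inl i)) i (res l w Ψ) := by
  funext k
  rw [res_apply, R_apply, ev_eq (hw _) e (bv_mem k _)]
  change Ψ (update _ _ (ac l _ e 1 (fk l _ (k i)))) = _
  rw [e_fv, Ψ.map_update_smul, update_bv]
  rfl

theorem res_f {w : I ⊕ V → ℕ} (hw : ∀ j, w j ≤ l) (i : I) (Ψ : Wf l w) :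
    res l w (R (.inl i) (ev l (w (.inl i)) f) Ψ) = fS i (res l w Ψ) := by
  funext k
  rw [res_apply, R_apply, ev_eq (hw _) f (bv_mem k _)]
  change Ψ (update _ _ (ac l _ f 1 (fk l _ (k i)))) = _
  rw [← fv_succ, update_bv]
  rfl

theorem res_supp {w : I ⊕ V → ℕ} (Ψ : Wf l w) (k : I → ℕ) (hk : ∃ i, w (.inl i) < k i) :
    res l w Ψ k = 0 := by
  obtain ⟨i, hi⟩ := hk
  exact Ψ.map_coord_zero (.inl i) (fv_eq_zero hi)

theorem van_of_res {w : I ⊕ V → ℕ} (hw0 : ∀ v, w (.inr v) = 0) {Ψ : Wf l w}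
    (h0 : res l w Ψ = 0) (u : ∀ j, K l (w j)) (hu : ∀ j, u j ∈ FV l (w j)) : Ψ u = 0 := by
  refine van_span (fun j => Set.range (fk l (w j))) Ψ (fun u hu => ?_) u hu
  choose k hk using hu
  by_cases hv : ∀ v, k (.inr v) = 0
  · have : u = bv l w fun i => k (.inl i) := by
      funext j
      rw [← hk j]
      rcases j with j | j
      · rfl
      · rw [hv j]
        rfl
    rw [this]
    exact congrFun h0 _
  · push Not at hv
    obtain ⟨v, hv⟩ := hv
    refine Ψ.map_coord_zero (.inr v) ?_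
    rw [← hk]
    exact fv_eq_zero (by rw [hw0]; omega)

theorem eq_zero_of_res {w : I ⊕ V → ℕ} (hw0 : ∀ v, w (.inr v) = 0) {Ψ : Wf l w}
    (hΨ : ∀ j, R j (prj l (w j)) Ψ = Ψ) (h0 : res l w Ψ = 0) : Ψ = 0 := by
  ext u
  rw [R_all _ Ψ hΨ u]
  exact van_of_res hw0 h0 _ fun j => prj_mem _

theorem exists_base {w : I ⊕ V → ℕ} (hw : ∀ j, w j ≤ l) (c : (I → ℕ) → ℂ)
    (hc : ∀ k, (∃ i, w (.inl i) < k i) → c k = 0) :
    ∃ Ψ : Wf l w, res l w Ψ = c ∧ ∀ j, R j (prj l (w j)) Ψ = Ψ := by
  have hb : ∀ k ∈ Fintype.piFinset fun i => Finset.range (w (.inl i) + 1), ∀ j,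
      (Sum.elim k 0 j : ℕ) ≤ w j := by
    intro k hk j
    rcases j with j | j
    · exact Nat.lt_succ_iff.1 (Finset.mem_range.1 (Fintype.mem_piFinset.1 hk j))
    · exact Nat.zero_le _
  refine ⟨∑ k ∈ Fintype.piFinset fun i => Finset.range (w (.inl i) + 1), c k •
    (MultilinearMap.mkPiAlgebra ℂ (I ⊕ V) ℂ).compLinearMap
      fun j => eps l (w j) (Sum.elim k 0 j), ?_, fun j => ?_⟩
  · funext k
    simp only [res_apply, _root_.sum_apply, _root_.smul_apply, MultilinearMap.compLinearMap_apply,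
      MultilinearMap.mkPiAlgebra_apply, smul_eq_mul]
    by_cases hk : k ∈ Fintype.piFinset fun i => Finset.range (w (.inl i) + 1)
    · rw [Finset.sum_eq_single k]
      · rw [Finset.prod_eq_one, mul_one]
        intro j _
        rw [bv, eps_fv (hw j) (hb k hk j), if_pos rfl]
      · intro k' hk' hkk
        obtain ⟨i, hi⟩ := Function.ne_iff.1 hkk
        rw [Finset.prod_eq_zero (Finset.mem_univ (Sum.inl i)), mul_zero]
        rw [bv, eps_fv (hw _) (hb k' hk' _)]
        exact if_neg hi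
      · intro hn
        exact absurd hk hn
    · have hk' : ∃ i, w (.inl i) < k i := by
        by_contra hcon
        push Not at hcon
        exact hk (Fintype.mem_piFinset.2 fun i => Finset.mem_range.2 (Nat.lt_succ_iff.2 (hcon i)))
      rw [hc k hk']
      obtain ⟨i, hi⟩ := hk'
      refine Finset.sum_eq_zero fun k' _ => ?_
      rw [Finset.prod_eq_zero (Finset.mem_univ (Sum.inl i)), mul_zero]
      rw [bv]
      change eps _ _ _ (fk l _ (k i)) = 0
      rw [fv_eq_zero hi, map_zero]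
  · ext u
    simp only [R_apply, _root_.sum_apply, _root_.smul_apply, MultilinearMap.compLinearMap_apply,
      MultilinearMap.mkPiAlgebra_apply, smul_eq_mul]
    refine Finset.sum_congr rfl fun k hk => ?_
    congr 1
    refine Finset.prod_congr rfl fun i _ => ?_
    by_cases hi : i = j
    · subst hi
      rw [update_self, eps_prj (hw i) (hb k hk i)]
    · rw [update_of_ne hi]

end Res

end Pool.Agent.P.MP_e1a373_ag.B
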