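import Pool.Agent.P.MP_e1a373_ag.B.Api

/-!
Uniqueness of the degree of a framed family.
-/

open scoped TensorProduct Classical

noncomputable section

namespace Pool.Agent.P.MP_e1a373_ag.B

open Polynomial

theorem uniq_coeff_prod {ι : Type} (s : Finset ι) (n : ι → ℕ) (p : ι → ℂ[X])
    (h : ∀ i, (p i).natDegree ≤ n i) :
    (∏ i ∈ s, p i).natDegree ≤ ∑ i ∈ s, n i ∧
      (∏ i ∈ s, p i).coeff (∑ i ∈ s, n i) = ∏ i ∈ s, (p i).coeff (n i) := by
  induction s using Finset.induction_on with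
  | empty => simp
  | insert a s ha ih =>
    rw [Finset.prod_insert ha, Finset.sum_insert ha, Finset.prod_insert ha]
    exact ⟨natDegree_mul_le.trans (add_le_add (h a) ih.1),
      by rw [coeff_mul_add_eq_of_natDegree_le (h a) ih.1, ih.2]⟩

theorem uniq_det {ι : Type} [Fintype ι] (n : ι → ℕ) (P : Matrix ι ι ℂ[X])
    (h : ∀ a j, (P a j).natDegree ≤ n j) :
    P.det.natDegree ≤ ∑ j, n j ∧
      P.det.coeff (∑ j, n j) = (Matrix.of fun a j => (P a j).coeff (n j)).det := by
  rw [Matrix.det_apply, Matrix.det_apply]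
  constructor
  · refine natDegree_sum_le_of_forall_le _ _ fun σ _ => ?_
    exact (natDegree_smul_le _ _).trans (uniq_coeff_prod _ n _ fun j => h (σ j) j).1
  · rw [finsetSum_coeff]
    refine Finset.sum_congr rfl fun σ _ => ?_
    rw [coeff_smul, (uniq_coeff_prod _ n _ fun j => h (σ j) j).2]
    rfl

variable {M : Type} [AddCommGroup M] [Module ℂ M] {ι : Type} [Fintype ι]

/-- The determinant of a family of vectors against a family of linear forms. -/
def uniqD (v : ι → M) (η : ι → Module.Dual ℂ M) : ℂ := (Matrix.of fun a j => η a (v j)).det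

theorem uniq_scale {v v' : ι → M} (h : ∀ j, v' j ∈ Submodule.span ℂ (Set.range v)) :
    ∃ m : ℂ, ∀ η, uniqD v' η = uniqD v η * m := by
  choose A hA using fun j => (Submodule.mem_span_range_iff_exists_fun ℂ).1 (h j)
  refine ⟨(Matrix.of fun k j => A j k).det, fun η => ?_⟩
  rw [uniqD, uniqD, ← Matrix.det_mul]
  congr 1
  ext a j
  simp [Matrix.mul_apply, ← hA j, mul_comm]

theorem uniq_ne {v : ι → M} (h : LinearIndependent ℂ v) : ∃ η, uniqD v η ≠ 0 := by
  choose η hη using fun a : ι => LinearMap.exists_extend (Finsupp.lapply a ∘ₗ h.repr)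
  refine ⟨η, ?_⟩
  have : (Matrix.of fun a j => η a (v j)) = (1 : Matrix ι ι ℂ) := by
    ext a j
    have h1 := LinearMap.congr_fun (hη a) ⟨v j, Submodule.subset_span ⟨j, rfl⟩⟩
    simp only [LinearMap.comp_apply, Submodule.subtype_apply, Finsupp.lapply_apply] at h1
    rw [Matrix.of_apply, h1, h.repr_eq_single j _ rfl, Matrix.one_apply, Finsupp.single_apply]
    simp only [eq_comm]
  rw [uniqD, this, Matrix.det_one]
  exact one_ne_zero

theorem uniq_poly {deg : ι → ℕ} {ψ : ι → ℂ → ℂ → M} (h : ∀ j, Homog (deg j) (ψ j)) :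
    ∃ p : (ι → Module.Dual ℂ M) → ℂ[X], ∀ η, (p η).natDegree ≤ ∑ j, deg j ∧
      (p η).coeff (∑ j, deg j) = uniqD (fun j => ψ j 1 0) η ∧
      ∀ s, (p η).eval s = uniqD (fun j => ψ j s 1) η := by
  choose c hc using h
  refine ⟨fun η => (Matrix.of fun a j =>
    ∑ i ∈ Finset.range (deg j + 1), monomial i (η a (c j i))).det, fun η => ?_⟩
  have h1 := uniq_det deg (Matrix.of fun a j =>
    ∑ i ∈ Finset.range (deg j + 1), monomial i (η a (c j i))) fun a j =>
      natDegree_sum_le_of_forall_le _ _ fun i hi =>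
        (natDegree_monomial_le _).trans (Nat.lt_succ_iff.1 (Finset.mem_range.1 hi))
  refine ⟨h1.1, h1.2.trans ?_, fun s => ?_⟩
  · rw [uniqD]
    congr 1
    ext a j
    simp only [Matrix.of_apply, finsetSum_coeff, coeff_monomial, hc, map_sum, map_smul]
    refine Finset.sum_congr rfl fun i hi => ?_
    split_ifs with h2
    · simp [h2]
    · have : deg j - i ≠ 0 := by
        have := Finset.mem_range.1 hi
        omega
      simp [this]
  · rw [uniqD, ← coe_evalRingHom, RingHom.map_det]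
    congr 1
    ext a j
    simp [hc, eval_finsetSum, mul_comm]

theorem uniq_le {deg deg' : ι → ℕ} {ψ ψ' : ι → ℂ → ℂ → M} (h : ∀ j, Homog (deg j) (ψ j))
    (h' : ∀ j, Homog (deg' j) (ψ' j))
    (hi : ∀ s t : ℂ, (s, t) ≠ 0 → LinearIndependent ℂ fun j => ψ j s t)
    (hs : ∀ s t : ℂ, (s, t) ≠ 0 → Submodule.span ℂ (Set.range fun j => ψ j s t) =
      Submodule.span ℂ (Set.range fun j => ψ' j s t)) : ∑ j, deg j ≤ ∑ j, deg' j := by
  obtain ⟨p, hp⟩ := uniq_poly h
  obtain ⟨p', hp'⟩ := uniq_poly h'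
  have h10 : ((1, 0) : ℂ × ℂ) ≠ 0 := by simp
  have hs1 : ∀ s : ℂ, ((s, 1) : ℂ × ℂ) ≠ 0 := fun s => by simp
  obtain ⟨ζ, hζ⟩ := uniq_ne (hi 1 0 h10)
  have hζ' : uniqD (fun j => ψ' j 1 0) ζ ≠ 0 := by
    obtain ⟨m, hm⟩ := uniq_scale (v := fun j => ψ' j 1 0) (v' := fun j => ψ j 1 0) fun j =>
      hs 1 0 h10 ▸ Submodule.subset_span ⟨j, rfl⟩
    intro h0
    exact hζ (by rw [hm, h0, zero_mul])
  have hcross : ∀ η, p' ζ * p η = p ζ * p' η := by
    intro η
    refine Polynomial.funext fun s => ?_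
    obtain ⟨m, hm⟩ := uniq_scale (v := fun j => ψ j s 1) (v' := fun j => ψ' j s 1) fun j =>
      (hs s 1 (hs1 s)).symm ▸ Submodule.subset_span ⟨j, rfl⟩
    rw [eval_mul, eval_mul, (hp η).2.2, (hp ζ).2.2, (hp' η).2.2, (hp' ζ).2.2, hm, hm]
    ring
  let J : Ideal ℂ[X] :=
    { carrier := {q | p ζ ∣ p' ζ * q}
      zero_mem' := by simp
      add_mem' := fun {a b} ha hb => by
        change p ζ ∣ p' ζ * (a + b)
        rw [mul_add]
        exact dvd_add ha hb
      smul_mem' := fun r a ha => by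
        change p ζ ∣ p' ζ * (r * a)
        rw [mul_left_comm]
        exact Dvd.dvd.mul_left ha r }
  obtain ⟨g, hg⟩ := (IsPrincipalIdealRing.principal J).principal
  have hdvd : p ζ ∣ p' ζ := by
    by_cases hdeg : g.degree = 0
    · have h1 : (1 : ℂ[X]) ∈ J := by
        rw [hg]
        exact Ideal.mem_span_singleton.2 (isUnit_iff_degree_eq_zero.2 hdeg).dvd
      have h2 : p ζ ∣ p' ζ * 1 := h1
      rwa [mul_one] at h2
    · obtain ⟨x, hx⟩ := IsAlgClosed.exists_root g hdeg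
      obtain ⟨η, hη⟩ := uniq_ne (hi x 1 (hs1 x))
      have h1 : p η ∈ J := ⟨p' η, hcross η⟩
      rw [hg] at h1
      obtain ⟨q, hq⟩ := Ideal.mem_span_singleton.1 h1
      refine absurd ?_ hη
      rw [← (hp η).2.2, hq, eval_mul, hx.eq_zero, zero_mul]
  have h0 : p' ζ ≠ 0 := fun h0 => hζ' (by rw [← (hp' ζ).2.1, h0, coeff_zero])
  exact (le_natDegree_of_ne_zero (by rw [(hp ζ).2.1]; exact hζ)).trans
    ((natDegree_le_of_dvd hdvd h0).trans (hp' ζ).1)

theorem Framed.unique {M : Type} [AddCommGroup M] [Module ℂ M]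
    {U : ℂ → ℂ → Set (Submodule ℂ M)} (hU : ∀ s t : ℂ, (s, t) ≠ 0 → (U s t).Nonempty) {d d' : ℕ}
    (hd : Framed U d) (hd' : Framed U d') : d = d' := by
  obtain ⟨ι, _, deg, ψ, rfl, h1, h2⟩ := hd
  obtain ⟨ι', _, deg', ψ', rfl, h1', h2'⟩ := hd'
  have hs : ∀ s t : ℂ, (s, t) ≠ 0 → Submodule.span ℂ (Set.range fun j => ψ j s t) =
      Submodule.span ℂ (Set.range fun j => ψ' j s t) := fun s t hst => by
    obtain ⟨V, hV⟩ := hU s t hst
    rw [← (h2 s t hst).2 V hV, ← (h2' s t hst).2 V hV]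
  have h10 : ((1, 0) : ℂ × ℂ) ≠ 0 := by simp
  have hc : Fintype.card ι = Fintype.card ι' := by
    rw [← finrank_span_eq_card (h2 1 0 h10).1, ← finrank_span_eq_card (h2' 1 0 h10).1, hs 1 0 h10]
  let e := Fintype.equivOfCardEq hc
  have hr : ∀ s t : ℂ, (Set.range fun j => ψ' (e j) s t) = Set.range fun j => ψ' j s t :=
    fun s t => e.surjective.range_comp fun j => ψ' j s t
  rw [← e.sum_comp deg']
  apply le_antisymm
  · exact uniq_le h1 (fun j => h1' (e j)) (fun s t hst => (h2 s t hst).1)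
      fun s t hst => by rw [hr, hs s t hst]
  · exact uniq_le (fun j => h1' (e j)) h1
      (fun s t hst => (h2' s t hst).1.comp e e.injective) fun s t hst => by rw [hr, hs s t hst]

end Pool.Agent.P.MP_e1a373_ag.B
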