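import Pool.Agent.P.MP_e1a373_ag.B.ThmA
import Pool.Agent.P.MP_e1a373_ag.B.Coef
import Pool.Agent.P.MP_e1a373_ag.B.Deg
import Pool.Agent.P.MP_e1a373_ag.B.Cat
import Pool.Agent.P.MP_e1a373_ag.B.Uniq
import Pool.Agent.P.MP_e1a373_ag.Final

/-!
The degree of the conformal block bundle on an F-curve is given by the factorisation formula.
-/

noncomputable section

namespace Pool.Agent.P.MP_e1a373_ag.B

variable {n : ℕ}

theorem isDegree_cbNat (l : ℕ) (lam : Fin n → ℕ) (hl : ∀ i, lam i ≤ l) (F : FCurve n) :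
    IsDegree l lam F (cbNat l lam F) := by
  obtain ⟨ι, _, deg, ψ, hd, hψ, hfr⟩ := framed_all l lam hl F
  obtain ⟨κ, hκ⟩ := exists_coef l lam
  choose c hc using hψ
  let σ := (Fintype.equivFin ι).symm
  have hh : ∀ j s t, homog (deg (σ j)) (fun i => κ (c (σ j) i)) s t = κ (ψ (σ j) s t) := by
    intro j s t
    rw [hc, map_sum, homog]
    simp only [map_smul]
  refine ⟨Fintype.card ι, fun j => deg (σ j), fun j i => κ (c (σ j) i), ?_, fun s t hst => ?_⟩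
  · rw [← hd]
    exact σ.sum_comp deg
  · obtain ⟨h1, h2⟩ := hfr s t hst
    simp only [hh]
    refine ⟨?_, fun S hS => ?_⟩
    · obtain ⟨Y, hY⟩ := exists_spinePos s t hst
      have h3 := h2 _ ⟨Y, hY, rfl⟩
      have h4 := (hκ (allPos F n Y)).injOn
      rw [h3] at h4
      exact (h1.map_injOn κ h4).comp σ σ.injective
    · obtain ⟨Y, hY, τ, hτ⟩ := exists_tree F s t S hS
      have h3 := h2 _ ⟨Y, hY, rfl⟩
      have h4 := (hκ (allPos F n Y)).image_eq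
      have h5 : Set.range (fun j => κ (ψ (σ j) s t)) = κ '' Set.range fun j => ψ j s t := by
        rw [← Set.range_comp]
        exact σ.surjective.range_comp (κ ∘ fun j => ψ j s t)
      rw [h5, ← Submodule.map_span, ← h3, Submodule.map_coe, h4, ← hτ]
      exact τ.thmA lam hl

theorem IsDegree.framed {l : ℕ} {lam : Fin n → ℕ} {F : FCurve n} {d : ℕ}
    (hd : IsDegree l lam F d) : Framed (fun s t => {U : Submodule ℂ ((Fin n → ℕ) → ℂ) |
      ∃ S, Spine s t S ∧ restr '' Vacua l lam (attach F S) = U}) d := by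
  obtain ⟨r, deg, c, h1, h2⟩ := hd
  refine ⟨Fin r, inferInstance, deg, fun j => homog (deg j) (c j), h1,
    fun j => ⟨c j, fun s t => rfl⟩, fun s t hst => ⟨(h2 s t hst).1, ?_⟩⟩
  rintro U ⟨S, hS, hU⟩
  exact SetLike.coe_injective (hU.symm.trans ((h2 s t hst).2 S hS).image_eq)

theorem isDegree_iff (l : ℕ) (lam : Fin n → ℕ) (hl : ∀ i, lam i ≤ l) (F : FCurve n) (d : ℕ) :
    IsDegree l lam F d ↔ d = cbNat l lam F := by
  refine ⟨fun hd => Framed.unique (fun s t hst => ?_) hd.framed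
    (isDegree_cbNat l lam hl F).framed, fun h => h ▸ isDegree_cbNat l lam hl F⟩
  obtain ⟨S, hS⟩ := exists_spine s t hst
  obtain ⟨r, deg, c, -, h2⟩ := hd
  exact ⟨_, S, hS, ((h2 s t hst).2 S hS).image_eq⟩

theorem main (n : ℕ) (hn : 7 ≤ n) : ∃ D : ℕ → (Fin n → ℕ) → FCurve n → ℕ,
    (∀ l lam F, (∀ i, lam i ≤ l) → ∀ d, IsDegree l lam F d ↔ d = D l lam F) ∧
    ¬ ∃ l0 : ℕ, ∀ l : ℕ, 1 ≤ l → ∀ lam : Fin n → ℕ, (∀ i, lam i ≤ l) →
      (fun F => (D l lam F : ℝ)) ∈ convexHull ℝ {v : FCurve n → ℝ |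
        ∃ (l' : ℕ) (mu : Fin n → ℕ) (m : ℝ), 1 ≤ l' ∧ l' ≤ l0 ∧ (∀ i, mu i ≤ l') ∧ 0 ≤ m ∧
          v = m • fun F => (D l' mu F : ℝ)} :=
  ⟨cbNat, fun l lam F hl d => isDegree_iff l lam hl F d, not_fg n hn⟩

end Pool.Agent.P.MP_e1a373_ag.B
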