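import Pool.Agent.P.MP_e1a373_ag.B.FFT
import Pool.Agent.P.MP_e1a373_ag.Rank

/-!
The bundle of blocks on the moduli space of four-pointed curves.
-/

open scoped TensorProduct Classical

noncomputable section

namespace Pool.Agent.P.MP_e1a373_ag.B

section FourAux

open MvPolynomial

/-- The substitution `y ↦ y + T x`. -/
def fourSub (x : Fin 4 → ℂ) :
    MvPolynomial (Fin 4) ℂ →ₐ[ℂ] Polynomial (MvPolynomial (Fin 4) ℂ) :=
  MvPolynomial.aeval fun k => Polynomial.C (X k) + Polynomial.C (C (x k)) * Polynomial.X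

theorem four_sub_X (x : Fin 4 → ℂ) (k : Fin 4) :
    fourSub x (X k) = Polynomial.C (X k) + Polynomial.C (C (x k)) * Polynomial.X := by
  simp only [fourSub, aeval_X]

theorem four_sub_C (x : Fin 4 → ℂ) (c : ℂ) : fourSub x (C c) = Polynomial.C (C c) := by
  simp only [fourSub, aeval_C, Polynomial.algebraMap_apply, MvPolynomial.algebraMap_eq]

theorem four_sub_eval (x : Fin 4 → ℂ) (F : MvPolynomial (Fin 4) ℂ) :
    (fourSub x F).eval 0 = F := by
  induction F using MvPolynomial.induction_on with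
  | C c => rw [four_sub_C, Polynomial.eval_C]
  | add p q hp hq => rw [map_add, Polynomial.eval_add, hp, hq]
  | mul_X p k hp =>
    rw [map_mul, Polynomial.eval_mul, hp, four_sub_X]
    simp

theorem four_sub_ne (x : Fin 4 → ℂ) {F : MvPolynomial (Fin 4) ℂ} (hF : F ≠ 0) :
    fourSub x F ≠ 0 := by
  intro h
  apply hF
  rw [← four_sub_eval x F, h, Polynomial.eval_zero]

theorem four_Dx_apply (x : Fin 4 → ℂ) (F : MvPolynomial (Fin 4) ℂ) :
    Dx x F = ∑ i, C (x i) * pderiv i F := by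
  simp only [Dx, LinearMap.sum_apply, LinearMap.smul_apply, Derivation.coeFn_coe,
    MvPolynomial.smul_eq_C_mul]

theorem four_Dx_mul_X (x : Fin 4 → ℂ) (F : MvPolynomial (Fin 4) ℂ) (k : Fin 4) :
    Dx x (F * X k) = Dx x F * X k + F * C (x k) := by
  rw [four_Dx_apply, four_Dx_apply, Finset.sum_mul]
  have h1 : ∀ i, C (x i) * pderiv i (F * X k) =
      C (x i) * pderiv i F * X k + (if i = k then F * C (x k) else 0) := by
    intro i
    rw [pderiv_mul]
    by_cases hik : i = k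
    · subst hik
      rw [pderiv_X_self, if_pos rfl]
      ring
    · rw [pderiv_X_of_ne (Ne.symm hik), if_neg hik]
      ring
  simp only [h1, Finset.sum_add_distrib, Finset.sum_ite_eq', Finset.mem_univ, if_true]

theorem four_sub_deriv (x : Fin 4 → ℂ) (F : MvPolynomial (Fin 4) ℂ) :
    Polynomial.derivative (fourSub x F) = fourSub x (Dx x F) := by
  induction F using MvPolynomial.induction_on with
  | C c =>
    rw [four_sub_C, Polynomial.derivative_C, four_Dx_apply]
    simp only [pderiv_C, mul_zero, Finset.sum_const_zero, map_zero]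
  | add p q hp hq => rw [map_add, map_add, hp, hq, map_add, map_add]
  | mul_X p k hp =>
    rw [map_mul, Polynomial.derivative_mul, hp, four_Dx_mul_X, map_add, map_mul, map_mul,
      four_sub_C, four_sub_X]
    simp

theorem four_sub_iter (x : Fin 4 → ℂ) (n : ℕ) (F : MvPolynomial (Fin 4) ℂ) :
    Polynomial.derivative^[n] (fourSub x F) = fourSub x ((Dx x ^ n) F) := by
  induction n with
  | zero => simp
  | succ n ih =>
    rw [Function.iterate_succ_apply', ih, four_sub_deriv, pow_succ', Module.End.mul_apply]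

/-- The degree in the direction `x`. -/
def fourDg (x : Fin 4 → ℂ) (F : MvPolynomial (Fin 4) ℂ) : ℕ := (fourSub x F).natDegree

theorem four_Dx_iff (x : Fin 4 → ℂ) (l : ℕ) (F : MvPolynomial (Fin 4) ℂ) :
    (Dx x ^ (l + 1)) F = 0 ↔ fourDg x F ≤ l := by
  constructor
  · intro h
    have h1 := four_sub_iter x (l + 1) F
    rw [h, map_zero] at h1
    unfold fourDg
    rw [Polynomial.natDegree_le_iff_coeff_eq_zero]
    intro N hN
    have h2 := Polynomial.coeff_iterate_derivative (k := l + 1) (fourSub x F) (N - (l + 1))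
    have h3 : N - (l + 1) + (l + 1) = N := by omega
    rw [h1, h3, Polynomial.coeff_zero, nsmul_eq_mul] at h2
    have h4 : ((N.descFactorial (l + 1) : ℕ) : MvPolynomial (Fin 4) ℂ) ≠ 0 := by
      rw [Nat.cast_ne_zero, Ne, Nat.descFactorial_eq_zero_iff_lt]
      omega
    exact (mul_eq_zero.1 h2.symm).resolve_left h4
  · intro h
    by_contra h0
    apply four_sub_ne x h0
    rw [← four_sub_iter]
    exact Polynomial.iterate_derivative_eq_zero (Nat.lt_succ_of_le h)

theorem four_mem_PB (l : ℕ) (a : Fin 4 → ℕ) (Y : Set (Fin 4 → ℂ)) (F : MvPolynomial (Fin 4) ℂ) :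
    F ∈ PB l a Y ↔ F ∈ PB l a ∅ ∧ ∀ x ∈ Y, fourDg x F ≤ l := by
  constructor
  · rintro ⟨h1, h2, h3, h4⟩
    exact ⟨⟨h1, h2, h3, fun x hx => hx.elim⟩, fun x hx => (four_Dx_iff x l F).1 (h4 x hx)⟩
  · rintro ⟨⟨h1, h2, h3, -⟩, h4⟩
    exact ⟨h1, h2, h3, fun x hx => (four_Dx_iff x l F).2 (h4 x hx)⟩

theorem four_dg_mul (x : Fin 4 → ℂ) {F G : MvPolynomial (Fin 4) ℂ} (hF : F ≠ 0) (hG : G ≠ 0) :
    fourDg x (F * G) = fourDg x F + fourDg x G := by
  unfold fourDg
  rw [map_mul, Polynomial.natDegree_mul (four_sub_ne x hF) (four_sub_ne x hG)]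

theorem four_dg_mul_le (x : Fin 4 → ℂ) (F G : MvPolynomial (Fin 4) ℂ) :
    fourDg x (F * G) ≤ fourDg x F + fourDg x G := by
  unfold fourDg
  rw [map_mul]
  exact Polynomial.natDegree_mul_le

theorem four_dg_pow (x : Fin 4 → ℂ) (F : MvPolynomial (Fin 4) ℂ) (n : ℕ) :
    fourDg x (F ^ n) = n * fourDg x F := by
  unfold fourDg
  rw [map_pow, Polynomial.natDegree_pow]

theorem four_br_ne {p q : Fin 4} (h : p ≠ q) : (X p - X q : MvPolynomial (Fin 4) ℂ) ≠ 0 := by
  rw [sub_ne_zero]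
  exact fun h' => h (X_injective h')

theorem four_sub_br (x : Fin 4 → ℂ) (p q : Fin 4) : fourSub x (X p - X q) =
    Polynomial.C (C (x p - x q)) * Polynomial.X + Polynomial.C (X p - X q) := by
  rw [map_sub, four_sub_X, four_sub_X]
  simp only [map_sub]
  ring

theorem four_dg_br_le (x : Fin 4 → ℂ) (p q : Fin 4) : fourDg x (X p - X q) ≤ 1 := by
  unfold fourDg
  rw [four_sub_br]
  exact Polynomial.natDegree_linear_le

theorem four_dg_br {x : Fin 4 → ℂ} {p q : Fin 4} (h : x p ≠ x q) : fourDg x (X p - X q) = 1 := by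
  unfold fourDg
  rw [four_sub_br]
  apply Polynomial.natDegree_linear
  rw [Ne, C_eq_zero, sub_eq_zero]
  exact h

theorem four_dg_br_zero {x : Fin 4 → ℂ} {p q : Fin 4} (h : x p = x q) :
    fourDg x (X p - X q) = 0 := by
  unfold fourDg
  rw [four_sub_br, h, sub_self, map_zero, map_zero, zero_mul, zero_add, Polynomial.natDegree_C]

theorem four_bA_ne : bA ≠ 0 := mul_ne_zero (four_br_ne (by decide)) (four_br_ne (by decide))

theorem four_bB_ne : bB ≠ 0 := mul_ne_zero (four_br_ne (by decide)) (four_br_ne (by decide))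

theorem four_bP_ne (a : Fin 4 → ℕ) : bP a ≠ 0 := by
  unfold bP
  refine mul_ne_zero (mul_ne_zero (mul_ne_zero ?_ ?_) (mul_ne_zero ?_ ?_)) (mul_ne_zero ?_ ?_) <;>
    exact pow_ne_zero _ (four_br_ne (by decide))

theorem four_dg_bA (x : Fin 4 → ℂ) :
    fourDg x bA = fourDg x (X 0 - X 1) + fourDg x (X 2 - X 3) :=
  four_dg_mul x (four_br_ne (by decide)) (four_br_ne (by decide))

theorem four_dg_bB (x : Fin 4 → ℂ) :
    fourDg x bB = fourDg x (X 0 - X 2) + fourDg x (X 3 - X 1) :=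
  four_dg_mul x (four_br_ne (by decide)) (four_br_ne (by decide))

theorem four_dg_bA_le (x : Fin 4 → ℂ) : fourDg x bA ≤ 2 := by
  have h1 := four_dg_br_le x 0 1
  have h2 := four_dg_br_le x 2 3
  rw [four_dg_bA]
  omega

theorem four_dg_bB_le (x : Fin 4 → ℂ) : fourDg x bB ≤ 2 := by
  have h1 := four_dg_br_le x 0 2
  have h2 := four_dg_br_le x 3 1
  rw [four_dg_bB]
  omega

theorem four_dg_bP (x : Fin 4 → ℂ) (a : Fin 4 → ℕ) : fourDg x (bP a) =
    (a 0 + a 1 - (a 2 + a 3)) / 2 * fourDg x (X 0 - X 1) +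
      (a 2 + a 3 - (a 0 + a 1)) / 2 * fourDg x (X 2 - X 3) +
    ((a 0 + a 2 - (a 1 + a 3)) / 2 * fourDg x (X 0 - X 2) +
      (a 1 + a 3 - (a 0 + a 2)) / 2 * fourDg x (X 3 - X 1)) +
    ((a 0 + a 3 - (a 1 + a 2)) / 2 * fourDg x (X 0 - X 3) +
      (a 1 + a 2 - (a 0 + a 3)) / 2 * fourDg x (X 1 - X 2)) := by
  have hb : ∀ (p q : Fin 4) (n : ℕ), p ≠ q → ((X p - X q : MvPolynomial (Fin 4) ℂ)) ^ n ≠ 0 :=
    fun p q n h => pow_ne_zero _ (four_br_ne h)
  unfold bP
  rw [four_dg_mul, four_dg_mul, four_dg_mul, four_dg_mul, four_dg_mul]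
  · simp only [four_dg_pow]
  · exact hb _ _ _ (by decide)
  · exact hb _ _ _ (by decide)
  · exact hb _ _ _ (by decide)
  · exact hb _ _ _ (by decide)
  · exact hb _ _ _ (by decide)
  · exact hb _ _ _ (by decide)
  · exact mul_ne_zero (hb _ _ _ (by decide)) (hb _ _ _ (by decide))
  · exact mul_ne_zero (hb _ _ _ (by decide)) (hb _ _ _ (by decide))
  · exact mul_ne_zero (mul_ne_zero (hb _ _ _ (by decide)) (hb _ _ _ (by decide)))
      (mul_ne_zero (hb _ _ _ (by decide)) (hb _ _ _ (by decide)))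
  · exact mul_ne_zero (hb _ _ _ (by decide)) (hb _ _ _ (by decide))

theorem four_dg_bP_le (x : Fin 4 → ℂ) (a : Fin 4 → ℕ) : fourDg x (bP a) ≤ bN a := by
  rw [four_dg_bP]
  unfold bN
  have hb : ∀ (n : ℕ) (p q : Fin 4), n * fourDg x (X p - X q) ≤ n := fun n p q => by
    have := Nat.mul_le_mul_left n (four_dg_br_le x p q)
    rwa [mul_one] at this
  exact add_le_add (add_le_add (add_le_add (hb _ _ _) (hb _ _ _)) (add_le_add (hb _ _ _) (hb _ _ _)))
    (add_le_add (hb _ _ _) (hb _ _ _))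

/-- The invariant that vanishes on the orbit with cross ratio `[s : t]`. -/
def fourEll (s t : ℂ) : MvPolynomial (Fin 4) ℂ := C t * bA - C s * bB

/-- The derivative of `fourEll` in the direction `x`. -/
def fourLin (s t : ℂ) (x : Fin 4 → ℂ) : MvPolynomial (Fin 4) ℂ :=
  C t * ((X 0 - X 1) * C (x 2 - x 3) + C (x 0 - x 1) * (X 2 - X 3)) -
    C s * ((X 0 - X 2) * C (x 3 - x 1) + C (x 0 - x 2) * (X 3 - X 1))

theorem four_sub_ell {s t : ℂ} {x : Fin 4 → ℂ}
    (h : s * ((x 0 - x 2) * (x 3 - x 1)) = t * ((x 0 - x 1) * (x 2 - x 3))) :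
    fourSub x (fourEll s t) =
      Polynomial.C (fourLin s t x) * Polynomial.X + Polynomial.C (fourEll s t) := by
  have h1 : (Polynomial.C (C s) * (Polynomial.C (C (x 0 - x 2)) * Polynomial.C (C (x 3 - x 1))) :
      Polynomial (MvPolynomial (Fin 4) ℂ)) =
      Polynomial.C (C t) * (Polynomial.C (C (x 0 - x 1)) * Polynomial.C (C (x 2 - x 3))) := by
    simp only [← map_mul, h]
  unfold fourEll fourLin bA bB
  rw [map_sub, map_mul, map_mul, map_mul, map_mul, four_sub_C, four_sub_C, four_sub_br,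
    four_sub_br, four_sub_br, four_sub_br]
  simp only [Polynomial.C_sub, Polynomial.C_mul, Polynomial.C_add]
  linear_combination (-Polynomial.X ^ 2) * h1

theorem four_dg_ell_le {s t : ℂ} {x : Fin 4 → ℂ}
    (h : s * ((x 0 - x 2) * (x 3 - x 1)) = t * ((x 0 - x 1) * (x 2 - x 3))) :
    fourDg x (fourEll s t) ≤ 1 := by
  unfold fourDg
  rw [four_sub_ell h]
  exact Polynomial.natDegree_linear_le

theorem four_dg_ell {s t : ℂ} {x : Fin 4 → ℂ}
    (h : s * ((x 0 - x 2) * (x 3 - x 1)) = t * ((x 0 - x 1) * (x 2 - x 3)))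
    (h' : ¬ (t * (x 2 - x 3) = s * (x 3 - x 1) ∧ t * (x 2 - x 3) = s * (x 0 - x 2) ∧
      t * (x 0 - x 1) = s * (x 1 - x 3))) :
    fourDg x (fourEll s t) = 1 := by
  unfold fourDg
  rw [four_sub_ell h]
  apply Polynomial.natDegree_linear
  intro h0
  apply h'
  have e0 := congrArg (eval ![1, 0, 0, 0]) h0
  have e1 := congrArg (eval ![0, 1, 0, 0]) h0
  have e2 := congrArg (eval ![0, 0, 1, 0]) h0
  simp [fourLin] at e0 e1 e2
  refine ⟨?_, ?_, ?_⟩
  · linear_combination e0
  · linear_combination -e1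
  · linear_combination e2

theorem four_ell_ne {s t : ℂ} (h : (s, t) ≠ 0) : fourEll s t ≠ 0 := by
  intro h0
  apply h
  have e0 := congrArg (eval ![1, 0, 1, 0]) h0
  have e1 := congrArg (eval ![1, 1, 0, 2]) h0
  simp [fourEll, bA, bB] at e0 e1
  norm_num at e1
  rw [e0, e1]
  rfl

/-- The binary forms of degree `n` in `A` and `B`. -/
def fourW (A B : MvPolynomial (Fin 4) ℂ) (n : ℕ) : Submodule ℂ (MvPolynomial (Fin 4) ℂ) :=
  Submodule.span ℂ {F | ∃ u w : ℕ, u + w = n ∧ F = A ^ u * B ^ w}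

theorem four_W_mul {A B G F : MvPolynomial (Fin 4) ℂ} {n : ℕ}
    (hG : ∃ α β : ℂ, G = C α * A + C β * B) (hF : F ∈ fourW A B n) :
    G * F ∈ fourW A B (n + 1) := by
  obtain ⟨α, β, rfl⟩ := hG
  induction hF using Submodule.span_induction with
  | mem F hF =>
    obtain ⟨u, w, huw, rfl⟩ := hF
    have h1 : (C α * A + C β * B) * (A ^ u * B ^ w) =
        α • (A ^ (u + 1) * B ^ w) + β • (A ^ u * B ^ (w + 1)) := by
      rw [smul_eq_C_mul, smul_eq_C_mul]
      ring
    rw [h1]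
    exact Submodule.add_mem _
      (Submodule.smul_mem _ _ (Submodule.subset_span ⟨u + 1, w, by omega, rfl⟩))
      (Submodule.smul_mem _ _ (Submodule.subset_span ⟨u, w + 1, by omega, rfl⟩))
  | zero => rw [mul_zero]; exact Submodule.zero_mem _
  | add F F' _ _ h1 h2 => rw [mul_add]; exact Submodule.add_mem _ h1 h2
  | smul c F _ h1 => rw [mul_smul_comm]; exact Submodule.smul_mem _ _ h1

theorem four_W_pow {A B A' B' : MvPolynomial (Fin 4) ℂ}
    (hA : ∃ α β : ℂ, A' = C α * A + C β * B) (hB : ∃ α β : ℂ, B' = C α * A + C β * B)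
    (u w : ℕ) : A' ^ u * B' ^ w ∈ fourW A B (u + w) := by
  induction u with
  | zero =>
    rw [pow_zero, one_mul, zero_add]
    induction w with
    | zero => exact Submodule.subset_span ⟨0, 0, rfl, by simp⟩
    | succ w ih => rw [pow_succ']; exact four_W_mul hB ih
  | succ u ih =>
    rw [pow_succ', mul_assoc, show u + 1 + w = u + w + 1 by omega]
    exact four_W_mul hA ih

theorem four_W_le {A B A' B' : MvPolynomial (Fin 4) ℂ}
    (hA : ∃ α β : ℂ, A' = C α * A + C β * B) (hB : ∃ α β : ℂ, B' = C α * A + C β * B)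
    (n : ℕ) : fourW A' B' n ≤ fourW A B n := by
  apply Submodule.span_le.2
  rintro F ⟨u, w, rfl, rfl⟩
  exact four_W_pow hA hB u w

theorem four_W_coef {A B F : MvPolynomial (Fin 4) ℂ} {n : ℕ} (hF : F ∈ fourW A B n) :
    ∃ c : ℕ → ℂ, F = ∑ u ∈ Finset.range (n + 1), c u • (A ^ u * B ^ (n - u)) := by
  induction hF using Submodule.span_induction with
  | mem F hF =>
    obtain ⟨u, w, rfl, rfl⟩ := hF
    refine ⟨fun v => if v = u then 1 else 0, ?_⟩
    rw [Finset.sum_eq_single u]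
    · simp
    · intro v _ hv
      simp [hv]
    · intro h
      exact absurd (Finset.mem_range.2 (by omega)) h
  | zero => exact ⟨0, by simp⟩
  | add F F' _ _ h1 h2 =>
    obtain ⟨c, rfl⟩ := h1
    obtain ⟨c', rfl⟩ := h2
    exact ⟨c + c', by simp only [Pi.add_apply, add_smul, Finset.sum_add_distrib]⟩
  | smul r F _ h1 =>
    obtain ⟨c, rfl⟩ := h1
    exact ⟨r • c, by simp only [Pi.smul_apply, smul_eq_mul, mul_smul, Finset.smul_sum]⟩

theorem four_deg_coef (x : Fin 4 → ℂ) (p : ℕ → MvPolynomial (Fin 4) ℂ) (c : ℕ → ℂ) (n N k : ℕ)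
    (hp : ∀ u < n, p u ≠ 0 ∧ fourDg x (p u) + u = N)
    (hc : ∀ u < k, u < n →
      (fourSub x (∑ v ∈ Finset.range n, c v • p v)).coeff (N - u) = 0) :
    ∀ u < k, u < n → c u = 0 := by
  intro u
  induction u using Nat.strong_induction_on with
  | _ u ih =>
    intro huk hun
    have h1 := hc u huk hun
    rw [map_sum, Polynomial.finsetSum_coeff, Finset.sum_eq_single u] at h1
    · rw [map_smul, Polynomial.coeff_smul] at h1
      have h2 : N - u = (fourSub x (p u)).natDegree := by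
        have := (hp u hun).2
        unfold fourDg at this
        omega
      rw [h2] at h1
      have h3 : (fourSub x (p u)).coeff (fourSub x (p u)).natDegree ≠ 0 :=
        Polynomial.leadingCoeff_ne_zero.2 (four_sub_ne x (hp u hun).1)
      exact (smul_eq_zero.1 h1).resolve_right h3
    · intro v hv hvu
      have hvn := Finset.mem_range.1 hv
      rcases lt_or_gt_of_ne hvu with h | h
      · rw [ih v h (by omega) hvn, zero_smul, map_zero, Polynomial.coeff_zero]
      · rw [map_smul, Polynomial.coeff_smul, Polynomial.coeff_eq_zero_of_natDegree_lt, smul_zero]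
        have h2 := (hp v hvn).2
        unfold fourDg at h2
        omega
    · intro h
      exact absurd (Finset.mem_range.2 hun) h

theorem four_indep (Q : MvPolynomial (Fin 4) ℂ) (hQ : Q ≠ 0) (r : ℕ) :
    LinearIndependent ℂ (fun u : Fin r => Q * (bA ^ (u : ℕ) * bB ^ (r - 1 - u))) := by
  rw [Fintype.linearIndependent_iff]
  intro g hg u
  let x : Fin 4 → ℂ := ![1, 2, 0, 0]
  have hA : fourDg x bA = 1 := by
    rw [four_dg_bA, four_dg_br (by norm_num [x]), four_dg_br_zero (by simp [x])]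
  have hB : fourDg x bB = 2 := by
    rw [four_dg_bB, four_dg_br (by simp [x]), four_dg_br (by simp [x])]
  have h1 := four_deg_coef x (fun u => Q * (bA ^ u * bB ^ (r - 1 - u)))
    (fun v => if h : v < r then g ⟨v, h⟩ else 0) r (fourDg x Q + 2 * (r - 1)) r ?_ ?_ u u.2 u.2
  · simpa using h1
  · intro v hv
    have h2 : bA ^ v * bB ^ (r - 1 - v) ≠ 0 :=
      mul_ne_zero (pow_ne_zero _ four_bA_ne) (pow_ne_zero _ four_bB_ne)
    refine ⟨mul_ne_zero hQ h2, ?_⟩
    rw [four_dg_mul x hQ h2, four_dg_mul x (pow_ne_zero _ four_bA_ne) (pow_ne_zero _ four_bB_ne),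
      four_dg_pow, four_dg_pow, hA, hB]
    omega
  · intro v _ _
    rw [Finset.sum_range]
    simp only [Fin.is_lt, dif_pos, Fin.eta]
    rw [hg, map_zero, Polynomial.coeff_zero]

theorem four_homog (P Q : MvPolynomial (Fin 4) ℂ) (k : ℕ) :
    Homog k (fun s t => P * fourEll s t ^ k * Q) := by
  refine ⟨fun i => P * ((-bB) ^ i * bA ^ (k - i) * (k.choose i : MvPolynomial (Fin 4) ℂ)) * Q, ?_⟩
  intro s t
  have h1 : fourEll s t = C s * (-bB) + C t * bA := by
    unfold fourEll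
    ring
  simp only
  rw [h1, add_pow, Finset.mul_sum, Finset.sum_mul]
  apply Finset.sum_congr rfl
  intro i _
  rw [smul_eq_C_mul, mul_pow, mul_pow, map_mul, map_pow, map_pow]
  ring

theorem four_pos (a : Fin 4 → ℕ) {s t : ℂ} (hst : (s, t) ≠ 0) {Y : Set (Fin 4 → ℂ)}
    (hY : SpinePos s t Y) :
    (∀ x ∈ Y, s * ((x 0 - x 2) * (x 3 - x 1)) = t * ((x 0 - x 1) * (x 2 - x 3))) ∧
    ∃ x ∈ Y, ¬ (t * (x 2 - x 3) = s * (x 3 - x 1) ∧ t * (x 2 - x 3) = s * (x 0 - x 2) ∧
      t * (x 0 - x 1) = s * (x 1 - x 3)) ∧ (t ≠ 0 → x 0 ≠ x 2 ∧ x 3 ≠ x 1) ∧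
      (t = 0 → x 0 ≠ x 1 ∧ x 2 ≠ x 3) ∧ fourDg x (bP a) = bN a := by
  have hst' : ¬ (s = 0 ∧ t = 0) := by
    rintro ⟨rfl, rfl⟩
    exact hst rfl
  rcases hY with ⟨x, hx, h1, rfl⟩ | ⟨j, hj, rfl⟩
  · have hne : ∀ p q : Fin 4, p ≠ q → x p ≠ x q := fun p q h h' => h (hx h')
    refine ⟨fun y hy => by rw [Set.mem_singleton_iff.1 hy]; exact h1, x, rfl, ?_,
      fun _ => ⟨hne _ _ (by decide), hne _ _ (by decide)⟩,
      fun _ => ⟨hne _ _ (by decide), hne _ _ (by decide)⟩, ?_⟩
    · rintro ⟨e0, e1, e2⟩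
      have h31 : x 3 - x 1 ≠ 0 := sub_ne_zero.2 (hne _ _ (by decide))
      have h23 : x 2 - x 3 ≠ 0 := sub_ne_zero.2 (hne _ _ (by decide))
      have h21 : x 2 - x 1 ≠ 0 := sub_ne_zero.2 (hne _ _ (by decide))
      by_cases ht : t = 0
      · rw [ht, zero_mul] at e0
        exact hst' ⟨(mul_eq_zero.1 e0.symm).resolve_right h31, ht⟩
      · have hs : s ≠ 0 := by
          intro hs
          rw [hs, zero_mul] at e0
          exact (mul_ne_zero ht h23) e0
        have e3 : x 3 - x 1 = x 0 - x 2 := mul_left_cancel₀ hs (e0.symm.trans e1)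
        have e4 : x 2 - x 3 = x 1 - x 0 := mul_left_cancel₀ ht (by linear_combination e0 + e2)
        apply h21
        linear_combination (e3 + e4) / 2
    · rw [four_dg_bP, four_dg_br (hne _ _ (by decide)), four_dg_br (hne _ _ (by decide)),
        four_dg_br (hne _ _ (by decide)), four_dg_br (hne _ _ (by decide)),
        four_dg_br (hne _ _ (by decide)), four_dg_br (hne _ _ (by decide))]
      simp only [mul_one, bN]
  · have key : ∀ x y : Fin 4 → ℂ,
        s * ((x 0 - x 2) * (x 3 - x 1)) = t * ((x 0 - x 1) * (x 2 - x 3)) →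
        s * ((y 0 - y 2) * (y 3 - y 1)) = t * ((y 0 - y 1) * (y 2 - y 3)) →
        ∀ z ∈ ({x, y} : Set (Fin 4 → ℂ)),
          s * ((z 0 - z 2) * (z 3 - z 1)) = t * ((z 0 - z 1) * (z 2 - z 3)) := by
      rintro x y hx hy z (rfl | rfl)
      · exact hx
      · exact hy
    obtain rfl | rfl | rfl | rfl : j = 0 ∨ j = 1 ∨ j = 2 ∨ j = 3 := by
      fin_cases j <;> simp
    · simp at hj
    · have hs : s = 0 := by simpa using hj
      have ht : t ≠ 0 := fun ht => hst' ⟨hs, ht⟩
      have e1 : (fun i : Fin 4 => if i = 0 ∨ i = 1 then ((i : ℕ) : ℂ) + 1 else 0) =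
          ![1, 2, 0, 0] := by
        funext i
        fin_cases i <;> simp
        norm_num
      have e2 : (fun i : Fin 4 => if i = 0 ∨ i = 1 then 0 else ((i : ℕ) : ℂ) + 1) =
          ![0, 0, 3, 4] := by
        funext i
        fin_cases i <;> simp <;> norm_num
      rw [e1, e2]
      refine ⟨key _ _ (by simp [hs]) (by simp [hs]), ?_⟩
      by_cases ha : a 2 + a 3 ≤ a 0 + a 1
      · refine ⟨![1, 2, 0, 0], Or.inl rfl, ?_, ?_, fun h => absurd h ht, ?_⟩
        · simp [hs, ht]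
          norm_num
        · simp
        · rw [four_dg_bP, four_dg_br (by simp), four_dg_br_zero (by simp), four_dg_br (by simp),
            four_dg_br (by simp), four_dg_br (by simp), four_dg_br (by simp)]
          unfold bN
          omega
      · refine ⟨![0, 0, 3, 4], Or.inr rfl, ?_, ?_, fun h => absurd h ht, ?_⟩
        · simp [hs, ht]
          norm_num
        · simp
        · rw [four_dg_bP, four_dg_br_zero (by simp), four_dg_br (by simp),
            four_dg_br (by simp), four_dg_br (by simp), four_dg_br (by simp), four_dg_br (by simp)]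
          unfold bN
          omega
    · have ht : t = 0 := by simpa using hj
      have hs : s ≠ 0 := fun hs => hst' ⟨hs, ht⟩
      have e1 : (fun i : Fin 4 => if i = 0 ∨ i = 2 then ((i : ℕ) : ℂ) + 1 else 0) =
          ![1, 0, 3, 0] := by
        funext i
        fin_cases i <;> simp
        norm_num
      have e2 : (fun i : Fin 4 => if i = 0 ∨ i = 2 then 0 else ((i : ℕ) : ℂ) + 1) =
          ![0, 2, 0, 4] := by
        funext i
        fin_cases i <;> simp <;> norm_num
      rw [e1, e2]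
      refine ⟨key _ _ (by simp [ht]) (by simp [ht]), ?_⟩
      by_cases ha : a 1 + a 3 ≤ a 0 + a 2
      · refine ⟨![1, 0, 3, 0], Or.inl rfl, ?_, fun h => absurd ht h, ?_, ?_⟩
        · simp [hs, ht]
          norm_num
        · simp
        · rw [four_dg_bP, four_dg_br (by simp), four_dg_br (by simp), four_dg_br (by simp),
            four_dg_br_zero (by simp), four_dg_br (by simp), four_dg_br (by simp)]
          unfold bN
          omega
      · refine ⟨![0, 2, 0, 4], Or.inr rfl, ?_, fun h => absurd ht h, ?_, ?_⟩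
        · simp [hs, ht]
          norm_num
        · simp
        · rw [four_dg_bP, four_dg_br (by simp), four_dg_br (by simp), four_dg_br_zero (by simp),
            four_dg_br (by simp), four_dg_br (by simp), four_dg_br (by simp)]
          unfold bN
          omega
    · have hs : s = -t := by
        have : s + t = 0 := by simpa using hj
        linear_combination this
      have ht : t ≠ 0 := fun ht => hst' ⟨by rw [hs, ht, neg_zero], ht⟩
      have e1 : (fun i : Fin 4 => if i = 0 ∨ i = 3 then ((i : ℕ) : ℂ) + 1 else 0) =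
          ![1, 0, 0, 4] := by
        funext i
        fin_cases i <;> simp
        norm_num
      have e2 : (fun i : Fin 4 => if i = 0 ∨ i = 3 then 0 else ((i : ℕ) : ℂ) + 1) =
          ![0, 2, 3, 0] := by
        funext i
        fin_cases i <;> simp <;> norm_num
      rw [e1, e2]
      refine ⟨key _ _ (by simp [hs]) (by simp [hs]; norm_num), ?_⟩
      by_cases ha : a 1 + a 2 ≤ a 0 + a 3
      · refine ⟨![1, 0, 0, 4], Or.inl rfl, ?_, ?_, fun h => absurd h ht, ?_⟩
        · rintro ⟨-, h, -⟩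
          apply ht
          simp [hs] at h
          linear_combination h / 3
        · simp
        · rw [four_dg_bP, four_dg_br (by simp), four_dg_br (by simp), four_dg_br (by simp),
            four_dg_br (by simp), four_dg_br (by simp), four_dg_br_zero (by simp)]
          unfold bN
          omega
      · refine ⟨![0, 2, 3, 0], Or.inr rfl, ?_, ?_, fun h => absurd h ht, ?_⟩
        · rintro ⟨h, -, -⟩
          apply ht
          simp [hs] at h
          linear_combination h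
        · simp
        · rw [four_dg_bP, four_dg_br (by simp), four_dg_br (by simp), four_dg_br (by simp),
            four_dg_br (by simp), four_dg_br_zero (by simp), four_dg_br (by simp)]
          unfold bN
          omega

theorem four_W_mem (l : ℕ) (a : Fin 4 → ℕ) (ρ : ℕ)
    (hρ : a 0 + a 1 + a 2 + a 3 = 2 * (bN a + 2 * ρ)) (F : MvPolynomial (Fin 4) ℂ) :
    F ∈ PB l a ∅ ↔ ∃ G ∈ fourW bA bB ρ, F = bP a * G := by
  rw [fft4]
  constructor
  · intro hF
    induction hF using Submodule.span_induction with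
    | mem F hF =>
      obtain ⟨u, w, h1, rfl⟩ := hF
      exact ⟨_, Submodule.subset_span ⟨u, w, by omega, rfl⟩, rfl⟩
    | zero => exact ⟨0, Submodule.zero_mem _, by rw [mul_zero]⟩
    | add F F' _ _ h1 h2 =>
      obtain ⟨G, hG, rfl⟩ := h1
      obtain ⟨G', hG', rfl⟩ := h2
      exact ⟨G + G', Submodule.add_mem _ hG hG', by rw [mul_add]⟩
    | smul c F _ h1 =>
      obtain ⟨G, hG, rfl⟩ := h1
      exact ⟨c • G, Submodule.smul_mem _ _ hG, by rw [mul_smul_comm]⟩
  · rintro ⟨G, hG, rfl⟩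
    induction hG using Submodule.span_induction with
    | mem F hF =>
      obtain ⟨u, w, h1, rfl⟩ := hF
      exact Submodule.subset_span ⟨u, w, by omega, rfl⟩
    | zero => rw [mul_zero]; exact Submodule.zero_mem _
    | add F F' _ _ h1 h2 => rw [mul_add]; exact Submodule.add_mem _ h1 h2
    | smul c F _ h1 => rw [mul_smul_comm]; exact Submodule.smul_mem _ _ h1

theorem four_W_pow_mul {A B G F : MvPolynomial (Fin 4) ℂ} {n : ℕ}
    (hG : ∃ α β : ℂ, G = C α * A + C β * B) (hF : F ∈ fourW A B n) (k : ℕ) :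
    G ^ k * F ∈ fourW A B (n + k) := by
  induction k with
  | zero => rwa [pow_zero, one_mul]
  | succ k ih =>
    rw [pow_succ', mul_assoc, ← add_assoc]
    exact four_W_mul hG ih

theorem four_W_range (Q : MvPolynomial (Fin 4) ℂ) (r : ℕ) (hr : 0 < r)
    {G : MvPolynomial (Fin 4) ℂ} (hG : G ∈ fourW bA bB (r - 1)) :
    Q * G ∈ Submodule.span ℂ
      (Set.range fun u : Fin r => Q * (bA ^ (u : ℕ) * bB ^ (r - 1 - u))) := by
  induction hG using Submodule.span_induction with
  | mem F hF =>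
    obtain ⟨u, w, h1, rfl⟩ := hF
    refine Submodule.subset_span ⟨⟨u, by omega⟩, ?_⟩
    have : r - 1 - u = w := by omega
    simp only [this]
  | zero => rw [mul_zero]; exact Submodule.zero_mem _
  | add F F' _ _ h1 h2 => rw [mul_add]; exact Submodule.add_mem _ h1 h2
  | smul c F _ h1 => rw [mul_smul_comm]; exact Submodule.smul_mem _ _ h1

theorem four_main (l : ℕ) (a : Fin 4 → ℕ) (ρ κ r : ℕ)
    (hρ : a 0 + a 1 + a 2 + a 3 = 2 * (bN a + 2 * ρ)) (hκ : κ = bN a + 2 * ρ - l)
    (hr : r = ρ + 1 - κ) {s t : ℂ} (hst : (s, t) ≠ 0) {Y : Set (Fin 4 → ℂ)}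
    (hY : SpinePos s t Y) :
    PB l a Y = Submodule.span ℂ (Set.range fun u : Fin r =>
      bP a * fourEll s t ^ κ * (bA ^ (u : ℕ) * bB ^ (r - 1 - u))) := by
  obtain ⟨h1, x, hx, h2, h3, h4, h5⟩ := four_pos a hst hY
  have hell : ∃ α β : ℂ, fourEll s t = C α * bA + C β * bB :=
    ⟨t, -s, by rw [fourEll, map_neg]; ring⟩
  apply le_antisymm
  · intro F hF
    rw [four_mem_PB] at hF
    obtain ⟨G, hG, rfl⟩ := (four_W_mem l a ρ hρ _).1 hF.1
    have hd := hF.2 x hx
    have hde := four_dg_ell (h1 x hx) h2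
    obtain ⟨m, hm0, hm1, hm2, hm3, hm4⟩ : ∃ m : MvPolynomial (Fin 4) ℂ, m ≠ 0 ∧ fourDg x m = 2 ∧
        (∃ α β : ℂ, m = C α * bA + C β * bB) ∧ (∃ α β : ℂ, bA = C α * fourEll s t + C β * m) ∧
        (∃ α β : ℂ, bB = C α * fourEll s t + C β * m) := by
      by_cases ht : t = 0
      · have hs : s ≠ 0 := by
          rintro rfl
          subst ht
          exact hst rfl
        refine ⟨bA, four_bA_ne, ?_, ⟨1, 0, by simp⟩, ⟨0, 1, by simp⟩, ⟨-s⁻¹, 0, ?_⟩⟩
        · rw [four_dg_bA, four_dg_br (h4 ht).1, four_dg_br (h4 ht).2]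
        · have e : (C s⁻¹ * C s : MvPolynomial (Fin 4) ℂ) = 1 := by
            rw [← map_mul, inv_mul_cancel₀ hs, map_one]
          rw [fourEll, ht, map_zero, map_neg]
          linear_combination (-bB) * e
      · refine ⟨bB, four_bB_ne, ?_, ⟨0, 1, by simp⟩, ⟨t⁻¹, t⁻¹ * s, ?_⟩, ⟨0, 1, by simp⟩⟩
        · rw [four_dg_bB, four_dg_br (h3 ht).1, four_dg_br (h3 ht).2]
        · have e : (C t⁻¹ * C t : MvPolynomial (Fin 4) ℂ) = 1 := by
            rw [← map_mul, inv_mul_cancel₀ ht, map_one]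
          rw [fourEll, map_mul]
          linear_combination (-bA) * e
    obtain ⟨c, rfl⟩ := four_W_coef (four_W_le hm3 hm4 ρ hG)
    have hsum : bP a * ∑ u ∈ Finset.range (ρ + 1), c u • (fourEll s t ^ u * m ^ (ρ - u)) =
        ∑ u ∈ Finset.range (ρ + 1), c u • (bP a * (fourEll s t ^ u * m ^ (ρ - u))) := by
      rw [Finset.mul_sum]
      simp only [mul_smul_comm]
    rw [hsum] at hd ⊢
    have hc := four_deg_coef x (fun u => bP a * (fourEll s t ^ u * m ^ (ρ - u))) c (ρ + 1)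
      (bN a + 2 * ρ) κ ?_ ?_
    · apply Submodule.sum_mem
      intro u hu
      have hu' := Finset.mem_range.1 hu
      by_cases huk : u < κ
      · rw [hc u huk hu', zero_smul]
        exact Submodule.zero_mem _
      · apply Submodule.smul_mem
        have e : bP a * (fourEll s t ^ u * m ^ (ρ - u)) =
            bP a * fourEll s t ^ κ * (fourEll s t ^ (u - κ) * m ^ (ρ - u)) := by
          have : u = κ + (u - κ) := by omega
          conv_lhs => rw [this, pow_add]
          rw [← this]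
          ring
        rw [e]
        apply four_W_range _ r (by omega)
        have e' : r - 1 = u - κ + (ρ - u) := by omega
        rw [e']
        exact four_W_pow hell hm2 _ _
    · intro u hu
      have e0 : fourEll s t ^ u ≠ 0 := pow_ne_zero _ (four_ell_ne hst)
      have e1 : m ^ (ρ - u) ≠ 0 := pow_ne_zero _ hm0
      refine ⟨mul_ne_zero (four_bP_ne a) (mul_ne_zero e0 e1), ?_⟩
      rw [four_dg_mul x (four_bP_ne a) (mul_ne_zero e0 e1), four_dg_mul x e0 e1, four_dg_pow,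
        four_dg_pow, hde, hm1, h5]
      omega
    · intro u huk _
      apply Polynomial.coeff_eq_zero_of_natDegree_lt
      unfold fourDg at hd
      omega
  · apply Submodule.span_le.2
    rintro F ⟨u, rfl⟩
    have hu := u.2
    rw [SetLike.mem_coe, four_mem_PB]
    constructor
    · rw [four_W_mem l a ρ hρ]
      refine ⟨fourEll s t ^ κ * (bA ^ (u : ℕ) * bB ^ (r - 1 - u)), ?_, by simp only [mul_assoc]⟩
      have e : ρ = u + (r - 1 - u) + κ := by omega
      rw [e]
      exact four_W_pow_mul hell (Submodule.subset_span ⟨_, _, rfl, rfl⟩) κ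
    · intro y hy
      have e1 := four_dg_mul_le y (bP a * fourEll s t ^ κ) (bA ^ (u : ℕ) * bB ^ (r - 1 - u))
      have e2 := four_dg_mul_le y (bP a) (fourEll s t ^ κ)
      have e3 := four_dg_mul_le y (bA ^ (u : ℕ)) (bB ^ (r - 1 - u))
      rw [four_dg_pow] at e2
      rw [four_dg_pow, four_dg_pow] at e3
      have e4 := Nat.mul_le_mul_left κ (four_dg_ell_le (h1 y hy))
      have e5 := Nat.mul_le_mul_left (u : ℕ) (four_dg_bA_le y)
      have e6 := Nat.mul_le_mul_left (r - 1 - u) (four_dg_bB_le y)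
      have e7 := four_dg_bP_le y a
      simp only
      omega

theorem four_abs (x y : ℕ) (h : (x + y) % 2 = 0) :
    x + 2 * ((x - y) / 2 + (y - x) / 2) = y ∨ y + 2 * ((x - y) / 2 + (y - x) / 2) = x := by
  omega

theorem four_arith (l a0 a1 a2 a3 p q w lo hi ρ : ℕ)
    (e1 : a0 + a1 + 2 * p = a2 + a3 ∨ a2 + a3 + 2 * p = a0 + a1)
    (e2 : a0 + a2 + 2 * q = a1 + a3 ∨ a1 + a3 + 2 * q = a0 + a2)
    (e3 : a0 + a3 + 2 * w = a1 + a2 ∨ a1 + a2 + 2 * w = a0 + a3)
    (l1 : a1 ≤ lo + a0 ∧ a0 ≤ lo + a1 ∧ a2 ≤ lo + a3 ∧ a3 ≤ lo + a2)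
    (l2 : a1 = lo + a0 ∨ a0 = lo + a1 ∨ a2 = lo + a3 ∨ a3 = lo + a2)
    (l3 : hi ≤ a1 + a0 ∧ hi + a1 + a0 ≤ 2 * l ∧ hi ≤ a2 + a3 ∧ hi + a2 + a3 ≤ 2 * l)
    (l4 : hi = a1 + a0 ∨ hi + a1 + a0 = 2 * l ∨ hi = a2 + a3 ∨ hi + a2 + a3 = 2 * l)
    (hρ : a0 + a1 + a2 + a3 = 2 * (p + q + w + 2 * ρ)) :
    (hi + 2 - lo) / 2 = ρ + 1 - (p + q + w + 2 * ρ - l) := by
  have h1 : lo = q + w := by
    clear l3 l4 hρ e1
    rcases e2 with e2 | e2 <;> rcases e3 with e3 | e3 <;> omega
  have h2 : hi + p = p + q + w + 2 * ρ - p + p ∧ p + q + w + 2 * ρ ≤ l ∨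
      hi + p + (p + q + w + 2 * ρ) = 2 * l ∧ l ≤ p + q + w + 2 * ρ := by
    clear l1 l2 e2 e3 h1
    rcases e1 with e1 | e1 <;> omega
  clear l1 l2 l3 l4 e1 e2 e3 hρ
  omega

theorem four_rank (l : ℕ) (a : Fin 4 → ℕ) (ha : ∀ i, a i ≤ l) :
    (∃ ρ, a 0 + a 1 + a 2 + a 3 = 2 * (bN a + 2 * ρ) ∧
      rank l [a 1, a 2, a 3] (a 0) = ρ + 1 - (bN a + 2 * ρ - l)) ∨
    ((∀ ρ, a 0 + a 1 + a 2 + a 3 ≠ 2 * (bN a + 2 * ρ)) ∧ rank l [a 1, a 2, a 3] (a 0) = 0) := by
  have h0 := ha 0
  have h1 := ha 1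
  have h2 := ha 2
  have h3 := ha 3
  rcases Nat.mod_two_eq_zero_or_one (a 1 + a 2 + a 3 + a 0) with hp | hp
  · obtain ⟨lo, l1, l2⟩ := exists_lo (a 1) (a 2) (a 3) (a 0)
    obtain ⟨hi, l3, l4⟩ := exists_hi l (a 1) (a 2) (a 3) (a 0) (by omega) (by omega)
    rw [rank_three l (a 1) (a 2) (a 3) (a 0) lo hi h3 hp l1 l2 l3 l4]
    have e1 := four_abs (a 0 + a 1) (a 2 + a 3) (by omega)
    have e2 := four_abs (a 0 + a 2) (a 1 + a 3) (by omega)
    have e3 := four_abs (a 0 + a 3) (a 1 + a 2) (by omega)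
    unfold bN
    generalize (a 0 + a 1 - (a 2 + a 3)) / 2 + (a 2 + a 3 - (a 0 + a 1)) / 2 = p at *
    generalize (a 0 + a 2 - (a 1 + a 3)) / 2 + (a 1 + a 3 - (a 0 + a 2)) / 2 = q at *
    generalize (a 0 + a 3 - (a 1 + a 2)) / 2 + (a 1 + a 2 - (a 0 + a 3)) / 2 = w at *
    by_cases hN : 2 * (p + q + w) ≤ a 0 + a 1 + a 2 + a 3
    · left
      have hρ : a 0 + a 1 + a 2 + a 3 =
          2 * (p + q + w + 2 * ((a 0 + a 1 + a 2 + a 3 - 2 * (p + q + w)) / 4)) := by
        clear l1 l2 l3 l4 h0 h1 h2 h3 hp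
        rcases e1 with e1 | e1 <;> rcases e2 with e2 | e2 <;> rcases e3 with e3 | e3 <;> omega
      exact ⟨_, hρ, four_arith l _ _ _ _ p q w lo hi _ e1 e2 e3 l1 l2 l3 l4 hρ⟩
    · right
      refine ⟨fun ρ => by omega, ?_⟩
      have h4 : lo = q + w := by
        clear l3 l4 e1 hN h0 h1 h2 h3 hp
        rcases e2 with e2 | e2 <;> rcases e3 with e3 | e3 <;> omega
      have h5 : hi + 2 ≤ q + w := by
        clear l1 l2 l4 h4 h0 h1 h2 h3 hp
        rcases e1 with e1 | e1 <;> rcases e2 with e2 | e2 <;> rcases e3 with e3 | e3 <;> omega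
      omega
  · right
    exact ⟨fun ρ => by omega, rank_three_odd l _ _ _ _ h3 hp⟩

end FourAux

theorem four (l : ℕ) (a : Fin 4 → ℕ) (ha : ∀ i, a i ≤ l) :
    Framed (Fam l a fun Y => Y) (deg4 l (a 0) (a 1) (a 2) (a 3)) := by
  refine ⟨Fin (rank l [a 1, a 2, a 3] (a 0)), inferInstance,
    fun _ => (a 0 + a 1 + a 2 + a 3) / 2 - l,
    fun u s t => bP a * fourEll s t ^ ((a 0 + a 1 + a 2 + a 3) / 2 - l) *
      (bA ^ (u : ℕ) * bB ^ (rank l [a 1, a 2, a 3] (a 0) - 1 - u)), ?_,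
    fun u => four_homog _ _ _, fun s t hst => ⟨?_, ?_⟩⟩
  · rw [Finset.sum_const, Finset.card_univ, Fintype.card_fin, smul_eq_mul, deg4, mul_comm]
  · exact four_indep _ (mul_ne_zero (four_bP_ne a) (pow_ne_zero _ (four_ell_ne hst))) _
  · rintro U ⟨Y, hY, rfl⟩
    rcases four_rank l a ha with ⟨ρ, h1, h2⟩ | ⟨h1, h2⟩
    · have h3 : (a 0 + a 1 + a 2 + a 3) / 2 = bN a + 2 * ρ := by omega
      exact four_main l a ρ _ _ h1 (by rw [h3]) (by rw [h2, h3]) hst hY
    · have h3 : PB l a ∅ = ⊥ := by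
        rw [fft4, Submodule.span_eq_bot]
        rintro F ⟨u, w, h, -⟩
        exact absurd h (h1 _)
      have h4 : PB l a Y = ⊥ := by
        rw [eq_bot_iff, ← h3]
        exact fun F hF => ((four_mem_PB l a Y F).1 hF).1
      rw [h4, eq_comm, Submodule.span_eq_bot]
      rintro F ⟨u, -⟩
      exact absurd u.2 (by omega)

end Pool.Agent.P.MP_e1a373_ag.B
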