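import Pool.Agent.P.MP_e1a373_ag.B.Rep

/-!
The integrable module as a module over the polynomial current algebra.
-/

open scoped TensorProduct Classical

set_option maxSynthPendingDepth 3

noncomputable section

namespace Pool.Agent.P.MP_e1a373_ag.B

/-! ### The polar part of a Laurent series -/

theorem ind_pz_monomial (n : ℕ) (c : ℂ) :
    pz (Polynomial.monomial n c) = HahnSeries.single (-(n : ℤ)) c := by
  rw [← Polynomial.C_mul_X_pow_eq_monomial, map_mul, map_pow, pz_C, pz_X, xin,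
    HahnSeries.single_pow, HahnSeries.C_apply, HahnSeries.single_mul_single]
  simp

theorem ind_pz_coeff (q : Polynomial ℂ) (n : ℕ) : (pz q).coeff (-(n : ℤ)) = q.coeff n := by
  induction q using Polynomial.induction_on' with
  | add p q hp hq => rw [map_add, HahnSeries.coeff_add, hp, hq, Polynomial.coeff_add]
  | monomial k c =>
    rw [ind_pz_monomial, HahnSeries.coeff_single, Polynomial.coeff_monomial]
    by_cases hk : k = n
    · subst hk; simp
    · have : ¬ (-(n : ℤ) = -(k : ℤ)) := by omega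
      simp [hk, this]

theorem ind_pz_eq_zero {q : Polynomial ℂ} (hq : Reg 1 (pz q)) : q = 0 := by
  ext n
  rw [← ind_pz_coeff, hq _ (by omega)]
  simp

theorem ind_pol_uniq {w : L} {p q : Polynomial ℂ} (hp : Reg 1 (w - pz p))
    (hq : Reg 1 (w - pz q)) : p = q := by
  have h1 := hq.sub hp
  have h2 : w - pz q - (w - pz p) = pz (p - q) := by rw [map_sub]; ring
  rw [h2] at h1
  exact sub_eq_zero.1 (ind_pz_eq_zero h1)

/-- The polar part, with the constant term. -/
def ind_pol : L →ₗ[ℂ] Polynomial ℂ where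
  toFun w := (exists_pz w).choose
  map_add' u w := by
    refine ind_pol_uniq (exists_pz (u + w)).choose_spec ?_
    have := (exists_pz u).choose_spec.add (exists_pz w).choose_spec
    convert this using 1
    rw [map_add]; ring
  map_smul' c w := by
    refine ind_pol_uniq (exists_pz (c • w)).choose_spec ?_
    have := (exists_pz w).choose_spec.smul c
    convert this using 1
    rw [RingHom.id_apply, pz_smul, smul_sub]

theorem ind_pol_spec (w : L) : Reg 1 (w - pz (ind_pol w)) := (exists_pz w).choose_spec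

theorem ind_pol_pz (p : Polynomial ℂ) : ind_pol (pz p) = p :=
  ind_pol_uniq (ind_pol_spec _) (by rw [sub_self]; exact reg_zero 1)

theorem ind_pol_reg {w : L} (hw : Reg 1 w) : ind_pol w = 0 :=
  ind_pol_uniq (ind_pol_spec _) (by rw [map_zero, sub_zero]; exact hw)

/-! ### The enveloping algebra of the polynomial current algebra -/

/-- The tensor algebra of the polynomial currents. -/
abbrev ind_T : Type := TensorAlgebra ℂ (G ⊗[ℂ] Polynomial ℂ)

/-- The commutation relations. -/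
def ind_r (s t : ind_T) : Prop :=
  ∃ (X : G) (p : Polynomial ℂ) (Y : G) (q : Polynomial ℂ),
    s = TensorAlgebra.ι ℂ (X ⊗ₜ p) * TensorAlgebra.ι ℂ (Y ⊗ₜ q) -
      TensorAlgebra.ι ℂ (Y ⊗ₜ q) * TensorAlgebra.ι ℂ (X ⊗ₜ p) ∧
    t = TensorAlgebra.ι ℂ (⁅X, Y⁆ ⊗ₜ (p * q))

/-- The enveloping algebra. -/
abbrev ind_U : Type := RingQuot ind_r

/-- The generators. -/
def ind_i : G →ₗ[ℂ] Polynomial ℂ →ₗ[ℂ] ind_U :=
  TensorProduct.curry ((RingQuot.mkAlgHom ℂ ind_r).toLinearMap ∘ₗ TensorAlgebra.ι ℂ)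

theorem ind_i_apply (X : G) (p : Polynomial ℂ) :
    ind_i X p = RingQuot.mkAlgHom ℂ ind_r (TensorAlgebra.ι ℂ (X ⊗ₜ p)) := rfl

theorem ind_i_comm (X : G) (p : Polynomial ℂ) (Y : G) (q : Polynomial ℂ) :
    ind_i X p * ind_i Y q - ind_i Y q * ind_i X p = ind_i ⁅X, Y⁆ (p * q) := by
  simp only [ind_i_apply, ← map_mul, ← map_sub]
  exact RingQuot.mkAlgHom_rel ℂ ⟨X, p, Y, q, rfl, rfl⟩

theorem ind_lift {A : Type} [Ring A] [Algebra ℂ A] (σ : G →ₗ[ℂ] Polynomial ℂ →ₗ[ℂ] A)
    (hσ : ∀ X p Y q, σ X p * σ Y q - σ Y q * σ X p = σ ⁅X, Y⁆ (p * q)) :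
    ∃ Φ : ind_U →ₐ[ℂ] A, ∀ X p, Φ (ind_i X p) = σ X p := by
  refine ⟨RingQuot.liftAlgHom ℂ ⟨TensorAlgebra.lift ℂ (TensorProduct.lift σ), ?_⟩, ?_⟩
  · rintro s t ⟨X, p, Y, q, rfl, rfl⟩
    simp only [map_sub, map_mul, TensorAlgebra.lift_ι_apply, TensorProduct.lift.tmul]
    exact hσ X p Y q
  · intro X p
    rw [ind_i_apply, RingQuot.liftAlgHom_mkAlgHom_apply]
    simp only [TensorAlgebra.lift_ι_apply, TensorProduct.lift.tmul]

theorem ind_ind (K : Submodule ℂ ind_U) (h1 : (1 : ind_U) ∈ K)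
    (hs : ∀ X p, ∀ u ∈ K, ind_i X p * u ∈ K) (u : ind_U) : u ∈ K := by
  have key : ∀ t : ind_T, ∀ u ∈ K, RingQuot.mkAlgHom ℂ ind_r t * u ∈ K := by
    intro t
    induction t using TensorAlgebra.induction with
    | algebraMap r =>
      intro u hu
      rw [AlgHom.commutes, ← Algebra.smul_def]
      exact K.smul_mem r hu
    | ι x =>
      induction x using TensorProduct.induction_on with
      | zero => intro u _; simp
      | tmul X p => exact hs X p
      | add x y hx hy =>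
        intro u hu
        rw [map_add, map_add, add_mul]
        exact K.add_mem (hx u hu) (hy u hu)
    | mul a b ha hb =>
      intro u hu
      rw [map_mul, mul_assoc]
      exact ha _ (hb u hu)
    | add a b ha hb =>
      intro u hu
      rw [map_add, add_mul]
      exact K.add_mem (ha u hu) (hb u hu)
  obtain ⟨t, rfl⟩ := RingQuot.mkAlgHom_surjective ℂ ind_r u
  simpa using key t 1 h1

/-! ### The action of all currents on the enveloping algebra -/

theorem ind_coc_add_1 (X X' : G) (u : L) (Y : G) (w : L) :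
    coc (X + X') u Y w = coc X u Y w + coc X' u Y w := by
  simp only [coc_eq, tr_add_left, add_mul]

theorem ind_coc_add_2 (X : G) (u u' : L) (Y : G) (w : L) :
    coc X (u + u') Y w = coc X u Y w + coc X u' Y w := by
  simp only [coc_eq, rs_add_left, mul_add]

theorem ind_coc_add_3 (X : G) (u : L) (Y Y' : G) (w : L) :
    coc X u (Y + Y') w = coc X u Y w + coc X u Y' w := by
  simp only [coc_eq, tr_add_right, add_mul]

theorem ind_coc_add_4 (X : G) (u : L) (Y : G) (w w' : L) :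
    coc X u Y (w + w') = coc X u Y w + coc X u Y w' := by
  simp only [coc_eq, rs_add_right, mul_add]

theorem ind_coc_smul_1 (c : ℂ) (X : G) (u : L) (Y : G) (w : L) :
    coc (c • X) u Y w = c * coc X u Y w := by
  simp only [coc_eq, tr_smul_left, mul_assoc]

theorem ind_coc_smul_2 (c : ℂ) (X : G) (u : L) (Y : G) (w : L) :
    coc X (c • u) Y w = c * coc X u Y w := by
  simp only [coc_eq, rs_smul_left]; ring

theorem ind_coc_smul_3 (c : ℂ) (X : G) (u : L) (Y : G) (w : L) :
    coc X u (c • Y) w = c * coc X u Y w := by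
  simp only [coc_eq, tr_smul_right, mul_assoc]

theorem ind_coc_smul_4 (c : ℂ) (X : G) (u : L) (Y : G) (w : L) :
    coc X u Y (c • w) = c * coc X u Y w := by
  simp only [coc_eq, rs_smul_right]; ring

theorem ind_coc_neg_1 (X : G) (u : L) (Y : G) (w : L) : coc (-X) u Y w = -coc X u Y w := by
  rw [← neg_one_smul ℂ X, ind_coc_smul_1]; ring

theorem ind_coc_neg_3 (X : G) (u : L) (Y : G) (w : L) : coc X u (-Y) w = -coc X u Y w := by
  rw [← neg_one_smul ℂ Y, ind_coc_smul_3]; ring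

theorem ind_smul_mul (c : ℂ) (u w : L) : (c • u) * w = c • (u * w) := by
  rw [← HahnSeries.C_mul_eq_smul, ← HahnSeries.C_mul_eq_smul, mul_assoc]

theorem ind_mul_smul (c : ℂ) (u w : L) : u * (c • w) = c • (u * w) := by
  rw [mul_comm, ind_smul_mul, mul_comm]

/-- The auxiliary space. -/
abbrev ind_F : Type := (G →ₗ[ℂ] L →ₗ[ℂ] ind_U) × ind_U

/-- The first component of the action on the auxiliary space. -/
def ind_s1 (l : ℕ) (X : G) (p : Polynomial ℂ) (x : ind_F) : G →ₗ[ℂ] L →ₗ[ℂ] ind_U :=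
  LinearMap.mk₂ ℂ (fun Y w => ind_i X p * x.1 Y w - x.1 ⁅X, Y⁆ (pz p * w) -
      ((l : ℂ) * coc X (pz p) Y w) • x.2)
    (fun Y Y' w => by
      simp only [map_add, LinearMap.add_apply, lie_add, mul_add, ind_coc_add_3, add_smul]
      abel)
    (fun c Y w => by
      simp only [map_smul, LinearMap.smul_apply, lie_smul, mul_smul_comm, ind_coc_smul_3,
        smul_sub, smul_smul]
      congr 2
      ring)
    (fun Y w w' => by
      simp only [map_add, mul_add, ind_coc_add_4, add_smul]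
      abel)
    (fun c Y w => by
      simp only [map_smul, ind_mul_smul, mul_smul_comm, ind_coc_smul_4, smul_sub, smul_smul]
      congr 2
      ring)

theorem ind_s1_apply (l : ℕ) (X : G) (p : Polynomial ℂ) (x : ind_F) (Y : G) (w : L) :
    ind_s1 l X p x Y w = ind_i X p * x.1 Y w - x.1 ⁅X, Y⁆ (pz p * w) -
      ((l : ℂ) * coc X (pz p) Y w) • x.2 := rfl

/-- The action of one polynomial current on the auxiliary space. -/
def ind_s2 (l : ℕ) (X : G) (p : Polynomial ℂ) : Module.End ℂ ind_F where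
  toFun x := (ind_s1 l X p x, ind_i X p * x.2)
  map_add' x y := by
    refine Prod.ext ?_ (by simp [mul_add])
    refine LinearMap.ext fun Y => LinearMap.ext fun w => ?_
    simp only [ind_s1_apply, Prod.fst_add, Prod.snd_add, LinearMap.add_apply, mul_add, smul_add]
    abel
  map_smul' c x := by
    refine Prod.ext ?_ (by simp)
    refine LinearMap.ext fun Y => LinearMap.ext fun w => ?_
    simp only [ind_s1_apply, Prod.smul_fst, Prod.smul_snd, LinearMap.smul_apply, RingHom.id_apply,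
      mul_smul_comm, smul_sub, smul_smul]
    congr 2
    ring

theorem ind_s2_fst (l : ℕ) (X : G) (p : Polynomial ℂ) (x : ind_F) (Y : G) (w : L) :
    (ind_s2 l X p x).1 Y w = ind_i X p * x.1 Y w - x.1 ⁅X, Y⁆ (pz p * w) -
      ((l : ℂ) * coc X (pz p) Y w) • x.2 := rfl

theorem ind_s2_snd (l : ℕ) (X : G) (p : Polynomial ℂ) (x : ind_F) :
    (ind_s2 l X p x).2 = ind_i X p * x.2 := rfl

theorem ind_F_ext {A B : Module.End ℂ ind_F} (h1 : ∀ x Y w, (A x).1 Y w = (B x).1 Y w)
    (h2 : ∀ x, (A x).2 = (B x).2) : A = B :=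
  LinearMap.ext fun x => Prod.ext (LinearMap.ext fun Y => LinearMap.ext fun w => h1 x Y w) (h2 x)

/-- The action of the polynomial currents on the auxiliary space. -/
def ind_s (l : ℕ) : G →ₗ[ℂ] Polynomial ℂ →ₗ[ℂ] Module.End ℂ ind_F :=
  LinearMap.mk₂ ℂ (ind_s2 l)
    (fun X X' p => ind_F_ext (fun x Y w => by
        simp only [LinearMap.add_apply, Prod.fst_add, ind_s2_fst, map_add, add_lie, add_mul,
          ind_coc_add_1, mul_add, add_smul]
        abel)
      (fun x => by simp only [LinearMap.add_apply, Prod.snd_add, ind_s2_snd, map_add, add_mul]))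
    (fun c X p => ind_F_ext (fun x Y w => by
        simp only [LinearMap.smul_apply, Prod.smul_fst, ind_s2_fst, map_smul, smul_lie,
          smul_mul_assoc, ind_coc_smul_1, smul_sub, smul_smul]
        congr 2
        ring)
      (fun x => by
        simp only [LinearMap.smul_apply, Prod.smul_snd, ind_s2_snd, map_smul, smul_mul_assoc]))
    (fun X p p' => ind_F_ext (fun x Y w => by
        simp only [LinearMap.add_apply, Prod.fst_add, ind_s2_fst, map_add, add_mul,
          ind_coc_add_2, mul_add, add_smul]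
        abel)
      (fun x => by simp only [LinearMap.add_apply, Prod.snd_add, ind_s2_snd, map_add, add_mul]))
    (fun c X p => ind_F_ext (fun x Y w => by
        simp only [LinearMap.smul_apply, Prod.smul_fst, ind_s2_fst, map_smul, pz_smul,
          ind_smul_mul, smul_mul_assoc, ind_coc_smul_2, smul_sub, smul_smul]
        congr 2
        ring)
      (fun x => by
        simp only [LinearMap.smul_apply, Prod.smul_snd, ind_s2_snd, map_smul, smul_mul_assoc]))

theorem ind_s_apply (l : ℕ) (X : G) (p : Polynomial ℂ) : ind_s l X p = ind_s2 l X p := rfl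

theorem ind_s_comm (l : ℕ) (X : G) (p : Polynomial ℂ) (X' : G) (p' : Polynomial ℂ) :
    ind_s l X p * ind_s l X' p' - ind_s l X' p' * ind_s l X p = ind_s l ⁅X, X'⁆ (p * p') := by
  refine ind_F_ext (fun x Y w => ?_) (fun x => ?_)
  · simp only [ind_s_apply, LinearMap.sub_apply, Module.End.mul_apply, Prod.fst_sub, ind_s2_fst,
      ind_s2_snd]
    have hc := coc_cyc X X' Y (pz p) (pz p') w
    rw [coc_anti Y w, ← lie_skew Y X, ind_coc_neg_3, mul_comm w] at hc
    have hj : x.1 ⁅⁅X, X'⁆, Y⁆ (pz (p * p') * w) =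
        x.1 ⁅X, ⁅X', Y⁆⁆ (pz p * (pz p' * w)) - x.1 ⁅X', ⁅X, Y⁆⁆ (pz p' * (pz p * w)) := by
      rw [lie_lie, map_sub, LinearMap.sub_apply, map_mul pz, mul_assoc,
        mul_left_comm (pz p') (pz p)]
    have hk : coc ⁅X, X'⁆ (pz (p * p')) Y w =
        coc X (pz p) ⁅X', Y⁆ (pz p' * w) - coc X' (pz p') ⁅X, Y⁆ (pz p * w) := by
      rw [map_mul]
      linear_combination -hc
    rw [hj, hk, ← ind_i_comm]
    simp only [mul_sub, sub_mul, mul_assoc, mul_smul_comm, sub_smul]
    abel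
  · simp only [ind_s_apply, LinearMap.sub_apply, Module.End.mul_apply, Prod.snd_sub, ind_s2_snd,
      ← ind_i_comm, sub_mul, mul_assoc]

theorem ind_exists_rho (l : ℕ) : ∃ ρ : G →ₗ[ℂ] L →ₗ[ℂ] Module.End ℂ ind_U,
    (∀ Y w, ρ Y w 1 = ind_i Y (ind_pol w)) ∧
    ∀ X p Y w u, ρ Y w (ind_i X p * u) = ind_i X p * ρ Y w u - ρ ⁅X, Y⁆ (pz p * w) u -
      ((l : ℂ) * coc X (pz p) Y w) • u := by
  obtain ⟨Φ, hΦ⟩ := ind_lift (A := Module.End ℂ ind_F) (ind_s l) (ind_s_comm l)
  let x0 : ind_F := (ind_i.compl₂ ind_pol, 1)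
  have h2 : ∀ u, (Φ u x0).2 = u := by
    intro u
    let K : Submodule ℂ ind_U :=
      { carrier := {u | (Φ u x0).2 = u}
        zero_mem' := by simp
        add_mem' := by
          intro a b ha hb
          simp only [Set.mem_ofPred_eq, map_add, LinearMap.add_apply, Prod.snd_add] at ha hb ⊢
          rw [ha, hb]
        smul_mem' := by
          intro c a ha
          simp only [Set.mem_ofPred_eq, map_smul, LinearMap.smul_apply, Prod.smul_snd] at ha ⊢
          rw [ha] }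
    refine ind_ind K ?_ ?_ u
    · show (Φ 1 x0).2 = 1
      rw [map_one]; rfl
    · intro X p u hu
      show (Φ (ind_i X p * u) x0).2 = _
      rw [map_mul, hΦ, Module.End.mul_apply, ind_s_apply, ind_s2_snd]
      exact congrArg _ hu
  let A : G → L → Module.End ℂ ind_U := fun Y w =>
    { toFun := fun u => (Φ u x0).1 Y w
      map_add' := fun a b => by simp only [map_add, LinearMap.add_apply, Prod.fst_add]
      map_smul' := fun c a => by
        simp only [map_smul, LinearMap.smul_apply, Prod.smul_fst, RingHom.id_apply] }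
  have hA : ∀ Y w u, A Y w u = (Φ u x0).1 Y w := fun _ _ _ => rfl
  refine ⟨LinearMap.mk₂ ℂ A
    (fun Y Y' w => LinearMap.ext fun u => by simp only [hA, map_add, LinearMap.add_apply])
    (fun c Y w => LinearMap.ext fun u => by simp only [hA, map_smul, LinearMap.smul_apply])
    (fun Y w w' => LinearMap.ext fun u => by simp only [hA, map_add, LinearMap.add_apply])
    (fun c Y w => LinearMap.ext fun u => by simp only [hA, map_smul, LinearMap.smul_apply]),
    fun Y w => ?_, fun X p Y w u => ?_⟩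
  · rw [LinearMap.mk₂_apply, hA, map_one]; rfl
  · simp only [LinearMap.mk₂_apply, hA]
    rw [map_mul, hΦ, Module.End.mul_apply, ind_s_apply, ind_s2_fst, h2]

theorem ind_rep (l : ℕ) : ∃ ρ : G →ₗ[ℂ] L →ₗ[ℂ] Module.End ℂ ind_U, IsRep l ρ ∧
    (∀ Y w, Reg 1 w → ρ Y w 1 = 0) ∧ ∀ X p u, ρ X (pz p) u = ind_i X p * u := by
  obtain ⟨ρ, h0, h1⟩ := ind_exists_rho l
  have hz : ∀ Y w, Reg 1 w → ρ Y w 1 = 0 := fun Y w hw => by rw [h0, ind_pol_reg hw, map_zero]
  have h2 : ∀ u X p, ρ X (pz p) u = ind_i X p * u := by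
    intro u
    let K : Submodule ℂ ind_U :=
      { carrier := {u | ∀ X p, ρ X (pz p) u = ind_i X p * u}
        zero_mem' := by intro X p; simp
        add_mem' := by
          intro a b ha hb X p
          rw [map_add, ha, hb, mul_add]
        smul_mem' := by
          intro c a ha X p
          rw [map_smul, ha, mul_smul_comm] }
    refine ind_ind K ?_ ?_ u
    · intro X p
      rw [h0, ind_pol_pz, mul_one]
    · intro X p u hu Y q
      rw [h1, ← map_mul, hu, hu, coc_eq, rs_pz, ← ind_i_comm]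
      simp only [mul_zero, zero_smul, sub_zero, sub_mul, mul_assoc]
      abel
  refine ⟨ρ, ?_, hz, fun X p u => h2 u X p⟩
  let C : G → L → G → L → ind_U → ind_U := fun Y w Y' w' u =>
    ρ Y w (ρ Y' w' u) - ρ Y' w' (ρ Y w u) - ρ ⁅Y, Y'⁆ (w * w') u - ((l : ℂ) * coc Y w Y' w') • u
  have hadd : ∀ Y w1 w2 Y' w' u, C Y (w1 + w2) Y' w' u = C Y w1 Y' w' u + C Y w2 Y' w' u := by
    intro Y w1 w2 Y' w' u
    simp only [C, map_add, LinearMap.add_apply, add_mul, ind_coc_add_2, mul_add, add_smul]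
    abel
  have hanti : ∀ Y w Y' w' u, C Y w Y' w' u = -C Y' w' Y w u := by
    intro Y w Y' w' u
    simp only [C]
    rw [coc_anti Y w, ← lie_skew Y Y', mul_comm w w', map_neg, LinearMap.neg_apply,
      LinearMap.neg_apply, mul_neg, neg_smul]
    abel
  have hpz : ∀ X p Y w u, C X (pz p) Y w u = 0 := by
    intro X p Y w u
    simp only [C]
    rw [h2, h2, h1]
    abel
  have hreg : ∀ Y w Y' w', Reg 1 w → Reg 1 w' → C Y w Y' w' 1 = 0 := by
    intro Y w Y' w' hw hw'
    simp only [C]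
    rw [hz Y w hw, hz Y' w' hw', hz _ _ ((hw.mul hw').mono (by norm_num)), coc_eq,
      rs_reg hw hw' (by norm_num)]
    simp
  have hsplit : ∀ w : L, w = pz (ind_pol w) + (w - pz (ind_pol w)) := fun w => by ring
  have hone : ∀ Y w Y' w', C Y w Y' w' 1 = 0 := by
    intro Y w Y' w'
    rw [hsplit w, hadd, hpz, zero_add, hanti, hsplit w', hadd, hpz, zero_add,
      hreg _ _ _ _ (ind_pol_spec w') (ind_pol_spec w), neg_zero]
  have hall : ∀ u Y w Y' w', C Y w Y' w' u = 0 := by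
    intro u
    let K : Submodule ℂ ind_U :=
      { carrier := {u | ∀ Y w Y' w', C Y w Y' w' u = 0}
        zero_mem' := by intro Y w Y' w'; simp [C]
        add_mem' := by
          intro a b ha hb Y w Y' w'
          have : C Y w Y' w' (a + b) = C Y w Y' w' a + C Y w Y' w' b := by
            simp only [C, map_add, smul_add]
            abel
          rw [this, ha, hb, add_zero]
        smul_mem' := by
          intro c a ha Y w Y' w'
          have : C Y w Y' w' (c • a) = c • C Y w Y' w' a := by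
            simp only [C, map_smul, smul_sub, smul_comm c]
          rw [this, ha, smul_zero] }
    refine ind_ind K hone ?_ u
    intro X p u hu Y w Y' w'
    have e0 := hu Y w Y' w'
    have e1 := hu ⁅X, Y⁆ (pz p * w) Y' w'
    have e2 := hu Y w ⁅X, Y'⁆ (pz p * w')
    have hc := coc_cyc X Y Y' (pz p) w w'
    rw [coc_anti Y' w', ← lie_skew Y' X, ind_coc_neg_3, mul_comm w'] at hc
    have hk : coc X (pz p) ⁅Y, Y'⁆ (w * w') =
        coc ⁅X, Y⁆ (pz p * w) Y' w' + coc Y w ⁅X, Y'⁆ (pz p * w') := by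
      linear_combination hc
    have hj : ρ ⁅X, ⁅Y, Y'⁆⁆ (pz p * (w * w')) u =
        ρ ⁅⁅X, Y⁆, Y'⁆ (pz p * w * w') u + ρ ⁅Y, ⁅X, Y'⁆⁆ (w * (pz p * w')) u := by
      rw [leibniz_lie, map_add, LinearMap.add_apply, LinearMap.add_apply, mul_assoc,
        mul_left_comm w]
    have key : C Y w Y' w' (ind_i X p * u) = ind_i X p * C Y w Y' w' u -
        C ⁅X, Y⁆ (pz p * w) Y' w' u - C Y w ⁅X, Y'⁆ (pz p * w') u := by
      simp only [C, h1, map_sub, map_smul, hk, hj, mul_sub, mul_smul_comm, mul_add, add_smul]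
      abel
    rw [key, e0, e1, e2]
    simp
  intro X u Y w
  refine LinearMap.ext fun m => ?_
  have := hall m X u Y w
  simp only [C] at this
  simp only [LinearMap.sub_apply, Module.End.mul_apply, LinearMap.add_apply, LinearMap.smul_apply,
    Module.End.one_apply]
  rw [sub_sub, sub_eq_zero] at this
  exact this

/-! ### Quotients -/

theorem ind_pow {N N' : Type} [AddCommGroup N] [Module ℂ N] [AddCommGroup N'] [Module ℂ N']
    (π : N →ₗ[ℂ] N') (A : Module.End ℂ N) (B : Module.End ℂ N') (hAB : ∀ m, π (A m) = B (π m))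
    (n : ℕ) (m : N) : π ((A ^ n) m) = (B ^ n) (π m) := by
  induction n with
  | zero => simp
  | succ n ih => rw [pow_succ', pow_succ', Module.End.mul_apply, Module.End.mul_apply, hAB, ih]

theorem ind_const {l : ℕ} {N : Type} [AddCommGroup N] [Module ℂ N]
    {ρ : G →ₗ[ℂ] L →ₗ[ℂ] Module.End ℂ N} (hρ : IsRep l ρ) {m : N}
    (hm : ∀ X u, Reg 1 u → ρ X u m = 0) (Y X : G) (u : L) (hu : Reg 1 u) :
    ρ X u (ρ Y 1 m) = 0 := by
  have := LinearMap.congr_fun (hρ X u Y 1) m
  simp only [LinearMap.sub_apply, Module.End.mul_apply, LinearMap.add_apply, LinearMap.smul_apply,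
    Module.End.one_apply] at this
  rw [hm X u hu, mul_one, hm _ u hu, coc_eq, rs_one_right] at this
  simpa using this

theorem ind_quot {l : ℕ} {N D : Type} [AddCommGroup N] [Module ℂ N] [AddCommGroup D] [Module ℂ D]
    {ρ : G →ₗ[ℂ] L →ₗ[ℂ] Module.End ℂ N} (hρ : IsRep l ρ)
    (σ : G →ₗ[ℂ] Polynomial ℂ →ₗ[ℂ] Module.End ℂ D) (Λ : N →ₗ[ℂ] D)
    (hΛ : ∀ X q m, Λ (ρ X (pz q) m) = σ X q (Λ m)) (Z : Set N)
    (hZ : ∀ z ∈ Z, ∀ X u, Reg 1 u → ρ X u z = 0) (hZ' : ∀ z ∈ Z, Λ z = 0) :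
    ∃ (N' : Type) (_ : AddCommGroup N') (_ : Module ℂ N')
      (ρ' : G →ₗ[ℂ] L →ₗ[ℂ] Module.End ℂ N') (π : N →ₗ[ℂ] N') (Λ' : N' →ₗ[ℂ] D),
      IsRep l ρ' ∧ (∀ X u m, π (ρ X u m) = ρ' X u (π m)) ∧ (∀ z ∈ Z, π z = 0) ∧
        (∀ m, Λ' (π m) = Λ m) ∧ ∀ X q m, Λ' (ρ' X (pz q) m) = σ X q (Λ' m) := by
  obtain ⟨K, hK, hZK, hs⟩ := hρ.gen Z hZ (LinearMap.ker Λ) hZ' (fun X q m hm => by
    rw [LinearMap.mem_ker] at hm ⊢
    rw [hΛ, hm, map_zero])
  let A : G → L → Module.End ℂ (N ⧸ K) := fun X u => K.mapQ K (ρ X u) (fun m hm => hs X u m hm)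
  have hA : ∀ X u m, A X u (K.mkQ m) = K.mkQ (ρ X u m) := fun _ _ _ => rfl
  have hext : ∀ {B B' : Module.End ℂ (N ⧸ K)}, (∀ m, B (K.mkQ m) = B' (K.mkQ m)) → B = B' := by
    intro B B' hB
    refine LinearMap.ext fun x => ?_
    obtain ⟨m, rfl⟩ := K.mkQ_surjective x
    exact hB m
  let ρ' : G →ₗ[ℂ] L →ₗ[ℂ] Module.End ℂ (N ⧸ K) := LinearMap.mk₂ ℂ A
    (fun X X' u => hext fun m => by simp only [hA, map_add, LinearMap.add_apply])
    (fun c X u => hext fun m => by simp only [hA, map_smul, LinearMap.smul_apply])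
    (fun X u u' => hext fun m => by simp only [hA, map_add, LinearMap.add_apply])
    (fun c X u => hext fun m => by simp only [hA, map_smul, LinearMap.smul_apply])
  have hρ' : ∀ X u m, K.mkQ (ρ X u m) = ρ' X u (K.mkQ m) := fun _ _ _ => rfl
  refine ⟨N ⧸ K, inferInstance, inferInstance, ρ', K.mkQ, K.liftQ Λ hK, ?_, hρ', ?_,
    fun _ => rfl, ?_⟩
  · intro X u Y w
    refine hext fun m => ?_
    have := congrArg K.mkQ (LinearMap.congr_fun (hρ X u Y w) m)
    simp only [LinearMap.sub_apply, Module.End.mul_apply, LinearMap.add_apply,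
      LinearMap.smul_apply, Module.End.one_apply, map_sub, map_add, map_smul, hρ'] at this ⊢
    exact this
  · intro z hz
    exact (Submodule.Quotient.mk_eq_zero K).2 (hZK z hz)
  · intro X q x
    obtain ⟨m, rfl⟩ := K.mkQ_surjective x
    rw [← hρ']
    exact hΛ X q m

theorem lemP {l a : ℕ} (hal : a ≤ l) {D : Type} [AddCommGroup D] [Module ℂ D]
    (ρ : G →ₗ[ℂ] Polynomial ℂ →ₗ[ℂ] Module.End ℂ D)
    (hρ : ∀ X p Y q, ρ X p * ρ Y q - ρ Y q * ρ X p = ρ ⁅X, Y⁆ (p * q)) (φ : D)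
    (he : ρ e 1 φ = 0) (hh : ρ h 1 φ = (a : ℂ) • φ) (hf : (ρ f 1 ^ (a + 1)) φ = 0)
    (hE : (ρ e Polynomial.X ^ (l - a + 1)) φ = 0) :
    ∃ Λ : H l a →ₗ[ℂ] D, Λ (vac l a) = φ ∧
      ∀ X q m, Λ (act l a X (pz q) m) = ρ X q (Λ m) := by
  obtain ⟨ρ0, r0, hz0, hp0⟩ := ind_rep l
  obtain ⟨Φ, hΦ⟩ := ind_lift ρ hρ
  let Λ0 : ind_U →ₗ[ℂ] D := (LinearMap.applyₗ φ) ∘ₗ Φ.toLinearMap
  have hΛ0 : ∀ u, Λ0 u = Φ u φ := fun _ => rfl
  have i0 : ∀ X q m, Λ0 (ρ0 X (pz q) m) = ρ X q (Λ0 m) := by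
    intro X q m
    rw [hp0, hΛ0, hΛ0, map_mul, hΦ, Module.End.mul_apply]
  have i1 : ∀ X m, Λ0 (ρ0 X 1 m) = ρ X 1 (Λ0 m) := fun X m => by
    rw [← i0, map_one pz]
  have v0 : Λ0 1 = φ := by rw [hΛ0, map_one]; rfl
  have hfz : ∀ (n : ℕ) X u, Reg 1 u → ρ0 X u ((ρ0 f 1 ^ n) 1) = 0 := by
    intro n
    induction n with
    | zero => exact hz0
    | succ n ih =>
      rw [pow_succ', Module.End.mul_apply]
      exact ind_const r0 ih f
  obtain ⟨N1, _, _, ρ1, π1, Λ1, r1, c1, z1, l1, j1⟩ := ind_quot r0 ρ Λ0 i0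
    {ρ0 e 1 1, ρ0 h 1 1 - (a : ℂ) • 1, (ρ0 f 1 ^ (a + 1)) 1} (by
      rintro z (rfl | rfl | rfl) X u hu
      · exact ind_const r0 hz0 e X u hu
      · rw [map_sub, map_smul, ind_const r0 hz0 h X u hu, hz0 X u hu]; simp
      · exact hfz _ X u hu) (by
      rintro z (rfl | rfl | rfl)
      · rw [i1, v0, he]
      · rw [map_sub, map_smul, i1, v0, hh, sub_self]
      · rw [ind_pow Λ0 _ _ (i1 f), v0, hf])
  have w1 : IsHW a ρ1 (π1 1) := by
    refine ⟨fun X u hu => by rw [← c1, hz0 X u hu, map_zero], ?_, ?_⟩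
    · rw [← c1]
      exact z1 _ (Or.inl rfl)
    · have := z1 _ (Or.inr (Or.inl rfl))
      rw [map_sub, map_smul, c1, sub_eq_zero] at this
      exact this
  have f1 : (ρ1 f 1 ^ (a + 1)) (π1 1) = 0 := by
    rw [← ind_pow π1 _ _ (c1 f 1)]
    exact z1 _ (Or.inr (Or.inr rfl))
  obtain ⟨N2, _, _, ρ2, π2, Λ2, r2, c2, z2, l2, j2⟩ := ind_quot r1 ρ Λ1 j1
    {(ρ1 e xin ^ (l - a + 1)) (π1 1)} (by
      rintro z rfl X u hu
      exact w1.sing r1 hal X u hu) (by
      rintro z rfl
      rw [ind_pow Λ1 _ (ρ e Polynomial.X) (fun m => by rw [← j1, pz_X]), l1, v0, hE])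
  have w2 : IsHW a ρ2 (π2 (π1 1)) :=
    ⟨fun X u hu => by rw [← c2, w1.pos X u hu, map_zero], by rw [← c2, w1.e, map_zero],
      by rw [← c2, w1.h, map_smul]⟩
  obtain ⟨Λ3, v3, c3⟩ := lift r2 w2 (by rw [← ind_pow π2 _ _ (c2 f 1), f1, map_zero])
    (by rw [← ind_pow π2 _ _ (c2 e xin)]; exact z2 _ rfl)
  refine ⟨Λ2 ∘ₗ Λ3, ?_, fun X q m => ?_⟩
  · rw [LinearMap.comp_apply, v3, l2, l1, v0]
  · rw [LinearMap.comp_apply, LinearMap.comp_apply, c3, j2]

/-! ### The finite dimensional module -/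

/-- The action of `h` on polynomials. -/
def ind_H (a : ℕ) : Module.End ℂ (Polynomial ℂ) :=
  LinearMap.mulLeft ℂ (a : Polynomial ℂ) -
    LinearMap.mulLeft ℂ (2 * Polynomial.X) * Polynomial.derivative

/-- The action of `f` on polynomials. -/
def ind_Fo (a : ℕ) : Module.End ℂ (Polynomial ℂ) :=
  LinearMap.mulLeft ℂ ((a : Polynomial ℂ) * Polynomial.X) -
    LinearMap.mulLeft ℂ (Polynomial.X ^ 2) * Polynomial.derivative

theorem ind_H_apply (a : ℕ) (p : Polynomial ℂ) :
    ind_H a p = (a : Polynomial ℂ) * p - 2 * Polynomial.X * Polynomial.derivative p := rfl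

theorem ind_Fo_apply (a : ℕ) (p : Polynomial ℂ) :
    ind_Fo a p = (a : Polynomial ℂ) * Polynomial.X * p -
      Polynomial.X ^ 2 * Polynomial.derivative p := rfl

/-- The action of sl_2 on polynomials. -/
def ind_sig (a : ℕ) : G →ₗ[ℂ] Module.End ℂ (Polynomial ℂ) where
  toFun X := X.1 0 1 • Polynomial.derivative + X.1 0 0 • ind_H a + X.1 1 0 • ind_Fo a
  map_add' X Y := by
    have : ∀ i j, (X + Y).1 i j = X.1 i j + Y.1 i j := fun _ _ => rfl
    simp only [this, add_smul]
    abel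
  map_smul' c X := by
    have : ∀ i j, (c • X).1 i j = c * X.1 i j := fun _ _ => rfl
    simp only [this, RingHom.id_apply, smul_add, smul_smul]

theorem ind_sig_apply (a : ℕ) (X : G) : ind_sig a X =
    X.1 0 1 • Polynomial.derivative + X.1 0 0 • ind_H a + X.1 1 0 • ind_Fo a := rfl

theorem ind_sig_e (a : ℕ) : ind_sig a e = Polynomial.derivative := by
  have : e.1 = Matrix.single 0 1 1 := rfl
  simp [ind_sig_apply, this]

theorem ind_sig_h (a : ℕ) : ind_sig a h = ind_H a := by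
  have : h.1 = Matrix.single 0 0 1 - Matrix.single 1 1 1 := rfl
  simp [ind_sig_apply, this]

theorem ind_sig_f (a : ℕ) : ind_sig a f = ind_Fo a := by
  have : f.1 = Matrix.single 1 0 1 := rfl
  simp [ind_sig_apply, this]

theorem ind_sig_comm (a : ℕ) (X Y : G) :
    ind_sig a X * ind_sig a Y - ind_sig a Y * ind_sig a X = ind_sig a ⁅X, Y⁆ := by
  obtain ⟨α, β, γ, rfl⟩ := exists_coord X
  obtain ⟨α', β', γ', rfl⟩ := exists_coord Y
  have heh : ⁅e, h⁆ = -((2 : ℂ) • e) := by rw [← lie_skew, lie_h_e]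
  have hfh : ⁅f, h⁆ = -((-2 : ℂ) • f) := by rw [← lie_skew, lie_h_f]
  simp only [add_lie, lie_add, smul_lie, lie_smul, lie_self, lie_e_f, lie_f_e, lie_h_e, lie_h_f,
    heh, hfh, map_add, map_smul, map_neg, map_zero, ind_sig_e, ind_sig_f, ind_sig_h]
  refine LinearMap.ext fun p => ?_
  simp only [LinearMap.sub_apply, Module.End.mul_apply, LinearMap.add_apply, LinearMap.smul_apply,
    LinearMap.neg_apply, LinearMap.zero_apply, map_add, map_smul]
  simp only [map_sub, ind_H_apply,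
    ind_Fo_apply, Polynomial.derivative_mul, Polynomial.derivative_natCast,
    Polynomial.derivative_X, Polynomial.derivative_X_sq, Polynomial.derivative_ofNat,
    Polynomial.smul_eq_C_mul, map_neg, map_ofNat]
  ring

theorem ind_Fo_pow (a m : ℕ) : (ind_Fo a ^ m) 1 =
    Polynomial.monomial m (∏ j ∈ Finset.range m, ((a : ℂ) - j)) := by
  induction m with
  | zero => simp
  | succ m ih =>
    rw [pow_succ', Module.End.mul_apply, ih, ind_Fo_apply, Finset.prod_range_succ]
    simp only [← Polynomial.C_mul_X_pow_eq_monomial, Polynomial.derivative_mul,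
      Polynomial.derivative_C, Polynomial.derivative_X_pow, map_mul, map_sub, map_natCast]
    rcases m with _ | m
    · simp
    · simp only [Nat.add_sub_cancel]
      ring

theorem exists_dual {l a : ℕ} (hal : a ≤ l) : ∃ ε : ℕ → H l a →ₗ[ℂ] ℂ,
    ∀ k ≤ a, ∀ m, ε k (fv l a m) = if k = m then 1 else 0 := by
  let ρ : G →ₗ[ℂ] Polynomial ℂ →ₗ[ℂ] Module.End ℂ (Polynomial ℂ) :=
    LinearMap.mk₂ ℂ (fun X q => q.coeff 0 • ind_sig a X)
      (fun X X' q => by rw [map_add, smul_add])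
      (fun c X q => by rw [map_smul, smul_comm])
      (fun X q q' => by rw [Polynomial.coeff_add, add_smul])
      (fun c X q => by rw [Polynomial.coeff_smul, smul_smul, smul_eq_mul])
  have hρ : ∀ X q, ρ X q = q.coeff 0 • ind_sig a X := fun _ _ => rfl
  have h1 : ∀ X, ρ X 1 = ind_sig a X := fun X => by rw [hρ]; simp
  obtain ⟨Λ, hv, hc⟩ := lemP hal ρ (fun X p Y q => by
      rw [hρ, hρ, hρ, ← ind_sig_comm, Polynomial.mul_coeff_zero]
      simp only [smul_mul_assoc, mul_smul_comm, smul_smul, smul_sub, mul_comm]) 1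
    (by rw [h1, ind_sig_e]; simp) (by rw [h1, ind_sig_h, ind_H_apply]; simp [Polynomial.smul_eq_C_mul])
    (by
      rw [h1, ind_sig_f, ind_Fo_pow, Finset.prod_range_succ]
      simp)
    (by rw [hρ]; simp)
  refine ⟨fun k => (∏ j ∈ Finset.range k, ((a : ℂ) - j))⁻¹ • (Polynomial.lcoeff ℂ k ∘ₗ Λ),
    fun k hk m => ?_⟩
  have hm : Λ (fv l a m) = (ind_Fo a ^ m) 1 := by
    rw [fv, ind_pow Λ _ (ind_Fo a) (fun x => by rw [← ind_sig_f, ← h1, ← hc, map_one pz]), hv]
  have hne : (∏ j ∈ Finset.range k, ((a : ℂ) - j)) ≠ 0 := by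
    refine Finset.prod_ne_zero_iff.2 fun j hj => sub_ne_zero.2 ?_
    have := Finset.mem_range.1 hj
    exact_mod_cast (by omega : a ≠ j)
  rw [LinearMap.smul_apply, LinearMap.comp_apply, hm, ind_Fo_pow, Polynomial.lcoeff_apply,
    Polynomial.coeff_monomial]
  by_cases hkm : k = m
  · subst hkm
    simp [hne]
  · simp [hkm, Ne.symm hkm]

end Pool.Agent.P.MP_e1a373_ag.B
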