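import Pool.Agent.P.MP_e1a373_ag.B.Api

/-!
Laurent series, the residue pairing and the structure constants of sl_2.
-/

open scoped TensorProduct Classical

noncomputable section

namespace Pool.Agent.P.MP_e1a373_ag.B

theorem Reg.mono {N M : ℤ} {u : L} (hu : Reg N u) (hM : M ≤ N) : Reg M u := fun n hn => hu n (by omega)

theorem reg_zero (N : ℤ) : Reg N 0 := fun _ _ => rfl

theorem Reg.add {N : ℤ} {u w : L} (hu : Reg N u) (hw : Reg N w) : Reg N (u + w) := fun n hn => by
  rw [HahnSeries.coeff_add, hu n hn, hw n hn, add_zero]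

theorem Reg.neg {N : ℤ} {u : L} (hu : Reg N u) : Reg N (-u) := fun n hn => by
  rw [HahnSeries.coeff_neg, hu n hn, neg_zero]

theorem Reg.sub {N : ℤ} {u w : L} (hu : Reg N u) (hw : Reg N w) : Reg N (u - w) := fun n hn => by
  rw [HahnSeries.coeff_sub, hu n hn, hw n hn, sub_zero]

theorem Reg.smul {N : ℤ} {u : L} (c : ℂ) (hu : Reg N u) : Reg N (c • u) := fun n hn => by
  rw [HahnSeries.coeff_smul, hu n hn, smul_zero]

theorem Laur_coeff_mul {a b : ℤ} {u w : L} (hu : Reg a u) (hw : Reg b w) (n : ℤ) :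
    (u * w).coeff n = ∑ i ∈ Finset.Icc a (n - b), u.coeff i * w.coeff (n - i) := by
  rw [HahnSeries.coeff_mul]
  refine Finset.sum_bij_ne_zero (fun ij _ _ => ij.1) ?_ ?_ ?_ ?_
  · intro ij h1 _
    obtain ⟨h2, h3, h4⟩ := Finset.mem_antidiagonal.1 h1
    have h5 : ¬ ij.1 < a := fun h => h2 (hu _ h)
    have h6 : ¬ ij.2 < b := fun h => h3 (hw _ h)
    rw [Finset.mem_Icc]
    omega
  · intro ij h1 _ ij' h1' _ h
    have h4 := (Finset.mem_antidiagonal.1 h1).2.2
    have h4' := (Finset.mem_antidiagonal.1 h1').2.2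
    exact Prod.ext h (by omega)
  · intro i _ h2
    refine ⟨(i, n - i), Finset.mem_antidiagonal.2 ⟨left_ne_zero_of_mul h2,
      right_ne_zero_of_mul h2, by simp⟩, h2, rfl⟩
  · intro ij h1 _
    have h4 := (Finset.mem_antidiagonal.1 h1).2.2
    have h5 : n - ij.1 = ij.2 := by omega
    rw [h5]

theorem Reg.mul {a b : ℤ} {u w : L} (hu : Reg a u) (hw : Reg b w) : Reg (a + b) (u * w) := fun n hn => by
  rw [Laur_coeff_mul hu hw, Finset.Icc_eq_empty (by omega), Finset.sum_empty]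

theorem Reg.coeff_mul {a b : ℤ} {u w : L} (hu : Reg a u) (hw : Reg b w) :
    (u * w).coeff (a + b) = u.coeff a * w.coeff b := by
  rw [Laur_coeff_mul hu hw, add_sub_cancel_right, Finset.Icc_self, Finset.sum_singleton,
    add_sub_cancel_left]

theorem Reg.succ {N : ℤ} {u : L} (hu : Reg N u) (h0 : u.coeff N = 0) : Reg (N + 1) u := fun n hn => by
  rcases eq_or_lt_of_le (show n ≤ N by omega) with h | h
  · rw [h, h0]
  · exact hu n h

theorem exists_reg (u : L) : ∃ N, Reg N u := ⟨u.order, fun _ hn => HahnSeries.coeff_eq_zero_of_lt_order hn⟩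

theorem eq_zero_of_reg {u : L} (hu : ∀ N, Reg N u) : u = 0 := by
  ext n
  exact hu (n + 1) n (by omega)

theorem reg_single (n : ℤ) (c : ℂ) : Reg n (HahnSeries.single n c : L) := fun _ hm =>
  HahnSeries.coeff_single_of_ne hm.ne

theorem reg_C (c : ℂ) : Reg 0 (HahnSeries.C c : L) := reg_single 0 c

theorem reg_one : Reg 0 (1 : L) := reg_single 0 1

theorem reg_xi : Reg 1 xi := reg_single 1 1

theorem reg_xin : Reg (-1) xin := reg_single (-1) 1

theorem reg_one_iff (u : L) : Reg 1 u ↔ ∀ n ≤ 0, u.coeff n = 0 := ⟨fun h n hn => h n (by omega), fun h n hn => h n (by omega)⟩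

theorem C_eq_smul (c : ℂ) : (HahnSeries.C c : L) = c • (1 : L) := by
  rw [← HahnSeries.C_mul_eq_smul, mul_one]

theorem xi_mul_xin : xi * xin = 1 := by
  rw [xi, xin, HahnSeries.single_mul_single, add_neg_cancel, mul_one, HahnSeries.single_zero_one]

theorem Reg.sub_C {u : L} (hu : Reg 0 u) : Reg 1 (u - HahnSeries.C (u.coeff 0)) := by
  refine (hu.sub (reg_C _)).succ ?_
  rw [HahnSeries.coeff_sub, HahnSeries.C_apply, HahnSeries.coeff_single_same, sub_self]

theorem Reg.sub_xi {u : L} (hu : Reg 1 u) : Reg 2 (u - u.coeff 1 • xi) := by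
  refine (hu.sub (reg_xi.smul _)).succ ?_
  rw [HahnSeries.coeff_sub, HahnSeries.coeff_smul, xi, HahnSeries.coeff_single_same, smul_eq_mul,
    mul_one, sub_self]

theorem Laur_deriv_coeff (u : L) (n : ℤ) :
    (LaurentSeries.derivative ℂ u).coeff n = ((n + 1 : ℤ) : ℂ) * u.coeff (n + 1) := by
  rw [LaurentSeries.derivative_apply, LaurentSeries.hasseDeriv_coeff]
  simp

theorem Laur_euler (u : L) (n : ℤ) :
    (xi * LaurentSeries.derivative ℂ u).coeff n = (n : ℂ) * u.coeff n := by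
  rw [xi, HahnSeries.coeff_single_mul, one_mul, Laur_deriv_coeff, sub_add_cancel]

theorem deriv_mul (u w : L) : LaurentSeries.derivative ℂ (u * w) =
    LaurentSeries.derivative ℂ u * w + u * LaurentSeries.derivative ℂ w := by
  obtain ⟨a, hu⟩ := exists_reg u
  obtain ⟨b, hw⟩ := exists_reg w
  have h0 : xi ≠ 0 := left_ne_zero_of_mul_eq_one xi_mul_xin
  have h1 : Reg a (xi * LaurentSeries.derivative ℂ u) := fun n hn => by
    rw [Laur_euler, hu n hn, mul_zero]
  have h2 : Reg b (xi * LaurentSeries.derivative ℂ w) := fun n hn => by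
    rw [Laur_euler, hw n hn, mul_zero]
  refine mul_left_cancel₀ h0 ?_
  rw [mul_add, ← mul_assoc, mul_left_comm xi u]
  ext n
  rw [HahnSeries.coeff_add, Laur_euler, Laur_coeff_mul hu hw, Laur_coeff_mul h1 hw,
    Laur_coeff_mul hu h2, Finset.mul_sum, ← Finset.sum_add_distrib]
  refine Finset.sum_congr rfl fun i _ => ?_
  rw [Laur_euler, Laur_euler]
  push_cast
  ring

theorem rs_add_left (u u' w : L) : rs (u + u') w = rs u w + rs u' w := by
  simp only [rs, map_add, mul_add, HahnSeries.coeff_add]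

theorem rs_add_right (u w w' : L) : rs u (w + w') = rs u w + rs u w' := by
  simp only [rs, add_mul, HahnSeries.coeff_add]

theorem rs_smul_left (c : ℂ) (u w : L) : rs (c • u) w = c * rs u w := by
  rw [rs, rs, map_smul, ← HahnSeries.C_mul_eq_smul, mul_left_comm, HahnSeries.C_mul_eq_smul,
    HahnSeries.coeff_smul, smul_eq_mul]

theorem rs_smul_right (c : ℂ) (u w : L) : rs u (c • w) = c * rs u w := by
  rw [rs, rs, ← HahnSeries.C_mul_eq_smul, mul_assoc, HahnSeries.C_mul_eq_smul,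
    HahnSeries.coeff_smul, smul_eq_mul]

theorem Laur_res (u : L) : (LaurentSeries.derivative ℂ u).coeff (-1) = 0 := by
  rw [Laur_deriv_coeff]
  simp

theorem rs_anti (u w : L) : rs u w = -rs w u := by
  have h1 := Laur_res (u * w)
  rw [deriv_mul, HahnSeries.coeff_add, mul_comm _ w] at h1
  exact eq_neg_of_add_eq_zero_left h1

theorem rs_cyc (u w z : L) : rs u (w * z) + rs w (z * u) + rs z (u * w) = 0 := by
  have h1 := Laur_res (u * w * z)
  have h2 : LaurentSeries.derivative ℂ (u * w * z) = w * z * LaurentSeries.derivative ℂ u +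
      z * u * LaurentSeries.derivative ℂ w + u * w * LaurentSeries.derivative ℂ z := by
    rw [deriv_mul, deriv_mul]
    ring
  rw [h2, HahnSeries.coeff_add, HahnSeries.coeff_add] at h1
  exact h1

theorem rs_reg {a b : ℤ} {u w : L} (hu : Reg a u) (hw : Reg b w) (hab : 1 ≤ a + b) :
    rs u w = 0 := by
  have h1 : Reg (a - 1) (LaurentSeries.derivative ℂ u) := fun n hn => by
    rw [Laur_deriv_coeff, hu (n + 1) (by omega), mul_zero]
  exact hw.mul h1 (-1) (by omega)

theorem rs_reg_zero {u w : L} (hu : Reg 0 u) (hw : Reg 0 w) : rs u w = 0 := by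
  have h1 : Reg 0 (LaurentSeries.derivative ℂ u) := fun n hn => by
    rcases eq_or_lt_of_le (show n ≤ -1 by omega) with h | h
    · rw [h, Laur_res]
    · rw [Laur_deriv_coeff, hu (n + 1) (by omega), mul_zero]
  exact hw.mul h1 (-1) (by omega)

theorem Laur_deriv_C (c : ℂ) : LaurentSeries.derivative ℂ (HahnSeries.C c : L) = 0 := by
  ext n
  rw [Laur_deriv_coeff, HahnSeries.C_apply, HahnSeries.coeff_single]
  split_ifs with h
  · rw [h]
    simp
  · simp

theorem rs_C_left (c : ℂ) (w : L) : rs (HahnSeries.C c) w = 0 := by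
  rw [rs, Laur_deriv_C, mul_zero]
  rfl

theorem rs_one_left (w : L) : rs 1 w = 0 := rs_C_left 1 w

theorem rs_one_right (u : L) : rs u 1 = 0 := by
  rw [rs_anti, rs_one_left, neg_zero]

theorem rs_xi_xin : rs xi xin = 1 := by
  rw [rs, xin, HahnSeries.coeff_single_mul, Laur_deriv_coeff, xi]
  simp

theorem pz_C (c : ℂ) : pz (Polynomial.C c) = HahnSeries.C c := by
  simp [pz]

theorem pz_X : pz Polynomial.X = xin := by
  simp [pz]

theorem pz_smul (c : ℂ) (p : Polynomial ℂ) : pz (c • p) = c • pz p := by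
  rw [Polynomial.smul_eq_C_mul, map_mul, pz_C, HahnSeries.C_mul_eq_smul]

theorem Laur_pz_monomial (n : ℕ) (c : ℂ) :
    pz (Polynomial.monomial n c) = HahnSeries.single (-(n : ℤ)) c := by
  rw [← Polynomial.C_mul_X_pow_eq_monomial, map_mul, map_pow, pz_C, pz_X, xin,
    HahnSeries.single_pow, HahnSeries.C_apply, HahnSeries.single_mul_single]
  simp

theorem Laur_pz_coeff (p : Polynomial ℂ) (n : ℤ) (hn : 0 < n) : (pz p).coeff n = 0 := by
  induction p using Polynomial.induction_on' with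
  | add q q' h h' => rw [map_add, HahnSeries.coeff_add, h, h', add_zero]
  | monomial m c =>
    rw [Laur_pz_monomial]
    exact HahnSeries.coeff_single_of_ne (by omega)

theorem rs_pz (p q : Polynomial ℂ) : rs (pz p) (pz q) = 0 := by
  induction q using Polynomial.induction_on' with
  | add q q' h h' => rw [map_add, rs_add_right, h, h', add_zero]
  | monomial n c =>
    rw [Laur_pz_monomial, rs, HahnSeries.coeff_single_mul, Laur_deriv_coeff]
    rcases Nat.eq_zero_or_pos n with h | h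
    · simp [h]
    · rw [Laur_pz_coeff p _ (by omega), mul_zero, mul_zero]

theorem exists_pz (u : L) : ∃ q, Reg 1 (u - pz q) := by
  obtain ⟨N, hN⟩ := exists_reg u
  refine ⟨∑ k ∈ Finset.range (N.natAbs + 1), Polynomial.monomial k (u.coeff (-(k : ℤ))),
    fun n hn => ?_⟩
  rw [map_sum, HahnSeries.coeff_sub, HahnSeries.coeff_sum, sub_eq_zero]
  simp only [Laur_pz_monomial]
  have h1 : n = -((n.natAbs : ℕ) : ℤ) := by omega
  rw [Finset.sum_eq_single n.natAbs]
  · rw [← h1, HahnSeries.coeff_single_same]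
  · intro k _ hk
    exact HahnSeries.coeff_single_of_ne (by omega)
  · intro h
    rw [Finset.mem_range] at h
    rw [← h1, HahnSeries.coeff_single_same]
    exact hN n (by omega)

theorem tr_add_left (X X' Y : G) : tr (X + X') Y = tr X Y + tr X' Y := by
  simp [tr, add_mul]

theorem tr_add_right (X Y Y' : G) : tr X (Y + Y') = tr X Y + tr X Y' := by
  simp [tr, mul_add]

theorem tr_smul_left (c : ℂ) (X Y : G) : tr (c • X) Y = c * tr X Y := by
  simp [tr]

theorem tr_smul_right (c : ℂ) (X Y : G) : tr X (c • Y) = c * tr X Y := by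
  simp [tr]

theorem tr_symm (X Y : G) : tr X Y = tr Y X := Matrix.trace_mul_comm _ _

theorem tr_lie (X Y Z : G) : tr ⁅X, Y⁆ Z = tr X ⁅Y, Z⁆ := by
  change ((X.1 * Y.1 - Y.1 * X.1) * Z.1).trace = (X.1 * (Y.1 * Z.1 - Z.1 * Y.1)).trace
  rw [sub_mul, mul_sub, Matrix.trace_sub, Matrix.trace_sub, mul_assoc, mul_assoc,
    Matrix.trace_mul_comm Y.1 (X.1 * Z.1), mul_assoc]

theorem Laur_e : e.1 = !![0, 1; 0, 0] := by
  ext i j
  fin_cases i <;> fin_cases j <;> simp [e]

theorem Laur_f : f.1 = !![0, 0; 1, 0] := by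
  ext i j
  fin_cases i <;> fin_cases j <;> simp [f]

theorem Laur_h : h.1 = !![1, 0; 0, -1] := by
  ext i j
  fin_cases i <;> fin_cases j <;> simp [h]

theorem Laur_lie (X Y : G) : (⁅X, Y⁆ : G).1 = X.1 * Y.1 - Y.1 * X.1 := rfl

theorem tr_e_e : tr e e = 0 := by
  simp [tr, Laur_e, Matrix.trace_fin_two]

theorem tr_f_f : tr f f = 0 := by
  simp [tr, Laur_f, Matrix.trace_fin_two]

theorem tr_e_f : tr e f = 1 := by
  simp [tr, Laur_e, Laur_f, Matrix.trace_fin_two]

theorem tr_f_e : tr f e = 1 := by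
  simp [tr, Laur_e, Laur_f, Matrix.trace_fin_two]

theorem tr_h_e : tr h e = 0 := by
  simp [tr, Laur_e, Laur_h]

theorem tr_h_f : tr h f = 0 := by
  simp [tr, Laur_h, Laur_f]

theorem lie_e_f : ⁅e, f⁆ = h := by
  refine Subtype.ext ?_
  rw [Laur_lie, Laur_e, Laur_f, Laur_h]
  ext i j
  fin_cases i <;> fin_cases j <;> simp

theorem lie_f_e : ⁅f, e⁆ = -h := by
  rw [← lie_skew, lie_e_f]

theorem lie_h_e : ⁅h, e⁆ = (2 : ℂ) • e := by
  refine Subtype.ext ?_
  change _ = (2 : ℂ) • e.1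
  rw [Laur_lie, Laur_e, Laur_h]
  ext i j
  fin_cases i <;> fin_cases j <;> simp
  norm_num

theorem lie_h_f : ⁅h, f⁆ = (-2 : ℂ) • f := by
  refine Subtype.ext ?_
  change _ = (-2 : ℂ) • f.1
  rw [Laur_lie, Laur_f, Laur_h]
  ext i j
  fin_cases i <;> fin_cases j <;> simp
  norm_num

theorem exists_coord (X : G) : ∃ α β γ : ℂ, X = α • e + β • h + γ • f := by
  refine ⟨X.1 0 1, X.1 0 0, X.1 1 0, Subtype.ext ?_⟩
  have h1 : X.1.trace = 0 := X.2
  rw [Matrix.trace_fin_two] at h1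
  change _ = X.1 0 1 • e.1 + X.1 0 0 • h.1 + X.1 1 0 • f.1
  rw [Laur_e, Laur_f, Laur_h]
  ext i j
  fin_cases i <;> fin_cases j <;> simp
  exact eq_neg_of_add_eq_zero_right h1

theorem ad_e_cube (X : G) : ⁅e, ⁅e, ⁅e, X⁆⁆⁆ = 0 := by
  obtain ⟨α, β, γ, rfl⟩ := exists_coord X
  have h1 : ⁅e, h⁆ = -((2 : ℂ) • e) := by rw [← lie_skew, lie_h_e]
  simp [lie_e_f, h1]

theorem ad_f_cube (X : G) : ⁅f, ⁅f, ⁅f, X⁆⁆⁆ = 0 := by
  obtain ⟨α, β, γ, rfl⟩ := exists_coord X
  have h1 : ⁅f, h⁆ = -((-2 : ℂ) • f) := by rw [← lie_skew, lie_h_f]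
  simp [lie_f_e, h1]

theorem coc_anti (X : G) (u : L) (Y : G) (w : L) : coc X u Y w = -coc Y w X u := by
  rw [coc_eq, coc_eq, rs_anti u w, tr_symm X Y, mul_neg]

theorem coc_cyc (X Y Z : G) (u w z : L) :
    coc X u ⁅Y, Z⁆ (w * z) + coc Y w ⁅Z, X⁆ (z * u) + coc Z z ⁅X, Y⁆ (u * w) = 0 := by
  have h1 : tr Y ⁅Z, X⁆ = tr X ⁅Y, Z⁆ := by rw [← tr_lie, tr_symm]
  have h2 : tr Z ⁅X, Y⁆ = tr X ⁅Y, Z⁆ := by rw [tr_symm, tr_lie]
  rw [coc_eq, coc_eq, coc_eq, h1, h2, ← mul_add, ← mul_add, rs_cyc, mul_zero]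

end Pool.Agent.P.MP_e1a373_ag.B
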