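import Pool.Agent.P.MP_e1a373_ag.B.Rep

/-!
Local nilpotence on the integrable modules.
-/

open scoped TensorProduct Classical

noncomputable section

namespace Pool.Agent.P.MP_e1a373_ag.B

section Gen

variable {M : Type} [AddCommGroup M] [Module ℂ M]

/-- The commutator with `y`. -/
def nilAd (y : Module.End ℂ M) : Module.End ℂ (Module.End ℂ M) :=
  LinearMap.mulLeft ℂ y - LinearMap.mulRight ℂ y

theorem nilAd_apply (y x : Module.End ℂ M) : nilAd y x = y * x - x * y := rfl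

theorem nilAd_one (y : Module.End ℂ M) : nilAd y 1 = 0 := by
  rw [nilAd_apply, mul_one, one_mul, sub_self]

theorem nilAd_mul (y x w : Module.End ℂ M) :
    nilAd y (x * w) = nilAd y x * w + x * nilAd y w := by
  simp only [nilAd_apply]
  noncomm_ring

theorem nil_pow_succ {A : Type} [AddCommGroup A] [Module ℂ A] (y : Module.End ℂ A) (n : ℕ)
    (m : A) : (y ^ (n + 1)) m = (y ^ n) (y m) := by
  rw [pow_succ, Module.End.mul_apply]

theorem nil_pow_succ' {A : Type} [AddCommGroup A] [Module ℂ A] (y : Module.End ℂ A) (n : ℕ)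
    (m : A) : (y ^ (n + 1)) m = y ((y ^ n) m) := by
  rw [pow_succ', Module.End.mul_apply]

theorem nil_pow_le {y : Module.End ℂ M} {n k : ℕ} {m : M} (h : (y ^ n) m = 0) (hnk : n ≤ k) :
    (y ^ k) m = 0 := by
  obtain ⟨d, rfl⟩ := Nat.exists_eq_add_of_le' hnk
  rw [pow_add, Module.End.mul_apply, h, map_zero]

theorem nil_step (y : Module.End ℂ M) (k : ℕ) : ∀ x : Module.End ℂ M, (nilAd y ^ k) x = 0 →
    ∀ (n : ℕ) (m : M), (y ^ n) m = 0 → (y ^ (n + k)) (x m) = 0 := by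
  induction k with
  | zero =>
    intro x hx n m _
    have : x = 0 := by simpa using hx
    simp [this]
  | succ k ih =>
    intro x hx n
    rw [nil_pow_succ] at hx
    induction n with
    | zero =>
      intro m hm
      have : m = 0 := by simpa using hm
      simp [this]
    | succ n ihn =>
      intro m hm
      have h1 := ih _ hx _ m hm
      have h2 := ihn (y m) (by rwa [nil_pow_succ] at hm)
      have h3 : y (x m) = x (y m) + nilAd y x m := by
        simp [nilAd_apply]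
      have h4 : n + 1 + (k + 1) = n + (k + 1) + 1 := by ring
      have h5 : n + 1 + k = n + (k + 1) := by ring
      rw [h4, nil_pow_succ, h3, map_add, h2, ← h5, h1, add_zero]

theorem nil_add {a b : Module.End ℂ M} (hab : a * b = b * a) (n : ℕ) : ∀ (k : ℕ) (m : M),
    (a ^ n) m = 0 → (b ^ k) m = 0 → ((a + b) ^ (n + k)) m = 0 := by
  have hc : Commute a b := hab
  induction n with
  | zero =>
    intro k m hm _
    have : m = 0 := by simpa using hm
    simp [this]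
  | succ n ih =>
    intro k
    induction k with
    | zero =>
      intro m _ hm
      have : m = 0 := by simpa using hm
      simp [this]
    | succ k ihk =>
      intro m ha hb
      have h1 : (b ^ (k + 1)) (a m) = 0 := by
        rw [← Module.End.mul_apply, ← (hc.pow_right (k + 1)).eq, Module.End.mul_apply, hb,
          map_zero]
      have h2 : (a ^ (n + 1)) (b m) = 0 := by
        rw [← Module.End.mul_apply, (hc.pow_left (n + 1)).eq, Module.End.mul_apply, ha, map_zero]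
      have h3 := ih (k + 1) (a m) (by rwa [nil_pow_succ] at ha) h1
      have h4 := ihk (b m) h2 (by rwa [nil_pow_succ] at hb)
      have h5 : n + 1 + (k + 1) = n + (k + 1) + 1 := by ring
      have h6 : n + 1 + k = n + (k + 1) := by ring
      rw [h6] at h4
      rw [h5, nil_pow_succ, LinearMap.add_apply, map_add, h3, h4, add_zero]

theorem nil_leibniz (y x w : Module.End ℂ M) (hx : nilAd y (nilAd y (nilAd y x)) = 0) (n : ℕ) :
    (nilAd y ^ (n + 2)) (x * w) = x * (nilAd y ^ (n + 2)) w +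
      ((n : ℂ) + 2) • (nilAd y x * (nilAd y ^ (n + 1)) w) +
      (((n : ℂ) + 2) * ((n : ℂ) + 1) / 2) • (nilAd y (nilAd y x) * (nilAd y ^ n) w) := by
  induction n with
  | zero =>
    simp only [zero_add, pow_two, pow_one, pow_zero, Module.End.mul_apply, Module.End.one_apply,
      nilAd_mul, map_add, Nat.cast_zero]
    module
  | succ n ih =>
    rw [show n + 1 + 2 = n + 2 + 1 from rfl, nil_pow_succ', ih]
    simp only [map_add, map_smul, nilAd_mul, hx, zero_mul, zero_add, ← nil_pow_succ']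
    push_cast
    module

theorem nil_top (y x : Module.End ℂ M) (hx : nilAd y (nilAd y (nilAd y x)) = 0) (K : ℕ) :
    ∃ c : ℂ, c ≠ 0 ∧ (nilAd y ^ (2 * K)) (x ^ K) = c • nilAd y (nilAd y x) ^ K ∧
      (nilAd y ^ (2 * K + 1)) (x ^ K) = 0 := by
  induction K with
  | zero => exact ⟨1, one_ne_zero, by simp, by simp [nilAd_one]⟩
  | succ K ih =>
    obtain ⟨c, hc, h1, h2⟩ := ih
    have h3 : (nilAd y ^ (2 * K + 2)) (x ^ K) = 0 := by rw [nil_pow_succ', h2, map_zero]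
    have h4 : (nilAd y ^ (2 * K + 1 + 2)) (x ^ K) = 0 := by
      rw [show 2 * K + 1 + 2 = 2 * K + 2 + 1 from rfl, nil_pow_succ', h3, map_zero]
    refine ⟨(((2 * K : ℕ) : ℂ) + 2) * (((2 * K : ℕ) : ℂ) + 1) / 2 * c, ?_, ?_, ?_⟩
    · refine mul_ne_zero (div_ne_zero (mul_ne_zero ?_ ?_) two_ne_zero) hc
      · exact_mod_cast (Nat.succ_ne_zero (2 * K + 1))
      · exact_mod_cast (Nat.succ_ne_zero (2 * K))
    · rw [show 2 * (K + 1) = 2 * K + 2 from rfl, pow_succ' x, nil_leibniz y x _ hx, h1, h2, h3,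
        mul_zero, mul_zero, smul_zero, zero_add, zero_add, mul_smul_comm, smul_smul,
        ← pow_succ']
    · rw [show 2 * (K + 1) + 1 = 2 * K + 1 + 2 from rfl, pow_succ' x, nil_leibniz y x _ hx, h2,
        h3, h4]
      simp

variable {l a : ℕ} {ρ : G →ₗ[ℂ] L →ₗ[ℂ] Module.End ℂ M} {v : M}

theorem nil_of_vac
    (hind : ∀ K : Submodule ℂ M, v ∈ K → (∀ X q, ∀ m ∈ K, ρ X (pz q) m ∈ K) → ∀ m, m ∈ K)
    (y : Module.End ℂ M) {n : ℕ} (h0 : (y ^ n) v = 0)
    (hy : ∀ X u, (nilAd y ^ 4) (ρ X u) = 0) (m : M) : ∃ n : ℕ, (y ^ n) m = 0 := by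
  let K : Submodule ℂ M :=
    { carrier := {m | ∃ n : ℕ, (y ^ n) m = 0}
      zero_mem' := ⟨0, map_zero _⟩
      add_mem' := by
        rintro p q ⟨i, hi⟩ ⟨j, hj⟩
        exact ⟨i + j, by rw [map_add, nil_pow_le hi (Nat.le_add_right i j),
          nil_pow_le hj (Nat.le_add_left j i), add_zero]⟩
      smul_mem' := by
        rintro c p ⟨i, hi⟩
        exact ⟨i, by rw [map_smul, hi, smul_zero]⟩ }
  refine hind K ⟨n, h0⟩ ?_ m
  rintro X q p ⟨i, hi⟩
  exact ⟨i + 4, nil_step y 4 _ (hy X _) i p hi⟩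

theorem nilAd_act (hρ : IsRep l ρ) (X Y : G) (u w : L) :
    nilAd (ρ X u) (ρ Y w) = ρ ⁅X, Y⁆ (u * w) + (l * coc X u Y w) • 1 :=
  hρ X u Y w

theorem nilAd_act_four (hρ : IsRep l ρ) {Z : G} (hZ : ∀ X : G, ⁅Z, ⁅Z, ⁅Z, X⁆⁆⁆ = 0) (u : L)
    (X : G) (w : L) : (nilAd (ρ Z u) ^ 4) (ρ X w) = 0 := by
  simp only [pow_succ', pow_zero, mul_one, Module.End.mul_apply, nilAd_act hρ, map_add, map_smul,
    nilAd_one, smul_zero, add_zero, hZ, map_zero, LinearMap.zero_apply, zero_add]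

theorem nilAd_f_one (hρ : IsRep l ρ) (X : G) (w : L) :
    nilAd (ρ f 1) (ρ X w) = ρ ⁅f, X⁆ w := by
  rw [nilAd_act hρ, coc_eq, rs_one_left, one_mul]
  simp

theorem nil_f_comm (hρ : IsRep l ρ) (u w : L) : ρ f u * ρ f w = ρ f w * ρ f u := by
  have h1 := hρ f u f w
  rw [coc_eq, tr_f_f, lie_self] at h1
  refine sub_eq_zero.1 (h1.trans ?_)
  simp

theorem nil_f_xin_vac (hρ : IsRep l ρ)
    (hind : ∀ K : Submodule ℂ M, v ∈ K → (∀ X q, ∀ m ∈ K, ρ X (pz q) m ∈ K) → ∀ m, m ∈ K)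
    {r s : ℕ} (hf : (ρ f 1 ^ r) v = 0) (hE : (ρ e xin ^ s) v = 0) :
    ∃ K : ℕ, (ρ f xin ^ K) v = 0 := by
  have hx := nil_of_vac hind (ρ e xin) hE (nilAd_act_four hρ ad_e_cube xin)
  choose n hn using hx
  obtain ⟨K, hK⟩ : ∃ K : ℕ, ∀ j, (ρ e xin ^ K) ((ρ f 1 ^ j) v) = 0 := by
    refine ⟨(Finset.range r).sup fun j => n ((ρ f 1 ^ j) v), fun j => ?_⟩
    rcases Nat.lt_or_ge j r with hj | hj
    · exact nil_pow_le (hn _)
        (Finset.le_sup (f := fun j => n ((ρ f 1 ^ j) v)) (Finset.mem_range.2 hj))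
    · rw [nil_pow_le hf hj, map_zero]
  have hD : ∀ (k : ℕ) (w : Module.End ℂ M), (∀ j, w ((ρ f 1 ^ j) v) = 0) →
      ∀ j, (nilAd (ρ f 1) ^ k) w ((ρ f 1 ^ j) v) = 0 := by
    intro k
    induction k with
    | zero => intro w hw j; simpa using hw j
    | succ k ih =>
      intro w hw
      rw [nil_pow_succ]
      refine ih _ fun j => ?_
      rw [nilAd_apply, LinearMap.sub_apply, Module.End.mul_apply, Module.End.mul_apply, hw,
        ← nil_pow_succ', hw, map_zero, sub_zero]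
  obtain ⟨c, hc, h1, -⟩ := nil_top (ρ f 1) (ρ e xin)
    (by rw [nilAd_f_one hρ, nilAd_f_one hρ, nilAd_f_one hρ, ad_f_cube]; simp) K
  have h2 := hD (2 * K) _ hK 0
  have h3 : (⁅f, ⁅f, e⁆⁆ : G) = (-2 : ℂ) • f := by
    rw [lie_f_e, lie_neg, ← lie_h_f, lie_skew]
  rw [h1, nilAd_f_one hρ, nilAd_f_one hρ, h3, map_smul, LinearMap.smul_apply (-2 : ℂ), smul_pow,
    smul_smul, LinearMap.smul_apply, pow_zero, Module.End.one_apply] at h2
  refine ⟨K, ?_⟩
  rcases smul_eq_zero.1 h2 with h4 | h4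
  · exact absurd h4 (mul_ne_zero hc (pow_ne_zero _ (by norm_num)))
  · exact h4

theorem nil_f_gen (hρ : IsRep l ρ) (hv : IsHW a ρ v)
    (hind : ∀ K : Submodule ℂ M, v ∈ K → (∀ X q, ∀ m ∈ K, ρ X (pz q) m ∈ K) → ∀ m, m ∈ K)
    {r s : ℕ} (hf : (ρ f 1 ^ r) v = 0) (hE : (ρ e xin ^ s) v = 0) (α β γ : ℂ) (m : M) :
    ∃ n : ℕ, (ρ f (α • xin + HahnSeries.C β + γ • xi) ^ n) m = 0 := by
  obtain ⟨K, hK⟩ := nil_f_xin_vac hρ hind hf hE
  obtain ⟨n1, h1⟩ := nil_of_vac hind _ hK (nilAd_act_four hρ ad_f_cube xin) m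
  obtain ⟨n2, h2⟩ := nil_of_vac hind _ hf (nilAd_act_four hρ ad_f_cube 1) m
  obtain ⟨n3, h3⟩ := nil_of_vac hind (ρ f xi) (n := 1)
    (by rw [pow_one]; exact hv.pos f xi reg_xi) (nilAd_act_four hρ ad_f_cube xi) m
  have hs : ∀ (c : ℂ) (u : L) (n : ℕ), (ρ f u ^ n) m = 0 →
      (ρ f (c • u) ^ n) m = 0 := fun c u n hu => by
    rw [map_smul, smul_pow, LinearMap.smul_apply, hu, smul_zero]
  have h4 := nil_add (nil_f_comm hρ _ _) _ _ m (hs α _ _ h1) (hs β _ _ h2)
  rw [← map_add] at h4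
  have h5 := nil_add (nil_f_comm hρ _ _) _ _ m h4 (hs γ _ _ h3)
  rw [← map_add] at h5
  exact ⟨_, by rw [C_eq_smul]; exact h5⟩

end Gen

theorem nil_f (l a : ℕ) (α β γ : ℂ) (m : H l a) :
    ∃ n : ℕ, (act l a f (α • xin + HahnSeries.C β + γ • xi) ^ n) m = 0 :=
  nil_f_gen (act_rep l a) (act_hw l a) H_ind (act_f l a) (act_E l a) α β γ m

end Pool.Agent.P.MP_e1a373_ag.B
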