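import Pool.Agent.P.MP_e1a373_ag.B.Fin

/-!
The gauge operators on multilinear forms when only some of the slots are full.
-/

open Function
open scoped Classical

set_option linter.unusedSectionVars false

noncomputable section

namespace Pool.Agent.P.MP_e1a373_ag.B

/-- The action of the currents through the value at the point. -/
def evc (l a : ℕ) : G →ₗ[ℂ] L →ₗ[ℂ] Module.End ℂ (K l a) :=
  LinearMap.mk₂ ℂ (fun X u => u.coeff 0 • ev l a X) (fun X Y u => by simp)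
    (fun c X u => by rw [map_smul, smul_comm]) (fun X u w => by simp [add_smul])
    (fun c X u => by simp [mul_smul])

/-- The action in a slot, which is full or not. -/
def so (l a : ℕ) (b : Prop) : G →ₗ[ℂ] L →ₗ[ℂ] Module.End ℂ (K l a) :=
  if b then ac l a else evc l a

theorem so_pos {l a : ℕ} {b : Prop} (hb : b) (X : G) (u : L) : so l a b X u = ac l a X u := by
  rw [so, if_pos hb]

theorem so_neg {l a : ℕ} {b : Prop} (hb : ¬b) (X : G) (u : L) :
    so l a b X u = u.coeff 0 • ev l a X := by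
  rw [so, if_neg hb]
  rfl

theorem so_comm {l a : ℕ} (hal : a ≤ l) (b : Prop) [Decidable b] (X Y : G) (u u' : L)
    (hb : ¬b → a = 0 ∨ (Reg 0 u ∧ Reg 0 u')) :
    so l a b X u * so l a b Y u' - so l a b Y u' * so l a b X u =
      so l a b ⁅X, Y⁆ (u * u') + (if b then l * coc X u Y u' else 0) • 1 := by
  by_cases h : b
  · simp only [so_pos h, if_pos h]
    exact ac_rep l a X u Y u'
  · simp only [so_neg h, if_neg h, zero_smul, add_zero]
    rcases hb h with h0 | ⟨h1, h2⟩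
    · simp [ev_zero h0]
    · have := h1.coeff_mul h2
      rw [add_zero] at this
      rw [this, ← ev_comm hal, smul_mul_smul_comm, smul_mul_smul_comm, smul_sub, mul_comm]

/-- The negative of a bilinear family of operators, after a change of the second variable. -/
def ngc {A D W : Type} [AddCommGroup A] [Module ℂ A] [AddCommGroup D] [Module ℂ D]
    [AddCommGroup W] [Module ℂ W] (ρ : G →ₗ[ℂ] D →ₗ[ℂ] Module.End ℂ W) (t : A →ₗ[ℂ] D) :
    G →ₗ[ℂ] A →ₗ[ℂ] Module.End ℂ W := -ρ.compl₂ t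

theorem ngc_apply {A D W : Type} [AddCommGroup A] [Module ℂ A] [AddCommGroup D] [Module ℂ D]
    [AddCommGroup W] [Module ℂ W] (ρ : G →ₗ[ℂ] D →ₗ[ℂ] Module.End ℂ W) (t : A →ₗ[ℂ] D) (X : G)
    (a : A) : ngc ρ t X a = -ρ X (t a) := rfl

theorem ngc_mul {A D W : Type} [AddCommGroup A] [Module ℂ A] [AddCommGroup D] [Module ℂ D]
    [AddCommGroup W] [Module ℂ W] (ρ : G →ₗ[ℂ] D →ₗ[ℂ] Module.End ℂ W) (t : A →ₗ[ℂ] D) (X Y : G)
    (a b : A) : ngc ρ t X a * ngc ρ t Y b = ρ X (t a) * ρ Y (t b) := by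
  rw [ngc_apply, ngc_apply, neg_mul_neg]

variable {I V : Type} [Fintype I] [Fintype V] {l : ℕ} {w : I ⊕ V → ℕ}

/-- The sum over the slots in `T` of the actions; the slots in `S` are full. -/
def O (l : ℕ) (w : I ⊕ V → ℕ) (S T : Finset (I ⊕ V)) :
    G →ₗ[ℂ] (I ⊕ V → L) →ₗ[ℂ] Module.End ℂ (Wf l w) :=
  LinearMap.mk₂ ℂ (fun X u => ∑ j ∈ T, R j (so l (w j) (j ∈ S) X (u j)))
    (fun X Y u => by simp [Finset.sum_add_distrib]) (fun c X u => by simp [Finset.smul_sum])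
    (fun X u u' => by simp [Finset.sum_add_distrib]) (fun c X u => by simp [Finset.smul_sum])

theorem O_apply (S T : Finset (I ⊕ V)) (X : G) (u : I ⊕ V → L) :
    O l w S T X u = ∑ j ∈ T, R j (so l (w j) (j ∈ S) X (u j)) := rfl

theorem O_eval (S T : Finset (I ⊕ V)) (X : G) (u : I ⊕ V → L) (Ψ : Wf l w)
    (m : ∀ j, K l (w j)) : O l w S T X u Ψ m =
      ∑ j ∈ T, Ψ (update m j (so l (w j) (j ∈ S) X (u j) (m j))) := by
  simp only [O_apply, LinearMap.sum_apply, _root_.sum_apply, R_apply]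

theorem O_comm (hw : ∀ j, w j ≤ l) (S T : Finset (I ⊕ V)) (X Y : G) (u u' : I ⊕ V → L)
    (hT : ∀ j ∈ T, j ∉ S → w j = 0 ∨ (Reg 0 (u j) ∧ Reg 0 (u' j))) :
    O l w S T X u * O l w S T Y u' - O l w S T Y u' * O l w S T X u =
      -O l w S T ⁅X, Y⁆ (u * u') -
        (∑ j ∈ T, if j ∈ S then l * coc X (u j) Y (u' j) else 0) • 1 :=
  R_sum_comm T _ _ (fun j => so l (w j) (j ∈ S) ⁅X, Y⁆ (u j * u' j)) _
    fun j hj => so_comm (hw j) _ X Y _ _ (hT j hj)

theorem O_split (S : Finset (I ⊕ V)) (i : I ⊕ V) (X : G) (u : I ⊕ V → L) :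
    O l w S Finset.univ X u =
      R i (so l (w i) (i ∈ S) X (u i)) + O l w S (Finset.univ.erase i) X u := by
  rw [O_apply, O_apply, Finset.add_sum_erase _ (fun j => R j (so l (w j) (j ∈ S) X (u j)))
    (Finset.mem_univ i)]

theorem O_insert (S : Finset (I ⊕ V)) (i : I ⊕ V) (X : G) (u : I ⊕ V → L) :
    O l w (insert i S) (Finset.univ.erase i) X u = O l w S (Finset.univ.erase i) X u := by
  rw [O_apply, O_apply]
  refine Finset.sum_congr rfl fun j hj => ?_
  have : (j ∈ insert i S) = (j ∈ S) := by simp [Finset.ne_of_mem_erase hj]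
  simp only [this]

theorem O_Ext (S : Finset (I ⊕ V)) (i : I ⊕ V) (X : G) (u : I ⊕ V → L) (v : K l (w i))
    (Λ : K l (w i) →ₗ[ℂ] Wf l w) : O l w S (Finset.univ.erase i) X u (Ext i v Λ) =
      Ext i v (O l w S (Finset.univ.erase i) X u ∘ₗ Λ) :=
  sum_R_Ext (M := fun j => K l (w j)) _ (Finset.notMem_erase i _) v Λ _

theorem O_ins_Ext (S : Finset (I ⊕ V)) (i : I ⊕ V) (X : G) (u : I ⊕ V → L) (v : K l (w i))
    (Λ : K l (w i) →ₗ[ℂ] Wf l w) : O l w (insert i S) Finset.univ X u (Ext i v Λ) =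
      Ext i v (Λ ∘ₗ ac l (w i) X (u i) + O l w S (Finset.univ.erase i) X u ∘ₗ Λ) := by
  rw [O_split _ i, O_insert, LinearMap.add_apply, O_Ext, so_pos (Finset.mem_insert_self i S),
    R_Ext, Ext_add]

theorem R_comm_O (S : Finset (I ⊕ V)) (i : I ⊕ V) (X : G) (u : I ⊕ V → L)
    (b : Module.End ℂ (K l (w i))) : Commute (R i b) (O l w S (Finset.univ.erase i) X u) :=
  R_comm_sum (M := fun j => K l (w j)) _ (Finset.notMem_erase i _) b _

theorem O_R_apply (S : Finset (I ⊕ V)) (i : I ⊕ V) (X : G) (u : I ⊕ V → L)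
    (b : Module.End ℂ (K l (w i))) (Ψ : Wf l w) :
    O l w S (Finset.univ.erase i) X u (R i b Ψ) = R i b (O l w S (Finset.univ.erase i) X u Ψ) :=
  (LinearMap.congr_fun (R_comm_O S i X u b).eq Ψ).symm

theorem O_pr {S : Finset (I ⊕ V)} {i : I ⊕ V} (hi : i ∉ S) {X : G} {Ψ : Wf l w}
    (hΨ : O l w S Finset.univ X 1 Ψ = 0) (m : K l (w i)) :
    -O l w S (Finset.univ.erase i) X 1 (R i (pr l (w i) m) Ψ) =
      R i (pr l (w i) (ev l (w i) X m)) Ψ := by
  rw [O_split _ i, so_neg hi, LinearMap.add_apply] at hΨ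
  rw [O_R_apply, eq_neg_of_add_eq_zero_right hΨ, ← mul_pr, ← R_mul]
  simp

theorem O_pr_pow (hw : ∀ j, w j ≤ l) {S : Finset (I ⊕ V)} {i : I ⊕ V} (hi : i ∉ S) {Ψ : Wf l w}
    (hΨ : O l w S Finset.univ f 1 Ψ = 0) (k : ℕ) :
    ((-O l w S (Finset.univ.erase i) f 1) ^ k) (R i (pr l (w i) (vc l (w i))) Ψ) =
      R i (pr l (w i) (fk l (w i) k)) Ψ := by
  induction k with
  | zero => rfl
  | succ k ih =>
    rw [pow_succ', Module.End.mul_apply, ih, LinearMap.neg_apply, O_pr hi hΨ,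
      ev_eq (hw i) f (fv_mem k), fv_succ]

theorem res_Ext (hw : ∀ j, w j ≤ l) {S : Finset (I ⊕ V)} {i : I ⊕ V} (hi : i ∉ S) {Ψ : Wf l w}
    (hΨ : O l w S Finset.univ f 1 Ψ = 0) (Λ : K l (w i) →ₗ[ℂ] Wf l w)
    (h0 : Λ (vc l (w i)) = R i (pr l (w i) (vc l (w i))) Ψ)
    (hf : ∀ m, Λ (ac l (w i) f 1 m) = -O l w S (Finset.univ.erase i) f 1 (Λ m)) :
    res l w (Ext i (vc l (w i)) Λ) = res l w Ψ := by
  have key : ∀ k, Λ (fk l (w i) k) = R i (pr l (w i) (fk l (w i) k)) Ψ := by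
    intro k
    induction k with
    | zero => exact h0
    | succ k ih => rw [fv_succ, hf, ih, O_pr hi hΨ, ev_eq (hw i) f (fv_mem k)]
  funext k
  rw [res_apply, res_apply, Ext_apply]
  change Λ (fk l (w i) _) _ = _
  rw [key, R_apply, update_self, update_idem, pr_vac (hw i)]
  exact congrArg Ψ (update_eq_self i (bv l w k))

theorem O_congr {S T : Finset (I ⊕ V)} (X : G) {u u' : I ⊕ V → L}
    (h1 : ∀ j ∈ T, j ∈ S → u j = u' j)
    (h2 : ∀ j ∈ T, j ∉ S → w j = 0 ∨ (u j).coeff 0 = (u' j).coeff 0) :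
    O l w S T X u = O l w S T X u' := by
  rw [O_apply, O_apply]
  refine Finset.sum_congr rfl fun j hj => ?_
  by_cases h : j ∈ S
  · rw [h1 j hj h]
  · rw [so_neg h, so_neg h]
    rcases h2 j hj h with h0 | h0
    · simp [ev_zero h0]
    · rw [h0]

theorem O_eval_eq (hw : ∀ j, w j ≤ l) (S : Finset (I ⊕ V)) (X : G) (u : I ⊕ V → L) (Ψ : Wf l w)
    (m : ∀ j, K l (w j)) (hm : ∀ j ∉ S, m j ∈ FV l (w j) ∧ Reg 0 (u j)) :
    O l w S Finset.univ X u Ψ m = O l w Finset.univ Finset.univ X u Ψ m := by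
  rw [O_eval, O_eval]
  refine Finset.sum_congr rfl fun j _ => ?_
  by_cases h : j ∈ S
  · rw [so_pos h, so_pos (Finset.mem_univ j)]
  · rw [so_neg h, so_pos (Finset.mem_univ j), act_reg X (hm j h).2 (hm j h).1,
      LinearMap.smul_apply, ev_eq (hw j) X (hm j h).1]

theorem O_empty (hw0 : ∀ v, w (.inr v) = 0) (X : G) (u : I ⊕ V → L) :
    O l w ∅ Finset.univ X u =
      ∑ i, (u (.inl i)).coeff 0 • R (.inl i) (ev l (w (.inl i)) X) := by
  rw [O_apply, Fintype.sum_sum_type]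
  simp [so_neg, ev_zero (hw0 _)]

theorem res_O_e (hw : ∀ j, w j ≤ l) (x : I → ℂ) (n : ℕ) (Ψ : Wf l w) :
    res l w (((∑ i, x i • R (.inl i) (ev l (w (.inl i)) e)) ^ n) Ψ) =
      ((∑ i, x i • eS (fun i => w (.inl i)) i) ^ n) (res l w Ψ) := by
  induction n with
  | zero => rfl
  | succ n ih =>
    rw [pow_succ', pow_succ', Module.End.mul_apply, Module.End.mul_apply, ← ih]
    simp only [LinearMap.sum_apply, LinearMap.smul_apply, map_sum, map_smul, res_e hw]

theorem prj_O (hw : ∀ j, w j ≤ l) (x : I → ℂ) (X : G) (n : ℕ) {Ψ : Wf l w}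
    (hΨ : ∀ j, R j (prj l (w j)) Ψ = Ψ) (j : I ⊕ V) :
    R j (prj l (w j)) (((∑ i, x i • R (.inl i) (ev l (w (.inl i)) X)) ^ n) Ψ) =
      ((∑ i, x i • R (.inl i) (ev l (w (.inl i)) X)) ^ n) Ψ := by
  have : Commute (R (M := fun j => K l (w j)) j (prj l (w j)))
      (∑ i, x i • R (.inl i) (ev l (w (.inl i)) X)) := by
    refine Commute.sum_right _ _ _ fun i _ => Commute.smul_right ?_ _
    by_cases hj : j = .inl i
    · subst hj
      rw [Commute, SemiconjBy, R_mul, R_mul, ev_prj (hw _), prj_ev (hw _)]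
    · exact R_comm hj _ _
  rw [← Module.End.mul_apply, (this.pow_right n).eq, Module.End.mul_apply, hΨ]

end Pool.Agent.P.MP_e1a373_ag.B
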