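import Pool.Agent.P.MP_e1a373_ag.B.Laur

/-!
Representations of the affine Lie algebra: universal property and generation.
-/

open scoped TensorProduct Classical

noncomputable section

namespace Pool.Agent.P.MP_e1a373_ag.B

variable {l a : ℕ} {N : Type} [AddCommGroup N] [Module ℂ N]
  {ρ : G →ₗ[ℂ] L →ₗ[ℂ] Module.End ℂ N} {v : N}

theorem rep_comm (hρ : IsRep l ρ) (X : G) (u : L) (Y : G) (w : L) (m : N) :
    ρ X u (ρ Y w m) = ρ Y w (ρ X u m) + ρ ⁅X, Y⁆ (u * w) m + ((l : ℂ) * coc X u Y w) • m := by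
  have h1 := LinearMap.congr_fun (hρ X u Y w) m
  simp only [LinearMap.sub_apply, Module.End.mul_apply, LinearMap.add_apply, LinearMap.smul_apply,
    Module.End.one_apply] at h1
  rw [add_assoc, ← h1]
  abel

theorem rep_coc_one_left (X Y : G) (w : L) : coc X 1 Y w = 0 := by
  rw [coc_eq, rs_one_left, mul_zero]

theorem rep_coc_one_right (X Y : G) (u : L) : coc X u Y 1 = 0 := by
  rw [coc_eq, rs_one_right, mul_zero]

theorem rep_pow_succ (A : Module.End ℂ N) (k : ℕ) (m : N) : (A ^ (k + 1)) m = A ((A ^ k) m) := by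
  rw [pow_succ', Module.End.mul_apply]

theorem act_pow (X : G) (u : L) (n : ℕ) (m : H l a) :
    (act l a X u ^ n) m = cur X u ^ n • m := by
  induction n with
  | zero => simp
  | succ n ih => rw [rep_pow_succ, ih, act_apply, pow_succ', mul_smul]

theorem rep_smul_vac (t : T) : t • vac l a = Submodule.Quotient.mk t := by
  rw [vac, ← Submodule.Quotient.mk_smul, smul_eq_mul, mul_one]

theorem rep_rel {r : T} (hr : r ∈ Rel l a) : r • vac l a = 0 := by
  rw [rep_smul_vac, Submodule.Quotient.mk_eq_zero]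
  exact Submodule.subset_span hr

theorem rep_exists_smul (m : H l a) : ∃ t : T, m = t • vac l a := by
  obtain ⟨t, rfl⟩ := Submodule.Quotient.mk_surjective _ m
  exact ⟨t, (rep_smul_vac t).symm⟩

theorem act_rep (l a : ℕ) : IsRep l (act l a) := by
  intro X u Y w
  refine LinearMap.ext fun m => ?_
  obtain ⟨t, rfl⟩ := rep_exists_smul m
  have h1 := rep_rel (l := l) (a := a) (Or.inl ⟨X, u, Y, w, t, rfl⟩)
  simp only [LinearMap.sub_apply, Module.End.mul_apply, LinearMap.add_apply, LinearMap.smul_apply,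
    Module.End.one_apply, act_apply]
  rw [mul_smul, sub_smul, sub_smul, sub_smul, mul_smul, mul_smul, algebraMap_smul, sub_sub,
    sub_eq_zero] at h1
  exact h1

theorem act_hw (l a : ℕ) : IsHW a (act l a) (vac l a) := by
  refine ⟨fun X u hu => ?_, ?_, ?_⟩
  · exact rep_rel (Or.inr (Or.inl ⟨X, u, (reg_one_iff u).1 hu, rfl⟩))
  · exact rep_rel (Or.inr (Or.inr (Or.inl rfl)))
  · have h1 := rep_rel (l := l) (a := a) (Or.inr (Or.inr (Or.inr (Or.inl rfl))))
    rw [sub_smul, sub_eq_zero] at h1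
    rw [act_apply, h1, Nat.cast_smul_eq_nsmul, Nat.cast_smul_eq_nsmul]

theorem act_f (l a : ℕ) : (act l a f 1 ^ (a + 1)) (vac l a) = 0 := by
  rw [act_pow]
  exact rep_rel (Or.inr (Or.inr (Or.inr (Or.inr (Or.inl rfl)))))

theorem act_E (l a : ℕ) : (act l a e xin ^ (l - a + 1)) (vac l a) = 0 := by
  rw [act_pow]
  exact rep_rel (Or.inr (Or.inr (Or.inr (Or.inr (Or.inr rfl)))))

theorem lift (hρ : IsRep l ρ) (hv : IsHW a ρ v) (hf : (ρ f 1 ^ (a + 1)) v = 0)
    (hE : (ρ e xin ^ (l - a + 1)) v = 0) : ∃ Λ : H l a →ₗ[ℂ] N, Λ (vac l a) = v ∧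
      ∀ X u m, Λ (act l a X u m) = ρ X u (Λ m) := by
  let φ : T →ₐ[ℂ] Module.End ℂ N := TensorAlgebra.lift ℂ (TensorProduct.lift ρ)
  have hφ : ∀ X u, φ (cur X u) = ρ X u := fun X u => by
    simp only [φ, cur, TensorAlgebra.lift_ι_apply, TensorProduct.lift.tmul]
  let g : T →ₗ[ℂ] N := LinearMap.applyₗ v ∘ₗ φ.toLinearMap
  have hg : ∀ t, g t = φ t v := fun _ => rfl
  have hker : ∀ t ∈ Submodule.span T (Rel l a), φ t v = 0 := by
    intro t ht
    induction ht using Submodule.span_induction with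
    | mem r hr =>
      rcases hr with ⟨X, u, Y, w, t, rfl⟩ | ⟨X, u, hu, rfl⟩ | rfl | rfl | rfl | rfl
      · have h1 : φ (cur X u * cur Y w - cur Y w * cur X u - cur ⁅X, Y⁆ (u * w) -
            algebraMap ℂ T (l * coc X u Y w)) = 0 := by
          rw [map_sub, map_sub, map_sub, map_mul, map_mul, hφ, hφ, hφ, AlgHom.commutes,
            hρ X u Y w, Algebra.algebraMap_eq_smul_one]
          abel
        rw [map_mul, h1, zero_mul, LinearMap.zero_apply]
      · rw [hφ]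
        exact hv.pos X u ((reg_one_iff u).2 hu)
      · rw [hφ]
        exact hv.e
      · rw [map_sub, hφ, map_natCast, LinearMap.sub_apply, hv.h, Module.End.natCast_apply,
          Nat.cast_smul_eq_nsmul, sub_self]
      · rw [map_pow, hφ]
        exact hf
      · rw [map_pow, hφ]
        exact hE
    | zero => rw [map_zero, LinearMap.zero_apply]
    | add x y _ _ hx hy => rw [map_add, LinearMap.add_apply, hx, hy, add_zero]
    | smul r x _ hx => rw [smul_eq_mul, map_mul, Module.End.mul_apply, hx, map_zero]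
  let Λ : H l a →ₗ[ℂ] N :=
    ((Submodule.span T (Rel l a)).restrictScalars ℂ).liftQ g (fun t ht => hker t ht) ∘ₗ
      (Submodule.Quotient.restrictScalarsEquiv ℂ (Submodule.span T (Rel l a))).symm.toLinearMap
  have hΛ : ∀ t : T, Λ (t • vac l a) = φ t v := fun t => by
    rw [rep_smul_vac]
    rfl
  refine ⟨Λ, ?_, fun X u m => ?_⟩
  · have h1 := hΛ 1
    rw [one_smul, map_one] at h1
    exact h1
  · obtain ⟨t, rfl⟩ := rep_exists_smul m
    rw [act_apply, ← mul_smul, hΛ, hΛ, map_mul, hφ, Module.End.mul_apply]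

theorem IsRep.gen (hρ : IsRep l ρ) (Z : Set N) (hZ : ∀ z ∈ Z, ∀ X u, Reg 1 u → ρ X u z = 0)
    (K : Submodule ℂ N) (hK : ∀ z ∈ Z, z ∈ K) (hs : ∀ X q, ∀ m ∈ K, ρ X (pz q) m ∈ K) :
    ∃ K' : Submodule ℂ N, K' ≤ K ∧ (∀ z ∈ Z, z ∈ K') ∧ ∀ X u, ∀ m ∈ K', ρ X u m ∈ K' := by
  let A : Set (Submodule ℂ N) := {P | (∀ z ∈ Z, z ∈ P) ∧ ∀ X q, ∀ m ∈ P, ρ X (pz q) m ∈ P}
  have h1 : ∀ z ∈ Z, z ∈ sInf A := fun z hz => Submodule.mem_sInf.2 fun P hP => hP.1 z hz
  have h2 : ∀ X q, ∀ m ∈ sInf A, ρ X (pz q) m ∈ sInf A := fun X q m hm =>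
    Submodule.mem_sInf.2 fun P hP => hP.2 X q m (Submodule.mem_sInf.1 hm P hP)
  let S : Submodule ℂ N := sInf A ⊓ ⨅ Y, ⨅ w, (sInf A).comap (ρ Y w)
  have hS : ∀ m, m ∈ S ↔ m ∈ sInf A ∧ ∀ Y w, ρ Y w m ∈ sInf A := fun m => by
    simp only [S, Submodule.mem_inf, Submodule.mem_iInf, Submodule.mem_comap]
  have hSA : S ∈ A := by
    refine ⟨fun z hz => (hS z).2 ⟨h1 z hz, fun Y w => ?_⟩, fun X q m hm => ?_⟩
    · obtain ⟨q, hq⟩ := exists_pz w
      have h3 := hZ z hz Y _ hq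
      rw [map_sub, LinearMap.sub_apply, sub_eq_zero] at h3
      rw [h3]
      exact h2 Y q z (h1 z hz)
    · obtain ⟨h3, h4⟩ := (hS m).1 hm
      refine (hS _).2 ⟨h2 X q m h3, fun Y w => ?_⟩
      rw [rep_comm hρ]
      exact add_mem (add_mem (h2 X q _ (h4 Y w)) (h4 _ _)) (Submodule.smul_mem _ _ h3)
  exact ⟨sInf A, sInf_le ⟨hK, hs⟩, h1, fun X u m hm => ((hS m).1 (sInf_le hSA hm)).2 X u⟩

theorem H_ind (K : Submodule ℂ (H l a)) (h0 : vac l a ∈ K)
    (hs : ∀ X q, ∀ m ∈ K, act l a X (pz q) m ∈ K) (m : H l a) : m ∈ K := by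
  obtain ⟨K', h1, h2, h3⟩ := (act_rep l a).gen {vac l a}
    (fun z hz X u hu => by rw [Set.mem_singleton_iff.1 hz]; exact (act_hw l a).pos X u hu) K
    (fun z hz => by rw [Set.mem_singleton_iff.1 hz]; exact h0) hs
  have key : ∀ t : T, ∀ m ∈ K', t • m ∈ K' := by
    intro t
    induction t using TensorAlgebra.induction with
    | algebraMap r =>
      intro m hm
      rw [algebraMap_smul]
      exact K'.smul_mem r hm
    | ι x =>
      induction x using TensorProduct.induction_on with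
      | zero =>
        intro m _
        rw [map_zero, zero_smul]
        exact K'.zero_mem
      | tmul X u => exact h3 X u
      | add x y hx hy =>
        intro m hm
        rw [map_add, add_smul]
        exact K'.add_mem (hx m hm) (hy m hm)
    | mul x y hx hy =>
      intro m hm
      rw [mul_smul]
      exact hx _ (hy m hm)
    | add x y hx hy =>
      intro m hm
      rw [add_smul]
      exact K'.add_mem (hx m hm) (hy m hm)
  obtain ⟨t, rfl⟩ := rep_exists_smul m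
  exact h1 (key t _ (h2 _ rfl))

theorem rep_vac_zero (X : G) : act l 0 X 1 (vac l 0) = 0 := by
  obtain ⟨α, β, γ, rfl⟩ := exists_coord X
  have h1 := (act_hw l 0).e
  have h2 : act l 0 h 1 (vac l 0) = 0 := by
    have h4 := (act_hw l 0).h
    rw [Nat.cast_zero] at h4
    exact h4.trans (zero_smul ℂ (vac l 0))
  have h3 := act_f l 0
  rw [zero_add, pow_one] at h3
  simp only [map_add, map_smul, LinearMap.add_apply, LinearMap.smul_apply, h1, h2, h3, smul_zero,
    add_zero]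

theorem H_ind0 (x : ℂ) (K : Submodule ℂ (H l 0)) (h0 : vac l 0 ∈ K)
    (hs : ∀ X (q : Polynomial ℂ), q.eval x = 0 → ∀ m ∈ K, act l 0 X (pz q) m ∈ K) (m : H l 0) :
    m ∈ K := by
  let A : Set (Submodule ℂ (H l 0)) :=
    {P | vac l 0 ∈ P ∧ ∀ X (q : Polynomial ℂ), q.eval x = 0 → ∀ m ∈ P, act l 0 X (pz q) m ∈ P}
  have h1 : vac l 0 ∈ sInf A := Submodule.mem_sInf.2 fun P hP => hP.1
  have h2 : ∀ X (q : Polynomial ℂ), q.eval x = 0 → ∀ m ∈ sInf A, act l 0 X (pz q) m ∈ sInf A :=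
    fun X q hq m hm => Submodule.mem_sInf.2 fun P hP => hP.2 X q hq m (Submodule.mem_sInf.1 hm P hP)
  let S : Submodule ℂ (H l 0) := sInf A ⊓ ⨅ Y, (sInf A).comap (act l 0 Y 1)
  have hS : ∀ m, m ∈ S ↔ m ∈ sInf A ∧ ∀ Y, act l 0 Y 1 m ∈ sInf A := fun m => by
    simp only [S, Submodule.mem_inf, Submodule.mem_iInf, Submodule.mem_comap]
  have hSA : S ∈ A := by
    refine ⟨(hS _).2 ⟨h1, fun Y => ?_⟩, fun X q hq m hm => ?_⟩
    · rw [rep_vac_zero]
      exact Submodule.zero_mem _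
    · obtain ⟨h3, h4⟩ := (hS m).1 hm
      refine (hS _).2 ⟨h2 X q hq m h3, fun Y => ?_⟩
      rw [rep_comm (act_rep l 0), one_mul]
      exact add_mem (add_mem (h2 X q hq _ (h4 Y)) (h2 _ q hq m h3)) (Submodule.smul_mem _ _ h3)
  have hle : sInf A ≤ K := sInf_le ⟨h0, hs⟩
  refine hle (H_ind (sInf A) h1 (fun X q m hm => ?_) m)
  have h3 : pz q = pz (q - Polynomial.C (q.eval x)) + q.eval x • (1 : L) := by
    rw [map_sub, pz_C, C_eq_smul, sub_add_cancel]
  rw [h3, map_add, map_smul, LinearMap.add_apply, LinearMap.smul_apply]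
  exact add_mem (h2 X _ (by simp) m hm)
    (Submodule.smul_mem _ _ (((hS m).1 (sInf_le hSA hm)).2 X))

theorem IsHW.h_f_pow (hρ : IsRep l ρ) (hv : IsHW a ρ v) (k : ℕ) :
    ρ B.h 1 ((ρ f 1 ^ k) v) = ((a : ℂ) - 2 * k) • (ρ f 1 ^ k) v := by
  induction k with
  | zero => simpa using hv.h
  | succ k ih =>
    rw [rep_pow_succ, rep_comm hρ, ih, rep_coc_one_left, lie_h_f, mul_one, map_smul, map_smul,
      LinearMap.smul_apply, LinearMap.smul_apply, mul_zero, zero_smul, add_zero, ← add_smul]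
    congr 1
    push_cast
    ring

theorem IsHW.e_f_pow (hρ : IsRep l ρ) (hv : IsHW a ρ v) (k : ℕ) :
    ρ B.e 1 ((ρ f 1 ^ (k + 1)) v) = (((k : ℂ) + 1) * ((a : ℂ) - k)) • (ρ f 1 ^ k) v := by
  induction k with
  | zero =>
    rw [rep_pow_succ, rep_comm hρ, rep_coc_one_left, lie_e_f, mul_one, pow_zero,
      Module.End.one_apply, hv.e, hv.h]
    simp
  | succ k ih =>
    rw [rep_pow_succ, rep_comm hρ, ih, rep_coc_one_left, lie_e_f, mul_one, hv.h_f_pow hρ, map_smul,
      ← rep_pow_succ, mul_zero, zero_smul, add_zero, ← add_smul]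
    congr 1
    push_cast
    ring

theorem IsHW.pos_f_pow (hρ : IsRep l ρ) (hv : IsHW a ρ v) (k : ℕ) (X : G) (u : L)
    (hu : Reg 1 u) : ρ X u ((ρ f 1 ^ k) v) = 0 := by
  induction k generalizing X with
  | zero => exact hv.pos X u hu
  | succ k ih =>
    rw [rep_pow_succ, rep_comm hρ, ih, rep_coc_one_right, mul_one, ih, map_zero, mul_zero,
      zero_smul, add_zero, add_zero]

theorem rep_h_E_pow (hρ : IsRep l ρ) (hv : IsHW a ρ v) (n : ℕ) :
    ρ h 1 ((ρ e xin ^ n) v) = ((a : ℂ) + 2 * n) • (ρ e xin ^ n) v := by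
  induction n with
  | zero => simpa using hv.h
  | succ n ih =>
    rw [rep_pow_succ, rep_comm hρ, ih, rep_coc_one_left, lie_h_e, one_mul, map_smul, map_smul,
      LinearMap.smul_apply, LinearMap.smul_apply, mul_zero, zero_smul, add_zero, ← add_smul]
    congr 1
    push_cast
    ring

theorem rep_Y_E (hρ : IsRep l ρ) (m : N) :
    ρ f xi (ρ e xin m) = ρ e xin (ρ f xi m) - ρ h 1 m + (l : ℂ) • m := by
  rw [rep_comm hρ, lie_f_e, xi_mul_xin, coc_eq, tr_f_e, rs_xi_xin, mul_one, mul_one, map_neg,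
    LinearMap.neg_apply, LinearMap.neg_apply, sub_eq_add_neg]

theorem IsHW.Y_E_pow (hρ : IsRep l ρ) (hv : IsHW a ρ v) (n : ℕ) :
    ρ f xi ((ρ B.e xin ^ (n + 1)) v) =
      (((n : ℂ) + 1) * ((l : ℂ) - a - n)) • (ρ B.e xin ^ n) v := by
  induction n with
  | zero =>
    rw [rep_pow_succ, rep_Y_E hρ, pow_zero, Module.End.one_apply, hv.pos f xi reg_xi, hv.h,
      map_zero, zero_sub, ← neg_smul, ← add_smul]
    congr 1
    push_cast
    ring
  | succ n ih =>
    rw [rep_pow_succ, rep_Y_E hρ, ih, rep_h_E_pow hρ hv, map_smul, ← rep_pow_succ, ← sub_smul,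
      ← add_smul]
    congr 1
    push_cast
    ring

theorem rep_e_E (hρ : IsRep l ρ) (hv : IsHW a ρ v) (n : ℕ) {u : L} (hu : Reg 0 u) :
    ρ e u ((ρ e xin ^ n) v) = 0 := by
  induction n with
  | zero =>
    have h1 := hv.pos e _ hu.sub_C
    rw [map_sub, C_eq_smul, map_smul, LinearMap.sub_apply, LinearMap.smul_apply, hv.e, smul_zero,
      sub_zero] at h1
    exact h1
  | succ n ih =>
    rw [rep_pow_succ, rep_comm hρ, ih, lie_self, coc_eq, tr_e_e]
    simp

theorem rep_h_E (hρ : IsRep l ρ) (hv : IsHW a ρ v) (n : ℕ) {u : L} (hu : Reg 1 u) :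
    ρ h u ((ρ e xin ^ n) v) = 0 := by
  induction n with
  | zero => exact hv.pos h u hu
  | succ n ih =>
    have h1 : Reg 0 (u * xin) := (hu.mul reg_xin).mono (by norm_num)
    rw [rep_pow_succ, rep_comm hρ, ih, lie_h_e, coc_eq, tr_h_e, map_smul, LinearMap.smul_apply,
      LinearMap.smul_apply, rep_e_E hρ hv n h1]
    simp

theorem rep_f_E (hρ : IsRep l ρ) (hv : IsHW a ρ v) (n : ℕ) {u : L} (hu : Reg 2 u) :
    ρ f u ((ρ e xin ^ n) v) = 0 := by
  induction n with
  | zero => exact hv.pos f u (hu.mono (by norm_num))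
  | succ n ih =>
    have h1 : Reg 1 (u * xin) := (hu.mul reg_xin).mono (by norm_num)
    rw [rep_pow_succ, rep_comm hρ, ih, lie_f_e, coc_eq, rs_reg hu reg_xin (by norm_num), map_neg,
      LinearMap.neg_apply, LinearMap.neg_apply, rep_h_E hρ hv n h1]
    simp

theorem IsHW.sing (hρ : IsRep l ρ) (hv : IsHW a ρ v) (hal : a ≤ l) (X : G) (u : L)
    (hu : Reg 1 u) : ρ X u ((ρ B.e xin ^ (l - a + 1)) v) = 0 := by
  obtain ⟨α, β, γ, rfl⟩ := exists_coord X
  have h1 := rep_e_E hρ hv (l - a + 1) (hu.mono (by norm_num))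
  have h2 := rep_h_E hρ hv (l - a + 1) hu
  have h3 := rep_f_E hρ hv (l - a + 1) hu.sub_xi
  have h4 := hv.Y_E_pow hρ (l - a)
  rw [Nat.cast_sub hal, sub_self, mul_zero, zero_smul] at h4
  rw [map_sub, map_smul, LinearMap.sub_apply, LinearMap.smul_apply, h4, smul_zero, sub_zero] at h3
  simp only [map_add, map_smul, LinearMap.add_apply, LinearMap.smul_apply, h1, h2, h3, smul_zero,
    add_zero]

end Pool.Agent.P.MP_e1a373_ag.B
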