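import Pool.Agent.P.MP_e1a373_ag.B.Laur

/-!
Expansions of rational functions and the residue theorem.
-/

open scoped TensorProduct Classical

noncomputable section

namespace Pool.Agent.P.MP_e1a373_ag.B

/-- Evaluation of a polynomial at the local expansion of the coordinate. -/
def Resid_ev (x : Option ℂ) : Polynomial ℂ →+* L :=
  Polynomial.eval₂RingHom HahnSeries.C (loc x)

theorem Resid_reg_eval {u : L} (hu : Reg 0 u) (p : Polynomial ℂ) :
    Reg 0 (Polynomial.eval₂ HahnSeries.C u p) ∧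
      (Polynomial.eval₂ HahnSeries.C u p).coeff 0 = p.eval (u.coeff 0) := by
  induction p using Polynomial.induction_on with
  | C a =>
    rw [Polynomial.eval₂_C]
    exact ⟨reg_C a, by simp⟩
  | add p q hp hq =>
    rw [Polynomial.eval₂_add]
    exact ⟨hp.1.add hq.1, by rw [HahnSeries.coeff_add, hp.2, hq.2, Polynomial.eval_add]⟩
  | monomial n a h =>
    rw [pow_succ, ← mul_assoc, Polynomial.eval₂_mul, Polynomial.eval₂_X, Polynomial.eval_mul,
      Polynomial.eval_X]
    have h1 := h.1.mul hu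
    have h2 := h.1.coeff_mul hu
    rw [add_zero] at h1 h2
    exact ⟨h1, by rw [h2, h.2]⟩

theorem Resid_loc_some (x : ℂ) : loc (some x) = HahnSeries.C x + xi := rfl

theorem Resid_loc_none : loc none = xin := rfl

theorem Resid_loc_reg (x : ℂ) : Reg 0 (loc (some x)) := by
  rw [Resid_loc_some]
  exact (reg_C x).add (reg_xi.mono (by norm_num))

theorem Resid_loc_coeff (x : ℂ) : (loc (some x)).coeff 0 = x := by
  rw [Resid_loc_some, HahnSeries.coeff_add, reg_xi 0 (by norm_num)]
  simp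

theorem Resid_xi_ne : xi ≠ 0 := left_ne_zero_of_mul_eq_one xi_mul_xin

theorem Resid_pz_coeff (p : Polynomial ℂ) (n : ℕ) : (pz p).coeff (-(n : ℤ)) = p.coeff n := by
  induction p using Polynomial.induction_on' with
  | add p q hp hq => rw [map_add, HahnSeries.coeff_add, hp, hq, Polynomial.coeff_add]
  | monomial k a =>
    rw [← Polynomial.C_mul_X_pow_eq_monomial, map_mul, map_pow, pz_C, pz_X, xin,
      HahnSeries.single_pow, HahnSeries.C_mul_eq_smul, Polynomial.coeff_C_mul,
      Polynomial.coeff_X_pow, HahnSeries.coeff_smul, HahnSeries.coeff_single]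
    by_cases hk : n = k
    · subst hk
      simp
    · have : ¬ (-(n : ℤ) = k • (-1 : ℤ)) := by
        simp only [smul_neg, nsmul_eq_mul, mul_one, neg_inj, Nat.cast_inj]
        exact hk
      simp only [this, hk, if_false, smul_zero, mul_zero]

theorem Resid_ev_ne (x : Option ℂ) {p : Polynomial ℂ} (hp : p ≠ 0) : Resid_ev x p ≠ 0 := by
  cases x with
  | none =>
    intro h0
    apply hp
    ext n
    have h1 := Resid_pz_coeff p n
    have h2 : pz p = 0 := h0
    rw [h2] at h1
    simpa using h1.symm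
  | some x =>
    obtain ⟨q, hq, hnd⟩ := Polynomial.exists_eq_pow_rootMultiplicity_mul_and_not_dvd p hp x
    rw [hq, map_mul, map_pow]
    refine mul_ne_zero (pow_ne_zero _ ?_) ?_
    · have : Resid_ev (some x) (Polynomial.X - Polynomial.C x) = xi := by
        simp [Resid_ev, Resid_loc_some]
      rw [this]
      exact Resid_xi_ne
    · intro h0
      apply hnd
      rw [Polynomial.dvd_iff_isRoot]
      have h1 := (Resid_reg_eval (Resid_loc_reg x) q).2
      have h2 : Polynomial.eval₂ HahnSeries.C (loc (some x)) q = 0 := h0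
      rw [h2, Resid_loc_coeff] at h1
      simpa using h1.symm

/-- The expansion as a ring homomorphism. -/
def Resid_E (x : Option ℂ) : RatFunc ℂ →+* L :=
  RatFunc.liftRingHom (Resid_ev x) (by
    intro p hp
    rw [Submonoid.mem_comap, mem_nonZeroDivisors_iff_ne_zero]
    exact Resid_ev_ne x (nonZeroDivisors.ne_zero hp))

theorem Resid_E_eq (x : Option ℂ) (φ : RatFunc ℂ) : expand x φ = Resid_E x φ := by
  rw [Resid_E, RatFunc.liftRingHom_apply]
  rfl

theorem Resid_E_poly (x : Option ℂ) (p : Polynomial ℂ) :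
    Resid_E x (algebraMap (Polynomial ℂ) (RatFunc ℂ) p) =
      Polynomial.eval₂ HahnSeries.C (loc x) p := by
  rw [Resid_E, RatFunc.liftRingHom_algebraMap]
  rfl

theorem exists_exHom (x : Option ℂ) : ∃ E : RatFunc ℂ →+* L, ∀ φ, E φ = expand x φ :=
  ⟨Resid_E x, fun φ => (Resid_E_eq x φ).symm⟩

theorem expand_C (x : Option ℂ) (c : ℂ) : expand x (RatFunc.C c) = HahnSeries.C c :=
  RatFunc.eval_C _ _

theorem expand_X (x : Option ℂ) : expand x RatFunc.X = loc x := RatFunc.eval_X _ _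

theorem Resid_E_C (x : Option ℂ) (c : ℂ) : Resid_E x (RatFunc.C c) = HahnSeries.C c := by
  rw [← Resid_E_eq, expand_C]

theorem Resid_E_X (x : Option ℂ) : Resid_E x RatFunc.X = loc x := by
  rw [← Resid_E_eq, expand_X]

theorem expand_smul (x : Option ℂ) (c : ℂ) (φ : RatFunc ℂ) :
    expand x (c • φ) = c • expand x φ := by
  rw [RatFunc.smul_eq_C_mul, Resid_E_eq, Resid_E_eq, map_mul, Resid_E_C,
    HahnSeries.C_mul_eq_smul]

theorem expand_poly_reg (x : ℂ) (p : Polynomial ℂ) :
    Reg 0 (expand (some x) (algebraMap (Polynomial ℂ) (RatFunc ℂ) p)) := by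
  rw [Resid_E_eq, Resid_E_poly]
  exact (Resid_reg_eval (Resid_loc_reg x) p).1

theorem expand_poly_coeff (x : ℂ) (p : Polynomial ℂ) :
    (expand (some x) (algebraMap (Polynomial ℂ) (RatFunc ℂ) p)).coeff 0 = p.eval x := by
  rw [Resid_E_eq, Resid_E_poly, (Resid_reg_eval (Resid_loc_reg x) p).2, Resid_loc_coeff]

theorem expand_none_poly (p : Polynomial ℂ) :
    expand none (algebraMap (Polynomial ℂ) (RatFunc ℂ) p) = pz p := by
  rw [Resid_E_eq, Resid_E_poly]
  rfl

theorem exists_poly (φ : RatFunc ℂ) (hφ : ∀ x, Reg 0 (expand (some x) φ)) :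
    ∃ p : Polynomial ℂ, φ = algebraMap (Polynomial ℂ) (RatFunc ℂ) p := by
  have hd : φ.denom.degree = 0 := by
    by_contra hne
    obtain ⟨x, hx⟩ := IsAlgClosed.exists_root φ.denom hne
    have h0 : algebraMap (Polynomial ℂ) (RatFunc ℂ) φ.denom ≠ 0 :=
      RatFunc.algebraMap_ne_zero (RatFunc.denom_ne_zero φ)
    have h1 : algebraMap (Polynomial ℂ) (RatFunc ℂ) φ.denom * φ =
        algebraMap (Polynomial ℂ) (RatFunc ℂ) φ.num := by
      conv_lhs => rw [← RatFunc.num_div_denom φ]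
      rw [RatFunc.num_div_denom φ]
      exact (mul_comm _ _).trans ((eq_div_iff h0).1 (RatFunc.num_div_denom φ).symm)
    have h2 := (expand_poly_reg x φ.denom).coeff_mul (hφ x)
    rw [add_zero, expand_poly_coeff, Resid_E_eq, Resid_E_eq, ← map_mul, h1, ← Resid_E_eq,
      expand_poly_coeff, hx.eq_zero, zero_mul] at h2
    obtain ⟨a, b, hab⟩ := RatFunc.isCoprime_num_denom φ
    have h3 := congrArg (Polynomial.eval x) hab
    rw [Polynomial.eval_add, Polynomial.eval_mul, Polynomial.eval_mul, h2, hx.eq_zero] at h3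
    simp at h3
  have h1 : φ.denom = 1 := (RatFunc.monic_denom φ).degree_le_zero_iff_eq_one.1 hd.le
  refine ⟨φ.num, ?_⟩
  conv_lhs => rw [← RatFunc.num_div_denom φ, h1, map_one, div_one]

theorem Resid_inv {a : ℤ} {u : L} (hu : Reg a u) (h0 : u.coeff a ≠ 0) :
    Reg (-a) u⁻¹ ∧ u.coeff a * u⁻¹.coeff (-a) = 1 := by
  have hne : u ≠ 0 := by
    rintro rfl
    simp at h0
  have h1 : Reg (-a) u⁻¹ := by
    have hw : Reg u⁻¹.order u⁻¹ := fun n hn => HahnSeries.coeff_eq_zero_of_lt_order hn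
    refine hw.mono ?_
    by_contra hlt
    have h2 := hu.coeff_mul hw
    rw [mul_inv_cancel₀ hne, reg_one _ (by omega)] at h2
    rcases mul_eq_zero.1 h2.symm with h3 | h3
    · exact h0 h3
    · exact inv_ne_zero hne (HahnSeries.coeff_order_eq_zero.1 h3)
  refine ⟨h1, ?_⟩
  rw [← hu.coeff_mul h1, mul_inv_cancel₀ hne, add_neg_cancel]
  simp

/-- The local coordinate at a finite point as a rational function. -/
def Resid_s (x : ℂ) : RatFunc ℂ := RatFunc.X - RatFunc.C x

theorem Resid_s_self (x : ℂ) : Resid_E (some x) (Resid_s x) = xi := by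
  rw [Resid_s, map_sub, Resid_E_X, Resid_E_C, Resid_loc_some, add_sub_cancel_left]

theorem Resid_s_ne (x : ℂ) : Resid_s x ≠ 0 := by
  intro h0
  have h1 := Resid_s_self x
  rw [h0, map_zero] at h1
  exact Resid_xi_ne h1.symm

theorem Resid_t_self (x : ℂ) : Resid_E (some x) (Resid_s x)⁻¹ = xin := by
  rw [map_inv₀, Resid_s_self]
  exact inv_eq_of_mul_eq_one_right xi_mul_xin

theorem Resid_s_reg (x y : ℂ) : Reg 0 (Resid_E (some y) (Resid_s x)) := by
  rw [Resid_s, map_sub, Resid_E_X, Resid_E_C]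
  exact (Resid_loc_reg y).sub (reg_C x)

theorem Resid_t_reg {x y : ℂ} (hy : y ≠ x) : Reg 0 (Resid_E (some y) (Resid_s x)⁻¹) := by
  rw [map_inv₀]
  have h1 := (Resid_inv (Resid_s_reg x y) (by
    rw [Resid_s, map_sub, Resid_E_X, Resid_E_C, HahnSeries.coeff_sub, Resid_loc_coeff]
    simpa using sub_ne_zero.2 hy)).1
  rwa [neg_zero] at h1

theorem Resid_t_none (x : ℂ) : Reg 1 (Resid_E none (Resid_s x)⁻¹) ∧
    (Resid_E none (Resid_s x)⁻¹).coeff 1 = 1 := by
  rw [map_inv₀]
  have h0 : Resid_E none (Resid_s x) = xin - HahnSeries.C x := by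
    rw [Resid_s, map_sub, Resid_E_X, Resid_E_C, Resid_loc_none]
  have h1 : Reg (-1) (Resid_E none (Resid_s x)) := by
    rw [h0]
    exact reg_xin.sub ((reg_C x).mono (by norm_num))
  have h2 : (Resid_E none (Resid_s x)).coeff (-1) = 1 := by
    rw [h0, HahnSeries.coeff_sub, reg_C x (-1) (by norm_num), xin]
    simp
  have h3 := Resid_inv h1 (by rw [h2]; exact one_ne_zero)
  rwa [neg_neg, h2, one_mul] at h3

/-- The polar part at a finite point as a rational function. -/
def Resid_pole (x : ℂ) (q : Polynomial ℂ) : RatFunc ℂ :=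
  Polynomial.eval₂ RatFunc.C (Resid_s x)⁻¹ q

theorem Resid_E_pole (y : Option ℂ) (x : ℂ) (q : Polynomial ℂ) :
    Resid_E y (Resid_pole x q) =
      Polynomial.eval₂ HahnSeries.C (Resid_E y (Resid_s x)⁻¹) q := by
  rw [Resid_pole, Polynomial.hom_eval₂]
  congr 1
  ext1 c
  exact Resid_E_C y c

theorem Resid_pole_self (x : ℂ) (q : Polynomial ℂ) : Resid_E (some x) (Resid_pole x q) = pz q := by
  rw [Resid_E_pole, Resid_t_self]
  rfl

theorem Resid_pole_reg {x y : ℂ} (hy : y ≠ x) (q : Polynomial ℂ) :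
    Reg 0 (Resid_E (some y) (Resid_pole x q)) := by
  rw [Resid_E_pole]
  exact (Resid_reg_eval (Resid_t_reg hy) q).1

theorem exists_pole (x : ℂ) (q : Polynomial ℂ) : ∃ φ : RatFunc ℂ, expand (some x) φ = pz q ∧
    (∀ y, y ≠ x → Reg 0 (expand (some y) φ)) ∧ Reg 0 (expand none φ) := by
  refine ⟨Resid_pole x q, ?_, fun y hy => ?_, ?_⟩
  · rw [Resid_E_eq, Resid_pole_self]
  · rw [Resid_E_eq]
    exact Resid_pole_reg hy q
  · rw [Resid_E_eq, Resid_E_pole]
    exact (Resid_reg_eval ((Resid_t_none x).1.mono (by norm_num)) q).1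

theorem Resid_reg_pow {u : L} (hu : Reg 0 u) (n : ℕ) : Reg 0 (u ^ n) := by
  induction n with
  | zero => simpa using reg_one
  | succ n ih =>
    rw [pow_succ]
    simpa using ih.mul hu

theorem Resid_zpow_reg {x y : ℂ} (hy : y ≠ x) (n : ℤ) :
    Reg 0 (Resid_E (some y) (Resid_s x ^ n)) := by
  obtain ⟨k, rfl | rfl⟩ := Int.eq_nat_or_neg n
  · rw [zpow_natCast, map_pow]
    exact Resid_reg_pow (Resid_s_reg x y) k
  · rw [zpow_neg, zpow_natCast, ← inv_pow, map_pow]
    exact Resid_reg_pow (Resid_t_reg hy) k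

theorem dense (x : ℂ) (u : L) (N : ℤ) : ∃ φ : RatFunc ℂ,
    (∀ y, y ≠ x → Reg 0 (expand (some y) φ)) ∧ Reg N (expand (some x) φ - u) := by
  obtain ⟨M, hM⟩ := exists_reg u
  have key : ∀ k : ℕ, ∃ φ : RatFunc ℂ, (∀ y, y ≠ x → Reg 0 (expand (some y) φ)) ∧
      Reg (M + k) (expand (some x) φ - u) := by
    intro k
    induction k with
    | zero =>
      refine ⟨0, fun y _ => ?_, ?_⟩
      · rw [Resid_E_eq, map_zero]
        exact reg_zero 0
      · rw [Resid_E_eq, map_zero, zero_sub, Nat.cast_zero, add_zero]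
        exact hM.neg
    | succ k ih =>
      obtain ⟨φ, h1, h2⟩ := ih
      set c := (expand (some x) φ - u).coeff (M + k) with hc
      refine ⟨φ - c • Resid_s x ^ (M + k), fun y hy => ?_, ?_⟩
      · rw [Resid_E_eq, map_sub, ← Resid_E_eq, ← Resid_E_eq, expand_smul, Resid_E_eq _ (_ ^ _)]
        exact (h1 y hy).sub ((Resid_zpow_reg hy _).smul c)
      · have h3 : expand (some x) (φ - c • Resid_s x ^ (M + k)) - u =
            (expand (some x) φ - u) - c • HahnSeries.single (M + k) 1 := by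
          rw [Resid_E_eq, map_sub, ← Resid_E_eq, ← Resid_E_eq, expand_smul,
            Resid_E_eq _ (_ ^ _), map_zpow₀, Resid_s_self, xi, ← RatFunc.single_zpow]
          abel
        rw [h3, Nat.cast_succ, ← add_assoc]
        refine (h2.sub ((reg_single _ 1).smul c)).succ ?_
        rw [HahnSeries.coeff_sub, ← hc, HahnSeries.coeff_smul, HahnSeries.coeff_single_same]
        simp
  obtain ⟨φ, h1, h2⟩ := key (N - M).toNat
  exact ⟨φ, h1, h2.mono (by omega)⟩

/-- The sum of the residues. -/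
def Resid_R (S : Finset ℂ) (φ ψ : RatFunc ℂ) : ℂ :=
  ∑ x ∈ S, rs (Resid_E (some x) φ) (Resid_E (some x) ψ) +
    rs (Resid_E none φ) (Resid_E none ψ)

theorem Resid_R_anti (S : Finset ℂ) (φ ψ : RatFunc ℂ) : Resid_R S φ ψ = -Resid_R S ψ φ := by
  rw [Resid_R, Resid_R, neg_add, ← Finset.sum_neg_distrib, ← rs_anti]
  congr 1
  exact Finset.sum_congr rfl fun x _ => rs_anti _ _

theorem Resid_R_add (S : Finset ℂ) (φ φ' ψ : RatFunc ℂ) :
    Resid_R S (φ + φ') ψ = Resid_R S φ ψ + Resid_R S φ' ψ := by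
  simp only [Resid_R, map_add, rs_add_left, Finset.sum_add_distrib]
  ring

theorem Resid_R_C (S : Finset ℂ) (c : ℂ) (ψ : RatFunc ℂ) : Resid_R S (RatFunc.C c) ψ = 0 := by
  simp only [Resid_R, Resid_E_C, rs_C_left, Finset.sum_const_zero, add_zero]

theorem Resid_R_Cmul (S : Finset ℂ) (c : ℂ) (φ ψ : RatFunc ℂ) :
    Resid_R S (RatFunc.C c * φ) ψ = c * Resid_R S φ ψ := by
  simp only [Resid_R, map_mul, Resid_E_C, HahnSeries.C_mul_eq_smul, rs_smul_left, mul_add,
    Finset.mul_sum]

theorem Resid_R_mul (S : Finset ℂ) (φ φ' ψ : RatFunc ℂ) :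
    Resid_R S (φ * φ') ψ = Resid_R S φ (φ' * ψ) + Resid_R S φ' (ψ * φ) := by
  have h1 : ∀ u w z : L, rs (u * w) z = rs u (w * z) + rs w (z * u) := by
    intro u w z
    rw [rs_anti (u * w) z]
    linear_combination -rs_cyc u w z
  simp only [Resid_R, map_mul, h1, Finset.sum_add_distrib]
  ring

theorem Resid_rs_xi (w : L) : rs xi w = w.coeff (-1) := by
  have h1 : LaurentSeries.derivative ℂ xi = 1 := by
    rw [LaurentSeries.derivative_apply, xi, LaurentSeries.hasseDeriv_single]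
    simp
  rw [rs, h1, mul_one]

/-- Partial fractions as an induction principle. -/
theorem Resid_ind (S : Finset ℂ) (P : RatFunc ℂ → Prop) (hadd : ∀ a b, P a → P b → P (a + b))
    (hpoly : ∀ p : Polynomial ℂ, P (algebraMap (Polynomial ℂ) (RatFunc ℂ) p))
    (hpole : ∀ x ∈ S, ∀ q, P (Resid_pole x q)) (φ : RatFunc ℂ)
    (hφ : ∀ x ∉ S, Reg 0 (Resid_E (some x) φ)) : P φ := by
  choose q hq using fun x : ℂ => exists_pz (Resid_E (some x) φ)
  obtain ⟨p, hp⟩ := exists_poly (φ - ∑ x ∈ S, Resid_pole x (q x)) (by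
    intro y
    rw [Resid_E_eq, map_sub, map_sum]
    have hs : ∀ T : Finset ℂ, y ∉ T →
        Reg 0 (∑ x ∈ T, Resid_E (some y) (Resid_pole x (q x))) := by
      intro T hT
      refine Finset.sum_induction _ (Reg 0) (fun a b ha hb => ha.add hb) (reg_zero 0) ?_
      intro x hx
      exact Resid_pole_reg (fun hyx : y = x => hT (hyx ▸ hx)) _
    by_cases hy : y ∈ S
    · rw [← Finset.add_sum_erase S _ hy, Resid_pole_self, ← sub_sub]
      exact ((hq y).mono (by norm_num)).sub (hs _ (Finset.notMem_erase y S))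
    · exact (hφ y hy).sub (hs S hy))
  have h1 : φ = algebraMap (Polynomial ℂ) (RatFunc ℂ) p + ∑ x ∈ S, Resid_pole x (q x) := by
    rw [← hp, sub_add_cancel]
  rw [h1]
  refine hadd _ _ (hpoly p) ?_
  refine Finset.sum_induction _ P hadd ?_ fun x hx => hpole x hx _
  simpa using hpoly 0

theorem Resid_R_pow (S : Finset ℂ) {x : ℂ} (hx : x ∈ S) (n : ℕ) :
    Resid_R S ((Resid_s x)⁻¹ ^ n) RatFunc.X = 0 := by
  rw [Resid_R_anti, neg_eq_zero, Resid_R, ← Finset.add_sum_erase S _ hx, Finset.sum_eq_zero,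
    add_zero, Resid_E_X, Resid_E_X, map_pow, map_pow, Resid_t_self, Resid_loc_some,
    Resid_loc_none, rs_add_left, rs_C_left, zero_add]
  · obtain ⟨h1, h2⟩ := Resid_t_none x
    rcases n with _ | _ | n
    · rw [pow_zero, pow_zero, rs_one_right, rs_one_right, add_zero]
    · have h3 := h1.sub_xi
      rw [h2, one_smul] at h3
      rw [zero_add, pow_one, pow_one, rs_xi_xin,
        ← sub_add_cancel (Resid_E none (Resid_s x)⁻¹) xi, rs_add_right,
        rs_reg reg_xin h3 (by norm_num), rs_anti xin xi, rs_xi_xin]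
      ring
    · have h3 : Reg 2 (Resid_E none (Resid_s x)⁻¹ ^ (n + 1 + 1)) := by
        rw [pow_succ, pow_succ]
        have h4 := ((Resid_reg_pow (h1.mono (by norm_num)) n).mul h1).mul h1
        simpa using h4
      rw [rs_reg reg_xin h3 (by norm_num), add_zero, Resid_rs_xi, xin, HahnSeries.single_pow,
        HahnSeries.coeff_single_of_ne]
      simp only [smul_neg, nsmul_eq_mul, mul_one, ne_eq, neg_inj]
      omega
  · intro y hy
    rw [Resid_E_X, map_pow]
    exact rs_reg_zero (Resid_loc_reg y)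
      (Resid_reg_pow (Resid_t_reg (Finset.ne_of_mem_erase hy)) n)

theorem Resid_R_X (S : Finset ℂ) (ψ : RatFunc ℂ) (hψ : ∀ x ∉ S, Reg 0 (Resid_E (some x) ψ)) :
    Resid_R S RatFunc.X ψ = 0 := by
  rw [Resid_R_anti, neg_eq_zero]
  refine Resid_ind S (fun ψ => Resid_R S ψ RatFunc.X = 0) ?_ ?_ ?_ ψ hψ
  · intro a b ha hb
    rw [Resid_R_add, ha, hb, add_zero]
  · intro p
    rw [Resid_R, Finset.sum_eq_zero, zero_add, ← Resid_E_eq, expand_none_poly, Resid_E_X,
      Resid_loc_none, ← pz_X, rs_pz]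
    intro y _
    rw [Resid_E_X, ← Resid_E_eq]
    exact rs_reg_zero (expand_poly_reg y p) (Resid_loc_reg y)
  · intro x hx q
    induction q using Polynomial.induction_on' with
    | add p q hp hq =>
      rw [Resid_pole, Polynomial.eval₂_add, Resid_R_add]
      exact (congrArg₂ (· + ·) hp hq).trans (add_zero 0)
    | monomial n a =>
      rw [Resid_pole, Polynomial.eval₂_monomial, Resid_R_Cmul, Resid_R_pow S hx, mul_zero]

theorem Resid_R_eval (S : Finset ℂ) (t : RatFunc ℂ) (ht : ∀ x ∉ S, Reg 0 (Resid_E (some x) t))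
    (h0 : ∀ ψ : RatFunc ℂ, (∀ x ∉ S, Reg 0 (Resid_E (some x) ψ)) → Resid_R S t ψ = 0)
    (q : Polynomial ℂ) : ∀ ψ : RatFunc ℂ, (∀ x ∉ S, Reg 0 (Resid_E (some x) ψ)) →
      Resid_R S (Polynomial.eval₂ RatFunc.C t q) ψ = 0 := by
  have hp : ∀ n : ℕ, ∀ ψ : RatFunc ℂ, (∀ x ∉ S, Reg 0 (Resid_E (some x) ψ)) →
      Resid_R S (t ^ n) ψ = 0 := by
    intro n
    induction n with
    | zero =>
      intro ψ _
      simpa using Resid_R_C S 1 ψ
    | succ n ih =>
      intro ψ hψ
      rw [pow_succ, Resid_R_mul, ih, h0, add_zero]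
      · intro x hx
        rw [map_mul, map_pow]
        simpa using (hψ x hx).mul (Resid_reg_pow (ht x hx) n)
      · intro x hx
        rw [map_mul]
        simpa using (ht x hx).mul (hψ x hx)
  intro ψ hψ
  induction q using Polynomial.induction_on' with
  | add p q hp hq => rw [Polynomial.eval₂_add, Resid_R_add, hp, hq, add_zero]
  | monomial n a => rw [Polynomial.eval₂_monomial, Resid_R_Cmul, hp n ψ hψ, mul_zero]

theorem residue (S : Finset ℂ) (φ ψ : RatFunc ℂ) (hφ : ∀ x ∉ S, Reg 0 (expand (some x) φ))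
    (hψ : ∀ x ∉ S, Reg 0 (expand (some x) ψ)) :
    ∑ x ∈ S, rs (expand (some x) φ) (expand (some x) ψ) +
      rs (expand none φ) (expand none ψ) = 0 := by
  simp only [Resid_E_eq] at hφ hψ ⊢
  refine Resid_ind S (fun φ => Resid_R S φ ψ = 0) ?_ ?_ ?_ φ hφ
  · intro a b ha hb
    rw [Resid_R_add, ha, hb, add_zero]
  · intro p
    have h1 : algebraMap (Polynomial ℂ) (RatFunc ℂ) p =
        Polynomial.eval₂ RatFunc.C RatFunc.X p := by
      induction p using Polynomial.induction_on' with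
      | add p q hp hq => rw [map_add, Polynomial.eval₂_add, hp, hq]
      | monomial n a =>
        rw [Polynomial.eval₂_monomial, ← Polynomial.C_mul_X_pow_eq_monomial, map_mul, map_pow,
          RatFunc.algebraMap_C, RatFunc.algebraMap_X]
    rw [h1]
    refine Resid_R_eval S RatFunc.X (fun x _ => ?_) (Resid_R_X S) p ψ hψ
    rw [Resid_E_X]
    exact Resid_loc_reg x
  · intro x hx q
    have ht : ∀ y ∉ S, Reg 0 (Resid_E (some y) (Resid_s x)⁻¹) := fun y hy =>
      Resid_t_reg fun hyx => hy (hyx ▸ hx)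
    refine Resid_R_eval S _ ht (fun χ hχ => ?_) q ψ hψ
    have h1 := Resid_R_mul S (Resid_s x) (Resid_s x)⁻¹ (χ * (Resid_s x)⁻¹)
    have h2 : Resid_R S (Resid_s x) ((Resid_s x)⁻¹ * (χ * (Resid_s x)⁻¹)) = 0 := by
      rw [Resid_s, sub_eq_add_neg, ← map_neg, Resid_R_add, Resid_R_C, add_zero, map_neg,
        ← sub_eq_add_neg, ← Resid_s]
      refine Resid_R_X S _ fun y hy => ?_
      rw [map_mul, map_mul]
      simpa using (ht y hy).mul ((hχ y hy).mul (ht y hy))
    have h3 : Resid_R S 1 (χ * (Resid_s x)⁻¹) = 0 := by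
      simpa using Resid_R_C S 1 (χ * (Resid_s x)⁻¹)
    rw [mul_inv_cancel₀ (Resid_s_ne x), h2, h3, zero_add, mul_assoc,
      inv_mul_cancel₀ (Resid_s_ne x), mul_one] at h1
    exact h1.symm

end Pool.Agent.P.MP_e1a373_ag.B
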