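import Pool.Agent.P.MP_e1a373_ag.B.Op

/-!
Extension of a form to the slots of the points at infinity.
-/

open Function
open scoped Classical

set_option linter.unusedSectionVars false

noncomputable section

namespace Pool.Agent.P.MP_e1a373_ag.B

variable {I : Type} [Fintype I] {C : Curve I} (τ : Tree C) {l : ℕ} {w : I ⊕ C.V → ℕ}

/-- The point of the component `v` through which a slot is reached. -/
def Tree.loc (v : C.V) : I ⊕ C.V → ℂ := Sum.elim (τ.pos v) (τ.br v)

/-- The expansions of the function that is the polynomial `q` on `v` and constant elsewhere,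
with only the values at the marked points. -/
def Tree.uA (v : C.V) : Polynomial ℂ →ₗ[ℂ] (I ⊕ C.V → L) where
  toFun q j := pz (if j = .inr v then q else Polynomial.C (q.eval (τ.loc v j)))
  map_add' p q := by
    funext j
    by_cases hj : j = .inr v <;> simp [hj]
  map_smul' c p := by
    funext j
    by_cases hj : j = .inr v
    · simp [hj, pz_smul]
    · simp only [hj, if_false, Polynomial.eval_smul, smul_eq_mul, RingHom.id_apply,
        Pi.smul_apply]
      rw [← pz_smul, Polynomial.smul_C, smul_eq_mul]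

theorem Tree.uA_apply (v : C.V) (q : Polynomial ℂ) (j : I ⊕ C.V) :
    τ.uA v q j = pz (if j = .inr v then q else Polynomial.C (q.eval (τ.loc v j))) := rfl

theorem Tree.uA_self (v : C.V) (q : Polynomial ℂ) : τ.uA v q (.inr v) = pz q := by
  rw [τ.uA_apply, if_pos rfl]

theorem Tree.uA_ne {v : C.V} {j : I ⊕ C.V} (hj : j ≠ .inr v) (q : Polynomial ℂ) :
    τ.uA v q j = HahnSeries.C (q.eval (τ.loc v j)) := by
  rw [τ.uA_apply, if_neg hj, pz_C]

theorem Tree.uA_mul (v : C.V) (p q : Polynomial ℂ) : τ.uA v (p * q) = τ.uA v p * τ.uA v q := by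
  funext j
  by_cases hj : j = .inr v <;> simp [τ.uA_apply, hj]

theorem Tree.uA_one (v : C.V) : τ.uA v 1 = 1 := by
  funext j
  by_cases hj : j = .inr v <;> simp [τ.uA_apply, hj]

theorem Tree.uA_split (v : C.V) (q : Polynomial ℂ) (c : ℂ) :
    τ.uA v q = τ.uA v (q - Polynomial.C c) + c • 1 := by
  rw [← τ.uA_one v, ← map_smul, ← map_add]
  congr 1
  rw [Polynomial.smul_eq_C_mul]
  ring

theorem Tree.sep {u v : C.V} (huv : u ≠ v) {p q : Polynomial ℂ} (hp : p.eval (τ.br v u) = 0)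
    (hq : q.eval (τ.br u v) = 0) : τ.uA v p * τ.uA u q = 0 := by
  have aux : ∀ a b : C.V, (∀ z, z ≠ a → z ≠ b → τ.br z a = τ.br z b) → a ≠ b →
      (a = v ∨ a = u) →
      (if b = v then 0 else p.eval (τ.br v b)) * (if b = u then 0 else q.eval (τ.br u b)) = 0 := by
    intro a b hab hne ha
    rcases ha with rfl | rfl
    · by_cases hb : b = u
      · simp [hb]
      · rw [if_neg hb, ← hab u huv (Ne.symm hb), hq, mul_zero]
    · by_cases hb : b = v
      · simp [hb]
      · rw [if_neg hb, ← hab v huv.symm (Ne.symm hb), hp, zero_mul]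
  have key := τ.conn (fun a => (if a = v then 0 else p.eval (τ.br v a)) *
    (if a = u then 0 else q.eval (τ.br u a))) (by
      intro a b hab
      obtain ⟨h1, -, -, h4⟩ := τ.node a b hab
      by_cases ha : a.1 = v ∨ a.1 = u
      · rw [aux a.1 b.1 h4 h1 ha]
        rcases ha with ha | ha <;> simp [ha]
      · by_cases hb : b.1 = v ∨ b.1 = u
        · rw [aux b.1 a.1 (fun z h h' => (h4 z h' h).symm) h1.symm hb]
          rcases hb with hb | hb <;> simp [hb]
        · push Not at ha hb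
          simp only [if_neg ha.1, if_neg ha.2, if_neg hb.1, if_neg hb.2]
          rw [h4 v ha.1.symm hb.1.symm, h4 u ha.2.symm hb.2.symm])
  have key2 : ∀ a, a ≠ v → a ≠ u → p.eval (τ.br v a) * q.eval (τ.br u a) = 0 := by
    intro a h1 h2
    have := (key a).trans (key v).symm
    simpa [h1, h2] using this
  funext j
  rw [Pi.mul_apply, Pi.zero_apply]
  by_cases h1 : j = .inr v
  · subst h1
    rw [τ.uA_ne (v := u) (by simpa using huv.symm)]
    simp [Tree.loc, hq]
  · by_cases h2 : j = .inr u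
    · subst h2
      rw [τ.uA_ne h1]
      simp [Tree.loc, hp]
    · rw [τ.uA_ne h1, τ.uA_ne h2, ← map_mul]
      rcases j with i | a
      · simp only [Tree.loc, Sum.elim_inl, Tree.pos]
        by_cases h3 : (C.pt i).1 = v
        · rw [if_neg (h3 ▸ huv.symm : ¬(C.pt i).1 = u), h3, hq, mul_zero, map_zero]
        · by_cases h4 : (C.pt i).1 = u
          · rw [if_neg h3, h4, hp, zero_mul, map_zero]
          · rw [if_neg h3, if_neg h4, key2 _ h3 h4, map_zero]
      · simp only [Tree.loc, Sum.elim_inr]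
        rw [key2 a (by simpa using h1) (by simpa using h2), map_zero]

theorem Tree.OA_comm (hw : ∀ j, w j ≤ l) (hw0 : ∀ v, w (.inr v) = 0) (S T : Finset (I ⊕ C.V))
    (X Y : G) (u v : C.V) (p q : Polynomial ℂ) :
    O l w S T X (τ.uA u p) * O l w S T Y (τ.uA v q) -
      O l w S T Y (τ.uA v q) * O l w S T X (τ.uA u p) =
        -O l w S T ⁅X, Y⁆ (τ.uA u p * τ.uA v q) := by
  rw [O_comm hw, Finset.sum_eq_zero, zero_smul, sub_zero]
  · intro j _
    simp [coc_eq, τ.uA_apply, rs_pz]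
  · rintro (i | a) _ _
    · right
      rw [τ.uA_ne (by simp), τ.uA_ne (by simp)]
      exact ⟨reg_C _, reg_C _⟩
    · exact Or.inl (hw0 a)

theorem O_univ_eq {V : Type} [Fintype V] {w : I ⊕ V → ℕ} {S : Finset (I ⊕ V)} {i : I ⊕ V}
    (hi : i ∉ S) (h0 : w i = 0) (X : G) (y : I ⊕ V → L) :
    O l w S Finset.univ X y = O l w S (Finset.univ.erase i) X y := by
  rw [O_split _ i, so_neg hi, ev_zero h0]
  simp

theorem Tree.shift (hw : ∀ j, w j ≤ l) (hw0 : ∀ v, w (.inr v) = 0) (S T : Finset (I ⊕ C.V))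
    (v : C.V) (c : ℂ) {Ψ : Wf l w} (hΨ : O l w S T e 1 Ψ = 0) (n : ℕ) :
    (O l w S T e (τ.uA v Polynomial.X) ^ n) Ψ =
      (O l w S T e (τ.uA v (Polynomial.X - Polynomial.C c)) ^ n) Ψ := by
  rw [τ.uA_split v Polynomial.X c, map_add, map_smul]
  refine add_pow_apply (Commute.smul_right ?_ c) (by simp [hΨ]) n
  have := τ.OA_comm hw hw0 S T e e v v (Polynomial.X - Polynomial.C c) 1
  rw [lie_self, map_zero, LinearMap.zero_apply, neg_zero, sub_eq_zero, τ.uA_one] at this
  exact this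

theorem Tree.stepA (hw : ∀ j, w j ≤ l) (hw0 : ∀ v, w (.inr v) = 0) (S : Finset (I ⊕ C.V))
    (u : C.V) (hu : .inr u ∉ S) (Ψ : Wf l w) (h1 : ∀ X, O l w S Finset.univ X 1 Ψ = 0)
    (h2 : ∀ v, .inr v ∈ S → ∀ X q, O l w S Finset.univ X (τ.uA v q) Ψ = 0)
    (h3 : ∀ v, .inr v ∉ S → (O l w S Finset.univ e (τ.uA v Polynomial.X) ^ (l + 1)) Ψ = 0) :
    ∃ Ψ' : Wf l w, res l w Ψ' = res l w Ψ ∧
      (∀ X, O l w (insert (.inr u) S) Finset.univ X 1 Ψ' = 0) ∧
      (∀ v, .inr v ∈ insert (.inr u) S → ∀ X q,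
        O l w (insert (.inr u) S) Finset.univ X (τ.uA v q) Ψ' = 0) ∧
      ∀ v, .inr v ∉ insert (.inr u) S →
        (O l w (insert (.inr u) S) Finset.univ e (τ.uA v Polynomial.X) ^ (l + 1)) Ψ' = 0 := by
  set i : I ⊕ C.V := .inr u with hi
  set T := Finset.univ.erase i with hT
  have hwi : w i = 0 := hw0 u
  set θ := R i (pr l (w i) (vc l (w i))) Ψ with hθ
  have hpow : ∀ (X : G) (y : I ⊕ C.V → L) (n : ℕ), (O l w S T X y ^ n) Ψ = 0 →
      (O l w S T X y ^ n) θ = 0 := by
    intro X y n hn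
    rw [hθ, ← Module.End.mul_apply, ← ((R_comm_O S i X y _).pow_right n).eq,
      Module.End.mul_apply, hn, map_zero]
  have hone : ∀ X, O l w S T X 1 Ψ = 0 := fun X => by rw [← O_univ_eq hu hwi]; exact h1 X
  have hθ1 : ∀ X, O l w S T X 1 θ = 0 := fun X => by
    simpa using hpow X 1 1 (by simpa using hone X)
  obtain ⟨Λ, hΛ0, hΛ⟩ := K_lemP (hw i) (ngc (O l w S T) (τ.uA u))
    (fun X p Y q => by
      rw [ngc_mul, ngc_mul, ngc_apply, τ.uA_mul]
      exact τ.OA_comm hw hw0 S T X Y u u p q) θ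
    (by simp [ngc_apply, τ.uA_one, hθ1]) (by simp [ngc_apply, τ.uA_one, hθ1, hwi])
    (by simp [ngc_apply, τ.uA_one, hθ1, hwi])
    (by
      simp only [ngc_apply]
      rw [neg_pow_apply, map_smul, hwi, Nat.sub_zero, hpow, smul_zero]
      rw [← O_univ_eq hu hwi]
      exact h3 u hu)
  simp only [ngc_apply, LinearMap.neg_apply] at hΛ
  have kill : ∀ v, u ≠ v → ∀ (X : G) (q : Polynomial ℂ) (n : ℕ), q.eval (τ.br v u) = 0 →
      (O l w S T X (τ.uA v q) ^ n) Ψ = 0 → (O l w S T X (τ.uA v q) ^ n) ∘ₗ Λ = 0 := by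
    intro v huv X q n hq hn
    ext1 m
    refine K_ind0 hwi (τ.br u v) (LinearMap.ker ((O l w S T X (τ.uA v q) ^ n) ∘ₗ Λ)) ?_ ?_ m
    · rw [LinearMap.mem_ker, LinearMap.comp_apply, hΛ0, hpow _ _ _ hn]
    · intro Y r hr m hm
      rw [LinearMap.mem_ker, LinearMap.comp_apply] at hm ⊢
      have hc : Commute (O l w S T X (τ.uA v q)) (O l w S T Y (τ.uA u r)) := by
        have := τ.OA_comm hw hw0 S T X Y v u q r
        rw [τ.sep huv hq hr, map_zero, neg_zero, sub_eq_zero] at this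
        exact this
      rw [hΛ, map_neg, ← Module.End.mul_apply, (hc.pow_left n).eq, Module.End.mul_apply, hm,
        map_zero, neg_zero]
  have hu' : ∀ X q, O l w (insert i S) Finset.univ X (τ.uA u q) (Ext i (vc l (w i)) Λ) = 0 := by
    intro X q
    rw [O_ins_Ext, ← Ext_zero i (vc l (w i))]
    congr 1
    ext1 m
    rw [LinearMap.add_apply, LinearMap.comp_apply, LinearMap.comp_apply, τ.uA_self, hΛ]
    exact neg_add_cancel _
  have hone' : ∀ X, O l w (insert i S) Finset.univ X 1 (Ext i (vc l (w i)) Λ) = 0 := fun X => by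
    rw [← τ.uA_one u]
    exact hu' X 1
  have hz : ∀ v, u ≠ v → ∀ (X : G) (q : Polynomial ℂ), q.eval (τ.br v u) = 0 →
      O l w (insert i S) Finset.univ X (τ.uA v q) = O l w S T X (τ.uA v q) := by
    intro v huv X q hq
    rw [O_split _ i, O_insert, τ.uA_ne (by simpa [hi] using huv)]
    simp [hi, Tree.loc, hq, hT]
  refine ⟨Ext i (vc l (w i)) Λ, res_Ext hw hu (h1 f) Λ hΛ0 fun m => ?_, hone', fun v hv X q => ?_,
    fun v hv => ?_⟩
  · have := hΛ f 1 m
    rwa [map_one, τ.uA_one] at this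
  · by_cases huv : u = v
    · subst huv
      exact hu' X q
    · have hvS : .inr v ∈ S := by
        rcases Finset.mem_insert.1 hv with h | h
        · exact absurd (Sum.inr.inj h).symm huv
        · exact h
      have hq : (q - Polynomial.C (q.eval (τ.br v u))).eval (τ.br v u) = 0 := by simp
      rw [τ.uA_split v q (q.eval (τ.br v u)), map_add, map_smul, LinearMap.add_apply,
        LinearMap.smul_apply, hone', smul_zero, add_zero, hz v huv X _ hq, O_Ext]
      have := kill v huv X _ 1 hq (by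
        rw [pow_one, ← O_univ_eq hu hwi]
        exact h2 v hvS X _)
      rw [pow_one] at this
      rw [this, Ext_zero]
  · rw [Finset.mem_insert, not_or] at hv
    have huv : u ≠ v := fun h => hv.1 (h ▸ rfl)
    have hq : (Polynomial.X - Polynomial.C (τ.br v u)).eval (τ.br v u) = 0 := by simp
    rw [τ.shift hw hw0 _ _ v (τ.br v u) (hone' e), hz v huv e _ hq,
      pow_Ext _ _ (O_Ext S i e _ _), kill v huv e _ _ hq, Ext_zero]
    rw [← τ.shift hw hw0 _ _ v (τ.br v u) (hone e), ← O_univ_eq hu hwi]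
    exact h3 v hv.2

/-- The slots of the points at infinity. -/
def SQ (I V : Type) [Fintype V] : Finset (I ⊕ V) := Finset.univ.image Sum.inr

theorem Tree.stageA (hw : ∀ j, w j ≤ l) (hw0 : ∀ v, w (.inr v) = 0) (Ψ : Wf l w)
    (h1 : ∀ X, O l w ∅ Finset.univ X 1 Ψ = 0)
    (h3 : ∀ v, (O l w ∅ Finset.univ e (τ.uA v Polynomial.X) ^ (l + 1)) Ψ = 0) :
    ∃ Ψ' : Wf l w, res l w Ψ' = res l w Ψ ∧ (∀ X, O l w (SQ I C.V) Finset.univ X 1 Ψ' = 0) ∧
      ∀ v X q, O l w (SQ I C.V) Finset.univ X (τ.uA v q) Ψ' = 0 := by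
  have key : ∀ S : Finset C.V, ∃ Ψ' : Wf l w, res l w Ψ' = res l w Ψ ∧
      (∀ X, O l w (S.image .inr) Finset.univ X 1 Ψ' = 0) ∧
      (∀ v, .inr v ∈ (S.image .inr : Finset (I ⊕ C.V)) → ∀ X q,
        O l w (S.image .inr) Finset.univ X (τ.uA v q) Ψ' = 0) ∧
      ∀ v, .inr v ∉ (S.image .inr : Finset (I ⊕ C.V)) →
        (O l w (S.image .inr) Finset.univ e (τ.uA v Polynomial.X) ^ (l + 1)) Ψ' = 0 := by
    intro S
    induction S using Finset.induction_on with
    | empty => exact ⟨Ψ, rfl, h1, fun v hv => by simp at hv, fun v _ => h3 v⟩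
    | insert u S hu ih =>
      obtain ⟨Ψ1, a0, a1, a2, a3⟩ := ih
      obtain ⟨Ψ2, b0, b⟩ := τ.stepA hw hw0 (S.image .inr) u (by simpa using hu) Ψ1 a1 a2 a3
      rw [Finset.image_insert]
      exact ⟨Ψ2, b0.trans a0, b⟩
  obtain ⟨Ψ', a0, a1, a2, -⟩ := key Finset.univ
  exact ⟨Ψ', a0, a1, fun v => a2 v (by simp)⟩

/-- A tuple of polynomials that agree at the nodes is a sum of functions that are constant
outside one component. -/
theorem Tree.decomp (p : C.V → Polynomial ℂ)
    (hp : ∀ a b, C.node a b → (p a.1).eval a.2 = (p b.1).eval b.2) :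
    ∃ κ : ℂ, ∀ a, ∑ v ∈ Finset.univ.erase a, (p v).eval (τ.br v a) = κ := by
  refine ⟨_, τ.conn (fun a => ∑ v ∈ Finset.univ.erase a, (p v).eval (τ.br v a)) ?_⟩
  intro a b hab
  obtain ⟨h1, h2, h3, h4⟩ := τ.node a b hab
  rw [← Finset.add_sum_erase _ _ (show b.1 ∈ Finset.univ.erase a.1 by simp [h1.symm]),
    ← Finset.add_sum_erase _ _ (show a.1 ∈ Finset.univ.erase b.1 by simp [h1]),
    Finset.erase_right_comm (a := b.1), h2, h3, hp a b hab]
  congr 1
  refine Finset.sum_congr rfl fun v hv => ?_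
  simp only [Finset.mem_erase] at hv
  rw [h4 v hv.2.1 hv.1]

end Pool.Agent.P.MP_e1a373_ag.B
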