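import Pool.Agent.P.MP_e1a373_ag.B.StageA
import Pool.Agent.P.MP_e1a373_ag.B.Resid

/-!
Extension of a form to the slots of the marked points.
-/

open Function
open scoped Classical

set_option linter.unusedSectionVars false

noncomputable section

namespace Pool.Agent.P.MP_e1a373_ag.B

theorem expand_add (x : Option ℂ) (φ ψ : RatFunc ℂ) :
    expand x (φ + ψ) = expand x φ + expand x ψ := by
  simp only [Resid_E_eq, map_add]

theorem expand_mul (x : Option ℂ) (φ ψ : RatFunc ℂ) :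
    expand x (φ * ψ) = expand x φ * expand x ψ := by
  simp only [Resid_E_eq, map_mul]

theorem expand_one (x : Option ℂ) : expand x 1 = 1 := by
  simp only [Resid_E_eq, map_one]

theorem expand_shift (y : Option ℂ) (x : ℂ) :
    expand y (RatFunc.X - RatFunc.C x) = loc y - HahnSeries.C x := by
  rw [Resid_E_eq, map_sub, Resid_E_X, Resid_E_C]

theorem coeff_C_zero (c : ℂ) : (HahnSeries.C c : L).coeff 0 = c := by simp

theorem zero_smulL (u : L) : (0 : ℂ) • u = 0 := by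
  rw [← HahnSeries.C_mul_eq_smul, map_zero, zero_mul]

theorem one_smulL (u : L) : (1 : ℂ) • u = u := by
  rw [← HahnSeries.C_mul_eq_smul, map_one, one_mul]

theorem sub_neg_smul_one {W : Type} [AddCommGroup W] [Module ℂ W] (A : Module.End ℂ W) (c : ℂ) :
    A - (-c) • 1 = A + c • 1 := by
  rw [neg_smul, sub_neg_eq_add]

variable {I : Type} [Fintype I] {C : Curve I} (τ : Tree C) {l : ℕ} {w : I ⊕ C.V → ℕ}

/-- The expansions as a linear map. -/
def expL (C : Curve I) : (C.V → RatFunc ℂ) →ₗ[ℂ] (I ⊕ C.V → L) where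
  toFun := C.exp
  map_add' φ ψ := by
    funext j
    rcases j with j | j <;> exact expand_add _ _ _
  map_smul' c φ := by
    funext j
    rcases j with j | j <;> exact expand_smul _ _ _

theorem exp_mul (φ ψ : C.V → RatFunc ℂ) : C.exp (φ * ψ) = C.exp φ * C.exp ψ := by
  funext j
  rcases j with j | j <;> exact expand_mul _ _ _

theorem exp_one : C.exp 1 = 1 := by
  funext j
  rcases j with j | j <;> exact expand_one _

include τ in
theorem Tree.node_left {p q : C.V × ℂ} (hpq : C.node p q) : (p.1, p.2) ∉ Set.range C.pt := by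
  rintro ⟨i, hi⟩
  obtain ⟨h1, h2, -, -⟩ := τ.node p q hpq
  exact τ.off i q.1 (by rw [hi]; exact h1.symm) (by rw [hi]; exact h2)

include τ in
theorem Tree.node_right {p q : C.V × ℂ} (hpq : C.node p q) : (q.1, q.2) ∉ Set.range C.pt := by
  rintro ⟨i, hi⟩
  obtain ⟨h1, -, h2, -⟩ := τ.node p q hpq
  exact τ.off i p.1 (by rw [hi]; exact h1) (by rw [hi]; exact h2)

/-- The functions whose poles are in `S`. -/
def Tree.Fn (S : Finset (I ⊕ C.V)) : Subalgebra ℂ (C.V → RatFunc ℂ) where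
  carrier := {φ | φ ∈ C.Fn ∧ ∀ i, .inl i ∉ S → Reg 0 (C.exp φ (.inl i))}
  mul_mem' := by
    rintro φ ψ ⟨⟨a1, a2⟩, a3⟩ ⟨⟨b1, b2⟩, b3⟩
    refine ⟨⟨fun v x hx => ?_, fun p q hpq => ?_⟩, fun i hi => ?_⟩
    · rw [Pi.mul_apply, expand_mul]
      exact Reg.mul (a := 0) (b := 0) (a1 v x hx) (b1 v x hx)
    · rw [Pi.mul_apply, Pi.mul_apply, expand_mul, expand_mul]
      have h1 := Reg.coeff_mul (a := 0) (b := 0) (a1 _ _ (τ.node_left hpq))
        (b1 _ _ (τ.node_left hpq))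
      have h2 := Reg.coeff_mul (a := 0) (b := 0) (a1 _ _ (τ.node_right hpq))
        (b1 _ _ (τ.node_right hpq))
      rw [add_zero] at h1 h2
      rw [h1, h2, a2 p q hpq, b2 p q hpq]
    · rw [exp_mul]
      exact Reg.mul (a := 0) (b := 0) (a3 i hi) (b3 i hi)
  add_mem' := by
    rintro φ ψ ⟨⟨a1, a2⟩, a3⟩ ⟨⟨b1, b2⟩, b3⟩
    refine ⟨⟨fun v x hx => ?_, fun p q hpq => ?_⟩, fun i hi => ?_⟩
    · rw [Pi.add_apply, expand_add]
      exact Reg.add (N := 0) (a1 v x hx) (b1 v x hx)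
    · rw [Pi.add_apply, Pi.add_apply, expand_add, expand_add, HahnSeries.coeff_add,
        HahnSeries.coeff_add, a2 p q hpq, b2 p q hpq]
    · have : C.exp (φ + ψ) = C.exp φ + C.exp ψ := (expL C).map_add φ ψ
      rw [this]
      exact (a3 i hi).add (b3 i hi)
  algebraMap_mem' c := by
    have : ∀ v x, expand x (algebraMap ℂ (C.V → RatFunc ℂ) c v) = HahnSeries.C c :=
      fun v x => expand_C x c
    refine ⟨⟨fun v x _ => ?_, fun p q _ => ?_⟩, fun i _ => ?_⟩
    · rw [this]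
      exact reg_C c
    · rw [this, this]
    · change Reg 0 (expand _ _)
      rw [this]
      exact reg_C c

/-- The extension of a function on one component by constants. -/
def Tree.ext (v : C.V) (ψ : RatFunc ℂ) : C.V → RatFunc ℂ :=
  fun a => if a = v then ψ else RatFunc.C ((expand (some (τ.br v a)) ψ).coeff 0)

theorem Tree.ext_self (v : C.V) (ψ : RatFunc ℂ) : τ.ext v ψ v = ψ := if_pos rfl

theorem Tree.ext_ne {v a : C.V} (ha : a ≠ v) (ψ : RatFunc ℂ) (x : Option ℂ) :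
    expand x (τ.ext v ψ a) = HahnSeries.C ((expand (some (τ.br v a)) ψ).coeff 0) := by
  rw [Tree.ext, if_neg ha, expand_C]

theorem Tree.ext_mem (v : C.V) (ψ : RatFunc ℂ)
    (hψ : ∀ y, (v, y) ∉ Set.range C.pt → Reg 0 (expand (some y) ψ)) : τ.ext v ψ ∈ C.Fn := by
  refine ⟨fun a x hx => ?_, fun p q hpq => ?_⟩
  · by_cases ha : a = v
    · subst ha
      rw [τ.ext_self]
      exact hψ x hx
    · rw [τ.ext_ne ha]
      exact reg_C _
  · obtain ⟨h1, h2, h3, h4⟩ := τ.node p q hpq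
    by_cases hp : p.1 = v
    · subst hp
      rw [τ.ext_self, τ.ext_ne h1.symm, coeff_C_zero, h2]
    · by_cases hq : q.1 = v
      · subst hq
        rw [τ.ext_self, τ.ext_ne h1, coeff_C_zero, h3]
      · rw [τ.ext_ne hp, τ.ext_ne hq, h4 v (Ne.symm hp) (Ne.symm hq)]

theorem Tree.ext_pole (i : I) (ψ : RatFunc ℂ)
    (hψ : ∀ y, y ≠ (C.pt i).2 → Reg 0 (expand (some y) ψ)) :
    τ.ext (C.pt i).1 ψ ∈ C.Fn ∧
      C.exp (τ.ext (C.pt i).1 ψ) (.inl i) = expand (some (C.pt i).2) ψ ∧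
      ∀ k, k ≠ i → Reg 0 (C.exp (τ.ext (C.pt i).1 ψ) (.inl k)) := by
  refine ⟨τ.ext_mem _ _ fun y hy => hψ y fun h => hy ⟨i, by rw [h]⟩, ?_, fun k hk => ?_⟩
  · change expand _ _ = _
    rw [τ.ext_self]
  · change Reg 0 (expand _ _)
    by_cases h : (C.pt k).1 = (C.pt i).1
    · rw [h, τ.ext_self]
      exact hψ _ fun h' => hk (τ.inj (Prod.ext h h'))
    · rw [τ.ext_ne h]
      exact reg_C _

include τ in
theorem Tree.residue {φ ψ : C.V → RatFunc ℂ} (hφ : φ ∈ C.Fn) (hψ : ψ ∈ C.Fn) :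
    ∑ j, rs (C.exp φ j) (C.exp ψ j) = 0 := by
  rw [Fintype.sum_sum_type, ← Finset.sum_fiberwise Finset.univ (fun i => (C.pt i).1),
    ← Finset.sum_add_distrib]
  refine Finset.sum_eq_zero fun v _ => ?_
  have hS : ∀ x, x ∉ (Finset.univ.filter fun i => (C.pt i).1 = v).image (fun i => (C.pt i).2) →
      (v, x) ∉ Set.range C.pt := by
    rintro x hx ⟨i, hi⟩
    exact hx (Finset.mem_image.2 ⟨i, by simp [hi], by rw [hi]⟩)
  have := B.residue _ (φ v) (ψ v) (fun x hx => hφ.1 v x (hS x hx)) (fun x hx => hψ.1 v x (hS x hx))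
  rw [Finset.sum_image] at this
  · rw [← this]
    congr 1
    refine Finset.sum_congr rfl fun i hi => ?_
    rw [← (Finset.mem_filter.1 hi).2]
    rfl
  · intro i hi k hk h
    exact τ.inj (Prod.ext ((Finset.mem_filter.1 hi).2.trans (Finset.mem_filter.1 hk).2.symm) h)

theorem Tree.shift_form (v : C.V) (x : ℂ) (j : I ⊕ C.V) : ∃ α β γ : ℂ,
    C.exp (τ.ext v (RatFunc.X - RatFunc.C x)) j = α • xin + HahnSeries.C β + γ • xi := by
  rcases j with i | a
  · change ∃ α β γ : ℂ, expand _ _ = _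
    by_cases h : (C.pt i).1 = v
    · refine ⟨0, (C.pt i).2 - x, 1, ?_⟩
      rw [h, τ.ext_self, expand_shift, Resid_loc_some, map_sub, zero_smulL, one_smulL]
      ring
    · exact ⟨0, _, 0, by rw [τ.ext_ne h, zero_smulL, zero_smulL, zero_add, add_zero]⟩
  · change ∃ α β γ : ℂ, expand _ _ = _
    by_cases h : a = v
    · refine ⟨1, -x, 0, ?_⟩
      rw [h, τ.ext_self, expand_shift, Resid_loc_none, map_neg, zero_smulL, one_smulL]
      ring
    · exact ⟨0, _, 0, by rw [τ.ext_ne h, zero_smulL, zero_smulL, zero_add, add_zero]⟩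

theorem Tree.stepB (hw : ∀ j, w j ≤ l) (S : Finset (I ⊕ C.V)) (hS : ∀ v, .inr v ∈ S) (i0 : I)
    (hi : .inl i0 ∉ S) (Ψ : Wf l w)
    (hΨ : ∀ X, ∀ φ ∈ τ.Fn S, O l w S Finset.univ X (C.exp φ) Ψ = 0) :
    ∃ Ψ' : Wf l w, res l w Ψ' = res l w Ψ ∧ ∀ X, ∀ φ ∈ τ.Fn (insert (.inl i0) S),
      O l w (insert (.inl i0) S) Finset.univ X (C.exp φ) Ψ' = 0 := by
  set i : I ⊕ C.V := .inl i0 with hi0
  set T := Finset.univ.erase i with hT
  set θ := R i (pr l (w i) (vc l (w i))) Ψ with hθ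
  have h1 : ∀ X, O l w S Finset.univ X 1 Ψ = 0 := fun X => by
    rw [← exp_one]
    exact hΨ X 1 (one_mem _)
  have hpole : ∀ ψ : RatFunc ℂ, (∀ y, y ≠ (C.pt i0).2 → Reg 0 (expand (some y) ψ)) →
      τ.ext (C.pt i0).1 ψ ∈ τ.Fn (insert i S) := fun ψ hψ =>
    ⟨(τ.ext_pole i0 ψ hψ).1, fun k hk => (τ.ext_pole i0 ψ hψ).2.2 k fun h =>
      hk (by rw [h]; exact Finset.mem_insert_self _ _)⟩
  have hreg : ∀ φ : τ.Fn (insert i S), ∀ j ∈ T, j ∉ S → Reg 0 (C.exp φ j) := by
    rintro φ (k | v) hj hjS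
    · exact φ.2.2 k (by simp [hjS, Finset.ne_of_mem_erase hj])
    · exact absurd (hS v) hjS
  have hg : ∀ y, Reg 0 (expand (some y) (RatFunc.X - RatFunc.C (C.pt i0).2)) := fun y => by
    rw [expand_shift]
    exact (Resid_loc_reg y).sub (reg_C _)
  let t : τ.Fn (insert i S) →ₗ[ℂ] (I ⊕ C.V → L) := expL C ∘ₗ (τ.Fn (insert i S)).val.toLinearMap
  have ht : ∀ φ, t φ = C.exp φ := fun φ => rfl
  have ht1 : t 1 = 1 := exp_one
  have hr1 : ∀ X, ngc (O l w S T) t X 1 θ = R i (pr l (w i) (ac l (w i) X 1 (vc l (w i)))) Ψ := by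
    intro X
    rw [ngc_apply, ht1, LinearMap.neg_apply, hθ, O_pr hi (h1 X), ev_eq (hw i) X vac_mem]
  obtain ⟨Λ, hΛ0, hΛ⟩ := K_compl (hw i) (A := τ.Fn (insert i S)) (LinearMap.proj i ∘ₗ t)
    (congrFun exp_one i) (fun φ ψ => congrFun (exp_mul φ.1 ψ.1) i)
    (fun u N => by
      obtain ⟨ψ, h1, h2⟩ := dense (C.pt i0).2 u N
      refine ⟨⟨_, hpole ψ h1⟩, ?_⟩
      rw [← (τ.ext_pole i0 ψ h1).2.1] at h2
      exact h2)
    (ngc (O l w S T) t)
    (fun X φ Y ψ => by
      rw [ngc_mul, ngc_mul, ngc_apply, O_comm hw S T X Y (t φ) (t ψ)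
        fun j hj hjS => Or.inr ⟨hreg φ j hj hjS, hreg ψ j hj hjS⟩]
      have e1 : t (φ * ψ) = t φ * t ψ := exp_mul φ.1 ψ.1
      have e2 : (∑ j ∈ T, if j ∈ S then (l : ℂ) * coc X (t φ j) Y (t ψ j) else 0) =
          -(l * coc X (t φ i) Y (t ψ i)) := by
        have e3 := τ.residue φ.2.1 ψ.2.1
        rw [← Finset.add_sum_erase _ _ (Finset.mem_univ i)] at e3
        rw [coc_eq, ht, ht, eq_neg_of_add_eq_zero_left e3]
        simp only [mul_neg, neg_neg, Finset.mul_sum]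
        refine Finset.sum_congr rfl fun j hj => ?_
        split_ifs with hjS
        · rfl
        · rw [rs_reg_zero (hreg φ j hj hjS) (hreg ψ j hj hjS), mul_zero, mul_zero]
      rw [e1, e2]
      exact sub_neg_smul_one _ _)
    ⟨_, hpole _ fun y _ => hg y⟩
    (by
      have := (τ.ext_pole i0 _ fun y _ => hg y).2.1
      rw [expand_shift, Resid_loc_some, add_sub_cancel_left] at this
      exact this)
    (fun z hz => by
      refine R_nil T (fun j => so l (w j) (j ∈ S) f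
        (C.exp (τ.ext (C.pt i0).1 (RatFunc.X - RatFunc.C (C.pt i0).2)) j)) (fun j _ m => ?_) z hz
      by_cases hj : j ∈ S
      · obtain ⟨α, β, γ, h⟩ := τ.shift_form (C.pt i0).1 (C.pt i0).2 j
        rw [so_pos hj, h]
        exact K_nil α β γ m
      · rw [so_neg hj]
        exact ev_f_nil (hw j) _ m)
    θ
    (fun X φ hφ => by
      have hφ' : Reg 1 (C.exp φ i) := hφ
      have := hΨ X φ ⟨φ.2.1, fun k hk => by
        by_cases hki : k = i0
        · subst hki
          exact hφ'.mono (by norm_num)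
        · exact φ.2.2 k (by simp [hk, hi0, hki])⟩
      rw [O_split _ i, so_neg hi, hφ' 0 (by norm_num), zero_smul, map_zero, zero_add] at this
      rw [ngc_apply, LinearMap.neg_apply, hθ, O_R_apply, ht, this, map_zero, neg_zero])
    (by rw [hr1, (ac_hw l (w i)).e, pr_zero, map_zero, LinearMap.zero_apply])
    (by rw [hr1, (ac_hw l (w i)).h, pr_smul, map_smul, LinearMap.smul_apply])
    (by
      rw [ngc_apply, ht1, hθ, O_pr_pow hw hi (h1 f), fv_eq_zero (Nat.lt_succ_self _), pr_zero,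
        map_zero, LinearMap.zero_apply])
  have hΛ' : ∀ X (φ : τ.Fn (insert i S)) m,
      Λ (ac l (w i) X (C.exp φ i) m) = -O l w S T X (C.exp φ) (Λ m) := hΛ
  refine ⟨Ext i (vc l (w i)) Λ, res_Ext hw hi (h1 f) Λ hΛ0 fun m => ?_, fun X φ hφ => ?_⟩
  · have := hΛ' f 1 m
    rwa [OneMemClass.coe_one, exp_one] at this
  · rw [O_ins_Ext, ← Ext_zero i (vc l (w i))]
    congr 1
    ext1 m
    rw [LinearMap.add_apply, LinearMap.comp_apply, LinearMap.comp_apply, hΛ' X ⟨φ, hφ⟩]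
    exact neg_add_cancel _

theorem Tree.baseB (Ψ : Wf l w) (h1 : ∀ X, O l w (SQ I C.V) Finset.univ X 1 Ψ = 0)
    (h2 : ∀ v X q, O l w (SQ I C.V) Finset.univ X (τ.uA v q) Ψ = 0) (X : G)
    (φ : C.V → RatFunc ℂ) (hφ : φ ∈ τ.Fn (SQ I C.V)) :
    O l w (SQ I C.V) Finset.univ X (C.exp φ) Ψ = 0 := by
  have hp : ∀ v, ∃ p : Polynomial ℂ, φ v = algebraMap _ _ p := fun v =>
    exists_poly _ fun x => by
      by_cases hx : (v, x) ∈ Set.range C.pt
      · obtain ⟨i, hi⟩ := hx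
        have := hφ.2 i (by simp [SQ])
        simpa [Curve.exp, hi] using this
      · exact hφ.1.1 v x hx
  choose p hp using hp
  obtain ⟨κ, hκ⟩ := τ.decomp p fun a b hab => by
    have := hφ.1.2 a b hab
    rwa [hp, hp, expand_poly_coeff, expand_poly_coeff] at this
  have : O l w (SQ I C.V) Finset.univ X (C.exp φ) =
      O l w (SQ I C.V) Finset.univ X (∑ v, τ.uA v (p v) - κ • 1) := by
    refine O_congr X ?_ ?_
    · rintro (i | a) _ hj
      · simp [SQ] at hj
      · rw [Pi.sub_apply, Finset.sum_apply, ← Finset.add_sum_erase _ _ (Finset.mem_univ a),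
          τ.uA_self, Finset.sum_congr rfl fun v hv => τ.uA_ne (v := v) (j := .inr a)
            (by simpa using (Finset.ne_of_mem_erase hv).symm) (p v), ← map_sum]
        simp only [Tree.loc, Sum.elim_inr, hκ a, Pi.smul_apply, Pi.one_apply, C_eq_smul,
          add_sub_cancel_right]
        change expand _ _ = _
        rw [hp, expand_none_poly]
    · rintro (i | a) _ hj
      · right
        rw [Pi.sub_apply, Finset.sum_apply, Finset.sum_congr rfl fun v _ =>
          τ.uA_ne (v := v) (j := .inl i) (by simp) (p v), ← map_sum, Pi.smul_apply, Pi.one_apply,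
          ← C_eq_smul, ← map_sub, coeff_C_zero,
          ← Finset.add_sum_erase _ _ (Finset.mem_univ (C.pt i).1), ← hκ (C.pt i).1]
        change (expand _ _).coeff 0 = _
        rw [hp, expand_poly_coeff, Finset.sum_congr rfl (g := fun v => (p v).eval (τ.br v (C.pt i).1))
          fun v hv => by
            simp only [Tree.loc, Sum.elim_inl, Tree.pos, if_neg (Finset.ne_of_mem_erase hv).symm]]
        simp [Tree.loc, Tree.pos]
      · simp [SQ] at hj
  rw [this, map_sub, map_sum, map_smul, LinearMap.sub_apply, LinearMap.sum_apply,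
    LinearMap.smul_apply, h1, Finset.sum_eq_zero fun v _ => h2 v X (p v), smul_zero, sub_zero]

theorem Tree.stageB (hw : ∀ j, w j ≤ l) (Ψ : Wf l w)
    (h1 : ∀ X, O l w (SQ I C.V) Finset.univ X 1 Ψ = 0)
    (h2 : ∀ v X q, O l w (SQ I C.V) Finset.univ X (τ.uA v q) Ψ = 0) :
    ∃ Ψ' : Wf l w, res l w Ψ' = res l w Ψ ∧
      ∀ X, ∀ φ ∈ C.Fn, O l w Finset.univ Finset.univ X (C.exp φ) Ψ' = 0 := by
  have key : ∀ T : Finset (I ⊕ C.V), ∃ Ψ' : Wf l w, res l w Ψ' = res l w Ψ ∧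
      ∀ X, ∀ φ ∈ τ.Fn (T ∪ SQ I C.V), O l w (T ∪ SQ I C.V) Finset.univ X (C.exp φ) Ψ' = 0 := by
    intro T
    induction T using Finset.induction_on with
    | empty =>
      rw [Finset.empty_union]
      exact ⟨Ψ, rfl, τ.baseB Ψ h1 h2⟩
    | insert j T _ ih =>
      rw [Finset.insert_union]
      by_cases hj : j ∈ T ∪ SQ I C.V
      · rwa [Finset.insert_eq_of_mem hj]
      · obtain ⟨Ψ1, a0, a1⟩ := ih
        rcases j with i | v
        · obtain ⟨Ψ2, b0, b1⟩ := τ.stepB hw _ (fun v => by simp [SQ]) i hj Ψ1 a1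
          exact ⟨Ψ2, b0.trans a0, b1⟩
        · simp [SQ] at hj
  obtain ⟨Ψ', a0, a1⟩ := key Finset.univ
  rw [Finset.union_eq_left.2 (Finset.subset_univ _)] at a1
  exact ⟨Ψ', a0, fun X φ hφ => a1 X φ ⟨hφ, fun i hi => absurd (Finset.mem_univ _) hi⟩⟩

end Pool.Agent.P.MP_e1a373_ag.B
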