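import Pool.Agent.P.MP_e1a373_ag.B.Ind
import Pool.Agent.P.MP_e1a373_ag.B.Nil
import Pool.Agent.P.MP_e1a373_ag.B.Compl

/-!
A type synonym for the integrable modules with short instances.
-/

noncomputable section

namespace Pool.Agent.P.MP_e1a373_ag.B

/-- The integrable module. -/
def K (l a : ℕ) : Type := H l a

instance (l a : ℕ) : AddCommGroup (K l a) := inferInstanceAs (AddCommGroup (H l a))

instance (l a : ℕ) : Module ℂ (K l a) := inferInstanceAs (Module ℂ (H l a))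

/-- The action of the currents. -/
def ac (l a : ℕ) : G →ₗ[ℂ] L →ₗ[ℂ] Module.End ℂ (K l a) := act l a

/-- The highest weight vector. -/
def vc (l a : ℕ) : K l a := vac l a

/-- The basis vectors of the finite dimensional part. -/
def fk (l a k : ℕ) : K l a := (ac l a f 1 ^ k) (vc l a)

variable {l a : ℕ}

theorem ac_rep (l a : ℕ) : IsRep l (ac l a) := act_rep l a

theorem ac_hw (l a : ℕ) : IsHW a (ac l a) (vc l a) := act_hw l a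

theorem ac_f (l a : ℕ) : (ac l a f 1 ^ (a + 1)) (vc l a) = 0 := act_f l a

theorem ac_E (l a : ℕ) : (ac l a e xin ^ (l - a + 1)) (vc l a) = 0 := act_E l a

theorem K_ind (U : Submodule ℂ (K l a)) (h0 : vc l a ∈ U)
    (hs : ∀ X q, ∀ m ∈ U, ac l a X (pz q) m ∈ U) (m : K l a) : m ∈ U := H_ind U h0 hs m

theorem K_ind0 (ha : a = 0) (x : ℂ) (U : Submodule ℂ (K l a)) (h0 : vc l a ∈ U)
    (hs : ∀ X (q : Polynomial ℂ), q.eval x = 0 → ∀ m ∈ U, ac l a X (pz q) m ∈ U) (m : K l a) :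
    m ∈ U := by
  subst ha
  exact H_ind0 x U h0 hs m

theorem K_nil (α β γ : ℂ) (m : K l a) :
    ∃ n : ℕ, (ac l a f (α • xin + HahnSeries.C β + γ • xi) ^ n) m = 0 := nil_f l a α β γ m

theorem K_lemP (hal : a ≤ l) {D : Type} [AddCommGroup D] [Module ℂ D]
    (ρ : G →ₗ[ℂ] Polynomial ℂ →ₗ[ℂ] Module.End ℂ D)
    (hρ : ∀ X p Y q, ρ X p * ρ Y q - ρ Y q * ρ X p = ρ ⁅X, Y⁆ (p * q)) (φ : D)
    (he : ρ e 1 φ = 0) (hh : ρ h 1 φ = (a : ℂ) • φ) (hf : (ρ f 1 ^ (a + 1)) φ = 0)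
    (hE : (ρ e Polynomial.X ^ (l - a + 1)) φ = 0) :
    ∃ Λ : K l a →ₗ[ℂ] D, Λ (vc l a) = φ ∧
      ∀ X q m, Λ (ac l a X (pz q) m) = ρ X q (Λ m) := lemP hal ρ hρ φ he hh hf hE

theorem K_dual (hal : a ≤ l) : ∃ ε : ℕ → K l a →ₗ[ℂ] ℂ,
    ∀ k ≤ a, ∀ m, ε k (fk l a m) = if k = m then 1 else 0 := exists_dual hal

theorem K_compl (hal : a ≤ l) {A W : Type} [CommRing A] [Algebra ℂ A] [AddCommGroup W]
    [Module ℂ W] (τ : A →ₗ[ℂ] L) (h1 : τ 1 = 1) (hm : ∀ φ ψ, τ (φ * ψ) = τ φ * τ ψ)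
    (hd : ∀ u N, ∃ φ, Reg N (τ φ - u)) (r : G →ₗ[ℂ] A →ₗ[ℂ] Module.End ℂ W)
    (hr : ∀ X φ Y ψ, r X φ * r Y ψ - r Y ψ * r X φ =
      r ⁅X, Y⁆ (φ * ψ) + (l * coc X (τ φ) Y (τ ψ)) • 1)
    (g : A) (hg : τ g = xi) (hnil : ∀ w : W, (∀ n : ℕ, ∃ w', w = (r f g ^ n) w') → w = 0)
    (θ : W) (hpos : ∀ X φ, Reg 1 (τ φ) → r X φ θ = 0) (he : r e 1 θ = 0)
    (hh : r h 1 θ = (a : ℂ) • θ) (hf : (r f 1 ^ (a + 1)) θ = 0) :
    ∃ Λ : K l a →ₗ[ℂ] W, Λ (vc l a) = θ ∧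
      ∀ X φ m, Λ (ac l a X (τ φ) m) = r X φ (Λ m) :=
  compl hal τ h1 hm hd r hr g hg hnil θ hpos he hh hf

theorem fk_eq (k : ℕ) : fk l a k = (cur f 1 ^ k • vac l a : H l a) := act_pow f 1 k (vac l a)

end Pool.Agent.P.MP_e1a373_ag.B
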