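import Pool.Agent.P.MP_e1a373_ag.B.StageB

/-!
The space of vacua of a tree of projective lines in terms of the finite dimensional modules.
-/

open Function
open scoped Classical

set_option linter.unusedSectionVars false

noncomputable section

namespace Pool.Agent.P.MP_e1a373_ag.B

variable {I : Type} [Fintype I] {C : Curve I} (τ : Tree C) {l : ℕ} {w : I ⊕ C.V → ℕ}

theorem O_one (hw0 : ∀ v, w (.inr v) = 0) (X : G) : O l w ∅ Finset.univ X 1 =
    ∑ i, (fun _ => (1 : ℂ)) i • R (.inl i) (ev l (w (.inl i)) X) := by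
  rw [O_empty hw0]
  simp

theorem Tree.O_X (hw0 : ∀ v, w (.inr v) = 0) (v : C.V) :
    O l w ∅ Finset.univ e (τ.uA v Polynomial.X) =
      ∑ i, τ.pos v i • R (.inl i) (ev l (w (.inl i)) e) := by
  rw [O_empty hw0]
  refine Finset.sum_congr rfl fun i _ => ?_
  rw [τ.uA_ne (by simp), coeff_C_zero, Polynomial.eval_X]
  rfl

theorem res_sum_e (hw : ∀ j, w j ≤ l) (hw0 : ∀ v, w (.inr v) = 0) (Ψ : Wf l w) :
    res l w (O l w ∅ Finset.univ e 1 Ψ) = (∑ i, eS (fun i => w (.inl i)) i) (res l w Ψ) := by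
  rw [O_one hw0]
  simp only [one_smul, LinearMap.sum_apply, map_sum, res_e hw]

theorem res_sum_f (hw : ∀ j, w j ≤ l) (hw0 : ∀ v, w (.inr v) = 0) (Ψ : Wf l w) :
    res l w (O l w ∅ Finset.univ f 1 Ψ) = (∑ i, fS i) (res l w Ψ) := by
  rw [O_one hw0]
  simp only [one_smul, LinearMap.sum_apply, map_sum, res_f hw]

theorem Tree.surj (hw : ∀ j, w j ≤ l) (hw0 : ∀ v, w (.inr v) = 0) (c : (I → ℕ) → ℂ)
    (hc : c ∈ Blk l (fun i => w (.inl i)) (Set.range τ.pos)) : ∃ Ψ : Wf l w, res l w Ψ = c ∧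
      ∀ X, ∀ φ ∈ C.Fn, O l w Finset.univ Finset.univ X (C.exp φ) Ψ = 0 := by
  obtain ⟨c1, c2, c3, c4⟩ := hc
  obtain ⟨Ψ0, rfl, h0⟩ := exists_base hw c c1
  have hp : ∀ X j, R j (prj l (w j)) (O l w ∅ Finset.univ X 1 Ψ0) =
      O l w ∅ Finset.univ X 1 Ψ0 := fun X j => by
    have := prj_O hw (fun _ => 1) X 1 h0 j
    rwa [pow_one, ← O_one hw0] at this
  have he : O l w ∅ Finset.univ e 1 Ψ0 = 0 :=
    eq_zero_of_res hw0 (hp e) ((res_sum_e hw hw0 Ψ0).trans c2)
  have hf : O l w ∅ Finset.univ f 1 Ψ0 = 0 :=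
    eq_zero_of_res hw0 (hp f) ((res_sum_f hw hw0 Ψ0).trans c3)
  have hh : O l w ∅ Finset.univ h 1 Ψ0 = 0 := by
    have := LinearMap.congr_fun (O_comm hw ∅ Finset.univ e f 1 1
      fun j _ _ => Or.inr ⟨reg_one, reg_one⟩) Ψ0
    simpa [he, hf, lie_e_f] using this
  obtain ⟨Ψ1, a0, a1, a2⟩ := τ.stageA hw hw0 Ψ0 (fun X => by
      obtain ⟨α, β, γ, rfl⟩ := exists_coord X
      simp [he, hf, hh])
    (fun v => by
      rw [τ.O_X hw0]
      exact eq_zero_of_res hw0 (prj_O hw _ e _ h0) ((res_O_e hw _ _ Ψ0).trans (c4 _ ⟨v, rfl⟩)))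
  obtain ⟨Ψ2, b0, b1⟩ := τ.stageB hw Ψ1 a1 a2
  exact ⟨Ψ2, b0.trans a0, b1⟩

theorem Tree.exp_poly (v : C.V) (q : Polynomial ℂ) :
    τ.ext v (algebraMap _ _ q) ∈ C.Fn ∧ C.exp (τ.ext v (algebraMap _ _ q)) (.inr v) = pz q ∧
      ∀ j, j ≠ .inr v → Reg 0 (C.exp (τ.ext v (algebraMap _ _ q)) j) ∧
        (C.exp (τ.ext v (algebraMap _ _ q)) j).coeff 0 = q.eval (τ.loc v j) := by
  refine ⟨τ.ext_mem _ _ fun y _ => expand_poly_reg y q, ?_, ?_⟩
  · change expand _ _ = _
    rw [τ.ext_self, expand_none_poly]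
  · rintro (i | a) hj
    · change Reg 0 (expand _ _) ∧ (expand _ _).coeff 0 = q.eval (τ.pos v i)
      by_cases h : (C.pt i).1 = v
      · rw [h, τ.ext_self, Tree.pos, if_pos h]
        exact ⟨expand_poly_reg _ q, expand_poly_coeff _ q⟩
      · rw [τ.ext_ne h, Tree.pos, if_neg h, coeff_C_zero]
        exact ⟨reg_C _, expand_poly_coeff _ q⟩
    · change Reg 0 (expand _ _) ∧ (expand _ _).coeff 0 = q.eval (τ.br v a)
      rw [τ.ext_ne (by simpa using hj), coeff_C_zero]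
      exact ⟨reg_C _, expand_poly_coeff _ q⟩

theorem Tree.upper (hw : ∀ j, w j ≤ l) (hw0 : ∀ v, w (.inr v) = 0) (Ψ : Wf l w)
    (hΨ : ∀ X, ∀ φ ∈ C.Fn, O l w Finset.univ Finset.univ X (C.exp φ) Ψ = 0) :
    res l w Ψ ∈ Blk l (fun i => w (.inl i)) (Set.range τ.pos) := by
  have h1 : ∀ X, res l w (O l w ∅ Finset.univ X 1 Ψ) = 0 := fun X => by
    funext k
    rw [res_apply, O_eval_eq hw ∅ X 1 Ψ _ fun j _ => ⟨bv_mem k j, reg_one⟩, ← exp_one,
      hΨ X 1 (one_mem (τ.Fn ∅)).1]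
    rfl
  refine ⟨res_supp Ψ, (res_sum_e hw hw0 Ψ).symm.trans (h1 e),
    (res_sum_f hw hw0 Ψ).symm.trans (h1 f), ?_⟩
  rintro _ ⟨v, rfl⟩
  rw [← res_O_e hw, ← τ.O_X hw0]
  set i : I ⊕ C.V := .inr v with hi
  set A := O l w ∅ Finset.univ e (τ.uA v Polynomial.X) with hA
  set E := R (M := fun j => K l (w j)) i (ac l (w i) e xin) with hE
  have hA' : A = O l w ∅ (Finset.univ.erase i) e (τ.uA v Polynomial.X) :=
    O_univ_eq (by simp) (hw0 v) _ _
  have hc : Commute E A := hA' ▸ R_comm_O ∅ i e _ _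
  let N : Submodule ℂ (Wf l w) :=
    { carrier := {Φ | ∀ u : ∀ j, K l (w j), (∀ j, j ≠ i → u j ∈ FV l (w j)) → Φ u = 0}
      zero_mem' := fun _ _ => rfl
      add_mem' := fun {a b} ha hb u hu => by rw [_root_.add_apply, ha u hu, hb u hu, add_zero]
      smul_mem' := fun c a ha u hu => by rw [_root_.smul_apply, ha u hu, smul_zero] }
  have hNE : ∀ Φ ∈ N, E Φ ∈ N := fun Φ hΦ u hu => by
    rw [hE, R_apply]
    exact hΦ _ fun j hj => by rw [update_of_ne hj]; exact hu j hj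
  have hNA : ∀ Φ ∈ N, A Φ ∈ N := fun Φ hΦ u hu => by
    rw [hA, O_eval]
    refine Finset.sum_eq_zero fun k _ => hΦ _ fun j hj => ?_
    by_cases hjk : j = k
    · subst hjk
      rw [update_self, so_neg (by simp)]
      exact Submodule.smul_mem _ _ (ev_mem _ _)
    · rw [update_of_ne hjk]
      exact hu j hj
  have hNA' : ∀ n, ∀ Φ ∈ N, (A ^ n) Φ ∈ N := fun n Φ hΦ => by
    induction n with
    | zero => exact hΦ
    | succ n ih => rw [pow_succ']; exact hNA _ ih
  obtain ⟨p1, p2, p3⟩ := τ.exp_poly v Polynomial.X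
  have h0 : A Ψ + E Ψ ∈ N := fun u hu => by
    have e1 := O_eval_eq hw {i} e _ Ψ u fun j hj =>
      ⟨hu j (by simpa using hj), (p3 j (by simpa using hj)).1⟩
    rw [hΨ e _ p1, O_split _ i, so_pos (Finset.mem_singleton_self i), p2, pz_X,
      ← Finset.insert_empty, O_insert, O_congr (u' := τ.uA v Polynomial.X) e
        (fun j _ hj => by simp at hj) (fun j hj _ => Or.inr (by
          rw [(p3 j (Finset.ne_of_mem_erase hj)).2, τ.uA_ne (Finset.ne_of_mem_erase hj),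
            coeff_C_zero])), ← hA'] at e1
    rw [add_comm]
    exact e1
  have key : ∀ n, (A ^ n) Ψ - ((-1 : ℂ) ^ n) • (E ^ n) Ψ ∈ N := fun n => by
    induction n with
    | zero => simp
    | succ n ih =>
      have e1 : (A ^ n) (E Ψ) = E ((A ^ n) Ψ) :=
        (LinearMap.congr_fun (hc.pow_right n).eq Ψ).symm
      have : (A ^ (n + 1)) Ψ - ((-1 : ℂ) ^ (n + 1)) • (E ^ (n + 1)) Ψ =
          (A ^ n) (A Ψ + E Ψ) - E ((A ^ n) Ψ - ((-1 : ℂ) ^ n) • (E ^ n) Ψ) := by
        rw [map_add, map_sub, map_smul, e1, pow_succ A, pow_succ' E, pow_succ (-1 : ℂ),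
          Module.End.mul_apply, Module.End.mul_apply, mul_neg_one, neg_smul]
        abel
      rw [this]
      exact sub_mem (hNA' n _ h0) (hNE _ ih)
  funext k
  have e1 := key (l + 1) (bv l w k) fun j _ => bv_mem k j
  have e2 : (E ^ (l + 1)) Ψ (bv l w k) = 0 := by
    rw [hE, R_pow, R_apply]
    have := ac_E l (w i)
    rw [show l - w i + 1 = l + 1 by rw [hw0 v, Nat.sub_zero]] at this
    change Ψ (update _ _ ((ac l (w i) e xin ^ (l + 1)) (vc l (w i)))) = 0
    rw [this, Ψ.map_update_zero]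
  rw [_root_.sub_apply, _root_.smul_apply, e2, smul_zero, sub_zero] at e1
  exact e1

include τ in
theorem Tree.exists_fn (i : I ⊕ C.V) (q : Polynomial ℂ) :
    ∃ φ ∈ C.Fn, C.exp φ i = pz q ∧ ∀ j, j ≠ i → Reg 0 (C.exp φ j) := by
  rcases i with i | v
  · obtain ⟨ψ, h1, h2, h3⟩ := exists_pole (C.pt i).2 q
    obtain ⟨p1, p2, p3⟩ := τ.ext_pole i ψ h2
    refine ⟨_, p1, p2.trans h1, ?_⟩
    rintro (k | a) hj
    · exact p3 k (by simpa using hj)
    · change Reg 0 (expand _ _)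
      by_cases h : a = (C.pt i).1
      · rw [h, τ.ext_self]
        exact h3
      · rw [τ.ext_ne h]
        exact reg_C _
  · obtain ⟨p1, p2, p3⟩ := τ.exp_poly v q
    exact ⟨_, p1, p2, fun j hj => (p3 j hj).1⟩

include τ in
theorem Tree.inj_res (hw0 : ∀ v, w (.inr v) = 0) (Ψ : Wf l w)
    (hΨ : ∀ X, ∀ φ ∈ C.Fn, O l w Finset.univ Finset.univ X (C.exp φ) Ψ = 0)
    (h0 : res l w Ψ = 0) : Ψ = 0 := by
  have key : ∀ S : Finset (I ⊕ C.V), ∀ u : ∀ j, K l (w j), (∀ j ∉ S, u j ∈ FV l (w j)) →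
      Ψ u = 0 := by
    intro S
    induction S using Finset.induction_on with
    | empty => exact fun u hu => van_of_res hw0 h0 u fun j => hu j (by simp)
    | insert i S hi ih =>
      let U : Submodule ℂ (K l (w i)) :=
        { carrier := {m | ∀ u : ∀ j, K l (w j), (∀ j ∉ insert i S, u j ∈ FV l (w j)) →
            Ψ (update u i m) = 0}
          zero_mem' := fun u _ => Ψ.map_update_zero u i
          add_mem' := fun {a b} ha hb u hu => by
            rw [Ψ.map_update_add, ha u hu, hb u hu, add_zero]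
          smul_mem' := fun c a ha u hu => by rw [Ψ.map_update_smul, ha u hu, smul_zero] }
      have hU : ∀ m, m ∈ U := by
        refine K_ind U (fun u hu => ih _ fun j hj => ?_) fun X q m hm u hu => ?_
        · by_cases hji : j = i
          · subst hji
            rw [update_self]
            exact vac_mem
          · rw [update_of_ne hji]
            exact hu j (by simp [hji, hj])
        · obtain ⟨φ, p1, p2, p3⟩ := τ.exists_fn i q
          have e1 := O_eval Finset.univ Finset.univ X (C.exp φ) Ψ (update u i m)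
          rw [hΨ X φ p1, ← Finset.add_sum_erase _ _ (Finset.mem_univ i), Finset.sum_eq_zero,
            add_zero, update_idem, update_self, so_pos (Finset.mem_univ i), p2] at e1
          · exact e1.symm
          · intro j hj
            have hji := Finset.ne_of_mem_erase hj
            rw [update_comm hji.symm, update_of_ne hji, so_pos (Finset.mem_univ j)]
            refine hm _ fun k hk => ?_
            by_cases hkj : k = j
            · subst hkj
              rw [update_self, act_reg X (p3 k hji) (hu k hk)]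
              exact Submodule.smul_mem _ _ (act_one_mem X (hu k hk))
            · rw [update_of_ne hkj]
              exact hu k hk
      intro u hu
      simpa using hU (u i) u hu
  ext u
  exact key Finset.univ u fun j hj => absurd (Finset.mem_univ j) hj

theorem mem_vacua {lam : I → ℕ} (Ψ : Wf l (Sum.elim lam 0 : I ⊕ C.V → ℕ)) :
    Ψ ∈ Vacua l lam C ↔
      ∀ X, ∀ φ ∈ C.Fn, O l (Sum.elim lam 0) Finset.univ Finset.univ X (C.exp φ) Ψ = 0 := by
  refine forall_congr' fun X => forall₂_congr fun φ _ => ?_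
  rw [MultilinearMap.ext_iff]
  refine forall_congr' fun u => ?_
  rw [O_eval]
  simp only [so_pos (Finset.mem_univ _)]
  exact Iff.rfl

theorem restr_eq {lam : I → ℕ} (Ψ : Wf l (Sum.elim lam 0 : I ⊕ C.V → ℕ)) :
    restr (C := C) Ψ = res l (Sum.elim lam 0) Ψ := by
  funext k
  exact congrArg Ψ (funext fun j => (fk_eq _).symm)

theorem Tree.thmA (lam : I → ℕ) (hl : ∀ i, lam i ≤ l) :
    Set.BijOn restr (Vacua l lam C) (Blk l lam (Set.range τ.pos)) := by
  have hw : ∀ j : I ⊕ C.V, (Sum.elim lam 0 j : ℕ) ≤ l := by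
    rintro (i | v)
    · exact hl i
    · exact Nat.zero_le l
  have hw0 : ∀ v : C.V, (Sum.elim lam 0 (Sum.inr v : I ⊕ C.V) : ℕ) = 0 := fun _ => rfl
  refine ⟨fun Ψ hΨ => ?_, fun Ψ hΨ Ψ' hΨ' h => ?_, fun c hc => ?_⟩
  · rw [restr_eq]
    exact τ.upper hw hw0 Ψ ((mem_vacua Ψ).1 hΨ)
  · rw [restr_eq, restr_eq] at h
    have key : ∀ Φ Φ' : Wf l (Sum.elim lam 0 : I ⊕ C.V → ℕ), Φ ∈ Vacua l lam C →
        Φ' ∈ Vacua l lam C → res l _ Φ = res l _ Φ' → Φ = Φ' := by
      intro Φ Φ' h1 h2 h3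
      refine sub_eq_zero.1 (τ.inj_res hw0 _ (fun X φ hφ => ?_) ?_)
      · rw [map_sub, (mem_vacua Φ).1 h1 X φ hφ, (mem_vacua Φ').1 h2 X φ hφ, sub_zero]
      · rw [map_sub, h3, sub_self]
    exact key Ψ Ψ' hΨ hΨ' h
  · obtain ⟨Ψ, h1, h2⟩ := τ.surj hw hw0 c hc
    exact ⟨Ψ, (mem_vacua Ψ).2 h2, (restr_eq Ψ).trans h1⟩

end Pool.Agent.P.MP_e1a373_ag.B
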